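import Pool.Agent.H52.TC.Stm

/-! TC-ANA: Cauchy products; the tails are integers. -/

set_option autoImplicit false

namespace Pool.Agent.H52.TC

open Finset

namespace AnaAux

theorem hs_congr {f g : ℕ → ℝ} {a : ℝ} (h : HasSum f a) (hfg : ∀ n, f n = g n) : HasSum g a := by
  rwa [show g = f from funext fun n => (hfg n).symm]

theorem E1_cube (ε : ℕ → ℤ) (n : ℕ) : E1 ε (n ^ 3) = ε n := by
  unfold E1
  rw [Finset.sum_eq_single n]
  · rw [if_pos rfl]
  · intro u _ hu
    rw [if_neg]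
    intro h
    exact hu (Nat.pow_left_injective (n := 3) (by norm_num) h)
  · intro h
    exfalso
    apply h
    rw [Finset.mem_range]
    have := Nat.le_self_pow (n := 3) (by norm_num) n
    omega

theorem E1_not (ε : ℕ → ℤ) (m : ℕ) (h : m ∉ Set.range fun n : ℕ => n ^ 3) : E1 ε m = 0 := by
  unfold E1
  refine Finset.sum_eq_zero fun u _ => ?_
  rw [if_neg]
  intro h1
  exact h ⟨u, h1⟩

theorem E1_nonneg {ε : ℕ → ℤ} (h : ∀ n, 0 ≤ ε n) (m : ℕ) : 0 ≤ E1 ε m := by
  unfold E1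
  refine Finset.sum_nonneg fun u _ => ?_
  split_ifs
  · exact h u
  · exact le_rfl

/-- Cauchy products with the weights `b ^ (-m)` -/
theorem cauchy (b : ℕ) (hb : 2 ≤ b) (f g : ℕ → ℤ) {x y : ℝ} (hf : HasSum (fun m => (f m : ℝ) / (b : ℝ) ^ m) x)
    (hg : HasSum (fun m => (g m : ℝ) / (b : ℝ) ^ m) y) (hfn : ∀ m, 0 ≤ f m) (hgn : ∀ m, 0 ≤ g m) :
    HasSum (fun m => ((∑ ij ∈ antidiagonal m, f ij.1 * g ij.2 : ℤ) : ℝ) / (b : ℝ) ^ m) (x * y) := by
  have hb0 : (0 : ℝ) < b := by exact_mod_cast (by omega : 0 < b)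
  have nf : Summable fun m => ‖(f m : ℝ) / (b : ℝ) ^ m‖ := by
    refine hf.summable.congr fun m => ?_
    have : (0 : ℝ) ≤ f m := by exact_mod_cast hfn m
    rw [Real.norm_of_nonneg (by positivity)]
  have ng : Summable fun m => ‖(g m : ℝ) / (b : ℝ) ^ m‖ := by
    refine hg.summable.congr fun m => ?_
    have : (0 : ℝ) ≤ g m := by exact_mod_cast hgn m
    rw [Real.norm_of_nonneg (by positivity)]
  have h1 := tsum_mul_tsum_eq_tsum_sum_antidiagonal_of_summable_norm nf ng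
  have h2 := (summable_norm_sum_mul_antidiagonal_of_summable_norm nf ng).of_norm
  rw [hf.tsum_eq, hg.tsum_eq] at h1
  have h3 := h2.hasSum
  rw [← h1] at h3
  refine hs_congr h3 fun m => ?_
  push_cast
  rw [Finset.sum_div]
  refine Finset.sum_congr rfl fun ij hij => ?_
  rw [Finset.HasAntidiagonal.mem_antidiagonal] at hij
  rw [div_mul_div_comm, ← pow_add, hij]

end AnaAux

open AnaAux

theorem ana : S_ANA := by
  intro b hb ε C hε a0 a1 a2 a3 x hx hroot
  have hb0 : (0 : ℝ) < b := by exact_mod_cast (by omega : 0 < b)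
  have hb2 : (2 : ℝ) ≤ b := by exact_mod_cast hb
  have hε0 : ∀ n, 0 ≤ ε n := fun n => by linarith [(hε n).1]
  -- the first sum
  have s1 : Summable fun n : ℕ => (ε n : ℝ) / (b : ℝ) ^ (n ^ 3) := by
    have hg : Summable fun n : ℕ => (C : ℝ) * (1 / 2 : ℝ) ^ n :=
      (summable_geometric_of_lt_one (by norm_num) (by norm_num)).mul_left _
    refine hg.of_nonneg_of_le (fun n => ?_) fun n => ?_
    · have : (0 : ℝ) ≤ ε n := by exact_mod_cast hε0 n
      positivity
    · have h1 : (ε n : ℝ) ≤ C := by exact_mod_cast (hε n).2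
      have h0 : (0 : ℝ) ≤ ε n := by exact_mod_cast hε0 n
      have h2 : (2 : ℝ) ^ n ≤ (b : ℝ) ^ (n ^ 3) :=
        calc (2 : ℝ) ^ n ≤ (b : ℝ) ^ n := pow_le_pow_left₀ (by norm_num) hb2 n
          _ ≤ (b : ℝ) ^ (n ^ 3) := pow_le_pow_right₀ (by linarith) (Nat.le_self_pow (n := 3) (by norm_num) n)
      rw [one_div, inv_pow, ← div_eq_mul_inv]
      exact div_le_div₀ (h0.trans h1) h1 (by positivity) h2
  have f1 : HasSum (fun m => (E1 ε m : ℝ) / (b : ℝ) ^ m) x := by
    have hinj : Function.Injective fun n : ℕ => n ^ 3 := Nat.pow_left_injective (n := 3) (by norm_num)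
    rw [← hinj.hasSum_iff]
    · have h2 := s1.hasSum
      rw [← hx] at h2
      refine hs_congr h2 fun n => ?_
      simp only [Function.comp_apply]
      rw [E1_cube]
    · intro m hm
      rw [E1_not ε m hm]
      simp
  have n1 : ∀ m, 0 ≤ E1 ε m := E1_nonneg hε0
  have n2 : ∀ m, 0 ≤ E2 ε m := fun m => Finset.sum_nonneg fun ij _ => mul_nonneg (n1 _) (n1 _)
  have f2 : HasSum (fun m => (E2 ε m : ℝ) / (b : ℝ) ^ m) (x * x) := cauchy b hb _ _ f1 f1 n1 n1
  have f3 : HasSum (fun m => (E3 ε m : ℝ) / (b : ℝ) ^ m) (x * x * x) := cauchy b hb _ _ f2 f1 n2 n1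
  have f : HasSum (fun m => (F ε a1 a2 a3 m : ℝ) / (b : ℝ) ^ m) (-(a0 : ℝ)) := by
    have h := ((f3.mul_left (a3 : ℝ)).add (f2.mul_left (a2 : ℝ))).add (f1.mul_left (a1 : ℝ))
    have e : (a3 : ℝ) * (x * x * x) + a2 * (x * x) + a1 * x = -(a0 : ℝ) := by
      linear_combination hroot
    rw [e] at h
    refine hs_congr h fun m => ?_
    unfold F
    push_cast
    ring
  set T : ℕ → ℤ := fun M => -a0 * (b : ℤ) ^ M - ∑ m ∈ range (M + 1), F ε a1 a2 a3 m * (b : ℤ) ^ (M - m) with hT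
  refine ⟨T, fun M => ?_, fun M => ?_⟩
  · simp only [hT]
    rw [Finset.sum_range_succ _ (M + 1), Nat.sub_self, pow_zero, mul_one]
    have e1 : ∑ m ∈ range (M + 1), F ε a1 a2 a3 m * (b : ℤ) ^ (M + 1 - m) =
        b * ∑ m ∈ range (M + 1), F ε a1 a2 a3 m * (b : ℤ) ^ (M - m) := by
      rw [Finset.mul_sum]
      refine Finset.sum_congr rfl fun m hm => ?_
      rw [Finset.mem_range] at hm
      have : M + 1 - m = (M - m) + 1 := by omega
      rw [this, pow_succ]; ring
    rw [e1, pow_succ]; ring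
  · have h1 := (hasSum_nat_add_iff' (M + 1)).2 f
    have h2 := h1.mul_left ((b : ℝ) ^ M)
    have e1 : (b : ℝ) ^ M * (-(a0 : ℝ) - ∑ i ∈ range (M + 1), (F ε a1 a2 a3 i : ℝ) / (b : ℝ) ^ i) = (T M : ℝ) := by
      simp only [hT]
      push_cast
      rw [mul_sub, Finset.mul_sum]
      congr 1
      · ring
      · refine Finset.sum_congr rfl fun m hm => ?_
        rw [Finset.mem_range] at hm
        have e2 : (b : ℝ) ^ M = (b : ℝ) ^ (M - m) * (b : ℝ) ^ m := by rw [← pow_add]; congr 1; omega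
        rw [e2]
        field_simp
    rw [e1] at h2
    refine hs_congr h2 fun i => ?_
    have e3 : i + (M + 1) = M + 1 + i := by ring
    rw [e3]
    have e4 : (b : ℝ) ^ (M + 1 + i) = (b : ℝ) ^ M * (b : ℝ) ^ (i + 1) := by rw [← pow_add]; congr 1; ring
    rw [e4]
    field_simp

end Pool.Agent.H52.TC
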