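import Pool.Agent.H52.TC.Stm5
import Pool.Agent.H52.TC.ANA

/-! TC-ANAQ: Cauchy products; the tails are integers (degree four). -/

set_option autoImplicit false

namespace Pool.Agent.H52.TC

open Finset

open AnaAux

theorem anaQ : S_ANAQ := by
  intro b hb ε C hε a0 a1 a2 a3 a4 x hx hroot
  have hb0 : (0 : ℝ) < b := by exact_mod_cast (by omega : 0 < b)
  have hb2 : (2 : ℝ) ≤ b := by exact_mod_cast hb
  have hε0 : ∀ n, 0 ≤ ε n := fun n => (hε n).1
  -- the first sum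
  have s1 : Summable fun n : ℕ => (ε n : ℝ) / (b : ℝ) ^ n := by
    have hg : Summable fun n : ℕ => (C : ℝ) * (1 / 2 : ℝ) ^ n :=
      (summable_geometric_of_lt_one (by norm_num) (by norm_num)).mul_left _
    refine hg.of_nonneg_of_le (fun n => ?_) fun n => ?_
    · have : (0 : ℝ) ≤ ε n := by exact_mod_cast hε0 n
      positivity
    · have h1 : (ε n : ℝ) ≤ C := by exact_mod_cast (hε n).2
      have h0 : (0 : ℝ) ≤ ε n := by exact_mod_cast hε0 n
      have h2 : (2 : ℝ) ^ n ≤ (b : ℝ) ^ n := pow_le_pow_left₀ (by norm_num) hb2 n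
      rw [one_div, inv_pow, ← div_eq_mul_inv]
      exact div_le_div₀ (h0.trans h1) h1 (by positivity) h2
  have f1 : HasSum (fun m => (ε m : ℝ) / (b : ℝ) ^ m) x := by
    have h2 := s1.hasSum
    rw [← hx] at h2
    exact h2
  have n1 : ∀ m, 0 ≤ ε m := hε0
  have n2 : ∀ m, 0 ≤ G2 ε m := fun m => Finset.sum_nonneg fun ij _ => mul_nonneg (n1 _) (n1 _)
  have f2 : HasSum (fun m => (G2 ε m : ℝ) / (b : ℝ) ^ m) (x * x) := cauchy b hb _ _ f1 f1 n1 n1
  have n3 : ∀ m, 0 ≤ G3 ε m := fun m => Finset.sum_nonneg fun ij _ => mul_nonneg (n2 _) (n1 _)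
  have f3 : HasSum (fun m => (G3 ε m : ℝ) / (b : ℝ) ^ m) (x * x * x) := cauchy b hb _ _ f2 f1 n2 n1
  have f4 : HasSum (fun m => (G4 ε m : ℝ) / (b : ℝ) ^ m) (x * x * x * x) :=
    cauchy b hb _ _ f3 f1 n3 n1
  have f : HasSum (fun m => (FQ ε a1 a2 a3 a4 m : ℝ) / (b : ℝ) ^ m) (-(a0 : ℝ)) := by
    have h := (((f4.mul_left (a4 : ℝ)).add (f3.mul_left (a3 : ℝ))).add (f2.mul_left (a2 : ℝ))).add
      (f1.mul_left (a1 : ℝ))
    have e : (a4 : ℝ) * (x * x * x * x) + a3 * (x * x * x) + a2 * (x * x) + a1 * x = -(a0 : ℝ) := by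
      linear_combination hroot
    rw [e] at h
    refine hs_congr h fun m => ?_
    unfold FQ
    push_cast
    ring
  set T : ℕ → ℤ := fun M => -a0 * (b : ℤ) ^ M - ∑ m ∈ range (M + 1), FQ ε a1 a2 a3 a4 m * (b : ℤ) ^ (M - m) with hT
  refine ⟨T, fun M => ?_, fun M => ?_⟩
  · simp only [hT]
    rw [Finset.sum_range_succ _ (M + 1), Nat.sub_self, pow_zero, mul_one]
    have e1 : ∑ m ∈ range (M + 1), FQ ε a1 a2 a3 a4 m * (b : ℤ) ^ (M + 1 - m) =
        b * ∑ m ∈ range (M + 1), FQ ε a1 a2 a3 a4 m * (b : ℤ) ^ (M - m) := by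
      rw [Finset.mul_sum]
      refine Finset.sum_congr rfl fun m hm => ?_
      rw [Finset.mem_range] at hm
      have : M + 1 - m = (M - m) + 1 := by omega
      rw [this, pow_succ]; ring
    rw [e1, pow_succ]; ring
  · have h1 := (hasSum_nat_add_iff' (M + 1)).2 f
    have h2 := h1.mul_left ((b : ℝ) ^ M)
    have e1 : (b : ℝ) ^ M * (-(a0 : ℝ) - ∑ i ∈ range (M + 1), (FQ ε a1 a2 a3 a4 i : ℝ) / (b : ℝ) ^ i) = (T M : ℝ) := by
      simp only [hT]
      push_cast
      rw [mul_sub, Finset.mul_sum]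
      congr 1
      · ring
      · refine Finset.sum_congr rfl fun m hm => ?_
        rw [Finset.mem_range] at hm
        have e2 : (b : ℝ) ^ M = (b : ℝ) ^ (M - m) * (b : ℝ) ^ m := by rw [← pow_add]; congr 1; omega
        rw [e2]
        field_simp
    rw [e1] at h2
    refine hs_congr h2 fun i => ?_
    have e3 : i + (M + 1) = M + 1 + i := by ring
    rw [e3]
    have e4 : (b : ℝ) ^ (M + 1 + i) = (b : ℝ) ^ M * (b : ℝ) ^ (i + 1) := by rw [← pow_add]; congr 1; ring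
    rw [e4]
    field_simp

end Pool.Agent.H52.TC
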