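import Pool.Agent.H52.TC.Stm2

/-! TC-CNT: number of cubes and sums of two cubes -/

set_option autoImplicit false

namespace Pool.Agent.H52.TC

open Finset

theorem cnt (h : S_SUP2) : S_CNT := by
  classical
  intro ε C hε s X hX
  obtain ⟨-, h1, -, -, -, h2, -⟩ := h ε C hε
  have hlt : ∀ u m : ℕ, u ^ 3 ≤ m → m < X → u < s + 1 := by
    intro u m hu hm
    by_contra hc
    push Not at hc
    have := Nat.pow_le_pow_left hc 3
    omega
  have hsub : (range X).filter (fun m => E1 ε m ≠ 0 ∨ E2 ε m ≠ 0) ⊆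
      (range (s + 1)).image (fun u => u ^ 3) ∪
      ((range (s + 1)) ×ˢ (range (s + 1))).image (fun t => t.1 ^ 3 + t.2 ^ 3) := by
    intro m hm
    obtain ⟨hmX, hm2⟩ := Finset.mem_filter.1 hm
    have hmX' := Finset.mem_range.1 hmX
    rcases hm2 with hm2 | hm2
    · obtain ⟨u, hu, _⟩ := h1 m hm2
      exact Finset.mem_union_left _ (Finset.mem_image.2
        ⟨u, Finset.mem_range.2 (hlt u m hu.ge hmX'), hu.symm⟩)
    · obtain ⟨i, j, hij, hi, hj⟩ := h2 m hm2
      obtain ⟨u, hu, _⟩ := h1 i hi
      obtain ⟨v, hv, _⟩ := h1 j hj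
      refine Finset.mem_union_right _ (Finset.mem_image.2 ⟨(u, v), ?_, ?_⟩)
      · refine Finset.mem_product.2 ⟨Finset.mem_range.2 (hlt u m ?_ hmX'),
          Finset.mem_range.2 (hlt v m ?_ hmX')⟩
        · omega
        · omega
      · simp only; omega
  refine (Finset.card_le_card hsub).trans ((Finset.card_union_le _ _).trans ?_)
  have e1 : ((range (s + 1)).image (fun u => u ^ 3)).card ≤ s + 1 :=
    Finset.card_image_le.trans (by rw [Finset.card_range])
  have e2 : (((range (s + 1)) ×ˢ (range (s + 1))).image (fun t => t.1 ^ 3 + t.2 ^ 3)).card ≤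
      (s + 1) * (s + 1) :=
    Finset.card_image_le.trans (by rw [Finset.card_product, Finset.card_range])
  nlinarith

end Pool.Agent.H52.TC
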