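import Pool.Agent.H52.TC.Stm4

/-! TC-CNT4: number of places and sums of two places, at one scale -/

set_option autoImplicit false

namespace Pool.Agent.H52.TC

open Finset

theorem cnt4 (h : S_SUP3) : S_CNT4 := by
  classical
  intro e C he s X hoff hX
  obtain ⟨-, -, -, h2, -⟩ := h e C he
  set P := (range X).filter (fun m => e m ≠ 0) with hP
  have hPc : P.card ≤ 2 * s := by
    have hsub : P ⊆ (range s).image (fun u => u ^ 3) ∪
        (range (s ^ 3 + 1)).filter (fun m => e m ≠ 0 ∧ ∀ u : ℕ, u ^ 3 ≠ m) := by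
      intro m hm
      rw [hP, Finset.mem_filter, Finset.mem_range] at hm
      by_cases hc : ∃ u : ℕ, u ^ 3 = m
      · obtain ⟨u, hu⟩ := hc
        refine Finset.mem_union_left _ (Finset.mem_image.2 ⟨u, Finset.mem_range.2 ?_, hu⟩)
        by_contra hcon
        push Not at hcon
        have := Nat.pow_le_pow_left hcon 3
        omega
      · push Not at hc
        refine Finset.mem_union_right _ (Finset.mem_filter.2 ⟨Finset.mem_range.2 (by omega), hm.2, hc⟩)
    refine (Finset.card_le_card hsub).trans ((Finset.card_union_le _ _).trans ?_)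
    have e1 : ((range s).image (fun u => u ^ 3)).card ≤ s :=
      Finset.card_image_le.trans (by rw [Finset.card_range])
    have e2 : ((range (s ^ 3 + 1)).filter (fun m => e m ≠ 0 ∧ ∀ u : ℕ, u ^ 3 ≠ m)).card ≤ s := by
      have := hoff
      unfold off at this
      convert this
    omega
  have hsub : (range X).filter (fun m => e m ≠ 0 ∨ G2 e m ≠ 0) ⊆
      P ∪ (P ×ˢ P).image (fun t => t.1 + t.2) := by
    intro m hm
    obtain ⟨hmX, hm2⟩ := Finset.mem_filter.1 hm
    have hmX' := Finset.mem_range.1 hmX
    rcases hm2 with hm2 | hm2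
    · exact Finset.mem_union_left _ (Finset.mem_filter.2 ⟨hmX, hm2⟩)
    · obtain ⟨i, j, hij, hi, hj⟩ := h2 m hm2
      refine Finset.mem_union_right _ (Finset.mem_image.2 ⟨(i, j), ?_, hij.symm⟩)
      refine Finset.mem_product.2 ⟨Finset.mem_filter.2 ⟨Finset.mem_range.2 ?_, hi⟩,
          Finset.mem_filter.2 ⟨Finset.mem_range.2 ?_, hj⟩⟩
      · show i < X
        omega
      · show j < X
        omega
  have e3 : ((P ×ˢ P).image (fun t => t.1 + t.2)).card ≤ P.card * P.card :=
    Finset.card_image_le.trans (by rw [Finset.card_product])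
  have e4 : ((range X).filter (fun m => e m ≠ 0 ∨ G2 e m ≠ 0)).card ≤ P.card + P.card * P.card :=
    (Finset.card_le_card hsub).trans ((Finset.card_union_le _ _).trans (by omega))
  have e5 : P.card * P.card ≤ (2 * s) * (2 * s) := Nat.mul_le_mul hPc hPc
  calc _ ≤ P.card + P.card * P.card := by convert e4
    _ ≤ 2 * s + (2 * s) * (2 * s) := by omega
    _ ≤ 8 * (s + 1) ^ 2 := by nlinarith

end Pool.Agent.H52.TC
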