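import Pool.Agent.H52.TC.Stm5

/-! TCQ-CNT: number of fourth powers and sums of two or three fourth powers -/

set_option autoImplicit false

namespace Pool.Agent.H52.TC

open Finset

theorem cntQ : S_SUPQ → S_CNTQ := by
  classical
  intro h e C he hs4 s X hX
  obtain ⟨-, -, -, -, h2, h3, -⟩ := h e C he
  have hlt : ∀ u m : ℕ, u ^ 4 ≤ m → m < X → u < s + 1 := by
    intro u m hu hm
    by_contra hc
    push Not at hc
    have := Nat.pow_le_pow_left hc 4
    omega
  have hsub : (range X).filter (fun m => e m ≠ 0 ∨ G2 e m ≠ 0 ∨ G3 e m ≠ 0) ⊆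
      (range (s + 1)).image (fun u => u ^ 4) ∪
      (((range (s + 1)) ×ˢ (range (s + 1))).image (fun t => t.1 ^ 4 + t.2 ^ 4) ∪
      ((range (s + 1)) ×ˢ (range (s + 1)) ×ˢ (range (s + 1))).image
        (fun t => t.1 ^ 4 + t.2.1 ^ 4 + t.2.2 ^ 4)) := by
    intro m hm
    obtain ⟨hmX, hm2⟩ := Finset.mem_filter.1 hm
    have hmX' := Finset.mem_range.1 hmX
    rcases hm2 with hm2 | hm2 | hm2
    · obtain ⟨u, hu⟩ := hs4 m hm2
      exact Finset.mem_union_left _ (Finset.mem_image.2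
        ⟨u, Finset.mem_range.2 (hlt u m hu.le hmX'), hu⟩)
    · obtain ⟨i, j, hij, hi, hj⟩ := h2 m hm2
      obtain ⟨u, hu⟩ := hs4 i hi
      obtain ⟨v, hv⟩ := hs4 j hj
      refine Finset.mem_union_right _ (Finset.mem_union_left _ (Finset.mem_image.2 ⟨(u, v), ?_, ?_⟩))
      · refine Finset.mem_product.2 ⟨Finset.mem_range.2 (hlt u m ?_ hmX'),
          Finset.mem_range.2 (hlt v m ?_ hmX')⟩
        · omega
        · omega
      · simp only; omega
    · obtain ⟨i, j, hij, hi, hj⟩ := h3 m hm2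
      obtain ⟨i1, i2, hi12, hi1, hi2⟩ := h2 i hi
      obtain ⟨u, hu⟩ := hs4 i1 hi1
      obtain ⟨v, hv⟩ := hs4 i2 hi2
      obtain ⟨w, hw⟩ := hs4 j hj
      refine Finset.mem_union_right _ (Finset.mem_union_right _
        (Finset.mem_image.2 ⟨(u, v, w), ?_, ?_⟩))
      · refine Finset.mem_product.2 ⟨Finset.mem_range.2 (hlt u m ?_ hmX'),
          Finset.mem_product.2 ⟨Finset.mem_range.2 (hlt v m ?_ hmX'),
            Finset.mem_range.2 (hlt w m ?_ hmX')⟩⟩
        · omega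
        · omega
        · omega
      · simp only; omega
  have e1 : ((range (s + 1)).image (fun u => u ^ 4)).card ≤ s + 1 :=
    Finset.card_image_le.trans (by rw [Finset.card_range])
  have e2 : (((range (s + 1)) ×ˢ (range (s + 1))).image (fun t => t.1 ^ 4 + t.2 ^ 4)).card ≤
      (s + 1) * (s + 1) :=
    Finset.card_image_le.trans (by rw [Finset.card_product, Finset.card_range])
  have e3 : (((range (s + 1)) ×ˢ (range (s + 1)) ×ˢ (range (s + 1))).image
      (fun t => t.1 ^ 4 + t.2.1 ^ 4 + t.2.2 ^ 4)).card ≤ (s + 1) * ((s + 1) * (s + 1)) :=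
    Finset.card_image_le.trans (by rw [Finset.card_product, Finset.card_product, Finset.card_range])
  have e4 : (s + 1) * (s + 1) ≤ (s + 1) * ((s + 1) * (s + 1)) :=
    Nat.mul_le_mul_left _ (Nat.le_mul_of_pos_left _ (Nat.succ_pos s))
  have e5 : s + 1 ≤ (s + 1) * (s + 1) := Nat.le_mul_of_pos_left _ (Nat.succ_pos s)
  have e6 : (s + 1) * ((s + 1) * (s + 1)) = (s + 1) ^ 3 := by ring
  have e7 := Finset.card_le_card hsub
  have e8 := Finset.card_union_le ((range (s + 1)).image (fun u => u ^ 4))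
    (((range (s + 1)) ×ˢ (range (s + 1))).image (fun t => t.1 ^ 4 + t.2 ^ 4) ∪
      ((range (s + 1)) ×ˢ (range (s + 1)) ×ˢ (range (s + 1))).image
        (fun t => t.1 ^ 4 + t.2.1 ^ 4 + t.2.2 ^ 4))
  have e9 := Finset.card_union_le
    (((range (s + 1)) ×ˢ (range (s + 1))).image (fun t => t.1 ^ 4 + t.2 ^ 4))
    (((range (s + 1)) ×ˢ (range (s + 1)) ×ˢ (range (s + 1))).image
        (fun t => t.1 ^ 4 + t.2.1 ^ 4 + t.2.2 ^ 4))
  omega

end Pool.Agent.H52.TC
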