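import Pool.Agent.H52.TC.DIG4

set_option autoImplicit false

namespace Pool.Agent.H52.TC

open Finset Polynomial

/-- a relation of degree exactly three for `B * x`, from a polynomial of degree `≤ 3` -/
theorem relation_mul (x : ℝ) (P : ℤ[X]) (hP : P ≠ 0) (hdeg : P.natDegree ≤ 3)
    (h0 : aeval x P = 0) (B : ℕ) :
    ∃ a0 a1 a2 a3 : ℤ, 1 ≤ a3 ∧ ∀ y : ℝ, y = B * x →
      a3 * y ^ 3 + a2 * y ^ 2 + a1 * y + a0 = 0 := by
  set Q : ℤ[X] := P * X ^ (3 - P.natDegree) with hQ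
  have hQ0 : aeval x Q = 0 := by rw [hQ, map_mul, h0, zero_mul]
  have hQd : Q.natDegree = 3 := by
    rw [hQ, natDegree_mul_X_pow _ hP]; omega
  have hQl : Q.coeff 3 ≠ 0 := by
    rw [← hQd]
    exact leadingCoeff_ne_zero.2 (mul_ne_zero hP (pow_ne_zero _ X_ne_zero))
  have hexp : aeval x Q = (Q.coeff 0 : ℝ) + Q.coeff 1 * x +
      Q.coeff 2 * x ^ 2 + Q.coeff 3 * x ^ 3 := by
    rw [aeval_eq_sum_range' (n := 4) (by omega)]
    simp [Finset.sum_range_succ]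
  rw [hexp] at hQ0
  rcases lt_or_gt_of_ne hQl with h | h
  · refine ⟨-Q.coeff 0 * B ^ 3, -Q.coeff 1 * B ^ 2, -Q.coeff 2 * B, -Q.coeff 3, by omega, ?_⟩
    intro y hy
    rw [hy]
    push_cast
    linear_combination (-(B : ℝ) ^ 3) * hQ0
  · refine ⟨Q.coeff 0 * B ^ 3, Q.coeff 1 * B ^ 2, Q.coeff 2 * B, Q.coeff 3, by omega, ?_⟩
    intro y hy
    rw [hy]
    push_cast
    linear_combination ((B : ℝ) ^ 3) * hQ0

theorem coef_all (hfin : S_FIN4) (hthk : S_THK) (b : ℕ) (hb : 2 ≤ b) (d : ℕ → ℤ) (C : ℤ)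
    (hd : ∀ m, 0 ≤ d m ∧ d m ≤ C) (hx : Irrational (∑' m : ℕ, (d m : ℝ) / (b : ℝ) ^ m))
    (P : ℤ[X]) (hP : P ≠ 0) (hdeg : P.natDegree ≤ 3)
    (h0 : aeval (∑' m : ℕ, (d m : ℝ) / (b : ℝ) ^ m) P = 0) (H : ℕ) :
    ∃ c : ℝ, 0 < c ∧ ∃ N0 : ℕ, ∀ N : ℕ, N0 ≤ N →
      c * (N : ℝ) ^ ((1 : ℝ) / 3) ≤ offH H d N := by
  obtain ⟨e, C', he, hoff, hsum⟩ := hthk b hb H d C hd
  have hB : (b ^ H : ℕ) ≠ 0 := by positivity
  obtain ⟨a0, a1, a2, a3, ha3, hrel⟩ := relation_mul _ P hP hdeg h0 (b ^ H)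
  have hirr : Irrational (∑' m : ℕ, (e m : ℝ) / (b : ℝ) ^ m) := by
    rw [hsum]
    have h2 := hx.natCast_mul hB
    have h3 : ((b ^ H : ℕ) : ℝ) = (b : ℝ) ^ H := by push_cast; rfl
    rwa [h3] at h2
  obtain ⟨η, hη, s0, hs0⟩ := hfin b hb e C' he a0 a1 a2 a3 ha3 _ rfl hirr
    (hrel _ (by rw [hsum]; push_cast; rfl))
  refine ⟨η / 2, by positivity, (s0 + 2) ^ 3, fun N hN => ?_⟩
  obtain ⟨s, hs1, hs2⟩ : ∃ s : ℕ, s ^ 3 ≤ N ∧ N < (s + 1) ^ 3 := by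
    have hex : ∃ t : ℕ, N < (t + 1) ^ 3 := ⟨N, lt_of_lt_of_le (Nat.lt_succ_self N)
      (Nat.le_self_pow (by norm_num) _)⟩
    refine ⟨Nat.find hex, ?_, Nat.find_spec hex⟩
    rcases Nat.eq_zero_or_pos (Nat.find hex) with h | h
    · rw [h]; simp
    · have := Nat.find_min hex (m := Nat.find hex - 1) (by omega)
      rw [not_lt, Nat.sub_add_cancel h] at this
      exact this
  have hss : s0 + 1 ≤ s := by
    by_contra hlt
    have : (s + 1) ^ 3 ≤ (s0 + 2) ^ 3 := Nat.pow_le_pow_left (by omega) 3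
    omega
  have h1 := hs0 s (by omega)
  have h2 : (off e (s ^ 3) : ℝ) ≤ offH H d N := by
    exact_mod_cast (hoff (s ^ 3)).trans (offH_mono H _ hs1)
  have h3 : (N : ℝ) ^ ((1 : ℝ) / 3) ≤ s + 1 := by
    have h4 : (N : ℝ) ≤ ((s : ℝ) + 1) ^ 3 := by exact_mod_cast hs2.le
    calc (N : ℝ) ^ ((1 : ℝ) / 3) ≤ (((s : ℝ) + 1) ^ 3) ^ ((1 : ℝ) / 3) := by gcongr
      _ = s + 1 := by
        rw [← Real.rpow_natCast, ← Real.rpow_mul (by positivity)]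
        norm_num
  have hs1R : (1 : ℝ) ≤ s := by
    have : 1 ≤ s := by omega
    exact_mod_cast this
  calc η / 2 * (N : ℝ) ^ ((1 : ℝ) / 3) ≤ η / 2 * (s + 1) := by gcongr
    _ ≤ η / 2 * (s + s) := by gcongr
    _ = η * s := by ring
    _ ≤ off e (s ^ 3) := h1.le
    _ ≤ _ := h2

end Pool.Agent.H52.TC
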