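import Pool.Agent.H52.TC.Stm5

set_option autoImplicit false

namespace Pool.Agent.H52.TC

open Finset

private theorem crtQ_mod (m a b c d : ℕ) :
    (a % m) ^ 4 + (b % m) ^ 4 + (c % m) ^ 4 + (d % m) ^ 4 ≡ a ^ 4 + b ^ 4 + c ^ 4 + d ^ 4 [MOD m] := by
  have h : ∀ x : ℕ, (x % m) ^ 4 ≡ x ^ 4 [MOD m] := fun x => (Nat.mod_modEq x m).pow 4
  exact (((h a).add (h b)).add (h c)).add (h d)

private theorem crtQ_eq_of_mod {q p a b : ℕ} (hqp : Nat.Coprime q p) (ha : a < q * p) (hb : b < q * p)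
    (h1 : a % q = b % q) (h2 : a % p = b % p) : a = b := by
  have h : a ≡ b [MOD q * p] := (Nat.modEq_and_modEq_iff_modEq_mul hqp).1 ⟨h1, h2⟩
  exact Nat.ModEq.eq_of_lt_of_lt h ha hb

theorem crtQ : S_CRTQ := by
  constructor
  · intro q p n hq hp hqp
    unfold rhoQ
    rw [← Finset.card_product]
    refine Finset.card_bij
      (fun t _ => ((t.1 % q, t.2.1 % q, t.2.2.1 % q, t.2.2.2 % q),
        (t.1 % p, t.2.1 % p, t.2.2.1 % p, t.2.2.2 % p))) ?_ ?_ ?_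
    · rintro ⟨a, b, c, d⟩ ht
      simp only [mem_filter, mem_product, mem_range] at ht ⊢
      obtain ⟨⟨ha, hb, hc, hd⟩, h⟩ := ht
      have h12 := (Nat.modEq_and_modEq_iff_modEq_mul hqp).2 h
      exact ⟨⟨⟨Nat.mod_lt _ hq, Nat.mod_lt _ hq, Nat.mod_lt _ hq, Nat.mod_lt _ hq⟩,
          (crtQ_mod q a b c d).trans h12.1⟩,
        ⟨⟨Nat.mod_lt _ hp, Nat.mod_lt _ hp, Nat.mod_lt _ hp, Nat.mod_lt _ hp⟩,
          (crtQ_mod p a b c d).trans h12.2⟩⟩
    · rintro ⟨a, b, c, d⟩ ht ⟨a', b', c', d'⟩ ht' heq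
      simp only [mem_filter, mem_product, mem_range] at ht ht'
      simp only [Prod.mk.injEq] at heq
      obtain ⟨⟨e1, e2, e3, e4⟩, ⟨f1, f2, f3, f4⟩⟩ := heq
      have g1 := crtQ_eq_of_mod hqp ht.1.1 ht'.1.1 e1 f1
      have g2 := crtQ_eq_of_mod hqp ht.1.2.1 ht'.1.2.1 e2 f2
      have g3 := crtQ_eq_of_mod hqp ht.1.2.2.1 ht'.1.2.2.1 e3 f3
      have g4 := crtQ_eq_of_mod hqp ht.1.2.2.2 ht'.1.2.2.2 e4 f4
      rw [g1, g2, g3, g4]
    · rintro ⟨⟨a, b, c, d⟩, ⟨a', b', c', d'⟩⟩ ht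
      simp only [mem_filter, mem_product, mem_range] at ht
      obtain ⟨⟨⟨ha, hb, hc, hd⟩, h⟩, ⟨⟨ha', hb', hc', hd'⟩, h'⟩⟩ := ht
      have key : ∀ x y : ℕ, x < q → y < p → ∃ z : ℕ, z < q * p ∧ z % q = x ∧ z % p = y := by
        intro x y hx hy
        let z := Nat.chineseRemainder hqp x y
        refine ⟨z.1, Nat.chineseRemainder_lt_mul hqp x y hq.ne' hp.ne', ?_, ?_⟩
        · have := z.2.1
          rw [Nat.ModEq, Nat.mod_eq_of_lt hx] at this
          exact this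
        · have := z.2.2
          rw [Nat.ModEq, Nat.mod_eq_of_lt hy] at this
          exact this
      obtain ⟨u, hu, hu1, hu2⟩ := key a a' ha ha'
      obtain ⟨v, hv, hv1, hv2⟩ := key b b' hb hb'
      obtain ⟨w, hw, hw1, hw2⟩ := key c c' hc hc'
      obtain ⟨z, hz, hz1, hz2⟩ := key d d' hd hd'
      refine ⟨(u, v, w, z), ?_, ?_⟩
      · simp only [mem_filter, mem_product, mem_range]
        refine ⟨⟨hu, hv, hw, hz⟩, (Nat.modEq_and_modEq_iff_modEq_mul hqp).1 ⟨?_, ?_⟩⟩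
        · have := crtQ_mod q u v w z
          rw [hu1, hv1, hw1, hz1] at this
          exact this.symm.trans h
        · have := crtQ_mod p u v w z
          rw [hu2, hv2, hw2, hz2] at this
          exact this.symm.trans h'
      · simp only [hu1, hv1, hw1, hz1, hu2, hv2, hw2, hz2]
  · intro q n m hnm
    unfold rhoQ
    congr 1
    apply Finset.filter_congr
    intro t _
    exact ⟨fun h => h.trans hnm, fun h => h.trans hnm.symm⟩

end Pool.Agent.H52.TC
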