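import Pool.Agent.H52.TC.Stm3

set_option autoImplicit false

namespace Pool.Agent.H52.TC

open Finset Polynomial

/-- the `m`-th base `b` digit of `x` after the point (`m ≥ 1`) -/
noncomputable def digit (b : ℕ) (x : ℝ) (m : ℕ) : ℤ := ⌊x * (b : ℝ) ^ m⌋ % b

/-- the digits as coefficients (`0` at the place `0`) -/
noncomputable def de (b : ℕ) (x : ℝ) (m : ℕ) : ℤ := if m = 0 then 0 else digit b x m

theorem de_bound {b : ℕ} (hb : 2 ≤ b) (x : ℝ) (m : ℕ) : 0 ≤ de b x m ∧ de b x m ≤ b := by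
  unfold de digit
  have hb0 : (0 : ℤ) < b := by omega
  split_ifs
  · omega
  · exact ⟨Int.emod_nonneg _ hb0.ne', (Int.emod_lt_of_pos _ hb0).le⟩

theorem de_succ {b : ℕ} (hb : 2 ≤ b) (x : ℝ) (m : ℕ) :
    de b x (m + 1) = ⌊x * (b : ℝ) ^ (m + 1)⌋ - b * ⌊x * (b : ℝ) ^ m⌋ := by
  unfold de digit
  rw [if_neg (Nat.succ_ne_zero m), Int.emod_def]
  congr 2
  have hb0 : (b : ℝ) ≠ 0 := by
    have : (2 : ℝ) ≤ b := by exact_mod_cast hb
    linarith
  rw [← Int.floor_div_natCast]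
  congr 1
  rw [pow_succ]
  field_simp

theorem partial_de {b : ℕ} (hb : 2 ≤ b) (x : ℝ) (M : ℕ) :
    ∑ m ∈ range (M + 1), (de b x m : ℝ) / (b : ℝ) ^ m =
      ⌊x * (b : ℝ) ^ M⌋ / (b : ℝ) ^ M - ⌊x⌋ := by
  have hb0 : (b : ℝ) ≠ 0 := by
    have : (2 : ℝ) ≤ b := by exact_mod_cast hb
    linarith
  induction M with
  | zero => simp [de]
  | succ M ih =>
    rw [sum_range_succ, ih, de_succ hb]
    push_cast
    rw [pow_succ]
    field_simp
    ring

theorem hasSum_de {b : ℕ} (hb : 2 ≤ b) (x : ℝ) :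
    HasSum (fun m => (de b x m : ℝ) / (b : ℝ) ^ m) (Int.fract x) := by
  have hb2 : (2 : ℝ) ≤ b := by exact_mod_cast hb
  have hb0 : (0 : ℝ) < b := by linarith
  rw [hasSum_iff_tendsto_nat_of_nonneg]
  · rw [← Filter.tendsto_add_atTop_iff_nat 1]
    simp only [partial_de hb x]
    have h1 : Filter.Tendsto (fun M : ℕ => ((1 : ℝ) / b) ^ M) Filter.atTop (nhds 0) :=
      tendsto_pow_atTop_nhds_zero_of_lt_one (by positivity)
        (by rw [div_lt_one hb0]; linarith)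
    have h2 : Filter.Tendsto (fun M : ℕ => (⌊x * (b : ℝ) ^ M⌋ : ℝ) / (b : ℝ) ^ M)
        Filter.atTop (nhds x) := by
      have hlo : Filter.Tendsto (fun M : ℕ => x - ((1 : ℝ) / b) ^ M) Filter.atTop (nhds x) := by
        simpa using tendsto_const_nhds.sub h1
      refine tendsto_of_tendsto_of_tendsto_of_le_of_le hlo tendsto_const_nhds ?_ ?_
      · intro M
        have hp : (0 : ℝ) < (b : ℝ) ^ M := by positivity
        have := Int.sub_one_lt_floor (x * (b : ℝ) ^ M)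
        simp only
        rw [one_div, inv_pow, le_div_iff₀ hp, sub_mul, inv_mul_cancel₀ hp.ne']
        exact this.le
      · intro M
        have hp : (0 : ℝ) < (b : ℝ) ^ M := by positivity
        simp only
        rw [div_le_iff₀ hp]
        exact Int.floor_le _
    have h3 := h2.sub (tendsto_const_nhds (x := (⌊x⌋ : ℝ)))
    exact h3
  · intro m
    have := (de_bound hb x m).1
    have : (0 : ℝ) ≤ de b x m := by exact_mod_cast this
    positivity

open Classical in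
/-- the number of nonzero base `b` digits at places `1 ≤ m ≤ N` which are not cubes -/
noncomputable def offCubes (b : ℕ) (x : ℝ) (N : ℕ) : ℕ :=
  ((Icc 1 N).filter fun m => digit b x m ≠ 0 ∧ ∀ u : ℕ, u ^ 3 ≠ m).card

theorem off_de (b : ℕ) (x : ℝ) (N : ℕ) : off (de b x) N ≤ offCubes b x N := by
  classical
  unfold off offCubes
  refine card_le_card ?_
  intro m hm
  rw [mem_filter, mem_range] at hm
  rw [mem_filter, mem_Icc]
  obtain ⟨h1, h2, h3⟩ := hm
  unfold de at h2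
  split_ifs at h2 with h0
  · exact absurd rfl h2
  · exact ⟨by omega, h2, h3⟩

/-- digits off the cubes -/
theorem digits_off (hfin : ∀ (b : ℕ), 2 ≤ b → ∀ (e : ℕ → ℤ) (C : ℤ),
      (∀ n, 0 ≤ e n ∧ e n ≤ C) → Few e → Irrational (∑' m : ℕ, (e m : ℝ) / (b : ℝ) ^ m) →
      ∀ P : ℤ[X], P ≠ 0 → P.natDegree ≤ 3 → aeval (∑' m : ℕ, (e m : ℝ) / (b : ℝ) ^ m) P ≠ 0)
    (x : ℝ) (hx : Irrational x) (P : ℤ[X]) (hP : P ≠ 0) (hdeg : P.natDegree ≤ 3)
    (h0 : aeval x P = 0) (b : ℕ) (hb : 2 ≤ b) :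
    ∃ c : ℝ, 0 < c ∧ ∀ N0 : ℕ, ∃ N : ℕ, N0 ≤ N ∧
      c * (N : ℝ) ^ ((1 : ℝ) / 3) ≤ offCubes b x N := by
  by_contra hcon
  push Not at hcon
  have hsum := (hasSum_de hb x).tsum_eq
  refine hfin b hb (de b x) b (fun n => de_bound hb x n) ?_ ?_ (P.comp (X + C ⌊x⌋)) ?_ ?_ ?_
  · -- few
    intro η hη
    obtain ⟨N0, hN0⟩ := hcon η hη
    refine ⟨N0 + 1, fun s hs => ?_⟩
    have h1 := hN0 (s ^ 3) (by
      have : s ≤ s ^ 3 := Nat.le_self_pow (by norm_num) s
      omega)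
    have h2 : (((s ^ 3 : ℕ) : ℝ)) ^ ((1 : ℝ) / 3) = s := by
      rw [Nat.cast_pow, ← Real.rpow_natCast, ← Real.rpow_mul (Nat.cast_nonneg s)]
      norm_num
    rw [h2] at h1
    have h3 : (off (de b x) (s ^ 3) : ℝ) ≤ offCubes b x (s ^ 3) := by
      exact_mod_cast off_de b x (s ^ 3)
    linarith
  · rw [hsum]
    have : Int.fract x = x - (⌊x⌋ : ℤ) := rfl
    rw [this]
    exact hx.sub_intCast ⌊x⌋
  · intro h
    rw [comp_eq_zero_iff] at h
    rcases h with h | ⟨h, h'⟩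
    · exact hP h
    · have := congrArg natDegree h'
      rw [natDegree_X_add_C, natDegree_C] at this
      exact one_ne_zero this
  · rw [natDegree_comp, natDegree_X_add_C, mul_one]
    exact hdeg
  · rw [hsum, aeval_comp]
    have : (aeval (Int.fract x)) (X + C ⌊x⌋ : ℤ[X]) = x := by
      rw [map_add, aeval_X, aeval_C]
      have h2 : (algebraMap ℤ ℝ) ⌊x⌋ = (⌊x⌋ : ℝ) := rfl
      rw [h2]
      exact Int.fract_add_floor x
    rw [this, h0]

end Pool.Agent.H52.TC
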