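import Pool.Agent.H52.TC.Stm4
import Pool.Agent.H52.TC.DIG

set_option autoImplicit false

namespace Pool.Agent.H52.TC

open Finset Polynomial

/-- a relation of degree exactly three for `B * z`, `z = x - n`, from a polynomial of degree `≤ 3` -/
theorem relation_of_root (x : ℝ) (P : ℤ[X]) (hP : P ≠ 0) (hdeg : P.natDegree ≤ 3)
    (h0 : aeval x P = 0) (B : ℕ) (hB : B ≠ 0) :
    ∃ a0 a1 a2 a3 : ℤ, 1 ≤ a3 ∧ ∀ y : ℝ, y = B * Int.fract x →
      a3 * y ^ 3 + a2 * y ^ 2 + a1 * y + a0 = 0 := by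
  set P1 : ℤ[X] := P.comp (X + C ⌊x⌋) with hP1
  have hP10 : P1 ≠ 0 := by
    intro h
    rw [hP1, comp_eq_zero_iff] at h
    rcases h with h | ⟨h, h'⟩
    · exact hP h
    · have := congrArg natDegree h'
      rw [natDegree_X_add_C, natDegree_C] at this
      exact one_ne_zero this
  have hP1d : P1.natDegree ≤ 3 := by
    rw [hP1, natDegree_comp, natDegree_X_add_C, mul_one]
    exact hdeg
  have hP1r : aeval (Int.fract x) P1 = 0 := by
    rw [hP1, aeval_comp]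
    have : (aeval (Int.fract x)) (X + C ⌊x⌋ : ℤ[X]) = x := by
      rw [map_add, aeval_X, aeval_C]
      have h2 : (algebraMap ℤ ℝ) ⌊x⌋ = (⌊x⌋ : ℝ) := rfl
      rw [h2]
      exact Int.fract_add_floor x
    rw [this, h0]
  set Q : ℤ[X] := P1 * X ^ (3 - P1.natDegree) with hQ
  have hQ0 : aeval (Int.fract x) Q = 0 := by rw [hQ, map_mul, hP1r, zero_mul]
  have hQd : Q.natDegree = 3 := by
    rw [hQ, natDegree_mul_X_pow _ hP10]; omega
  have hQl : Q.coeff 3 ≠ 0 := by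
    rw [← hQd]
    exact leadingCoeff_ne_zero.2 (mul_ne_zero hP10 (pow_ne_zero _ X_ne_zero))
  have hexp : aeval (Int.fract x) Q = (Q.coeff 0 : ℝ) + Q.coeff 1 * Int.fract x +
      Q.coeff 2 * Int.fract x ^ 2 + Q.coeff 3 * Int.fract x ^ 3 := by
    rw [aeval_eq_sum_range' (n := 4) (by omega)]
    simp [Finset.sum_range_succ]
  rw [hexp] at hQ0
  rcases lt_or_gt_of_ne hQl with h | h
  · refine ⟨-Q.coeff 0 * B ^ 3, -Q.coeff 1 * B ^ 2, -Q.coeff 2 * B, -Q.coeff 3, by omega, ?_⟩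
    intro y hy
    rw [hy]
    push_cast
    linear_combination (-(B : ℝ) ^ 3) * hQ0
  · refine ⟨Q.coeff 0 * B ^ 3, Q.coeff 1 * B ^ 2, Q.coeff 2 * B, Q.coeff 3, by omega, ?_⟩
    intro y hy
    rw [hy]
    push_cast
    linear_combination ((B : ℝ) ^ 3) * hQ0

theorem offH_mono (H : ℕ) (d : ℕ → ℤ) {N N' : ℕ} (h : N ≤ N') : offH H d N ≤ offH H d N' := by
  classical
  unfold offH
  refine card_le_card ?_
  intro m hm
  rw [mem_filter, mem_range] at hm ⊢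
  exact ⟨by omega, hm.2⟩

open Classical in
/-- the number of nonzero base `b` digits of `x` at places `1 ≤ m ≤ N` at distance `> H` from all
cubes -/
noncomputable def offDigits (b : ℕ) (x : ℝ) (H N : ℕ) : ℕ :=
  ((Icc 1 N).filter fun m => digit b x m ≠ 0 ∧ ∀ u : ℕ, u ^ 3 + H < m ∨ m + H < u ^ 3).card

theorem offH_de (b : ℕ) (x : ℝ) (H N : ℕ) : offH H (de b x) N ≤ offDigits b x H N := by
  classical
  unfold offH offDigits
  refine card_le_card ?_
  intro m hm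
  rw [mem_filter, mem_range] at hm
  rw [mem_filter, mem_Icc]
  obtain ⟨h1, h2, h3⟩ := hm
  unfold de at h2
  split_ifs at h2 with h0
  · exact absurd rfl h2
  · exact ⟨by omega, h2, h3⟩

theorem digits_off_all (hfin : S_FIN4) (hthk : S_THK) (x : ℝ) (hx : Irrational x) (P : ℤ[X])
    (hP : P ≠ 0) (hdeg : P.natDegree ≤ 3) (h0 : aeval x P = 0) (b : ℕ) (hb : 2 ≤ b) (H : ℕ) :
    ∃ c : ℝ, 0 < c ∧ ∃ N0 : ℕ, ∀ N : ℕ, N0 ≤ N →
      c * (N : ℝ) ^ ((1 : ℝ) / 3) ≤ offDigits b x H N := by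
  obtain ⟨e, C', he, hoff, hsum⟩ := hthk b hb H (de b x) b (fun n => de_bound hb x n)
  rw [(hasSum_de hb x).tsum_eq] at hsum
  have hB : (b ^ H : ℕ) ≠ 0 := by positivity
  obtain ⟨a0, a1, a2, a3, ha3, hrel⟩ := relation_of_root x P hP hdeg h0 (b ^ H) hB
  have hirr : Irrational (∑' m : ℕ, (e m : ℝ) / (b : ℝ) ^ m) := by
    rw [hsum]
    have h1 : Irrational (Int.fract x) := by
      have : Int.fract x = x - (⌊x⌋ : ℤ) := rfl
      rw [this]
      exact hx.sub_intCast ⌊x⌋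
    have h2 := h1.natCast_mul hB
    have h3 : ((b ^ H : ℕ) : ℝ) = (b : ℝ) ^ H := by push_cast; rfl
    rwa [h3] at h2
  obtain ⟨η, hη, s0, hs0⟩ := hfin b hb e C' he a0 a1 a2 a3 ha3 _ rfl hirr
    (hrel _ (by rw [hsum]; push_cast; rfl))
  refine ⟨η / 2, by positivity, (s0 + 2) ^ 3, fun N hN => ?_⟩
  -- the integral cube root of `N`
  obtain ⟨s, hs1, hs2⟩ : ∃ s : ℕ, s ^ 3 ≤ N ∧ N < (s + 1) ^ 3 := by
    have hex : ∃ t : ℕ, N < (t + 1) ^ 3 := ⟨N, lt_of_lt_of_le (Nat.lt_succ_self N)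
      (Nat.le_self_pow (by norm_num) _)⟩
    refine ⟨Nat.find hex, ?_, Nat.find_spec hex⟩
    rcases Nat.eq_zero_or_pos (Nat.find hex) with h | h
    · rw [h]; simp
    · have := Nat.find_min hex (m := Nat.find hex - 1) (by omega)
      rw [not_lt, Nat.sub_add_cancel h] at this
      exact this
  have hss : s0 + 1 ≤ s := by
    by_contra hlt
    have : (s + 1) ^ 3 ≤ (s0 + 2) ^ 3 := Nat.pow_le_pow_left (by omega) 3
    omega
  have h1 := hs0 s (by omega)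
  have h2 : (off e (s ^ 3) : ℝ) ≤ offDigits b x H N := by
    exact_mod_cast (hoff (s ^ 3)).trans ((offH_mono H _ hs1).trans (offH_de b x H N))
  have h3 : (N : ℝ) ^ ((1 : ℝ) / 3) ≤ s + 1 := by
    have h4 : (N : ℝ) ≤ ((s : ℝ) + 1) ^ 3 := by exact_mod_cast hs2.le
    calc (N : ℝ) ^ ((1 : ℝ) / 3) ≤ (((s : ℝ) + 1) ^ 3) ^ ((1 : ℝ) / 3) := by gcongr
      _ = s + 1 := by
        rw [← Real.rpow_natCast, ← Real.rpow_mul (by positivity)]
        norm_num
  have hs1R : (1 : ℝ) ≤ s := by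
    have : 1 ≤ s := by omega
    exact_mod_cast this
  calc η / 2 * (N : ℝ) ^ ((1 : ℝ) / 3) ≤ η / 2 * (s + 1) := by gcongr
    _ ≤ η / 2 * (s + s) := by gcongr
    _ = η * s := by ring
    _ ≤ off e (s ^ 3) := h1.le
    _ ≤ _ := h2

end Pool.Agent.H52.TC
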