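import Pool.Agent.H52.TC.Stm
import Pool.Agent.H23.L.Div3

/-!
# Stub TC-DIV: the sum of `1 / p` over the primes `p ≡ 1 (3)` diverges
-/

set_option autoImplicit false

namespace Pool.Agent.H52.TC

open Finset

theorem dv : S_DIV := by
  intro ε hε y
  by_contra hcon
  push Not at hcon
  apply Pool.Agent.Helper379.Div3.not_summable_inv_primes_mod (q := 3) (a := 1) isUnit_one
  refine summable_of_sum_le (c := ((y : ℝ) + 1) + -Real.log ε) ?_ ?_
  · intro n; dsimp only; split_ifs <;> positivity
  · intro u
    rw [← Finset.sum_filter, ← Finset.sum_filter_add_sum_filter_not _ (fun n => n ≤ y)]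
    refine add_le_add ?_ ?_
    · have h1 : ∀ n ∈ (u.filter (fun n : ℕ => n.Prime ∧ (n : ZMod 3) = 1)).filter (fun n => n ≤ y),
          (1 : ℝ) / n ≤ 1 := by
        intro n hn
        have hn1 : 1 ≤ n := (Finset.mem_filter.1 (Finset.mem_filter.1 hn).1).2.1.one_lt.le
        have hn2 : (1 : ℝ) ≤ n := by exact_mod_cast hn1
        exact (div_le_one (by linarith)).2 hn2
      refine (Finset.sum_le_sum h1).trans ?_
      rw [Finset.sum_const, nsmul_eq_mul, mul_one]
      have h2 : (u.filter (fun n : ℕ => n.Prime ∧ (n : ZMod 3) = 1)).filter (fun n => n ≤ y) ⊆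
          range (y + 1) := by
        intro n hn
        rw [Finset.mem_range]
        exact Nat.lt_succ_of_le (Finset.mem_filter.1 hn).2
      have h3 := Finset.card_le_card h2
      rw [Finset.card_range] at h3
      exact_mod_cast h3
    · set Q := (u.filter (fun n : ℕ => n.Prime ∧ (n : ZMod 3) = 1)).filter (fun n => ¬ n ≤ y) with hQ
      have hQp : ∀ p ∈ Q, p.Prime ∧ p % 3 = 1 ∧ y < p := by
        intro p hp
        have hp1 := Finset.mem_filter.1 hp
        have hp2 := (Finset.mem_filter.1 hp1.1).2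
        refine ⟨hp2.1, ?_, not_le.1 hp1.2⟩
        have h3 : (p : ZMod 3) = ((1 : ℕ) : ZMod 3) := by simpa using hp2.2
        rw [ZMod.natCast_eq_natCast_iff] at h3
        exact h3
      have h4 := hcon Q hQp
      have h5 : ∏ p ∈ Q, (1 - 1 / (p : ℝ)) ≤ Real.exp (-∑ p ∈ Q, (1 : ℝ) / p) := by
        rw [← Finset.sum_neg_distrib, Real.exp_sum]
        refine Finset.prod_le_prod ?_ ?_
        · intro p hp
          have hp1 : (1 : ℝ) ≤ p := by exact_mod_cast (hQp p hp).1.one_lt.le
          have : (1 : ℝ) / p ≤ 1 := (div_le_one (by linarith)).2 hp1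
          linarith
        · intro p _
          exact Real.one_sub_le_exp_neg _
      have h6 : Real.log ε ≤ -∑ p ∈ Q, (1 : ℝ) / p := by
        rw [← Real.log_exp (-∑ p ∈ Q, (1 : ℝ) / p)]
        exact Real.log_le_log hε (h4.le.trans h5)
      linarith

end Pool.Agent.H52.TC
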