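import Pool.Agent.H52.TC.Stm

/-!
# TC-EX: existence of the residue class (averaging over residue classes)
-/

set_option autoImplicit false

namespace Pool.Agent.H52.TC

open Finset

namespace EXm

theorem rho_one (n : ℕ) : rho 1 n = 1 := by
  unfold rho
  simp [Nat.modEq_one]

theorem rho_le (q n : ℕ) : rho q n ≤ q ^ 3 := by
  unfold rho
  refine (card_filter_le _ _).trans ?_
  simp only [card_product, card_range]
  exact le_of_eq (by ring)

/-- the local factor -/
noncomputable def lf (J : ℕ → ℕ) (p j : ℕ) : ℝ :=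
  if j ≡ J p [MOD p] then 1 - 1 / (p : ℝ) else 1 + 100 / ((p : ℝ) * Real.sqrt p)

theorem lf_nonneg (J : ℕ → ℕ) {p : ℕ} (hp : p.Prime) (j : ℕ) : 0 ≤ lf J p j := by
  unfold lf
  have h1 : (1 : ℝ) ≤ p := by exact_mod_cast hp.one_lt.le
  split_ifs
  · have : 1 / (p : ℝ) ≤ 1 := by
      rw [div_le_one (by linarith)]; exact h1
    linarith
  · positivity

theorem lf_le (J : ℕ → ℕ) (p j : ℕ) : lf J p j ≤ 1 + 100 / ((p : ℝ) * Real.sqrt p) := by
  unfold lf
  have h1 : 0 ≤ 1 / (p : ℝ) := by positivity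
  have h2 : 0 ≤ 100 / ((p : ℝ) * Real.sqrt p) := by positivity
  split_ifs <;> linarith

/-- the local bound: average over the classes `g ∈ G` -/
theorem local_bound (hCRT : S_CRT) (J : ℕ → ℕ) {p : ℕ} (hp : p.Prime) {G : Finset ℕ}
    (h1 : ∀ g ∈ G, (rho p g : ℝ) ≤ (p : ℝ) ^ 2 * (1 - 1 / p))
    (h2 : ∀ t : ℕ, ¬ p ∣ t →
      ∑ g ∈ G, (rho p (g + t) : ℝ) ≤ G.card * (p : ℝ) ^ 2 * (1 + 100 / ((p : ℝ) * Real.sqrt p)))
    (j : ℕ) : ∑ g ∈ G, (rho p (g + ((p - 1) * J p + j)) : ℝ) ≤ G.card * (p : ℝ) ^ 2 * lf J p j := by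
  have e : (p - 1) * J p + J p = p * J p := by
    rw [← Nat.succ_mul, Nat.succ_eq_add_one, Nat.sub_add_cancel hp.one_lt.le]
  by_cases h : j ≡ J p [MOD p]
  · have h3 : (p - 1) * J p + j ≡ 0 [MOD p] := by
      have h4 := Nat.ModEq.add_left ((p - 1) * J p) h
      rw [e] at h4
      exact h4.trans (by simp [Nat.ModEq])
    have h5 : lf J p j = 1 - 1 / (p : ℝ) := by unfold lf; rw [if_pos h]
    rw [h5]
    calc ∑ g ∈ G, (rho p (g + ((p - 1) * J p + j)) : ℝ) ≤ ∑ g ∈ G, (p : ℝ) ^ 2 * (1 - 1 / p) := by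
          refine sum_le_sum fun g hg => ?_
          rw [hCRT.2 p (g + ((p - 1) * J p + j)) g (by simpa using Nat.ModEq.add_left g h3)]
          exact h1 g hg
      _ = G.card * (p : ℝ) ^ 2 * (1 - 1 / p) := by rw [sum_const, nsmul_eq_mul]; ring
  · have h3 : ¬ p ∣ (p - 1) * J p + j := by
      intro h4
      apply h
      have h5 : (p - 1) * J p + j + J p ≡ J p [MOD p] := by
        have h6 : (p - 1) * J p + j ≡ 0 [MOD p] := (Nat.modEq_zero_iff_dvd).2 h4
        simpa using Nat.ModEq.add_right (J p) h6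
      have h7 : (p - 1) * J p + j + J p = p * J p + j := by rw [← e]; ring
      rw [h7] at h5
      have h8 : p * J p + j ≡ j [MOD p] := by
        have h9 : p * J p ≡ 0 [MOD p] := by simp [Nat.ModEq]
        simpa using Nat.ModEq.add_right j h9
      exact h8.symm.trans h5
    have h5 : lf J p j = 1 + 100 / ((p : ℝ) * Real.sqrt p) := by unfold lf; rw [if_neg h]
    rw [h5]
    exact h2 _ h3

theorem key (hLOC : S_LOC) (hCRT : S_CRT) (J : ℕ → ℕ) (N : ℕ) (P : Finset ℕ) :
    (∀ p ∈ P, p.Prime ∧ p % 3 = 1) → ∀ w : ℕ → ℝ, (∀ j, 0 ≤ w j) →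
      ∃ c : ℕ, ∑ j ∈ range N, w j * (rho (∏ p ∈ P, p) (c + j) : ℝ) ≤
        (((∏ p ∈ P, p : ℕ) : ℝ)) ^ 2 * ∑ j ∈ range N, w j * ∏ p ∈ P, lf J p j := by
  classical
  induction P using Finset.induction_on with
  | empty =>
    intro _ w _
    refine ⟨0, ?_⟩
    simp [rho_one]
  | insert p P hpP ih =>
    intro hP w hw
    obtain ⟨hp, hp3⟩ := hP p (mem_insert_self _ _)
    have hP' : ∀ p ∈ P, p.Prime ∧ p % 3 = 1 := fun x hx => hP x (mem_insert_of_mem hx)
    obtain ⟨G, -, hGne, hG1, hG2⟩ := hLOC p hp hp3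
    obtain ⟨c, hc⟩ := ih hP' (fun j => w j * lf J p j) (fun j => mul_nonneg (hw j) (lf_nonneg J hp j))
    rw [prod_insert hpP]
    set q : ℕ := ∏ p ∈ P, p with hq
    have hq0 : 0 < q := prod_pos fun x hx => (hP' x hx).1.pos
    have hco : Nat.Coprime q p := Nat.Coprime.prod_left fun x hx =>
      (Nat.coprime_primes (hP' x hx).1 hp).2 (fun h => hpP (h ▸ hx))
    let cc : ℕ → ℕ := fun g => (Nat.chineseRemainder hco c (g + (p - 1) * J p) : ℕ)
    have hcc : ∀ g j, rho (q * p) (cc g + j) = rho q (c + j) * rho p (g + ((p - 1) * J p + j)) := by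
      intro g j
      have h1 : cc g ≡ c [MOD q] := (Nat.chineseRemainder hco c (g + (p - 1) * J p)).2.1
      have h2 : cc g ≡ g + (p - 1) * J p [MOD p] :=
        (Nat.chineseRemainder hco c (g + (p - 1) * J p)).2.2
      rw [hCRT.1 q p _ hq0 hp.pos hco, hCRT.2 q (cc g + j) (c + j) (h1.add_right j),
        hCRT.2 p (cc g + j) (g + ((p - 1) * J p + j)) (by rw [← add_assoc]; exact h2.add_right j)]
    have hsum : ∑ g ∈ G, ∑ j ∈ range N, w j * (rho (q * p) (cc g + j) : ℝ) ≤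
        ∑ g ∈ G, ((q : ℝ) * p) ^ 2 * ∑ j ∈ range N, w j * ∏ x ∈ insert p P, lf J x j := by
      calc ∑ g ∈ G, ∑ j ∈ range N, w j * (rho (q * p) (cc g + j) : ℝ)
          = ∑ j ∈ range N, w j * (rho q (c + j) : ℝ) *
              ∑ g ∈ G, (rho p (g + ((p - 1) * J p + j)) : ℝ) := by
            rw [sum_comm]
            refine sum_congr rfl fun j _ => ?_
            rw [mul_sum]
            refine sum_congr rfl fun g _ => ?_
            rw [hcc g j]
            push_cast
            ring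
        _ ≤ ∑ j ∈ range N, w j * (rho q (c + j) : ℝ) * (G.card * (p : ℝ) ^ 2 * lf J p j) := by
            refine sum_le_sum fun j _ => mul_le_mul_of_nonneg_left
              (local_bound hCRT J hp hG1 hG2 j) (mul_nonneg (hw j) (Nat.cast_nonneg _))
        _ = G.card * (p : ℝ) ^ 2 * ∑ j ∈ range N, w j * lf J p j * (rho q (c + j) : ℝ) := by
            rw [mul_sum]
            exact sum_congr rfl fun j _ => by ring
        _ ≤ G.card * (p : ℝ) ^ 2 *
              ((q : ℝ) ^ 2 * ∑ j ∈ range N, w j * lf J p j * ∏ x ∈ P, lf J x j) :=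
            mul_le_mul_of_nonneg_left hc (by positivity)
        _ = ∑ g ∈ G, ((q : ℝ) * p) ^ 2 * ∑ j ∈ range N, w j * ∏ x ∈ insert p P, lf J x j := by
            rw [sum_const, nsmul_eq_mul]
            have : ∀ j, w j * ∏ x ∈ insert p P, lf J x j = w j * lf J p j * ∏ x ∈ P, lf J x j := by
              intro j
              rw [prod_insert hpP]; ring
            simp only [this]
            ring
    obtain ⟨g, -, hg⟩ := exists_le_of_sum_le hGne hsum
    refine ⟨cc g, ?_⟩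
    have e1 : p * q = q * p := mul_comm _ _
    rw [e1]
    push_cast
    exact hg

theorem sets (hDIV : S_DIV) (δ : ℝ) (hδ : 0 < δ) (k : ℕ) :
    ∃ (P : Finset ℕ) (J : ℕ → ℕ), (∀ p ∈ P, p.Prime ∧ p % 3 = 1) ∧ (∀ p ∈ P, J p ≤ k) ∧
      ∀ j ∈ Icc 1 k, ∏ p ∈ P.filter (fun p => J p = j), (1 - 1 / (p : ℝ)) ≤ δ := by
  classical
  induction k with
  | zero => exact ⟨∅, fun _ => 0, by simp, by simp, by simp⟩
  | succ k ih =>
    obtain ⟨P, J, h1, h2, h3⟩ := ih
    obtain ⟨Q, hQ1, hQ2⟩ := hDIV δ hδ (P.sup id)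
    have hPle : ∀ p ∈ P, ¬ P.sup id < p := fun p hp => not_lt.2 (le_sup (f := id) hp)
    refine ⟨P ∪ Q, fun p => if P.sup id < p then k + 1 else J p, ?_, ?_, ?_⟩
    · intro p hp
      rcases mem_union.1 hp with hp | hp
      · exact h1 p hp
      · exact ⟨(hQ1 p hp).1, (hQ1 p hp).2.1⟩
    · intro p hp
      simp only
      split_ifs with h
      · exact le_rfl
      · rcases mem_union.1 hp with hp | hp
        · exact (h2 p hp).trans (Nat.le_succ k)
        · exact absurd (hQ1 p hp).2.2 h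
    · intro j hj
      rw [mem_Icc] at hj
      rcases Nat.lt_or_ge k j with hk | hk
      · have hjk : j = k + 1 := by omega
        have e : (P ∪ Q).filter (fun p => (if P.sup id < p then k + 1 else J p) = j) = Q := by
          ext p
          rw [mem_filter, mem_union]
          constructor
          · rintro ⟨hp | hp, h⟩
            · rw [if_neg (hPle p hp)] at h
              have := h2 p hp
              omega
            · exact hp
          · intro hp
            exact ⟨Or.inr hp, by rw [if_pos (hQ1 p hp).2.2, hjk]⟩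
        rw [e]
        exact hQ2
      · have e : (P ∪ Q).filter (fun p => (if P.sup id < p then k + 1 else J p) = j) =
            P.filter (fun p => J p = j) := by
          ext p
          rw [mem_filter, mem_union, mem_filter]
          constructor
          · rintro ⟨hp | hp, h⟩
            · rw [if_neg (hPle p hp)] at h
              exact ⟨hp, h⟩
            · rw [if_pos (hQ1 p hp).2.2] at h
              omega
          · rintro ⟨hp, h⟩
            exact ⟨Or.inl hp, by rw [if_neg (hPle p hp)]; exact h⟩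
        rw [e]
        exact h3 j (mem_Icc.2 ⟨hj.1, hk⟩)

/-- the constant -/
noncomputable def K1 : ℝ := Real.exp (∑' n : ℕ, 100 / ((n : ℝ) * Real.sqrt n))

theorem summ : Summable fun n : ℕ => 100 / ((n : ℝ) * Real.sqrt n) := by
  have h := (Real.summable_one_div_nat_rpow (p := 3 / 2)).2 (by norm_num)
  refine (h.mul_left 100).congr fun n => ?_
  have e : (n : ℝ) ^ (3 / 2 : ℝ) = (n : ℝ) * Real.sqrt n := by
    rw [Real.sqrt_eq_rpow]
    rcases Nat.eq_zero_or_pos n with h0 | h0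
    · subst h0
      simp
    · have : (0 : ℝ) < n := by exact_mod_cast h0
      rw [show (3 / 2 : ℝ) = 1 + 1 / 2 by norm_num, Real.rpow_add this, Real.rpow_one]
  rw [e]
  ring

theorem K1_pos : 0 < K1 := Real.exp_pos _

theorem prod_le (J : ℕ → ℕ) (P : Finset ℕ) (hP : ∀ p ∈ P, p.Prime) (j : ℕ) :
    ∏ p ∈ P, lf J p j ≤ K1 := by
  calc ∏ p ∈ P, lf J p j ≤ ∏ p ∈ P, Real.exp (100 / ((p : ℝ) * Real.sqrt p)) := by
        refine prod_le_prod (fun p hp => lf_nonneg J (hP p hp) j) fun p _ => ?_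
        refine (lf_le J p j).trans ?_
        have := Real.add_one_le_exp (100 / ((p : ℝ) * Real.sqrt p))
        linarith
    _ = Real.exp (∑ p ∈ P, 100 / ((p : ℝ) * Real.sqrt p)) := (Real.exp_sum _ _).symm
    _ ≤ K1 := Real.exp_le_exp.2 (summ.sum_le_tsum _ fun n _ => by positivity)

theorem prod_le' (J : ℕ → ℕ) (P : Finset ℕ) (hP : ∀ p ∈ P, p.Prime) (δ : ℝ) (hδ : 0 < δ) (j : ℕ)
    (h : ∏ p ∈ P.filter (fun p => J p = j), (1 - 1 / (p : ℝ)) ≤ δ) :
    ∏ p ∈ P, lf J p j ≤ δ * K1 := by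
  rw [← prod_filter_mul_prod_filter_not P (fun p => J p = j)]
  have e : ∏ p ∈ P.filter (fun p => J p = j), lf J p j =
      ∏ p ∈ P.filter (fun p => J p = j), (1 - 1 / (p : ℝ)) := by
    refine prod_congr rfl fun p hp => ?_
    unfold lf
    rw [if_pos]
    rw [(mem_filter.1 hp).2]
  rw [e]
  exact mul_le_mul h (prod_le J _ (fun p hp => hP p (mem_filter.1 hp).1) j)
    (prod_nonneg fun p hp => lf_nonneg J (hP p (mem_filter.1 hp).1) j) hδ.le

/-- the weights -/
noncomputable def wt (k j : ℕ) : ℝ :=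
  if j = 0 then 0 else if j ≤ k then 200 else
    (((j - (k + 1) : ℕ) : ℝ) + 1) / 2 ^ (j - (k + 1) + 1) / (4 * K1)

theorem wt_nonneg (k j : ℕ) : 0 ≤ wt k j := by
  unfold wt
  have := K1_pos
  split_ifs <;> positivity

theorem split (k N : ℕ) (h : ℕ → ℝ) : ∑ j ∈ range (k + 1 + N), wt k j * h j =
    200 * ∑ j ∈ Icc 1 k, h j +
      1 / (4 * K1) * ∑ i ∈ range N, ((i : ℝ) + 1) / 2 ^ (i + 1) * h (k + 1 + i) := by
  rw [sum_range_add]
  congr 1
  · rw [mul_sum]
    have e : Icc 1 k ⊆ range (k + 1) := by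
      intro j hj
      rw [mem_Icc] at hj
      rw [mem_range]
      omega
    rw [← sum_subset e]
    · refine sum_congr rfl fun j hj => ?_
      rw [mem_Icc] at hj
      unfold wt
      rw [if_neg (by omega), if_pos (by omega)]
    · intro j hj hj'
      rw [mem_range] at hj
      rw [mem_Icc] at hj'
      unfold wt
      rw [if_pos (by omega), zero_mul]
  · rw [mul_sum]
    refine sum_congr rfl fun i _ => ?_
    unfold wt
    rw [if_neg (by omega), if_neg (by omega), Nat.add_sub_cancel_left]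
    ring

theorem geo (N : ℕ) : ∑ i ∈ range N, ((i : ℝ) + 1) / 2 ^ (i + 1) = 2 - ((N : ℝ) + 2) / 2 ^ N := by
  induction N with
  | zero => simp
  | succ N ih =>
    rw [sum_range_succ, ih]
    push_cast
    rw [pow_succ]
    field_simp
    ring

theorem big (q : ℕ) (hq : 1 ≤ q) : q * (4 * q + 2) ≤ 2 ^ (4 * q) := by
  rw [pow_mul]
  induction q, hq using Nat.le_induction with
  | base => norm_num
  | succ q hq ih =>
    rw [pow_succ]
    have : (q + 1) * (4 * (q + 1) + 2) ≤ q * (4 * q + 2) * 16 := by nlinarith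
    exact this.trans (Nat.mul_le_mul_right 16 ih)

end EXm

open EXm in
theorem ex : S_LOC → S_CRT → S_DIV → S_EX := by
  intro hLOC hCRT hDIV
  have hK := K1_pos
  refine ⟨4 * K1 + 1, by positivity, fun k => ?_⟩
  obtain ⟨P, J, hP, -, hδ⟩ := sets hDIV (1 / (1000 * (k + 1) * K1)) (by positivity) k
  set q : ℕ := ∏ p ∈ P, p with hq
  have hq1 : 1 ≤ q := prod_pos fun x hx => (hP x hx).1.pos
  have hqr : (1 : ℝ) ≤ q := by exact_mod_cast hq1
  obtain ⟨c, hc⟩ := key hLOC hCRT J (k + 1 + 4 * q) P hP (wt k) (wt_nonneg k)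
  rw [← hq, split, split] at hc
  have hPp : ∀ p ∈ P, p.Prime := fun p hp => (hP p hp).1
  have hA : ∑ j ∈ Icc 1 k, ∏ p ∈ P, lf J p j ≤ 1 / 1000 := by
    calc ∑ j ∈ Icc 1 k, ∏ p ∈ P, lf J p j ≤ ∑ j ∈ Icc 1 k, 1 / (1000 * (k + 1) * K1) * K1 :=
          sum_le_sum fun j hj => prod_le' J P hPp _ (by positivity) j (hδ j hj)
      _ = k / (k + 1) * (1 / 1000) := by
          rw [sum_const, nsmul_eq_mul, Nat.card_Icc]
          simp only [Nat.add_sub_cancel]
          field_simp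
      _ ≤ 1 * (1 / 1000) := by
          refine mul_le_mul_of_nonneg_right ?_ (by norm_num)
          rw [div_le_one (by positivity)]
          linarith
      _ = 1 / 1000 := one_mul _
  have hB : ∑ i ∈ range (4 * q), ((i : ℝ) + 1) / 2 ^ (i + 1) * ∏ p ∈ P, lf J p (k + 1 + i) ≤
      2 * K1 := by
    calc ∑ i ∈ range (4 * q), ((i : ℝ) + 1) / 2 ^ (i + 1) * ∏ p ∈ P, lf J p (k + 1 + i)
        ≤ ∑ i ∈ range (4 * q), ((i : ℝ) + 1) / 2 ^ (i + 1) * K1 :=
          sum_le_sum fun i _ => mul_le_mul_of_nonneg_left (prod_le J P hPp _) (by positivity)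
      _ = (2 - (((4 * q : ℕ) : ℝ) + 2) / 2 ^ (4 * q)) * K1 := by rw [← sum_mul, geo]
      _ ≤ 2 * K1 := by
          refine mul_le_mul_of_nonneg_right ?_ hK.le
          have : 0 ≤ (((4 * q : ℕ) : ℝ) + 2) / 2 ^ (4 * q) := by positivity
          linarith
  set A : ℝ := ∑ j ∈ Icc 1 k, (rho q (c + j) : ℝ) with hAdef
  set B : ℝ := ∑ i ∈ range (4 * q), ((i : ℝ) + 1) / 2 ^ (i + 1) * (rho q (c + (k + 1 + i)) : ℝ)
    with hBdef
  have hA0 : 0 ≤ A := sum_nonneg fun j _ => Nat.cast_nonneg _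
  have hB0 : 0 ≤ B := sum_nonneg fun j _ => by positivity
  have hR : 200 * A + 1 / (4 * K1) * B ≤ (q : ℝ) ^ 2 * (7 / 10) := by
    refine hc.trans (mul_le_mul_of_nonneg_left ?_ (by positivity))
    have h1 : 1 / (4 * K1) * ∑ i ∈ range (4 * q),
        ((i : ℝ) + 1) / 2 ^ (i + 1) * ∏ p ∈ P, lf J p (k + 1 + i) ≤ 1 / (4 * K1) * (2 * K1) :=
      mul_le_mul_of_nonneg_left hB (by positivity)
    have h2 : 1 / (4 * K1) * (2 * K1) = 1 / 2 := by field_simp; norm_num
    rw [h2] at h1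
    linarith
  have hB1 : 0 ≤ 1 / (4 * K1) * B := by positivity
  have hq2 : 0 ≤ (q : ℝ) ^ 2 := by positivity
  have hBle : B ≤ 4 * K1 * (q : ℝ) ^ 2 := by
    have h1 : 1 / (4 * K1) * B ≤ (q : ℝ) ^ 2 := by linarith
    have h2 : B = 4 * K1 * (1 / (4 * K1) * B) := by field_simp
    rw [h2]
    exact mul_le_mul_of_nonneg_left h1 (by positivity)
  refine ⟨q, c, hq1, by linarith, fun N => ?_⟩
  have hterm : ∀ i : ℕ, 0 ≤ ((i : ℝ) + 1) / 2 ^ (i + 1) * (rho q (c + k + 1 + i) : ℝ) :=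
    fun i => by positivity
  have e : ∀ i : ℕ, c + k + 1 + i = c + (k + 1 + i) := fun i => by ring
  have hB' : B = ∑ i ∈ range (4 * q), ((i : ℝ) + 1) / 2 ^ (i + 1) * (rho q (c + k + 1 + i) : ℝ) := by
    rw [hBdef]
    exact sum_congr rfl fun i _ => by rw [e i]
  rcases le_total N (4 * q) with hN | hN
  · calc ∑ i ∈ range N, ((i : ℝ) + 1) / 2 ^ (i + 1) * (rho q (c + k + 1 + i) : ℝ)
        ≤ B := by
          rw [hB']
          exact sum_le_sum_of_subset_of_nonneg (range_mono hN) fun i _ _ => hterm i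
      _ ≤ (4 * K1 + 1) * (q : ℝ) ^ 2 := by linarith
  · obtain ⟨m, rfl⟩ := Nat.exists_eq_add_of_le hN
    rw [sum_range_add, ← hB']
    have h1 : ∑ x ∈ range m, (((4 * q + x : ℕ) : ℝ) + 1) / 2 ^ (4 * q + x + 1) *
        (rho q (c + k + 1 + (4 * q + x)) : ℝ) ≤ (q : ℝ) ^ 2 := by
      calc ∑ x ∈ range m, (((4 * q + x : ℕ) : ℝ) + 1) / 2 ^ (4 * q + x + 1) *
            (rho q (c + k + 1 + (4 * q + x)) : ℝ)
          ≤ ∑ x ∈ range m, (((4 * q + x : ℕ) : ℝ) + 1) / 2 ^ (4 * q + x + 1) * (q : ℝ) ^ 3 := by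
            refine sum_le_sum fun x _ => mul_le_mul_of_nonneg_left ?_ (by positivity)
            exact_mod_cast rho_le q _
        _ = (∑ x ∈ range (4 * q + m), ((x : ℝ) + 1) / 2 ^ (x + 1) -
              ∑ x ∈ range (4 * q), ((x : ℝ) + 1) / 2 ^ (x + 1)) * (q : ℝ) ^ 3 := by
            rw [sum_range_add, add_sub_cancel_left, sum_mul]
        _ ≤ (((4 * q : ℕ) : ℝ) + 2) / 2 ^ (4 * q) * (q : ℝ) ^ 3 := by
            refine mul_le_mul_of_nonneg_right ?_ (by positivity)
            rw [geo, geo]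
            have : 0 ≤ (((4 * q + m : ℕ) : ℝ) + 2) / 2 ^ (4 * q + m) := by positivity
            linarith
        _ ≤ (q : ℝ) ^ 2 := by
            have h2 : (q : ℝ) * (4 * q + 2) ≤ 2 ^ (4 * q) := by exact_mod_cast big q hq1
            rw [div_mul_eq_mul_div, div_le_iff₀ (by positivity)]
            push_cast
            nlinarith [mul_le_mul_of_nonneg_left h2 hq2]
    linarith

end Pool.Agent.H52.TC
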