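import Pool.Agent.H52.TC.Stm5

/-!
# TCQ-EX: existence of the residue class, fourth powers
-/

set_option autoImplicit false

namespace Pool.Agent.H52.TC

open Finset

namespace EXQm

theorem rhoQ_one (n : ℕ) : rhoQ 1 n = 1 := by
  unfold rhoQ
  simp [Nat.modEq_one]

/-- the local factor -/
noncomputable def lq (p n : ℕ) : ℝ :=
  if p ∣ n then 1 - 1 / (p : ℝ) else 1 + 1000 / ((p : ℝ) * Real.sqrt p)

theorem lq_nonneg {p : ℕ} (hp : p.Prime) (n : ℕ) : 0 ≤ lq p n := by
  unfold lq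
  have h1 : (1 : ℝ) ≤ p := by exact_mod_cast hp.one_lt.le
  split_ifs
  · have : 1 / (p : ℝ) ≤ 1 := by
      rw [div_le_one (by linarith)]; exact h1
    linarith
  · positivity

theorem lq_le (p n : ℕ) : lq p n ≤ 1 + 1000 / ((p : ℝ) * Real.sqrt p) := by
  unfold lq
  have h1 : 0 ≤ 1 / (p : ℝ) := by positivity
  have h2 : 0 ≤ 1000 / ((p : ℝ) * Real.sqrt p) := by positivity
  split_ifs <;> linarith

theorem rhoQ_le (hLOC : S_LOCQ) (hCRT : S_CRTQ) {p : ℕ} (hp : p.Prime) (h8 : p % 8 = 5) (n : ℕ) :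
    (rhoQ p n : ℝ) ≤ (p : ℝ) ^ 3 * lq p n := by
  unfold lq
  split_ifs with h
  · rw [hCRT.2 p n 0 ((Nat.modEq_zero_iff_dvd).2 h)]
    exact (hLOC p hp h8).1
  · exact (hLOC p hp h8).2 n h

theorem coprime_prod {P : Finset ℕ} {p : ℕ} (hpP : p ∉ P) (hp : p.Prime)
    (hP : ∀ x ∈ P, x.Prime) : Nat.Coprime (∏ x ∈ P, x) p :=
  Nat.Coprime.prod_left fun x hx =>
    (Nat.coprime_primes (hP x hx) hp).2 (fun h => hpP (h ▸ hx))

theorem prod_bound (hLOC : S_LOCQ) (hCRT : S_CRTQ) (n : ℕ) (P : Finset ℕ) :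
    (∀ p ∈ P, p.Prime ∧ p % 8 = 5) →
      (rhoQ (∏ p ∈ P, p) n : ℝ) ≤ (((∏ p ∈ P, p : ℕ) : ℝ)) ^ 3 * ∏ p ∈ P, lq p n := by
  classical
  induction P using Finset.induction_on with
  | empty =>
    intro _
    simp [rhoQ_one]
  | insert p P hpP ih =>
    intro hP
    obtain ⟨hp, hp3⟩ := hP p (mem_insert_self _ _)
    have hP' : ∀ p ∈ P, p.Prime ∧ p % 8 = 5 := fun x hx => hP x (mem_insert_of_mem hx)
    have hq0 : 0 < ∏ p ∈ P, p := prod_pos fun x hx => (hP' x hx).1.pos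
    have hco := coprime_prod hpP hp fun x hx => (hP' x hx).1
    rw [prod_insert hpP, prod_insert hpP, mul_comm p, hCRT.1 _ p n hq0 hp.pos hco]
    push_cast
    have h1 := ih hP'
    have h2 := rhoQ_le hLOC hCRT hp hp3 n
    have h3 := mul_le_mul h1 h2 (Nat.cast_nonneg _) (mul_nonneg (by positivity)
      (prod_nonneg fun x hx => lq_nonneg (hP' x hx).1 n))
    refine h3.trans (le_of_eq ?_)
    push_cast
    ring

theorem exists_class (J : ℕ → ℕ) (P : Finset ℕ) :
    (∀ p ∈ P, p.Prime) → ∃ c : ℕ, ∀ p ∈ P, p ∣ c + J p := by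
  classical
  induction P using Finset.induction_on with
  | empty => exact fun _ => ⟨0, by simp⟩
  | insert p P hpP ih =>
    intro hP
    have hp := hP p (mem_insert_self _ _)
    have hP' : ∀ p ∈ P, p.Prime := fun x hx => hP x (mem_insert_of_mem hx)
    obtain ⟨c, hc⟩ := ih hP'
    obtain ⟨c', h1, h2⟩ := Nat.chineseRemainder (coprime_prod hpP hp hP') c ((p - 1) * J p)
    refine ⟨c', fun x hx => ?_⟩
    rcases mem_insert.1 hx with rfl | hx
    · have e : (x - 1) * J x + J x = x * J x := by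
        rw [← Nat.succ_mul, Nat.succ_eq_add_one, Nat.sub_add_cancel hp.one_lt.le]
      have h3 := Nat.ModEq.add_right (J x) h2
      rw [e] at h3
      exact (Nat.modEq_zero_iff_dvd).1 (h3.trans (by simp [Nat.ModEq]))
    · have h3 : c' ≡ c [MOD x] := h1.of_dvd (Finset.dvd_prod_of_mem (fun p => p) hx)
      exact (Nat.modEq_zero_iff_dvd).1
        ((Nat.ModEq.add_right (J x) h3).trans ((Nat.modEq_zero_iff_dvd).2 (hc x hx)))

theorem sets (hDIV : S_DIVQ) (δ : ℝ) (hδ : 0 < δ) (k : ℕ) :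
    ∃ (P : Finset ℕ) (J : ℕ → ℕ), (∀ p ∈ P, p.Prime ∧ p % 8 = 5) ∧ (∀ p ∈ P, J p ≤ k) ∧
      ∀ j ∈ Icc 1 k, ∏ p ∈ P.filter (fun p => J p = j), (1 - 1 / (p : ℝ)) ≤ δ := by
  classical
  induction k with
  | zero => exact ⟨∅, fun _ => 0, by simp, by simp, by simp⟩
  | succ k ih =>
    obtain ⟨P, J, h1, h2, h3⟩ := ih
    obtain ⟨Q, hQ1, hQ2⟩ := hDIV δ hδ (P.sup id)
    have hPle : ∀ p ∈ P, ¬ P.sup id < p := fun p hp => not_lt.2 (le_sup (f := id) hp)
    refine ⟨P ∪ Q, fun p => if P.sup id < p then k + 1 else J p, ?_, ?_, ?_⟩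
    · intro p hp
      rcases mem_union.1 hp with hp | hp
      · exact h1 p hp
      · exact ⟨(hQ1 p hp).1, (hQ1 p hp).2.1⟩
    · intro p hp
      simp only
      split_ifs with h
      · exact le_rfl
      · rcases mem_union.1 hp with hp | hp
        · exact (h2 p hp).trans (Nat.le_succ k)
        · exact absurd (hQ1 p hp).2.2 h
    · intro j hj
      rw [mem_Icc] at hj
      rcases Nat.lt_or_ge k j with hk | hk
      · have hjk : j = k + 1 := by omega
        have e : (P ∪ Q).filter (fun p => (if P.sup id < p then k + 1 else J p) = j) = Q := by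
          ext p
          rw [mem_filter, mem_union]
          constructor
          · rintro ⟨hp | hp, h⟩
            · rw [if_neg (hPle p hp)] at h
              have := h2 p hp
              omega
            · exact hp
          · intro hp
            exact ⟨Or.inr hp, by rw [if_pos (hQ1 p hp).2.2, hjk]⟩
        rw [e]
        exact hQ2
      · have e : (P ∪ Q).filter (fun p => (if P.sup id < p then k + 1 else J p) = j) =
            P.filter (fun p => J p = j) := by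
          ext p
          rw [mem_filter, mem_union, mem_filter]
          constructor
          · rintro ⟨hp | hp, h⟩
            · rw [if_neg (hPle p hp)] at h
              exact ⟨hp, h⟩
            · rw [if_pos (hQ1 p hp).2.2] at h
              omega
          · rintro ⟨hp, h⟩
            exact ⟨Or.inl hp, by rw [if_neg (hPle p hp)]; exact h⟩
        rw [e]
        exact h3 j (mem_Icc.2 ⟨hj.1, hk⟩)

/-- the constant -/
noncomputable def KQ : ℝ := Real.exp (∑' n : ℕ, 1000 / ((n : ℝ) * Real.sqrt n))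

theorem summQ : Summable fun n : ℕ => 1000 / ((n : ℝ) * Real.sqrt n) := by
  have h := (Real.summable_one_div_nat_rpow (p := 3 / 2)).2 (by norm_num)
  refine (h.mul_left 1000).congr fun n => ?_
  have e : (n : ℝ) ^ (3 / 2 : ℝ) = (n : ℝ) * Real.sqrt n := by
    rw [Real.sqrt_eq_rpow]
    rcases Nat.eq_zero_or_pos n with h0 | h0
    · subst h0
      simp
    · have : (0 : ℝ) < n := by exact_mod_cast h0
      rw [show (3 / 2 : ℝ) = 1 + 1 / 2 by norm_num, Real.rpow_add this, Real.rpow_one]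
  rw [e]
  ring

theorem KQ_pos : 0 < KQ := Real.exp_pos _

theorem prod_lq_le (P : Finset ℕ) (hP : ∀ p ∈ P, p.Prime) (n : ℕ) :
    ∏ p ∈ P, lq p n ≤ KQ := by
  calc ∏ p ∈ P, lq p n ≤ ∏ p ∈ P, Real.exp (1000 / ((p : ℝ) * Real.sqrt p)) := by
        refine prod_le_prod (fun p hp => lq_nonneg (hP p hp) n) fun p _ => ?_
        refine (lq_le p n).trans ?_
        have := Real.add_one_le_exp (1000 / ((p : ℝ) * Real.sqrt p))
        linarith
    _ = Real.exp (∑ p ∈ P, 1000 / ((p : ℝ) * Real.sqrt p)) := (Real.exp_sum _ _).symm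
    _ ≤ KQ := Real.exp_le_exp.2 (summQ.sum_le_tsum _ fun n _ => by positivity)

theorem prod_lq_le' (J : ℕ → ℕ) (P : Finset ℕ) (hP : ∀ p ∈ P, p.Prime) (δ : ℝ) (hδ : 0 < δ)
    (c j : ℕ) (hc : ∀ p ∈ P, p ∣ c + J p)
    (h : ∏ p ∈ P.filter (fun p => J p = j), (1 - 1 / (p : ℝ)) ≤ δ) :
    ∏ p ∈ P, lq p (c + j) ≤ δ * KQ := by
  rw [← prod_filter_mul_prod_filter_not P (fun p => J p = j)]
  have e : ∏ p ∈ P.filter (fun p => J p = j), lq p (c + j) =
      ∏ p ∈ P.filter (fun p => J p = j), (1 - 1 / (p : ℝ)) := by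
    refine prod_congr rfl fun p hp => ?_
    obtain ⟨hp1, hp2⟩ := mem_filter.1 hp
    unfold lq
    rw [if_pos]
    rw [← hp2]
    exact hc p hp1
  rw [e]
  exact mul_le_mul h (prod_lq_le _ (fun p hp => hP p (mem_filter.1 hp).1) _)
    (prod_nonneg fun p hp => lq_nonneg (hP p (mem_filter.1 hp).1) _) hδ.le

end EXQm

open EXQm in
theorem exQ : S_LOCQ → S_CRTQ → S_DIVQ → S_EXQ := by
  intro hLOC hCRT hDIV
  have hK := KQ_pos
  refine ⟨KQ, hK, fun k => ?_⟩
  obtain ⟨P, J, hP, -, hδ⟩ := sets hDIV (1 / (200 * (k + 1) * KQ)) (by positivity) k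
  have hPp : ∀ p ∈ P, p.Prime := fun p hp => (hP p hp).1
  obtain ⟨c, hc⟩ := exists_class J P hPp
  have hq1 : 1 ≤ ∏ p ∈ P, p := prod_pos fun x hx => (hPp x hx).pos
  refine ⟨∏ p ∈ P, p, c, hq1, ?_, fun n => ?_⟩
  · have hq3 : (0 : ℝ) ≤ (((∏ p ∈ P, p : ℕ) : ℝ)) ^ 3 := by positivity
    calc ∑ j ∈ Icc 1 k, (rhoQ (∏ p ∈ P, p) (c + j) : ℝ)
        ≤ ∑ j ∈ Icc 1 k, (((∏ p ∈ P, p : ℕ) : ℝ)) ^ 3 * (1 / (200 * (k + 1) * KQ) * KQ) :=
          sum_le_sum fun j hj => (prod_bound hLOC hCRT (c + j) P hP).trans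
            (mul_le_mul_of_nonneg_left
              (prod_lq_le' J P hPp _ (by positivity) c j hc (hδ j hj)) hq3)
      _ = k / (k + 1) * ((((∏ p ∈ P, p : ℕ) : ℝ)) ^ 3 / 200) := by
          rw [sum_const, nsmul_eq_mul, Nat.card_Icc]
          simp only [Nat.add_sub_cancel]
          field_simp
      _ ≤ 1 * ((((∏ p ∈ P, p : ℕ) : ℝ)) ^ 3 / 200) := by
          refine mul_le_mul_of_nonneg_right ?_ (by positivity)
          rw [div_le_one (by positivity)]
          linarith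
      _ = (((∏ p ∈ P, p : ℕ) : ℝ)) ^ 3 / 200 := one_mul _
  · refine (prod_bound hLOC hCRT n P hP).trans ?_
    rw [mul_comm]
    exact mul_le_mul_of_nonneg_right (prod_lq_le P hPp n) (by positivity)

end Pool.Agent.H52.TC
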