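import Pool.Agent.H52.TC.Stm5

/-!
# TCQ-EX: existence of the residue class for fourth powers
-/

set_option autoImplicit false

namespace Pool.Agent.H52.TC

open Finset

namespace EXQ60

theorem sets (hDIV : S_DIVQ) (δ : ℝ) (hδ : 0 < δ) (k : ℕ) :
    ∃ (P : Finset ℕ) (J : ℕ → ℕ), (∀ p ∈ P, p.Prime ∧ p % 8 = 5) ∧ (∀ p ∈ P, J p ≤ k) ∧
      ∀ j ∈ Icc 1 k, ∏ p ∈ P.filter (fun p => J p = j), (1 - 1 / (p : ℝ)) ≤ δ := by
  classical
  induction k with
  | zero => exact ⟨∅, fun _ => 0, by simp, by simp, by simp⟩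
  | succ k ih =>
    obtain ⟨P, J, h1, h2, h3⟩ := ih
    obtain ⟨Q, hQ1, hQ2⟩ := hDIV δ hδ (P.sup id)
    have hPle : ∀ p ∈ P, ¬ P.sup id < p := fun p hp => not_lt.2 (le_sup (f := id) hp)
    refine ⟨P ∪ Q, fun p => if P.sup id < p then k + 1 else J p, ?_, ?_, ?_⟩
    · intro p hp
      rcases mem_union.1 hp with hp | hp
      · exact h1 p hp
      · exact ⟨(hQ1 p hp).1, (hQ1 p hp).2.1⟩
    · intro p hp
      simp only
      split_ifs with h
      · exact le_rfl
      · rcases mem_union.1 hp with hp | hp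
        · exact (h2 p hp).trans (Nat.le_succ k)
        · exact absurd (hQ1 p hp).2.2 h
    · intro j hj
      rw [mem_Icc] at hj
      rcases Nat.lt_or_ge k j with hk | hk
      · have hjk : j = k + 1 := by omega
        have e : (P ∪ Q).filter (fun p => (if P.sup id < p then k + 1 else J p) = j) = Q := by
          ext p
          rw [mem_filter, mem_union]
          constructor
          · rintro ⟨hp | hp, h⟩
            · rw [if_neg (hPle p hp)] at h
              have := h2 p hp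
              omega
            · exact hp
          · intro hp
            exact ⟨Or.inr hp, by rw [if_pos (hQ1 p hp).2.2, hjk]⟩
        rw [e]
        exact hQ2
      · have e : (P ∪ Q).filter (fun p => (if P.sup id < p then k + 1 else J p) = j) =
            P.filter (fun p => J p = j) := by
          ext p
          rw [mem_filter, mem_union, mem_filter]
          constructor
          · rintro ⟨hp | hp, h⟩
            · rw [if_neg (hPle p hp)] at h
              exact ⟨hp, h⟩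
            · rw [if_pos (hQ1 p hp).2.2] at h
              omega
          · rintro ⟨hp, h⟩
            exact ⟨Or.inl hp, by rw [if_neg (hPle p hp)]; exact h⟩
        rw [e]
        exact h3 j (mem_Icc.2 ⟨hj.1, hk⟩)


/-- the local factor -/
noncomputable def lf (p n : ℕ) : ℝ :=
  if p ∣ n then 1 - 1 / (p : ℝ) else 1 + 1000 / ((p : ℝ) * Real.sqrt p)

theorem lf_nonneg {p : ℕ} (hp : p.Prime) (n : ℕ) : 0 ≤ lf p n := by
  unfold lf
  have h1 : (1 : ℝ) ≤ p := by exact_mod_cast hp.one_lt.le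
  split_ifs
  · have : 1 / (p : ℝ) ≤ 1 := by
      rw [div_le_one (by linarith)]; exact h1
    linarith
  · positivity

theorem lf_le (p n : ℕ) : lf p n ≤ 1 + 1000 / ((p : ℝ) * Real.sqrt p) := by
  unfold lf
  have h1 : 0 ≤ 1 / (p : ℝ) := by positivity
  have h2 : 0 ≤ 1000 / ((p : ℝ) * Real.sqrt p) := by positivity
  split_ifs <;> linarith

theorem rho_one (n : ℕ) : rhoQ 1 n = 1 := by
  unfold rhoQ
  simp [Nat.modEq_one]

theorem rho_le (hLOC : S_LOCQ) (hCRT : S_CRTQ) (n : ℕ) (P : Finset ℕ) :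
    (∀ p ∈ P, p.Prime ∧ p % 8 = 5) →
      (rhoQ (∏ p ∈ P, p) n : ℝ) ≤ (((∏ p ∈ P, p : ℕ) : ℝ)) ^ 3 * ∏ p ∈ P, lf p n := by
  classical
  induction P using Finset.induction_on with
  | empty =>
    intro _
    simp [rho_one]
  | insert p P hpP ih =>
    intro hP
    obtain ⟨hp, hp8⟩ := hP p (mem_insert_self _ _)
    have hP' : ∀ p ∈ P, p.Prime ∧ p % 8 = 5 := fun x hx => hP x (mem_insert_of_mem hx)
    have h1 := ih hP'
    rw [prod_insert hpP, prod_insert hpP]
    set q : ℕ := ∏ p ∈ P, p with hq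
    have hq0 : 0 < q := prod_pos fun x hx => (hP' x hx).1.pos
    have hco : Nat.Coprime p q := Nat.Coprime.prod_right fun x hx =>
      (Nat.coprime_primes hp (hP' x hx).1).2 (fun h => hpP (h ▸ hx))
    rw [hCRT.1 p q n hp.pos hq0 hco]
    have h2 : (rhoQ p n : ℝ) ≤ (p : ℝ) ^ 3 * lf p n := by
      unfold lf
      split_ifs with hd
      · have h3 : rhoQ p n = rhoQ p 0 := hCRT.2 p n 0 (Nat.modEq_zero_iff_dvd.2 hd)
        rw [h3]
        exact (hLOC p hp hp8).1
      · exact (hLOC p hp hp8).2 n hd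
    push_cast
    calc (rhoQ p n : ℝ) * (rhoQ q n : ℝ)
        ≤ ((p : ℝ) ^ 3 * lf p n) * ((q : ℝ) ^ 3 * ∏ p ∈ P, lf p n) :=
          mul_le_mul h2 h1 (Nat.cast_nonneg _) (mul_nonneg (by positivity) (lf_nonneg hp n))
      _ = _ := by ring

/-- the constant -/
noncomputable def K1 : ℝ := Real.exp (∑' n : ℕ, 1000 / ((n : ℝ) * Real.sqrt n))

theorem summ : Summable fun n : ℕ => 1000 / ((n : ℝ) * Real.sqrt n) := by
  have h := (Real.summable_one_div_nat_rpow (p := 3 / 2)).2 (by norm_num)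
  refine (h.mul_left 1000).congr fun n => ?_
  have e : (n : ℝ) ^ (3 / 2 : ℝ) = (n : ℝ) * Real.sqrt n := by
    rw [Real.sqrt_eq_rpow]
    rcases Nat.eq_zero_or_pos n with h0 | h0
    · subst h0
      simp
    · have : (0 : ℝ) < n := by exact_mod_cast h0
      rw [show (3 / 2 : ℝ) = 1 + 1 / 2 by norm_num, Real.rpow_add this, Real.rpow_one]
  rw [e]
  ring

theorem K1_pos : 0 < K1 := Real.exp_pos _

theorem prod_le (P : Finset ℕ) (hP : ∀ p ∈ P, p.Prime) (n : ℕ) :
    ∏ p ∈ P, lf p n ≤ K1 := by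
  calc ∏ p ∈ P, lf p n ≤ ∏ p ∈ P, Real.exp (1000 / ((p : ℝ) * Real.sqrt p)) := by
        refine prod_le_prod (fun p hp => lf_nonneg (hP p hp) n) fun p _ => ?_
        refine (lf_le p n).trans ?_
        have := Real.add_one_le_exp (1000 / ((p : ℝ) * Real.sqrt p))
        linarith
    _ = Real.exp (∑ p ∈ P, 1000 / ((p : ℝ) * Real.sqrt p)) := (Real.exp_sum _ _).symm
    _ ≤ K1 := Real.exp_le_exp.2 (summ.sum_le_tsum _ fun n _ => by positivity)

theorem prod_le' (J : ℕ → ℕ) (P : Finset ℕ) (hP : ∀ p ∈ P, p.Prime) (δ : ℝ) (hδ : 0 < δ) (j n : ℕ)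
    (hn : ∀ p ∈ P, J p = j → p ∣ n)
    (h : ∏ p ∈ P.filter (fun p => J p = j), (1 - 1 / (p : ℝ)) ≤ δ) :
    ∏ p ∈ P, lf p n ≤ δ * K1 := by
  rw [← prod_filter_mul_prod_filter_not P (fun p => J p = j)]
  have e : ∏ p ∈ P.filter (fun p => J p = j), lf p n =
      ∏ p ∈ P.filter (fun p => J p = j), (1 - 1 / (p : ℝ)) := by
    refine prod_congr rfl fun p hp => ?_
    unfold lf
    rw [if_pos (hn p (mem_filter.1 hp).1 (mem_filter.1 hp).2)]
  rw [e]
  exact mul_le_mul h (prod_le _ (fun p hp => hP p (mem_filter.1 hp).1) n)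
    (prod_nonneg fun p hp => lf_nonneg (hP p (mem_filter.1 hp).1) n) hδ.le

end EXQ60

open EXQ60 in
theorem exQ60 : S_LOCQ → S_CRTQ → S_DIVQ → S_EXQ := by
  intro hLOC hCRT hDIV
  have hK := K1_pos
  refine ⟨K1, hK, fun k => ?_⟩
  obtain ⟨P, J, hP, -, hδ⟩ := sets hDIV (1 / (200 * (k + 1) * K1)) (by positivity) k
  have hPp : ∀ p ∈ P, p.Prime := fun p hp => (hP p hp).1
  obtain ⟨c, hc⟩ := Nat.chineseRemainderOfFinset (fun p => (p - 1) * J p) (fun p => p) P
    (fun p hp => (hPp p hp).ne_zero)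
    (fun p hp p' hp' hne => (Nat.coprime_primes (hPp p hp) (hPp p' hp')).2 hne)
  have hdiv : ∀ j, ∀ p ∈ P, J p = j → p ∣ c + j := by
    intro j p hp hj
    have h1 := (hc p hp).add_right (J p)
    have e : (p - 1) * J p + J p = p * J p := by
      rw [← Nat.succ_mul, Nat.succ_eq_add_one, Nat.sub_add_cancel (hPp p hp).one_lt.le]
    rw [e] at h1
    rw [← hj]
    exact (Nat.modEq_zero_iff_dvd).1 (h1.trans (by simp [Nat.ModEq]))
  refine ⟨∏ p ∈ P, p, c, prod_pos fun x hx => (hPp x hx).pos, ?_, fun n => ?_⟩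
  · set q : ℕ := ∏ p ∈ P, p with hq
    calc ∑ j ∈ Icc 1 k, (rhoQ q (c + j) : ℝ)
        ≤ ∑ j ∈ Icc 1 k, (q : ℝ) ^ 3 * (1 / (200 * (k + 1) * K1) * K1) := by
          refine sum_le_sum fun j hj => (rho_le hLOC hCRT (c + j) P hP).trans ?_
          exact mul_le_mul_of_nonneg_left
            (prod_le' J P hPp _ (by positivity) j (c + j) (hdiv j) (hδ j hj)) (by positivity)
      _ = (q : ℝ) ^ 3 * (k / (k + 1) * (1 / 200)) := by
          rw [sum_const, nsmul_eq_mul, Nat.card_Icc]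
          simp only [Nat.add_sub_cancel]
          field_simp
      _ ≤ (q : ℝ) ^ 3 * (1 * (1 / 200)) := by
          refine mul_le_mul_of_nonneg_left (mul_le_mul_of_nonneg_right ?_ (by norm_num))
            (by positivity)
          rw [div_le_one (by positivity)]
          linarith
      _ = (q : ℝ) ^ 3 / 200 := by ring
  · refine (rho_le hLOC hCRT n P hP).trans ?_
    rw [mul_comm]
    exact mul_le_mul_of_nonneg_right (prod_le P hPp n) (by positivity)

end Pool.Agent.H52.TC
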