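import Pool.Agent.H52.TC.Stm5

set_option autoImplicit false

namespace Pool.Agent.H52.TC

open Finset

namespace EXQ83

theorem rhoQ_one (n : ℕ) : rhoQ 1 n = 1 := by
  unfold rhoQ
  simp [Nat.modEq_one]

open Classical in
/-- the local factor -/
noncomputable def lf (p n : ℕ) : ℝ :=
  if p ∣ n then 1 - 1 / (p : ℝ) else 1 + 1000 / ((p : ℝ) * Real.sqrt p)

theorem lf_nonneg {p : ℕ} (hp : p.Prime) (n : ℕ) : 0 ≤ lf p n := by
  unfold lf
  have h1 : (1 : ℝ) ≤ p := by exact_mod_cast hp.one_lt.le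
  split_ifs
  · have : 1 / (p : ℝ) ≤ 1 := by
      rw [div_le_one (by linarith)]; exact h1
    linarith
  · positivity

theorem lf_le (p n : ℕ) : lf p n ≤ 1 + 1000 / ((p : ℝ) * Real.sqrt p) := by
  unfold lf
  have h1 : 0 ≤ 1 / (p : ℝ) := by positivity
  have h2 : 0 ≤ 1000 / ((p : ℝ) * Real.sqrt p) := by positivity
  split_ifs <;> linarith

theorem rho_le (hLOC : S_LOCQ) (hCRT : S_CRTQ) (P : Finset ℕ) :
    (∀ p ∈ P, p.Prime ∧ p % 8 = 5) → ∀ n : ℕ,
      (rhoQ (∏ p ∈ P, p) n : ℝ) ≤ ((∏ p ∈ P, p : ℕ) : ℝ) ^ 3 * ∏ p ∈ P, lf p n := by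
  classical
  induction P using Finset.induction_on with
  | empty =>
    intro _ n
    simp [rhoQ_one]
  | insert p P hpP ih =>
    intro hP n
    obtain ⟨hp, hp8⟩ := hP p (mem_insert_self _ _)
    have hP' : ∀ p ∈ P, p.Prime ∧ p % 8 = 5 := fun x hx => hP x (mem_insert_of_mem hx)
    have hi := ih hP' n
    rw [prod_insert hpP, prod_insert hpP]
    set q : ℕ := ∏ p ∈ P, p with hq
    have hq0 : 0 < q := prod_pos fun x hx => (hP' x hx).1.pos
    have hco : Nat.Coprime p q := Nat.Coprime.prod_right fun x hx =>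
      (Nat.coprime_primes hp (hP' x hx).1).2 (fun h => hpP (h.symm ▸ hx))
    rw [hCRT.1 p q n hp.pos hq0 hco]
    have hl : (rhoQ p n : ℝ) ≤ (p : ℝ) ^ 3 * lf p n := by
      unfold lf
      split_ifs with h
      · have h0 : rhoQ p n = rhoQ p 0 := hCRT.2 p n 0 ((Nat.modEq_zero_iff_dvd).2 h)
        rw [h0]
        exact (hLOC p hp hp8).1
      · exact (hLOC p hp hp8).2 n h
    push_cast
    calc (rhoQ p n : ℝ) * (rhoQ q n : ℝ) ≤ ((p : ℝ) ^ 3 * lf p n) * ((q : ℝ) ^ 3 * ∏ x ∈ P, lf x n) :=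
          mul_le_mul hl hi (Nat.cast_nonneg _) ((Nat.cast_nonneg _).trans hl)
      _ = _ := by ring

theorem sets (hDIV : S_DIVQ) (δ : ℝ) (hδ : 0 < δ) (k : ℕ) :
    ∃ (P : Finset ℕ) (J : ℕ → ℕ), (∀ p ∈ P, p.Prime ∧ p % 8 = 5) ∧ (∀ p ∈ P, J p ≤ k) ∧
      ∀ j ∈ Icc 1 k, ∏ p ∈ P.filter (fun p => J p = j), (1 - 1 / (p : ℝ)) ≤ δ := by
  classical
  induction k with
  | zero => exact ⟨∅, fun _ => 0, by simp, by simp, by simp⟩
  | succ k ih =>
    obtain ⟨P, J, h1, h2, h3⟩ := ih
    obtain ⟨Q, hQ1, hQ2⟩ := hDIV δ hδ (P.sup id)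
    have hPle : ∀ p ∈ P, ¬ P.sup id < p := fun p hp => not_lt.2 (le_sup (f := id) hp)
    refine ⟨P ∪ Q, fun p => if P.sup id < p then k + 1 else J p, ?_, ?_, ?_⟩
    · intro p hp
      rcases mem_union.1 hp with hp | hp
      · exact h1 p hp
      · exact ⟨(hQ1 p hp).1, (hQ1 p hp).2.1⟩
    · intro p hp
      simp only
      split_ifs with h
      · exact le_rfl
      · rcases mem_union.1 hp with hp | hp
        · exact (h2 p hp).trans (Nat.le_succ k)
        · exact absurd (hQ1 p hp).2.2 h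
    · intro j hj
      rw [mem_Icc] at hj
      rcases Nat.lt_or_ge k j with hk | hk
      · have hjk : j = k + 1 := by omega
        have e : (P ∪ Q).filter (fun p => (if P.sup id < p then k + 1 else J p) = j) = Q := by
          ext p
          rw [mem_filter, mem_union]
          constructor
          · rintro ⟨hp | hp, h⟩
            · rw [if_neg (hPle p hp)] at h
              have := h2 p hp
              omega
            · exact hp
          · intro hp
            exact ⟨Or.inr hp, by rw [if_pos (hQ1 p hp).2.2, hjk]⟩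
        rw [e]
        exact hQ2
      · have e : (P ∪ Q).filter (fun p => (if P.sup id < p then k + 1 else J p) = j) =
            P.filter (fun p => J p = j) := by
          ext p
          rw [mem_filter, mem_union, mem_filter]
          constructor
          · rintro ⟨hp | hp, h⟩
            · rw [if_neg (hPle p hp)] at h
              exact ⟨hp, h⟩
            · rw [if_pos (hQ1 p hp).2.2] at h
              omega
          · rintro ⟨hp, h⟩
            exact ⟨Or.inl hp, by rw [if_neg (hPle p hp)]; exact h⟩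
        rw [e]
        exact h3 j (mem_Icc.2 ⟨hj.1, hk⟩)

/-- the constant -/
noncomputable def K1 : ℝ := Real.exp (∑' n : ℕ, 1000 / ((n : ℝ) * Real.sqrt n))

theorem summ : Summable fun n : ℕ => 1000 / ((n : ℝ) * Real.sqrt n) := by
  have h := (Real.summable_one_div_nat_rpow (p := 3 / 2)).2 (by norm_num)
  refine (h.mul_left 1000).congr fun n => ?_
  have e : (n : ℝ) ^ (3 / 2 : ℝ) = (n : ℝ) * Real.sqrt n := by
    rw [Real.sqrt_eq_rpow]
    rcases Nat.eq_zero_or_pos n with h0 | h0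
    · subst h0
      simp
    · have : (0 : ℝ) < n := by exact_mod_cast h0
      rw [show (3 / 2 : ℝ) = 1 + 1 / 2 by norm_num, Real.rpow_add this, Real.rpow_one]
  rw [e]
  ring

theorem K1_pos : 0 < K1 := Real.exp_pos _

theorem prod_le (P : Finset ℕ) (hP : ∀ p ∈ P, p.Prime) (n : ℕ) :
    ∏ p ∈ P, lf p n ≤ K1 := by
  calc ∏ p ∈ P, lf p n ≤ ∏ p ∈ P, Real.exp (1000 / ((p : ℝ) * Real.sqrt p)) := by
        refine prod_le_prod (fun p hp => lf_nonneg (hP p hp) n) fun p _ => ?_
        refine (lf_le p n).trans ?_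
        have := Real.add_one_le_exp (1000 / ((p : ℝ) * Real.sqrt p))
        linarith
    _ = Real.exp (∑ p ∈ P, 1000 / ((p : ℝ) * Real.sqrt p)) := (Real.exp_sum _ _).symm
    _ ≤ K1 := Real.exp_le_exp.2 (summ.sum_le_tsum _ fun n _ => by positivity)

end EXQ83

open EXQ83 in
theorem exQ83 : S_LOCQ → S_CRTQ → S_DIVQ → S_EXQ := by
  classical
  intro hLOC hCRT hDIV
  have hK := K1_pos
  refine ⟨K1, hK, fun k => ?_⟩
  obtain ⟨P, J, hP, hJ, hδ⟩ := sets hDIV (1 / (200 * (k + 1) * K1)) (by positivity) k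
  have hPp : ∀ p ∈ P, p.Prime := fun p hp => (hP p hp).1
  set q : ℕ := ∏ p ∈ P, p with hq
  have hq1 : 1 ≤ q := prod_pos fun x hx => (hP x hx).1.pos
  -- the class
  obtain ⟨c, hc⟩ := Nat.chineseRemainderOfFinset (fun p => (p - 1) * J p) (fun p => p) P
    (fun p hp => (hPp p hp).ne_zero)
    (fun a ha b hb hab => (Nat.coprime_primes (hPp a ha) (hPp b hb)).2 hab)
  have hdvd : ∀ p ∈ P, p ∣ c + J p := by
    intro p hp
    have h1 : c + J p ≡ (p - 1) * J p + J p [MOD p] := (hc p hp).add_right _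
    have e : (p - 1) * J p + J p = p * J p := by
      rw [← Nat.succ_mul, Nat.succ_eq_add_one, Nat.sub_add_cancel (hPp p hp).one_lt.le]
    rw [e] at h1
    exact (Nat.modEq_zero_iff_dvd).1 (h1.trans (by simp [Nat.ModEq]))
  refine ⟨q, c, hq1, ?_, fun n => ?_⟩
  · have h1 : ∀ j ∈ Icc 1 k, (rhoQ q (c + j) : ℝ) ≤ (q : ℝ) ^ 3 * (1 / (200 * (k + 1))) := by
      intro j hj
      refine (rho_le hLOC hCRT P hP (c + j)).trans ?_
      rw [← hq]
      refine mul_le_mul_of_nonneg_left ?_ (by positivity)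
      rw [← prod_filter_mul_prod_filter_not P (fun p => J p = j)]
      have e : ∏ p ∈ P.filter (fun p => J p = j), lf p (c + j) =
          ∏ p ∈ P.filter (fun p => J p = j), (1 - 1 / (p : ℝ)) := by
        refine prod_congr rfl fun p hp => ?_
        obtain ⟨hp1, hp2⟩ := mem_filter.1 hp
        unfold lf
        rw [if_pos]
        rw [← hp2]
        exact hdvd p hp1
      rw [e]
      calc (∏ p ∈ P.filter (fun p => J p = j), (1 - 1 / (p : ℝ))) *
            ∏ p ∈ P.filter (fun p => ¬ J p = j), lf p (c + j)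
          ≤ (1 / (200 * (k + 1) * K1)) * K1 :=
            mul_le_mul (hδ j hj) (prod_le _ (fun p hp => hPp p (mem_filter.1 hp).1) _)
              (prod_nonneg fun p hp => lf_nonneg (hPp p (mem_filter.1 hp).1) _) (by positivity)
        _ = 1 / (200 * (k + 1)) := by field_simp
    calc ∑ j ∈ Icc 1 k, (rhoQ q (c + j) : ℝ) ≤ ∑ j ∈ Icc 1 k, (q : ℝ) ^ 3 * (1 / (200 * (k + 1))) :=
          sum_le_sum h1
      _ = (q : ℝ) ^ 3 / 200 * (k / (k + 1)) := by
          rw [sum_const, nsmul_eq_mul, Nat.card_Icc]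
          simp only [Nat.add_sub_cancel]
          field_simp
      _ ≤ (q : ℝ) ^ 3 / 200 * 1 := by
          refine mul_le_mul_of_nonneg_left ?_ (by positivity)
          rw [div_le_one (by positivity)]
          linarith
      _ = _ := mul_one _
  · refine (rho_le hLOC hCRT P hP n).trans ?_
    rw [← hq, mul_comm]
    exact mul_le_mul_of_nonneg_right (prod_le P hPp n) (by positivity)

end Pool.Agent.H52.TC
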