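import Pool.Agent.H52.TC.Stm

set_option autoImplicit false

namespace Pool.Agent.H52.TC

open Finset

theorem window_mul {b : ℕ} {ε : ℕ → ℤ} {a1 a2 a3 : ℤ} {T : ℕ → ℤ}
    (hT : ∀ M, T (M + 1) = b * T M - F ε a1 a2 a3 (M + 1)) (M : ℕ) :
    ∀ k : ℕ, (∀ j ∈ Icc 1 k, F ε a1 a2 a3 (M + j) = 0) → T (M + k) = (b : ℤ) ^ k * T M := by
  intro k
  induction k with
  | zero => intro _; simp
  | succ k ih =>
    intro h
    have h1 := ih (fun j hj => h j (by rw [mem_Icc] at hj ⊢; omega))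
    have h2 := h (k + 1) (by rw [mem_Icc]; omega)
    have h3 := hT (M + k)
    rw [← add_assoc] at h2 ⊢
    rw [h3, h2, h1, pow_succ]
    ring

open Classical in
theorem fin (hana : S_ANA) (hpos : S_POS) (hup : S_UP) (hwin : S_WIN) (hex : S_EX) : S_FIN := by
  intro b hb ε C hε a0 a1 a2 a3 ha3 x hx hrel
  obtain ⟨T, hT⟩ := hana b hb ε C hε a0 a1 a2 a3 x hx hrel
  obtain ⟨K0, hK0, hex⟩ := hex
  have hC : (1 : ℝ) ≤ C := by
    have : (1 : ℤ) ≤ C := (hε 0).1.trans (hε 0).2
    exact_mod_cast this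
  have ha3R : (1 : ℝ) ≤ a3 := by exact_mod_cast ha3
  set A : ℝ := 8 * a3 * C ^ 3 * K0 + 1 with hA
  have hA1 : 0 < A := by rw [hA]; positivity
  obtain ⟨k, hk⟩ := pow_unbounded_of_one_lt (4 * A) (by norm_num : (1 : ℝ) < 2)
  obtain ⟨q, c, hq, h1, h2⟩ := hex k
  have hqR : (1 : ℝ) ≤ q := by exact_mod_cast hq
  obtain ⟨X1, hX1⟩ := hpos b hb ε C hε a1 a2 a3 ha3 T hT (1 / (8 * q)) (by positivity)
  obtain ⟨X2, hX2⟩ := hup b hb ε C hε a1 a2 a3 ha3 T hT q (c + k) K0 hq h2
  obtain ⟨X3, hX3⟩ := hwin ε C hε a1 a2 a3 q c k hq h1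
  set Y : ℕ := X1 + X2 + X3 + k + 1 with hY
  have hYq : Y ≤ q * Y := Nat.le_mul_of_pos_left _ hq
  have g1 := hX1 (q * Y) (by omega)
  have g2 := hX2 (q * Y + k) (by omega)
  have g3 := hX3 (q * Y) (by omega)
  -- the numbers in the class
  set E := (range (q * Y)).filter (fun M => M ≡ c [MOD q]) with hE
  have hEc : Y ≤ E.card := by
    have : ((range Y).image fun i => c % q + i * q) ⊆ E := by
      intro m hm
      rw [mem_image] at hm
      obtain ⟨i, hi, rfl⟩ := hm
      rw [mem_range] at hi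
      rw [hE, mem_filter, mem_range]
      have hcq : c % q < q := Nat.mod_lt _ hq
      refine ⟨?_, ?_⟩
      · have : (i + 1) * q ≤ Y * q := Nat.mul_le_mul_right _ hi
        nlinarith
      · unfold Nat.ModEq
        rw [Nat.add_mul_mod_self_right, Nat.mod_mod]
    have h := card_le_card this
    rwa [card_image_of_injective _ (fun i j hij => by
      have h' : i * q = j * q := by simpa using hij
      exact Nat.eq_of_mul_eq_mul_right hq h'), card_range] at h
  set B1 := (range (q * Y)).filter (fun M => T M < 1) with hB1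
  set B2 := (range (q * Y)).filter (fun M => M ≡ c [MOD q] ∧
    ∃ j ∈ Icc 1 k, F ε a1 a2 a3 (M + j) ≠ 0) with hB2
  set E' := E \ (B1 ∪ B2) with hE'
  have hE'c : (Y : ℝ) / 2 ≤ E'.card := by
    have e1 : E.card ≤ E'.card + (B1.card + B2.card) := by
      have := card_le_card_sdiff_add_card (s := E) (t := B1 ∪ B2)
      have h := card_union_le B1 B2
      rw [← hE'] at this
      omega
    have e2 : (Y : ℝ) ≤ E'.card + (B1.card + B2.card) := by exact_mod_cast hEc.trans e1
    have e3 : (B1.card : ℝ) ≤ Y / 8 := by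
      refine g1.trans (le_of_eq ?_)
      push_cast; field_simp
    have e4 : (B2.card : ℝ) ≤ Y / 4 := by
      refine le_trans ?_ (g3.trans (le_of_eq ?_))
      · rw [hB2]
      · push_cast; field_simp
    linarith
  have hval : ∀ M ∈ E', (b : ℝ) ^ k ≤ |(T (M + k) : ℝ)| := by
    intro M hM
    rw [hE', mem_sdiff, mem_union, not_or, hE, hB1, hB2] at hM
    simp only [mem_filter, mem_range, not_and, not_lt] at hM
    obtain ⟨⟨hM1, hM2⟩, hM3, hM4⟩ := hM
    have hT1 : 1 ≤ T M := hM3 hM1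
    have hw : ∀ j ∈ Icc 1 k, F ε a1 a2 a3 (M + j) = 0 := by
      intro j hj
      by_contra hne
      exact hM4 hM1 hM2 ⟨j, hj, hne⟩
    have := window_mul hT.1 M k hw
    rw [this]
    push_cast
    have hT1R : (1 : ℝ) ≤ T M := by exact_mod_cast hT1
    have hb0 : (0 : ℝ) ≤ (b : ℝ) ^ k := by positivity
    rw [abs_of_nonneg (by positivity)]
    nlinarith
  have hsum : (E'.card : ℝ) * (b : ℝ) ^ k ≤ A * ((q * Y + k : ℕ) : ℝ) / q := by
    refine le_trans ?_ g2
    have s1 : (E'.card : ℝ) * (b : ℝ) ^ k ≤ ∑ M ∈ E', |(T (M + k) : ℝ)| := by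
      rw [← nsmul_eq_mul]
      exact card_nsmul_le_sum _ _ _ hval
    refine s1.trans ?_
    have s2 : ∑ M ∈ E', |(T (M + k) : ℝ)| = ∑ M' ∈ E'.image (fun M => M + k), |(T M' : ℝ)| := by
      rw [sum_image]
      intro i _ j _ hij
      simpa using hij
    rw [s2]
    refine sum_le_sum_of_subset_of_nonneg ?_ (fun _ _ _ => abs_nonneg _)
    intro m hm
    rw [mem_image] at hm
    obtain ⟨M, hM, rfl⟩ := hm
    rw [hE', mem_sdiff, hE, mem_filter, mem_range] at hM
    rw [mem_filter, mem_range]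
    exact ⟨by omega, hM.1.2.add_right k⟩
  have hYk : (k : ℝ) ≤ Y := by
    have : k ≤ Y := by omega
    exact_mod_cast this
  have hY0 : (0 : ℝ) < Y := by
    have : 0 < Y := by omega
    exact_mod_cast this
  have hfin : (Y : ℝ) / 2 * (b : ℝ) ^ k ≤ A * (2 * Y) := by
    calc (Y : ℝ) / 2 * (b : ℝ) ^ k ≤ E'.card * (b : ℝ) ^ k := by gcongr
      _ ≤ A * ((q * Y + k : ℕ) : ℝ) / q := hsum
      _ = A * (Y + k / q) := by push_cast; field_simp
      _ ≤ A * (2 * Y) := by
          have : (k : ℝ) / q ≤ Y := by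
            rw [div_le_iff₀ (by linarith)]
            nlinarith
          gcongr
          linarith
  have hbk : (4 * A) < (b : ℝ) ^ k := by
    refine hk.trans_le ?_
    have : (2 : ℝ) ≤ b := by exact_mod_cast hb
    gcongr
  nlinarith

end Pool.Agent.H52.TC
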