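import Pool.Agent.H52.TC.Stm4
import Pool.Agent.H52.TC.FIN3

set_option autoImplicit false

namespace Pool.Agent.H52.TC

open Finset Polynomial

open Classical in
theorem fin4 (hsup : S_SUP3) (hana : S_ANA3) (hlio : S_LIO3) (hposa : S_POSA3) (hposb : S_POSB4)
    (hcnt : S_CNT4) (hup : S_UP4) (hwin : S_WIN4) (hex : S_EX) : S_FIN4 := by
  intro b hb ε C hε a0 a1 a2 a3 ha3 x hx hirr hrel
  obtain ⟨T, hT⟩ := hana b hb ε C hε a0 a1 a2 a3 x hx hrel
  obtain ⟨K, hK⟩ := hlio b hb ε C hε a0 a1 a2 a3 ha3 x hx hirr hrel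
  obtain ⟨K1, hK1⟩ := hposa b hb ε C hε a1 a2 a3 ha3 T hT
  obtain ⟨hs1, hs4, hs5, hs6, hs7⟩ := hsup ε C hε
  obtain ⟨K0, hK0, hex⟩ := hex
  obtain ⟨p0, hp0, -, hA0⟩ := hK 0
  have hC0 : (0 : ℝ) ≤ C := by
    have : (0 : ℤ) ≤ C := (hε 0).1.trans (hε 0).2
    exact_mod_cast this
  have ha3R : (1 : ℝ) ≤ a3 := by exact_mod_cast ha3
  set A : ℝ := 8 * a3 * C ^ 3 * K0 + 1 with hA
  have hA1 : 0 < A := by rw [hA]; positivity
  obtain ⟨k, hk⟩ := pow_unbounded_of_one_lt (80 * A) (by norm_num : (1 : ℝ) < 2)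
  obtain ⟨q, c, hq, h1, h2⟩ := hex k
  have hqR : (1 : ℝ) ≤ q := by exact_mod_cast hq
  obtain ⟨η1, hη1, s1, hX2⟩ := hup b hb ε C hε a1 a2 a3 ha3 T hT q (c + k) K0 hq h2
  obtain ⟨η2, hη2, s2, hX3⟩ := hwin ε C hε a1 a2 a3 q c k hq h1
  obtain ⟨s3, hX1⟩ := hposb (fun m => ε m ≠ 0 ∨ G2 ε m ≠ 0) (fun m => G2 ε m ≠ 0)
    (fun m => ε m ≠ 0) (fun M => 1 ≤ T M) K K1 p0
    (fun m hm => Or.inr hm) (fun m hm => Or.inl hm) hA0 hp0
    (fun m hm hm2 => hs4 m p0 (hm.resolve_right hm2) hA0) hK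
    (fun R a R' hR ha hgap h M hM1 hM2 => hK1 R a R' hR ha
      (fun m h1 h2 => by
        have := hgap m h1 h2
        simp only [not_or, not_not] at this
        exact this) h M hM1 hM2)
    q c hq
  refine ⟨min η1 (min η2 1), by positivity, s1 + s2 + s3 + 12 * k + 1, fun s hs => ?_⟩
  by_contra hcon
  push Not at hcon
  have hsR : (0 : ℝ) ≤ s := Nat.cast_nonneg s
  have ho1 : (off ε (s ^ 3) : ℝ) ≤ η1 * s :=
    hcon.trans (by gcongr; exact min_le_left _ _)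
  have ho2 : (off ε (s ^ 3) : ℝ) ≤ η2 * s :=
    hcon.trans (by gcongr; exact (min_le_right _ _).trans (min_le_left _ _))
  have ho3 : off ε (s ^ 3) ≤ s := by
    have : (off ε (s ^ 3) : ℝ) ≤ 1 * s :=
      hcon.trans (by gcongr; exact (min_le_right _ _).trans (min_le_right _ _))
    rw [one_mul] at this
    exact_mod_cast this
  have hs3 : s ≤ s ^ 3 := Nat.le_self_pow (by norm_num) s
  obtain ⟨X, hXa, hXb, g1⟩ := hX1 s (by omega)
    (fun X hX => by convert hcnt ε C hε s X ho3 hX)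
  have g2 := hX2 s (by omega) ho1 (X + k) (by omega) (by omega)
  have g3 := hX3 s (by omega) ho2 X hXa (by omega)
  set E := (range X).filter (fun M => M ≡ c [MOD q] ∧ 1 ≤ T M) with hE
  set B2 := (range X).filter (fun M => M ≡ c [MOD q] ∧
    ∃ j ∈ Icc 1 k, FG ε a1 a2 a3 (M + j) ≠ 0) with hB2
  set E' := E \ B2 with hE'
  have hX0 : (0 : ℝ) < X := by
    have : 0 < X := by omega
    exact_mod_cast this
  have hE'c : (X : ℝ) / (40 * q) ≤ E'.card := by
    have e1 : E.card ≤ E'.card + B2.card := by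
      have := card_le_card_sdiff_add_card (s := E) (t := B2)
      rw [← hE'] at this
      exact this
    have e2 : (X : ℝ) / (8 * q) ≤ E'.card + B2.card := by
      refine g1.trans ?_
      exact_mod_cast e1
    have e3 : (X : ℝ) / (40 * q) = X / (8 * q) - X / (10 * q) := by field_simp; norm_num
    rw [e3]
    linarith
  have hval : ∀ M ∈ E', (b : ℝ) ^ k ≤ |(T (M + k) : ℝ)| := by
    intro M hM
    rw [hE', mem_sdiff, hE, hB2] at hM
    simp only [mem_filter, mem_range] at hM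
    obtain ⟨⟨hM1, hM2, hT1⟩, hM4⟩ := hM
    have hw : ∀ j ∈ Icc 1 k, FG ε a1 a2 a3 (M + j) = 0 := by
      intro j hj
      by_contra hne
      exact hM4 ⟨hM1, hM2, j, hj, hne⟩
    have := window_mul3 hT.1 M k hw
    rw [this]
    push_cast
    have hT1R : (1 : ℝ) ≤ T M := by exact_mod_cast hT1
    have hb0 : (0 : ℝ) ≤ (b : ℝ) ^ k := by positivity
    rw [abs_of_nonneg (by positivity)]
    nlinarith
  have hsum : (E'.card : ℝ) * (b : ℝ) ^ k ≤ A * ((X + k : ℕ) : ℝ) / q := by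
    refine le_trans ?_ g2
    have s1 : (E'.card : ℝ) * (b : ℝ) ^ k ≤ ∑ M ∈ E', |(T (M + k) : ℝ)| := by
      rw [← nsmul_eq_mul]
      exact card_nsmul_le_sum _ _ _ hval
    refine s1.trans ?_
    have s2 : ∑ M ∈ E', |(T (M + k) : ℝ)| = ∑ M' ∈ E'.image (fun M => M + k), |(T M' : ℝ)| := by
      rw [sum_image]
      intro i _ j _ hij
      simpa using hij
    rw [s2]
    refine sum_le_sum_of_subset_of_nonneg ?_ (fun _ _ _ => abs_nonneg _)
    intro m hm
    rw [mem_image] at hm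
    obtain ⟨M, hM, rfl⟩ := hm
    rw [hE', mem_sdiff, hE, mem_filter, mem_range] at hM
    rw [mem_filter, mem_range]
    exact ⟨by omega, hM.1.2.1.add_right k⟩
  have hYk : (k : ℝ) ≤ X := by
    have : k ≤ X := by omega
    exact_mod_cast this
  have hfin : (X : ℝ) / (40 * q) * (b : ℝ) ^ k ≤ A * (2 * X) / q := by
    calc (X : ℝ) / (40 * q) * (b : ℝ) ^ k ≤ E'.card * (b : ℝ) ^ k := by gcongr
      _ ≤ A * ((X + k : ℕ) : ℝ) / q := hsum
      _ ≤ A * (2 * X) / q := by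
          push_cast
          gcongr
          linarith
  have hbk : (80 * A) < (b : ℝ) ^ k := by
    refine hk.trans_le ?_
    have : (2 : ℝ) ≤ b := by exact_mod_cast hb
    gcongr
  have h3 : (X : ℝ) / (40 * q) * (b : ℝ) ^ k * (40 * q) ≤ A * (2 * X) / q * (40 * q) := by
    gcongr
  have h4 : (X : ℝ) / (40 * q) * (b : ℝ) ^ k * (40 * q) = X * (b : ℝ) ^ k := by field_simp
  have h5 : A * (2 * X) / q * (40 * q) = X * (80 * A) := by field_simp; ring
  rw [h4, h5] at h3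
  have := lt_of_mul_lt_mul_left (lt_of_lt_of_le (mul_lt_mul_of_pos_left hbk hX0) h3) hX0.le
  exact lt_irrefl _ this

end Pool.Agent.H52.TC
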