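import Pool.Agent.H52.TC.Stm5

set_option autoImplicit false

namespace Pool.Agent.H52.TC

open Finset Polynomial

theorem window_mulQ {b : ℕ} {ε : ℕ → ℤ} {a1 a2 a3 a4 : ℤ} {T : ℕ → ℤ}
    (hT : ∀ M, T (M + 1) = b * T M - FQ ε a1 a2 a3 a4 (M + 1)) (M : ℕ) :
    ∀ k : ℕ, (∀ j ∈ Icc 1 k, FQ ε a1 a2 a3 a4 (M + j) = 0) → T (M + k) = (b : ℤ) ^ k * T M := by
  intro k
  induction k with
  | zero => intro _; simp
  | succ k ih =>
    intro h
    have h1 := ih (fun j hj => h j (by rw [mem_Icc] at hj ⊢; omega))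
    have h2 := h (k + 1) (by rw [mem_Icc]; omega)
    have h3 := hT (M + k)
    rw [← add_assoc] at h2 ⊢
    rw [h3, h2, h1, pow_succ]
    ring

open Classical in
theorem finQ (hsup : S_SUPQ) (hana : S_ANAQ) (hirr : S_IRRQ) (hlio : S_LIOQ) (hposa : S_POSAQ)
    (hposb : S_POSBQ) (hcnt : S_CNTQ) (hup : S_UPQ) (hwin : S_WINQ) (hex : S_EXQ) : S_FINQ := by
  intro b hb ε C hε hsupp hinf a0 a1 a2 a3 a4 ha4 x hx hrel
  have hxirr : Irrational x := by rw [hx]; exact hirr b hb ε C hε hsupp hinf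
  obtain ⟨T, hT⟩ := hana b hb ε C hε a0 a1 a2 a3 a4 x hx hrel
  obtain ⟨K, hK⟩ := hlio b hb ε C hε a0 a1 a2 a3 a4 ha4 x hx hxirr hrel
  obtain ⟨K1, hK1⟩ := hposa b hb ε C hε a1 a2 a3 a4 ha4 T hT
  obtain ⟨hs1, hs2, hs3, hs4, hs5, hs6, hs7⟩ := hsup ε C hε
  obtain ⟨K0, hK0, hex⟩ := hex
  obtain ⟨p0, hp0, -, hA0⟩ := hK 0
  have hC0 : (0 : ℝ) ≤ C := by
    have : (0 : ℤ) ≤ C := (hε 0).1.trans (hε 0).2
    exact_mod_cast this
  have ha4R : (1 : ℝ) ≤ a4 := by exact_mod_cast ha4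
  set A : ℝ := 32 * a4 * C ^ 4 * K0 + 1 with hA
  have hA1 : 0 < A := by rw [hA]; positivity
  obtain ⟨k, hk⟩ := pow_unbounded_of_one_lt (80 * A) (by norm_num : (1 : ℝ) < 2)
  obtain ⟨q, c, hq, h1, h2⟩ := hex k
  have hqR : (1 : ℝ) ≤ q := by exact_mod_cast hq
  obtain ⟨X2, hX2⟩ := hup b hb ε C hε hsupp a1 a2 a3 a4 ha4 T hT q (c + k) K0 hq h2
  obtain ⟨X3, hX3⟩ := hwin ε C hε hsupp a1 a2 a3 a4 q c k hq h1
  obtain ⟨X, hX, g1⟩ := hposb (fun m => ε m ≠ 0 ∨ G2 ε m ≠ 0 ∨ G3 ε m ≠ 0) (fun m => G3 ε m ≠ 0)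
    (fun m => ε m ≠ 0) (fun M => 1 ≤ T M) K K1 3 (2 * p0)
    (fun m hm => Or.inr (Or.inr hm)) (fun m hm => Or.inl hm)
    (fun m hm hm2 => by
      by_cases h : G2 ε m ≠ 0
      · exact ⟨p0, hp0, by omega, hs3 m p0 h hA0⟩
      · have h' : ε m ≠ 0 := by
          rcases hm with h1 | h1 | h1
          · exact h1
          · exact absurd h1 h
          · exact absurd h1 hm2
        refine ⟨2 * p0, by omega, le_rfl, ?_⟩
        have := hs3 (m + p0) p0 (hs2 m p0 h' hA0) hA0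
        have e : m + 2 * p0 = m + p0 + p0 := by ring
        rw [e]
        exact this) hK
    (fun s X h => by convert hcnt ε C hε hsupp s X h)
    (fun R a R' hR ha hgap h M hM1 hM2 => hK1 R a R' hR ha
      (fun m h1 h2 => by
        have := hgap m h1 h2
        simp only [not_or, not_not] at this
        exact this) h M hM1 hM2)
    q c hq (X2 + X3 + k + 1)
  have g2 := hX2 (X + k) (by omega)
  have g3 := hX3 X (by omega)
  set E := (range X).filter (fun M => M ≡ c [MOD q] ∧ 1 ≤ T M) with hE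
  set B2 := (range X).filter (fun M => M ≡ c [MOD q] ∧
    ∃ j ∈ Icc 1 k, FQ ε a1 a2 a3 a4 (M + j) ≠ 0) with hB2
  set E' := E \ B2 with hE'
  have hX0 : (0 : ℝ) < X := by
    have : 0 < X := by omega
    exact_mod_cast this
  have hE'c : (X : ℝ) / (40 * q) ≤ E'.card := by
    have e1 : E.card ≤ E'.card + B2.card := by
      have := card_le_card_sdiff_add_card (s := E) (t := B2)
      rw [← hE'] at this
      exact this
    have e2 : (X : ℝ) / (8 * q) ≤ E'.card + B2.card := by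
      refine g1.trans ?_
      exact_mod_cast e1
    have e3 : (X : ℝ) / (40 * q) = X / (8 * q) - X / (10 * q) := by field_simp; norm_num
    rw [e3]
    linarith
  have hval : ∀ M ∈ E', (b : ℝ) ^ k ≤ |(T (M + k) : ℝ)| := by
    intro M hM
    rw [hE', mem_sdiff, hE, hB2] at hM
    simp only [mem_filter, mem_range] at hM
    obtain ⟨⟨hM1, hM2, hT1⟩, hM4⟩ := hM
    have hw : ∀ j ∈ Icc 1 k, FQ ε a1 a2 a3 a4 (M + j) = 0 := by
      intro j hj
      by_contra hne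
      exact hM4 ⟨hM1, hM2, j, hj, hne⟩
    have := window_mulQ hT.1 M k hw
    rw [this]
    push_cast
    have hT1R : (1 : ℝ) ≤ T M := by exact_mod_cast hT1
    have hb0 : (0 : ℝ) ≤ (b : ℝ) ^ k := by positivity
    rw [abs_of_nonneg (by positivity)]
    nlinarith
  have hsum : (E'.card : ℝ) * (b : ℝ) ^ k ≤ A * ((X + k : ℕ) : ℝ) / q := by
    refine le_trans ?_ g2
    have s1 : (E'.card : ℝ) * (b : ℝ) ^ k ≤ ∑ M ∈ E', |(T (M + k) : ℝ)| := by
      rw [← nsmul_eq_mul]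
      exact card_nsmul_le_sum _ _ _ hval
    refine s1.trans ?_
    have s2 : ∑ M ∈ E', |(T (M + k) : ℝ)| = ∑ M' ∈ E'.image (fun M => M + k), |(T M' : ℝ)| := by
      rw [sum_image]
      intro i _ j _ hij
      simpa using hij
    rw [s2]
    refine sum_le_sum_of_subset_of_nonneg ?_ (fun _ _ _ => abs_nonneg _)
    intro m hm
    rw [mem_image] at hm
    obtain ⟨M, hM, rfl⟩ := hm
    rw [hE', mem_sdiff, hE, mem_filter, mem_range] at hM
    rw [mem_filter, mem_range]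
    exact ⟨by omega, hM.1.2.1.add_right k⟩
  have hYk : (k : ℝ) ≤ X := by
    have : k ≤ X := by omega
    exact_mod_cast this
  have hfin : (X : ℝ) / (40 * q) * (b : ℝ) ^ k ≤ A * (2 * X) / q := by
    calc (X : ℝ) / (40 * q) * (b : ℝ) ^ k ≤ E'.card * (b : ℝ) ^ k := by gcongr
      _ ≤ A * ((X + k : ℕ) : ℝ) / q := hsum
      _ ≤ A * (2 * X) / q := by
          push_cast
          gcongr
          linarith
  have hbk : (80 * A) < (b : ℝ) ^ k := by
    refine hk.trans_le ?_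
    have : (2 : ℝ) ≤ b := by exact_mod_cast hb
    gcongr
  have h3 : (X : ℝ) / (40 * q) * (b : ℝ) ^ k * (40 * q) ≤ A * (2 * X) / q * (40 * q) := by
    gcongr
  have h4 : (X : ℝ) / (40 * q) * (b : ℝ) ^ k * (40 * q) = X * (b : ℝ) ^ k := by field_simp
  have h5 : A * (2 * X) / q * (40 * q) = X * (80 * A) := by field_simp; ring
  rw [h4, h5] at h3
  have := lt_of_mul_lt_mul_left (lt_of_lt_of_le (mul_lt_mul_of_pos_left hbk hX0) h3) hX0.le
  exact lt_irrefl _ this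

theorem polyQ (hfin : S_FINQ) (b : ℕ) (hb : 2 ≤ b) (ε : ℕ → ℤ) (C : ℤ)
    (hε : ∀ n, 0 ≤ ε n ∧ ε n ≤ C) (hinf : ∀ N : ℕ, ∃ n, N ≤ n ∧ ε n ≠ 0)
    (P : ℤ[X]) (hP : P ≠ 0) (hdeg : P.natDegree ≤ 4) :
    aeval (∑' n : ℕ, (ε n : ℝ) / (b : ℝ) ^ (n ^ 4)) P ≠ 0 := by
  intro h0
  have hinj : Function.Injective (fun u : ℕ => u ^ 4) := Nat.pow_left_injective (by norm_num)
  set e : ℕ → ℤ := Function.extend (fun u : ℕ => u ^ 4) ε 0 with he
  have he1 : ∀ u : ℕ, e (u ^ 4) = ε u := fun u => hinj.extend_apply ε 0 u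
  have he2 : ∀ m : ℕ, (¬ ∃ u : ℕ, u ^ 4 = m) → e m = 0 := fun m hm => by
    rw [he, Function.extend_apply' _ _ _ hm]
    rfl
  have hC : (0 : ℤ) ≤ C := (hε 0).1.trans (hε 0).2
  have he3 : ∀ m, 0 ≤ e m ∧ e m ≤ C := by
    intro m
    by_cases h : ∃ u : ℕ, u ^ 4 = m
    · obtain ⟨u, rfl⟩ := h
      rw [he1]
      exact hε u
    · rw [he2 m h]
      exact ⟨le_rfl, hC⟩
  have he4 : Sup4 e := by
    intro m hm
    by_contra h
    exact hm (he2 m h)
  have he5 : ∀ N : ℕ, ∃ n, N ≤ n ∧ e n ≠ 0 := by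
    intro N
    obtain ⟨n, hn1, hn2⟩ := hinf N
    exact ⟨n ^ 4, hn1.trans (Nat.le_self_pow (by norm_num) n), by rw [he1]; exact hn2⟩
  have hts : ∑' n : ℕ, (ε n : ℝ) / (b : ℝ) ^ (n ^ 4) = ∑' m : ℕ, (e m : ℝ) / (b : ℝ) ^ m := by
    rw [← hinj.tsum_eq (f := fun m : ℕ => (e m : ℝ) / (b : ℝ) ^ m)]
    · refine tsum_congr fun n => ?_
      simp only [he1]
    · intro m hm
      rw [Function.mem_support] at hm
      by_contra h
      apply hm
      rw [he2 m (by rintro ⟨u, hu⟩; exact h ⟨u, hu⟩)]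
      simp
  rw [hts] at h0
  set x : ℝ := ∑' m : ℕ, (e m : ℝ) / (b : ℝ) ^ m with hx
  obtain ⟨Q, hQ⟩ : ∃ Q : ℤ[X], Q = P * X ^ (4 - P.natDegree) := ⟨_, rfl⟩
  have hQ0 : aeval x Q = 0 := by rw [hQ, map_mul, h0, zero_mul]
  have hQd : Q.natDegree = 4 := by
    rw [hQ, natDegree_mul_X_pow _ hP]; omega
  have hQl : Q.coeff 4 ≠ 0 := by
    rw [← hQd]
    refine leadingCoeff_ne_zero.2 ?_
    rw [hQ]
    exact mul_ne_zero hP (pow_ne_zero _ X_ne_zero)
  have hexp : aeval x Q = (Q.coeff 0 : ℝ) + Q.coeff 1 * x + Q.coeff 2 * x ^ 2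
      + Q.coeff 3 * x ^ 3 + Q.coeff 4 * x ^ 4 := by
    rw [aeval_eq_sum_range' (n := 5) (by omega)]
    simp [Finset.sum_range_succ]
  rcases lt_or_gt_of_ne hQl with h | h
  · refine hfin b hb e C he3 he4 he5 (-Q.coeff 0) (-Q.coeff 1) (-Q.coeff 2) (-Q.coeff 3)
      (-Q.coeff 4) (by omega) x hx ?_
    push_cast
    linarith
  · refine hfin b hb e C he3 he4 he5 (Q.coeff 0) (Q.coeff 1) (Q.coeff 2) (Q.coeff 3) (Q.coeff 4)
      (by omega) x hx ?_
    linarith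

end Pool.Agent.H52.TC
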