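import Pool.Agent.H52.TC.Stm

/-! TC-GRE: a sum of three cubes a little above `M`. -/

set_option autoImplicit false

namespace Pool.Agent.H52.TC

open Finset

namespace GreAux

theorem cub (n : ℕ) : ∃ u : ℕ, u ^ 3 ≤ n ∧ n < (u + 1) ^ 3 := by
  induction n with
  | zero => exact ⟨0, by norm_num, by norm_num⟩
  | succ n ih =>
    obtain ⟨u, h1, h2⟩ := ih
    by_cases h : n + 1 < (u + 1) ^ 3
    · exact ⟨u, by omega, h⟩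
    · refine ⟨u + 1, by omega, ?_⟩
      have h3 : (u + 1) ^ 3 < (u + 1 + 1) ^ 3 := Nat.pow_lt_pow_left (by omega) (by norm_num)
      omega

theorem rest {n u : ℕ} (h1 : u ^ 3 ≤ n) (h2 : n < (u + 1) ^ 3) : (n - u ^ 3 + 1) ^ 3 ≤ 1736 * (n + 1) ^ 2 := by
  obtain ⟨r, rfl⟩ := Nat.exists_eq_add_of_le h1
  rw [Nat.add_sub_cancel_left]
  have h3 : r ≤ 6 * u ^ 2 := by
    have h4 : r < 3 * u ^ 2 + 3 * u + 1 := by nlinarith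
    have h5 : u ≤ u ^ 2 := by
      rcases Nat.eq_zero_or_pos u with h | h
      · rw [h]; norm_num
      · nlinarith
    omega
  have h4 : r ^ 3 ≤ 216 * (u ^ 3 + r) ^ 2 := by
    calc r ^ 3 ≤ (6 * u ^ 2) ^ 3 := Nat.pow_le_pow_left h3 3
      _ = 216 * (u ^ 3) ^ 2 := by ring
      _ ≤ 216 * (u ^ 3 + r) ^ 2 := Nat.mul_le_mul_left _ (Nat.pow_le_pow_left (by omega) 2)
  have h5 : (r + 1) ^ 3 ≤ 8 * (r ^ 3 + 1) := by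
    rcases Nat.eq_zero_or_pos r with h | h
    · rw [h]; norm_num
    · calc (r + 1) ^ 3 ≤ (2 * r) ^ 3 := Nat.pow_le_pow_left (by omega) 3
        _ = 8 * r ^ 3 := by ring
        _ ≤ 8 * (r ^ 3 + 1) := by omega
  have h6 : 1 ≤ (u ^ 3 + r + 1) ^ 2 := Nat.one_le_pow _ _ (by omega)
  have h7 : (u ^ 3 + r) ^ 2 ≤ (u ^ 3 + r + 1) ^ 2 := Nat.pow_le_pow_left (by omega) 2
  omega

theorem last {n w : ℕ} (h1 : w ^ 3 ≤ n) (h2 : n < (w + 1) ^ 3) : ((w + 1) ^ 3 - n) ^ 3 ≤ 343 * (n + 1) ^ 2 := by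
  have h3 : (w + 1) ^ 3 - n ≤ 3 * w ^ 2 + 3 * w + 1 := by
    have : (w + 1) ^ 3 = w ^ 3 + 3 * w ^ 2 + 3 * w + 1 := by ring
    omega
  rcases Nat.eq_zero_or_pos w with h | h
  · subst h
    calc ((0 + 1) ^ 3 - n) ^ 3 ≤ 1 ^ 3 := Nat.pow_le_pow_left (by omega) 3
      _ ≤ 343 * (n + 1) ^ 2 := by nlinarith
  · have h4 : 3 * w ^ 2 + 3 * w + 1 ≤ 7 * w ^ 2 := by nlinarith
    calc ((w + 1) ^ 3 - n) ^ 3 ≤ (7 * w ^ 2) ^ 3 := Nat.pow_le_pow_left (h3.trans h4) 3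
      _ = 343 * (w ^ 3) ^ 2 := by ring
      _ ≤ 343 * (n + 1) ^ 2 := Nat.mul_le_mul_left _ (Nat.pow_le_pow_left (by omega) 2)

end GreAux

open GreAux

theorem gre : S_GRE := by
  refine ⟨343 ^ 9 * 1736 ^ 10, fun M => ?_⟩
  obtain ⟨u, hu1, hu2⟩ := cub M
  set r1 := M - u ^ 3 with hr1
  obtain ⟨v, hv1, hv2⟩ := cub r1
  set r2 := r1 - v ^ 3 with hr2
  obtain ⟨w, hw1, hw2⟩ := cub r2
  have a1 : (r1 + 1) ^ 3 ≤ 1736 * (M + 1) ^ 2 := rest hu1 hu2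
  have a2 : (r2 + 1) ^ 3 ≤ 1736 * (r1 + 1) ^ 2 := rest hv1 hv2
  have a3 : ((w + 1) ^ 3 - r2) ^ 3 ≤ 343 * (r2 + 1) ^ 2 := last hw1 hw2
  refine ⟨u, v, w + 1, by omega, ?_⟩
  have e : u ^ 3 + v ^ 3 + (w + 1) ^ 3 - M = (w + 1) ^ 3 - r2 := by omega
  rw [e]
  calc ((w + 1) ^ 3 - r2) ^ 27 = (((w + 1) ^ 3 - r2) ^ 3) ^ 9 := by rw [← pow_mul]
    _ ≤ (343 * (r2 + 1) ^ 2) ^ 9 := Nat.pow_le_pow_left a3 9
    _ = 343 ^ 9 * ((r2 + 1) ^ 3) ^ 6 := by rw [mul_pow, ← pow_mul, ← pow_mul]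
    _ ≤ 343 ^ 9 * (1736 * (r1 + 1) ^ 2) ^ 6 := Nat.mul_le_mul_left _ (Nat.pow_le_pow_left a2 6)
    _ = 343 ^ 9 * (1736 ^ 6 * ((r1 + 1) ^ 3) ^ 4) := by rw [mul_pow, ← pow_mul, ← pow_mul]
    _ ≤ 343 ^ 9 * (1736 ^ 6 * (1736 * (M + 1) ^ 2) ^ 4) :=
        Nat.mul_le_mul_left _ (Nat.mul_le_mul_left _ (Nat.pow_le_pow_left a1 4))
    _ = 343 ^ 9 * 1736 ^ 10 * (M + 1) ^ 8 := by
        rw [mul_pow, ← pow_mul]
        have : (1736 : ℕ) ^ 10 = 1736 ^ 6 * 1736 ^ 4 := by rw [← pow_add]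
        rw [this, show 2 * 4 = 8 from rfl]
        generalize (1736 : ℕ) ^ 6 = p
        generalize (1736 : ℕ) ^ 4 = q
        generalize (343 : ℕ) ^ 9 = s
        generalize (M + 1) ^ 8 = t
        ring

end Pool.Agent.H52.TC
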