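import Pool.Agent.H52.TC.Stm2

/-! TC-IRR: irrationality by sparse digits -/

set_option autoImplicit false

namespace Pool.Agent.H52.TC

open Finset

lemma IRR.pow_ge (n N : ℕ) (h : N < n) : N ^ 3 + n ≤ n ^ 3 := by
  obtain ⟨m, rfl⟩ : ∃ m, n = m + 1 := ⟨n - 1, by omega⟩
  have h1 : N ^ 3 ≤ m ^ 3 := Nat.pow_le_pow_left (by omega) 3
  have h2 : (m + 1) ^ 3 = m ^ 3 + 3 * m ^ 2 + 3 * m + 1 := by ring
  omega

theorem irr : S_IRR := by
  intro b hb ε C hε hinf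
  have hbR : (2 : ℝ) ≤ b := by exact_mod_cast hb
  have hb0 : (0 : ℝ) < b := by linarith
  have hC : (0 : ℝ) ≤ C := by
    have := (hε 0).1.trans (hε 0).2
    exact_mod_cast this
  have hε0 : ∀ n, (0 : ℝ) ≤ ε n := fun n => by exact_mod_cast (hε n).1
  have hεC : ∀ n, (ε n : ℝ) ≤ C := fun n => by exact_mod_cast (hε n).2
  set a : ℕ → ℝ := fun n => (ε n : ℝ) / (b : ℝ) ^ (n ^ 3) with ha
  have ha0 : ∀ n, 0 ≤ a n := fun n => div_nonneg (hε0 n) (pow_nonneg hb0.le _)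
  -- the tail bound
  have hle : ∀ N n, N < n → a n * (b : ℝ) ^ (N ^ 3) ≤ C * (1 / 2) ^ n := by
    intro N n hn
    have h1 := IRR.pow_ge n N hn
    have h2 : (b : ℝ) ^ (N ^ 3) * 2 ^ n ≤ (b : ℝ) ^ (n ^ 3) := by
      calc (b : ℝ) ^ (N ^ 3) * 2 ^ n ≤ (b : ℝ) ^ (N ^ 3) * (b : ℝ) ^ n := by
            refine mul_le_mul_of_nonneg_left ?_ (pow_nonneg hb0.le _)
            exact pow_le_pow_left₀ (by norm_num) hbR n
        _ = (b : ℝ) ^ (N ^ 3 + n) := (pow_add _ _ _).symm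
        _ ≤ (b : ℝ) ^ (n ^ 3) := pow_le_pow_right₀ (by linarith) h1
    rw [ha]
    simp only
    rw [div_mul_eq_mul_div, div_le_iff₀ (pow_pos hb0 _), one_div, inv_pow]
    calc (ε n : ℝ) * (b : ℝ) ^ (N ^ 3) ≤ C * (b : ℝ) ^ (N ^ 3) :=
          mul_le_mul_of_nonneg_right (hεC n) (pow_nonneg hb0.le _)
      _ = C * ((2 : ℝ) ^ n)⁻¹ * ((b : ℝ) ^ (N ^ 3) * 2 ^ n) := by
          field_simp
      _ ≤ C * ((2 : ℝ) ^ n)⁻¹ * (b : ℝ) ^ (n ^ 3) :=
          mul_le_mul_of_nonneg_left h2 (mul_nonneg hC (inv_nonneg.2 (by positivity)))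
  have hsum : Summable a := by
    have h1 : Summable (fun n : ℕ => a (n + 1)) := by
      refine Summable.of_nonneg_of_le (fun n => ha0 _) (fun n => ?_)
        ((summable_nat_add_iff 1).2 (summable_geometric_two.mul_left (C : ℝ)))
      have := hle 0 (n + 1) (by omega)
      simpa using this
    exact (summable_nat_add_iff 1).1 h1
  rintro ⟨q, hq⟩
  have hrpos : (0 : ℝ) < q.den := by exact_mod_cast q.den_pos
  have hxr : (∑' n, a n) * q.den = q.num := by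
    rw [← hq]
    exact_mod_cast Rat.mul_den_eq_num q
  obtain ⟨N, hN⟩ := pow_unbounded_of_one_lt ((q.den : ℝ) * C + 1) (by norm_num : (1 : ℝ) < 2)
  have hsplit := hsum.sum_add_tsum_nat_add (N + 1)
  set t : ℝ := ∑' i, a (i + (N + 1)) with ht
  have hsumt : Summable (fun i => a (i + (N + 1))) := (summable_nat_add_iff (N + 1)).2 hsum
  have htpos : 0 < t := by
    obtain ⟨n, hn, hn0⟩ := hinf (N + 1)
    refine hsumt.tsum_pos (fun i => ha0 _) (n - (N + 1)) ?_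
    rw [Nat.sub_add_cancel hn]
    have h1 : (0 : ℝ) < ε n := lt_of_le_of_ne (hε0 n) (by exact_mod_cast hn0.symm)
    exact div_pos h1 (pow_pos hb0 _)
  have htle : t * (b : ℝ) ^ (N ^ 3) ≤ C * (1 / 2) ^ N := by
    rw [ht, ← tsum_mul_right]
    have h1 : ∑' i : ℕ, (C : ℝ) * (1 / 2) ^ (N + 1) * (1 / 2) ^ i = C * (1 / 2) ^ N := by
      rw [tsum_mul_left, tsum_geometric_two, pow_succ]; ring
    rw [← h1]
    refine Summable.tsum_le_tsum (fun i => ?_) (hsumt.mul_right _)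
      (summable_geometric_two.mul_left _)
    have h2 := hle N (i + (N + 1)) (by omega)
    rw [pow_add] at h2
    linarith
  -- the integer
  have hint : ∀ i ∈ range (N + 1), a i * (b : ℝ) ^ (N ^ 3) = ((ε i * (b : ℤ) ^ (N ^ 3 - i ^ 3) : ℤ) : ℝ) := by
    intro i hi
    have h1 : i ^ 3 ≤ N ^ 3 := Nat.pow_le_pow_left (by rw [Finset.mem_range] at hi; omega) 3
    rw [ha]
    push_cast
    rw [div_mul_eq_mul_div, div_eq_iff (pow_pos hb0 _).ne', mul_assoc, ← pow_add,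
      Nat.sub_add_cancel h1]
  have hz : ((q.num * (b : ℤ) ^ (N ^ 3) -
      (q.den : ℤ) * ∑ i ∈ range (N + 1), ε i * (b : ℤ) ^ (N ^ 3 - i ^ 3) : ℤ) : ℝ) =
      q.den * (t * (b : ℝ) ^ (N ^ 3)) := by
    have h1 : ((∑ i ∈ range (N + 1), ε i * (b : ℤ) ^ (N ^ 3 - i ^ 3) : ℤ) : ℝ) =
        (∑ i ∈ range (N + 1), a i) * (b : ℝ) ^ (N ^ 3) := by
      rw [Int.cast_sum, Finset.sum_mul]
      exact Finset.sum_congr rfl fun i hi => (hint i hi).symm
    rw [Int.cast_sub, Int.cast_mul, Int.cast_mul, h1, ← hxr, ← hsplit]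
    push_cast
    ring
  have hlt1 : (q.den : ℝ) * (t * (b : ℝ) ^ (N ^ 3)) < 1 := by
    have h1 : (q.den : ℝ) * (t * (b : ℝ) ^ (N ^ 3)) ≤ q.den * (C * (1 / 2) ^ N) :=
      mul_le_mul_of_nonneg_left htle hrpos.le
    refine h1.trans_lt ?_
    rw [one_div, inv_pow, ← mul_assoc, ← div_eq_mul_inv, div_lt_one (by positivity)]
    linarith
  have hgt0 : 0 < (q.den : ℝ) * (t * (b : ℝ) ^ (N ^ 3)) :=
    mul_pos hrpos (mul_pos htpos (pow_pos hb0 _))
  rw [← hz] at hlt1 hgt0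
  have h5 : (0 : ℤ) < q.num * (b : ℤ) ^ (N ^ 3) -
      (q.den : ℤ) * ∑ i ∈ range (N + 1), ε i * (b : ℤ) ^ (N ^ 3 - i ^ 3) := by
    exact_mod_cast hgt0
  have h6 : q.num * (b : ℤ) ^ (N ^ 3) -
      (q.den : ℤ) * ∑ i ∈ range (N + 1), ε i * (b : ℤ) ^ (N ^ 3 - i ^ 3) < 1 := by
    exact_mod_cast hlt1
  omega

end Pool.Agent.H52.TC
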