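import Pool.Agent.H52.TC.Stm

/-!
# Project TC: lattice points (LAT)
-/

set_option autoImplicit false

namespace Pool.Agent.H52.TC

open Finset

namespace LAT

/-- convolution of two weighted families -/
theorem conv {α β : Type} (A : Finset α) (B : Finset β) (f : α → ℕ) (g : β → ℕ) (x : α → ℤ) (y : β → ℤ)
    (m : ℕ) :
    ∑ ij ∈ antidiagonal m, (∑ p ∈ A, if f p = ij.1 then x p else 0) *
      (∑ q ∈ B, if g q = ij.2 then y q else 0) =
    ∑ r ∈ A ×ˢ B, if f r.1 + g r.2 = m then x r.1 * y r.2 else 0 := by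
  have h1 : ∀ ij ∈ antidiagonal m, (∑ p ∈ A, if f p = ij.1 then x p else 0) *
      (∑ q ∈ B, if g q = ij.2 then y q else 0) =
      ∑ r ∈ A ×ˢ B, (if f r.1 = ij.1 then x r.1 else 0) * (if g r.2 = ij.2 then y r.2 else 0) := by
    intro ij _
    rw [sum_mul_sum, sum_product]
  rw [sum_congr rfl h1, sum_comm]
  refine sum_congr rfl fun r _ => ?_
  by_cases h : f r.1 + g r.2 = m
  · rw [if_pos h, sum_eq_single (f r.1, g r.2)]
    · simp
    · rintro ⟨i, j⟩ _ hne
      by_cases hi : f r.1 = i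
      · have hj : g r.2 ≠ j := by
          rintro rfl
          exact hne (by rw [hi])
        simp only [if_neg hj, mul_zero]
      · simp only [if_neg hi, zero_mul]
    · intro hn
      exact absurd (HasAntidiagonal.mem_antidiagonal.2 h) hn
  · rw [if_neg h]
    refine sum_eq_zero ?_
    rintro ⟨i, j⟩ hij
    rw [HasAntidiagonal.mem_antidiagonal] at hij
    simp only at hij
    by_cases hi : f r.1 = i
    · have hj : g r.2 ≠ j := by
        rintro rfl
        exact h (by rw [hi]; exact hij)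
      simp only [if_neg hj, mul_zero]
    · simp only [if_neg hi, zero_mul]

theorem E1_eq (ε : ℕ → ℤ) {s m : ℕ} (hm : m < (s + 1) ^ 3) :
    E1 ε m = ∑ u ∈ range (s + 1), if u ^ 3 = m then ε u else 0 := by
  unfold E1
  rw [← sum_filter, ← sum_filter]
  congr 1
  ext u
  rw [mem_filter, mem_filter, mem_range, mem_range]
  constructor
  · rintro ⟨_, h⟩
    refine ⟨?_, h⟩
    rw [← h] at hm
    exact lt_of_pow_lt_pow_left₀ 3 (Nat.zero_le _) hm
  · rintro ⟨_, h⟩
    refine ⟨?_, h⟩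
    have : u ≤ u ^ 3 := Nat.le_self_pow (by norm_num) u
    omega

theorem E2_eq (ε : ℕ → ℤ) {s m : ℕ} (hm : m < (s + 1) ^ 3) :
    E2 ε m = ∑ r ∈ range (s + 1) ×ˢ range (s + 1),
      if r.1 ^ 3 + r.2 ^ 3 = m then ε r.1 * ε r.2 else 0 := by
  have h := conv (range (s + 1)) (range (s + 1)) (fun u => u ^ 3) (fun u => u ^ 3) ε ε m
  refine Eq.trans ?_ h
  unfold E2
  refine sum_congr rfl ?_
  rintro ⟨i, j⟩ hij
  rw [HasAntidiagonal.mem_antidiagonal] at hij
  simp only at hij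
  rw [E1_eq ε (s := s) (m := i) (by omega), E1_eq ε (s := s) (m := j) (by omega)]

theorem E3_eq (ε : ℕ → ℤ) {s m : ℕ} (hm : m < (s + 1) ^ 3) :
    E3 ε m = ∑ r ∈ (range (s + 1) ×ˢ range (s + 1)) ×ˢ range (s + 1),
      if r.1.1 ^ 3 + r.1.2 ^ 3 + r.2 ^ 3 = m then ε r.1.1 * ε r.1.2 * ε r.2 else 0 := by
  have h := conv (range (s + 1) ×ˢ range (s + 1)) (range (s + 1)) (fun r => r.1 ^ 3 + r.2 ^ 3)
    (fun u => u ^ 3) (fun r => ε r.1 * ε r.2) ε m
  refine Eq.trans ?_ h
  unfold E3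
  refine sum_congr rfl ?_
  rintro ⟨i, j⟩ hij
  rw [HasAntidiagonal.mem_antidiagonal] at hij
  simp only at hij
  rw [E2_eq ε (s := s) (m := i) (by omega), E1_eq ε (s := s) (m := j) (by omega)]

/-- the sum over a set of values -/
theorem bound {α : Type} (A : Finset α) (f : α → ℕ) (x : α → ℤ) (D : ℤ) (hx : ∀ r ∈ A, x r ≤ D)
    (M : Finset ℕ) :
    ∑ m ∈ M, ∑ r ∈ A, (if f r = m then x r else 0) ≤ D * ((A.filter fun r => f r ∈ M).card : ℤ) := by
  rw [sum_comm]
  have h1 : ∀ r ∈ A, ∑ m ∈ M, (if f r = m then x r else 0) = if f r ∈ M then x r else 0 := by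
    intro r _
    rw [sum_ite_eq]
  rw [sum_congr rfl h1, ← sum_filter]
  refine (sum_le_card_nsmul _ _ D ?_).trans (le_of_eq ?_)
  · intro r hr
    exact hx r (mem_filter.1 hr).1
  · rw [nsmul_eq_mul, mul_comm]

end LAT

open LAT in
theorem lat : S_LAT := by
  intro ε C hε s Y hY
  have hC : 0 ≤ C := (hε 0).1.trans (hε 0).2
  have hb2 : ∀ u v : ℕ, ε u * ε v ≤ C ^ 2 := by
    intro u v
    rw [sq]
    exact mul_le_mul (hε u).2 (hε v).2 (hε v).1 hC
  have hb3 : ∀ u v w : ℕ, ε u * ε v * ε w ≤ C ^ 3 := by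
    intro u v w
    rw [pow_succ]
    exact mul_le_mul (hb2 u v) (hε w).2 (hε w).1 (by positivity)
  refine ⟨?_, ?_, ?_⟩
  · intro q n hq
    set M := (range (Y + 1)).filter (fun m => m ≡ n [MOD q]) with hM
    set A := (range (s + 1) ×ˢ range (s + 1)) ×ˢ range (s + 1) with hA
    have h1 : ∑ m ∈ M, E3 ε m = ∑ m ∈ M, ∑ r ∈ A,
        if r.1.1 ^ 3 + r.1.2 ^ 3 + r.2 ^ 3 = m then ε r.1.1 * ε r.1.2 * ε r.2 else 0 := by
      refine sum_congr rfl fun m hm => ?_
      rw [hM, mem_filter, mem_range] at hm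
      exact E3_eq ε (by omega)
    rw [h1]
    refine (bound A (fun r => r.1.1 ^ 3 + r.1.2 ^ 3 + r.2 ^ 3)
      (fun r => ε r.1.1 * ε r.1.2 * ε r.2) (C ^ 3) (fun r _ => hb3 _ _ _) M).trans ?_
    have h2 : (A.filter fun r => r.1.1 ^ 3 + r.1.2 ^ 3 + r.2 ^ 3 ∈ M).card ≤
        rho q n * (s / q + 1) ^ 3 := by
      have e1 : rho q n * (s / q + 1) ^ 3 =
          (((range q ×ˢ range q ×ˢ range q).filter
            fun t => (t.1 ^ 3 + t.2.1 ^ 3 + t.2.2 ^ 3) ≡ n [MOD q]) ×ˢ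
            (range (s / q + 1) ×ˢ range (s / q + 1) ×ˢ range (s / q + 1))).card := by
        rw [card_product, card_product, card_product, card_range, rho]
        ring
      rw [e1]
      refine card_le_card_of_injOn
        (fun r => ((r.1.1 % q, r.1.2 % q, r.2 % q), (r.1.1 / q, r.1.2 / q, r.2 / q))) ?_ ?_
      · rintro ⟨⟨u, v⟩, w⟩ hr
        simp only [coe_filter, Set.mem_ofPred_eq, hA, hM, mem_product, mem_range, mem_filter] at hr
        obtain ⟨⟨⟨hu, hv⟩, hw⟩, _, hmod⟩ := hr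
        simp only [coe_product, Set.mem_prod, coe_filter, Set.mem_ofPred_eq, mem_product, mem_range,
          coe_range, Set.mem_Iio]
        refine ⟨⟨⟨Nat.mod_lt _ hq, Nat.mod_lt _ hq, Nat.mod_lt _ hq⟩, ?_⟩, ?_, ?_, ?_⟩
        · refine Nat.ModEq.trans ?_ hmod
          exact (((Nat.mod_modEq u q).pow 3).add ((Nat.mod_modEq v q).pow 3)).add
            ((Nat.mod_modEq w q).pow 3)
        · exact Nat.lt_succ_of_le (Nat.div_le_div_right (by omega))
        · exact Nat.lt_succ_of_le (Nat.div_le_div_right (by omega))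
        · exact Nat.lt_succ_of_le (Nat.div_le_div_right (by omega))
      · rintro ⟨⟨u, v⟩, w⟩ _ ⟨⟨u', v'⟩, w'⟩ _ h
        simp only [Prod.mk.injEq] at h
        obtain ⟨⟨a1, a2, a3⟩, b1, b2, b3⟩ := h
        have key : ∀ a b : ℕ, a % q = b % q → a / q = b / q → a = b := by
          intro a b hab hab'
          rw [← Nat.div_add_mod a q, ← Nat.div_add_mod b q, hab, hab']
        rw [key u u' a1 b1, key v v' a2 b2, key w w' a3 b3]
    calc C ^ 3 * ((A.filter fun r => r.1.1 ^ 3 + r.1.2 ^ 3 + r.2 ^ 3 ∈ M).card : ℤ) ≤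
        C ^ 3 * ((rho q n * (s / q + 1) ^ 3 : ℕ) : ℤ) := by
          apply mul_le_mul_of_nonneg_left _ (by positivity)
          exact_mod_cast h2
      _ = C ^ 3 * (rho q n : ℤ) * ((s / q + 1 : ℕ) : ℤ) ^ 3 := by
          push_cast
          ring
  · have h1 : ∑ m ∈ range (Y + 1), E2 ε m = ∑ m ∈ range (Y + 1),
        ∑ r ∈ range (s + 1) ×ˢ range (s + 1), if r.1 ^ 3 + r.2 ^ 3 = m then ε r.1 * ε r.2 else 0 := by
      refine sum_congr rfl fun m hm => ?_
      rw [mem_range] at hm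
      exact E2_eq ε (by omega)
    rw [h1]
    refine (bound (range (s + 1) ×ˢ range (s + 1)) (fun r => r.1 ^ 3 + r.2 ^ 3)
      (fun r => ε r.1 * ε r.2) (C ^ 2) (fun r _ => hb2 _ _) (range (Y + 1))).trans ?_
    apply mul_le_mul_of_nonneg_left _ (by positivity)
    have h2 := card_filter_le (range (s + 1) ×ˢ range (s + 1))
      (fun r => r.1 ^ 3 + r.2 ^ 3 ∈ range (Y + 1))
    rw [card_product, card_range] at h2
    have h3 : (((range (s + 1) ×ˢ range (s + 1)).filter
        fun r => r.1 ^ 3 + r.2 ^ 3 ∈ range (Y + 1)).card : ℤ) ≤ (((s + 1) * (s + 1) : ℕ) : ℤ) := by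
      exact_mod_cast h2
    refine h3.trans (le_of_eq ?_)
    push_cast
    ring
  · have h1 : ∑ m ∈ range (Y + 1), E1 ε m = ∑ m ∈ range (Y + 1),
        ∑ u ∈ range (s + 1), if u ^ 3 = m then ε u else 0 := by
      refine sum_congr rfl fun m hm => ?_
      rw [mem_range] at hm
      exact E1_eq ε (by omega)
    rw [h1]
    refine (bound (range (s + 1)) (fun u => u ^ 3) ε C (fun u _ => (hε u).2) (range (Y + 1))).trans ?_
    apply mul_le_mul_of_nonneg_left _ hC
    have h2 := card_filter_le (range (s + 1)) (fun u => u ^ 3 ∈ range (Y + 1))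
    rw [card_range] at h2
    exact_mod_cast h2

end Pool.Agent.H52.TC
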