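import Pool.Agent.H52.TC.Stm3
import Pool.Agent.H52.TC.LAT

/-!
# Project TC: lattice points off the cubes (LAT3, helper33; adapted from LAT.lean)
-/

set_option autoImplicit false

namespace Pool.Agent.H52.TC

open Finset

namespace LAT3

theorem count (q n s : ℕ) (hq : 1 ≤ q) :
    (((range (s + 1) ×ˢ range (s + 1)) ×ˢ range (s + 1)).filter
      fun r => r.1.1 ^ 3 + r.1.2 ^ 3 + r.2 ^ 3 ≡ n [MOD q]).card ≤
        rho q n * (s / q + 1) ^ 3 := by
  have e1 : rho q n * (s / q + 1) ^ 3 =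
      (((range q ×ˢ range q ×ˢ range q).filter
        fun t => (t.1 ^ 3 + t.2.1 ^ 3 + t.2.2 ^ 3) ≡ n [MOD q]) ×ˢ
        (range (s / q + 1) ×ˢ range (s / q + 1) ×ˢ range (s / q + 1))).card := by
    rw [card_product, card_product, card_product, card_range, rho]
    ring
  rw [e1]
  refine card_le_card_of_injOn
    (fun r => ((r.1.1 % q, r.1.2 % q, r.2 % q), (r.1.1 / q, r.1.2 / q, r.2 / q))) ?_ ?_
  · rintro ⟨⟨u, v⟩, w⟩ hr
    simp only [coe_filter, Set.mem_ofPred_eq, mem_product, mem_range] at hr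
    obtain ⟨⟨⟨hu, hv⟩, hw⟩, hmod⟩ := hr
    simp only [coe_product, Set.mem_prod, coe_filter, Set.mem_ofPred_eq, mem_product, mem_range,
      coe_range, Set.mem_Iio]
    refine ⟨⟨⟨Nat.mod_lt _ hq, Nat.mod_lt _ hq, Nat.mod_lt _ hq⟩, ?_⟩, ?_, ?_, ?_⟩
    · refine Nat.ModEq.trans ?_ hmod
      exact (((Nat.mod_modEq u q).pow 3).add ((Nat.mod_modEq v q).pow 3)).add
        ((Nat.mod_modEq w q).pow 3)
    · exact Nat.lt_succ_of_le (Nat.div_le_div_right (by omega))
    · exact Nat.lt_succ_of_le (Nat.div_le_div_right (by omega))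
    · exact Nat.lt_succ_of_le (Nat.div_le_div_right (by omega))
  · rintro ⟨⟨u, v⟩, w⟩ _ ⟨⟨u', v'⟩, w'⟩ _ h
    simp only [Prod.mk.injEq] at h
    obtain ⟨⟨a1, a2, a3⟩, b1, b2, b3⟩ := h
    have key : ∀ a b : ℕ, a % q = b % q → a / q = b / q → a = b := by
      intro a b hab hab'
      rw [← Nat.div_add_mod a q, ← Nat.div_add_mod b q, hab, hab']
    rw [key u u' a1 b1, key v v' a2 b2, key w w' a3 b3]

end LAT3

open LAT3 in
theorem lat3 : S_LAT3 := by
  classical
  intro e C he s Y hY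
  have hC : 0 ≤ C := (he 0).1.trans (he 0).2
  have hb2 : ∀ u v : ℕ, e u * e v ≤ C ^ 2 := by
    intro u v
    rw [sq]
    exact mul_le_mul (he u).2 (he v).2 (he v).1 hC
  have hb3 : ∀ u v w : ℕ, e u * e v * e w ≤ C ^ 3 := by
    intro u v w
    rw [pow_succ]
    exact mul_le_mul (hb2 u v) (he w).2 (he w).1 (by positivity)
  obtain ⟨P, hP⟩ : ∃ P : Finset ℕ, P = (range (Y + 1)).filter (fun m => e m ≠ 0) := ⟨_, rfl⟩
  obtain ⟨D, hD⟩ : ∃ D : ℕ, D = off e Y := ⟨_, rfl⟩
  -- the places off the cubes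
  obtain ⟨cb, hcb⟩ : ∃ cb : ℕ → Prop, ∀ m, cb m ↔ ∃ u : ℕ, u ^ 3 = m := ⟨_, fun _ => Iff.rfl⟩
  obtain ⟨Po, hPo⟩ : ∃ Po : Finset ℕ, Po = P.filter (fun m => ¬ cb m) := ⟨_, rfl⟩
  have hPoD : Po.card = D := by
    rw [hD]
    unfold off
    congr 1
    ext m
    simp only [hPo, hP, mem_filter, mem_range]
    rw [hcb]
    constructor
    · rintro ⟨⟨h0, h1⟩, h2⟩
      exact ⟨h0, h1, fun u hu => h2 ⟨u, hu⟩⟩
    · rintro ⟨h0, h1, h2⟩
      exact ⟨⟨h0, h1⟩, fun ⟨u, hu⟩ => h2 u hu⟩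
  have hcub : ∀ u : ℕ, u ^ 3 ≤ Y → u < s + 1 := by
    intro u hu
    exact lt_of_pow_lt_pow_left₀ 3 (Nat.zero_le _) (lt_of_le_of_lt hu hY)
  have hPY : ∀ m ∈ P, m ≤ Y := by
    intro m hm
    rw [hP, mem_filter, mem_range] at hm
    omega
  have hPc : (P.filter (fun m => cb m)).card ≤ s + 1 := by
    have h1 : P.filter (fun m => cb m) ⊆ (range (s + 1)).image (fun u => u ^ 3) := by
      intro m hm
      rw [mem_filter, hcb] at hm
      obtain ⟨hm1, u, hu⟩ := hm
      rw [mem_image]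
      exact ⟨u, mem_range.2 (hcub u (by rw [hu]; exact hPY m hm1)), hu⟩
    refine (card_le_card h1).trans (card_image_le.trans ?_)
    rw [card_range]
  have hPcard : P.card ≤ s + 1 + D := by
    have h1 := card_filter_add_card_filter_not (s := P) (fun m => cb m)
    rw [← hPo, hPoD] at h1
    omega
  have hE1 : ∀ m, m ≤ Y → e m = ∑ p ∈ P, if p = m then e p else 0 := by
    intro m hm
    rw [sum_ite_eq']
    split_ifs with h
    · rfl
    · by_contra h0
      exact h (by rw [hP, mem_filter, mem_range]; exact ⟨by omega, h0⟩)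
  have hG2 : ∀ m, m ≤ Y → G2 e m = ∑ r ∈ P ×ˢ P, if r.1 + r.2 = m then e r.1 * e r.2 else 0 := by
    intro m hm
    have h := LAT.conv P P (fun u => u) (fun u => u) e e m
    refine Eq.trans ?_ h
    unfold G2
    refine sum_congr rfl ?_
    rintro ⟨i, j⟩ hij
    rw [HasAntidiagonal.mem_antidiagonal] at hij
    simp only at hij
    exact congrArg₂ (· * ·) (hE1 i (by omega)) (hE1 j (by omega))
  have hG3 : ∀ m, m ≤ Y → G3 e m = ∑ r ∈ (P ×ˢ P) ×ˢ P,
      if r.1.1 + r.1.2 + r.2 = m then e r.1.1 * e r.1.2 * e r.2 else 0 := by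
    intro m hm
    have h := LAT.conv (P ×ˢ P) P (fun r => r.1 + r.2) (fun u => u) (fun r => e r.1 * e r.2) e m
    refine Eq.trans ?_ h
    unfold G3
    refine sum_congr rfl ?_
    rintro ⟨i, j⟩ hij
    rw [HasAntidiagonal.mem_antidiagonal] at hij
    simp only at hij
    exact congrArg₂ (· * ·) (hG2 i (by omega)) (hE1 j (by omega))
  rw [← hD]
  refine ⟨?_, ?_, ?_⟩
  · intro q n hq
    obtain ⟨M, hM⟩ : ∃ M : Finset ℕ, M = (range (Y + 1)).filter (fun m => m ≡ n [MOD q]) :=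
      ⟨_, rfl⟩
    rw [← hM]
    have h1 : ∑ m ∈ M, G3 e m = ∑ m ∈ M, ∑ r ∈ (P ×ˢ P) ×ˢ P,
        if r.1.1 + r.1.2 + r.2 = m then e r.1.1 * e r.1.2 * e r.2 else 0 := by
      refine sum_congr rfl fun m hm => ?_
      rw [hM, mem_filter, mem_range] at hm
      exact hG3 m (by omega)
    rw [h1]
    refine (LAT.bound ((P ×ˢ P) ×ˢ P) (fun r => r.1.1 + r.1.2 + r.2)
      (fun r => e r.1.1 * e r.1.2 * e r.2) (C ^ 3) (fun r _ => hb3 _ _ _) M).trans ?_
    apply mul_le_mul_of_nonneg_left _ (by positivity)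
    obtain ⟨F1, hF1⟩ : ∃ F1 : Finset ((ℕ × ℕ) × ℕ), F1 =
        (((range (s + 1) ×ˢ range (s + 1)) ×ˢ range (s + 1)).filter
          fun r => r.1.1 ^ 3 + r.1.2 ^ 3 + r.2 ^ 3 ≡ n [MOD q]).image
          (fun r => ((r.1.1 ^ 3, r.1.2 ^ 3), r.2 ^ 3)) := ⟨_, rfl⟩
    have hF1c : F1.card ≤ rho q n * (s / q + 1) ^ 3 := by
      rw [hF1]
      exact card_image_le.trans (count q n s hq)
    have hsub : ((P ×ˢ P) ×ˢ P).filter (fun r => r.1.1 + r.1.2 + r.2 ∈ M) ⊆
        F1 ∪ ((Po ×ˢ P) ×ˢ P ∪ ((P ×ˢ Po) ×ˢ P ∪ (P ×ˢ P) ×ˢ Po)) := by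
      rintro ⟨⟨i, j⟩, l⟩ hr
      simp only [mem_filter, mem_product] at hr
      obtain ⟨⟨⟨hi, hj⟩, hl⟩, hm⟩ := hr
      rw [hM, mem_filter, mem_range] at hm
      have hPo' : ∀ m ∈ P, (¬ cb m) → m ∈ Po := by
        intro m hm h
        rw [hPo, mem_filter]
        exact ⟨hm, h⟩
      by_cases ci : cb i
      · by_cases cj : cb j
        · by_cases cl : cb l
          · obtain ⟨u, rfl⟩ := (hcb _).1 ci
            obtain ⟨v, rfl⟩ := (hcb _).1 cj
            obtain ⟨w, rfl⟩ := (hcb _).1 cl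
            refine mem_union_left _ ?_
            rw [hF1, mem_image]
            refine ⟨((u, v), w), ?_, rfl⟩
            simp only [mem_filter, mem_product, mem_range]
            exact ⟨⟨⟨hcub u (hPY _ hi), hcub v (hPY _ hj)⟩, hcub w (hPY _ hl)⟩, hm.2⟩
          · refine mem_union_right _ (mem_union_right _ (mem_union_right _ ?_))
            simp only [mem_product]
            exact ⟨⟨hi, hj⟩, hPo' l hl cl⟩
        · refine mem_union_right _ (mem_union_right _ (mem_union_left _ ?_))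
          simp only [mem_product]
          exact ⟨⟨hi, hPo' j hj cj⟩, hl⟩
      · refine mem_union_right _ (mem_union_left _ ?_)
        simp only [mem_product]
        exact ⟨⟨hPo' i hi ci, hj⟩, hl⟩
    have hcard : (((P ×ˢ P) ×ˢ P).filter (fun r => r.1.1 + r.1.2 + r.2 ∈ M)).card ≤
        rho q n * (s / q + 1) ^ 3 + 3 * D * (s + 1 + D) ^ 2 := by
      refine (card_le_card hsub).trans ((card_union_le _ _).trans ?_)
      refine Nat.add_le_add hF1c ?_
      refine (card_union_le _ _).trans ?_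
      refine (Nat.add_le_add_left (card_union_le _ _) _).trans ?_
      rw [card_product, card_product, card_product, card_product, card_product, card_product, hPoD]
      have h2 : P.card * P.card ≤ (s + 1 + D) ^ 2 := by
        rw [sq]
        exact Nat.mul_le_mul hPcard hPcard
      calc D * P.card * P.card + (P.card * D * P.card + P.card * P.card * D) =
            3 * D * (P.card * P.card) := by ring
        _ ≤ 3 * D * (s + 1 + D) ^ 2 := Nat.mul_le_mul_left _ h2
    have hcard' : ((((P ×ˢ P) ×ˢ P).filter (fun r => r.1.1 + r.1.2 + r.2 ∈ M)).card : ℤ) ≤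
        ((rho q n * (s / q + 1) ^ 3 + 3 * D * (s + 1 + D) ^ 2 : ℕ) : ℤ) := by
      exact_mod_cast hcard
    refine hcard'.trans (le_of_eq ?_)
    push_cast
    ring
  · have h1 : ∑ m ∈ range (Y + 1), G2 e m = ∑ m ∈ range (Y + 1),
        ∑ r ∈ P ×ˢ P, if r.1 + r.2 = m then e r.1 * e r.2 else 0 := by
      refine sum_congr rfl fun m hm => ?_
      rw [mem_range] at hm
      exact hG2 m (by omega)
    rw [h1]
    refine (LAT.bound (P ×ˢ P) (fun r => r.1 + r.2)
      (fun r => e r.1 * e r.2) (C ^ 2) (fun r _ => hb2 _ _) (range (Y + 1))).trans ?_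
    apply mul_le_mul_of_nonneg_left _ (by positivity)
    have h2 := card_filter_le (P ×ˢ P) (fun r => r.1 + r.2 ∈ range (Y + 1))
    rw [card_product] at h2
    have h3 : (((P ×ˢ P).filter fun r => r.1 + r.2 ∈ range (Y + 1)).card : ℤ) ≤
        (((s + 1 + D) * (s + 1 + D) : ℕ) : ℤ) := by
      exact_mod_cast h2.trans (Nat.mul_le_mul hPcard hPcard)
    refine h3.trans (le_of_eq ?_)
    push_cast
    ring
  · have h1 : ∑ m ∈ range (Y + 1), e m = ∑ m ∈ range (Y + 1),
        ∑ u ∈ P, if u = m then e u else 0 := by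
      refine sum_congr rfl fun m hm => ?_
      rw [mem_range] at hm
      exact hE1 m (by omega)
    rw [h1]
    refine (LAT.bound P (fun u => u) e C (fun u _ => (he u).2) (range (Y + 1))).trans ?_
    apply mul_le_mul_of_nonneg_left _ hC
    have h2 := (card_filter_le P (fun u => u ∈ range (Y + 1))).trans hPcard
    exact_mod_cast h2

end Pool.Agent.H52.TC
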