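import Pool.Agent.H52.TC.Stm5

/-!
# Project TC: lattice points for fourth powers (LATQ), adapted from LAT
-/

set_option autoImplicit false

namespace Pool.Agent.H52.TC

open Finset

namespace LATQ

/-- convolution of two weighted families -/
theorem conv {α β : Type} (A : Finset α) (B : Finset β) (f : α → ℕ) (g : β → ℕ) (x : α → ℤ) (y : β → ℤ)
    (m : ℕ) :
    ∑ ij ∈ antidiagonal m, (∑ p ∈ A, if f p = ij.1 then x p else 0) *
      (∑ q ∈ B, if g q = ij.2 then y q else 0) =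
    ∑ r ∈ A ×ˢ B, if f r.1 + g r.2 = m then x r.1 * y r.2 else 0 := by
  have h1 : ∀ ij ∈ antidiagonal m, (∑ p ∈ A, if f p = ij.1 then x p else 0) *
      (∑ q ∈ B, if g q = ij.2 then y q else 0) =
      ∑ r ∈ A ×ˢ B, (if f r.1 = ij.1 then x r.1 else 0) * (if g r.2 = ij.2 then y r.2 else 0) := by
    intro ij _
    rw [sum_mul_sum, sum_product]
  rw [sum_congr rfl h1, sum_comm]
  refine sum_congr rfl fun r _ => ?_
  by_cases h : f r.1 + g r.2 = m
  · rw [if_pos h, sum_eq_single (f r.1, g r.2)]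
    · simp
    · rintro ⟨i, j⟩ _ hne
      by_cases hi : f r.1 = i
      · have hj : g r.2 ≠ j := by
          rintro rfl
          exact hne (by rw [hi])
        simp only [if_neg hj, mul_zero]
      · simp only [if_neg hi, zero_mul]
    · intro hn
      exact absurd (HasAntidiagonal.mem_antidiagonal.2 h) hn
  · rw [if_neg h]
    refine sum_eq_zero ?_
    rintro ⟨i, j⟩ hij
    rw [HasAntidiagonal.mem_antidiagonal] at hij
    simp only at hij
    by_cases hi : f r.1 = i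
    · have hj : g r.2 ≠ j := by
        rintro rfl
        exact h (by rw [hi]; exact hij)
      simp only [if_neg hj, mul_zero]
    · simp only [if_neg hi, zero_mul]

theorem e_eq (e : ℕ → ℤ) (hS : Sup4 e) {s m : ℕ} (hm : m < (s + 1) ^ 4) :
    e m = ∑ u ∈ range (s + 1), if u ^ 4 = m then e (u ^ 4) else 0 := by
  by_cases h : ∃ u : ℕ, u ^ 4 = m
  · obtain ⟨u, rfl⟩ := h
    rw [sum_eq_single u]
    · rw [if_pos rfl]
    · intro b _ hb
      rw [if_neg]
      intro h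
      exact hb (Nat.pow_left_injective (by norm_num : (4 : ℕ) ≠ 0) h)
    · intro hu
      exfalso
      apply hu
      rw [mem_range]
      exact lt_of_pow_lt_pow_left₀ 4 (Nat.zero_le _) hm
  · have h0 : e m = 0 := by
      by_contra hne
      exact h (hS m hne)
    rw [h0]
    symm
    refine sum_eq_zero fun u _ => ?_
    rw [if_neg fun h' => h ⟨u, h'⟩]

theorem G2_eq (e : ℕ → ℤ) (hS : Sup4 e) {s m : ℕ} (hm : m < (s + 1) ^ 4) :
    G2 e m = ∑ r ∈ range (s + 1) ×ˢ range (s + 1),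
      if r.1 ^ 4 + r.2 ^ 4 = m then e (r.1 ^ 4) * e (r.2 ^ 4) else 0 := by
  have h := conv (range (s + 1)) (range (s + 1)) (fun u => u ^ 4) (fun u => u ^ 4)
    (fun u => e (u ^ 4)) (fun u => e (u ^ 4)) m
  refine Eq.trans ?_ h
  unfold G2
  refine sum_congr rfl ?_
  rintro ⟨i, j⟩ hij
  rw [HasAntidiagonal.mem_antidiagonal] at hij
  simp only at hij
  have h1 := e_eq e hS (s := s) (m := i) (by omega)
  have h2 := e_eq e hS (s := s) (m := j) (by omega)
  rw [← h1, ← h2]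

theorem G3_eq (e : ℕ → ℤ) (hS : Sup4 e) {s m : ℕ} (hm : m < (s + 1) ^ 4) :
    G3 e m = ∑ r ∈ (range (s + 1) ×ˢ range (s + 1)) ×ˢ range (s + 1),
      if r.1.1 ^ 4 + r.1.2 ^ 4 + r.2 ^ 4 = m then
        e (r.1.1 ^ 4) * e (r.1.2 ^ 4) * e (r.2 ^ 4) else 0 := by
  have h := conv (range (s + 1) ×ˢ range (s + 1)) (range (s + 1)) (fun r => r.1 ^ 4 + r.2 ^ 4)
    (fun u => u ^ 4) (fun r => e (r.1 ^ 4) * e (r.2 ^ 4)) (fun u => e (u ^ 4)) m
  refine Eq.trans ?_ h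
  unfold G3
  refine sum_congr rfl ?_
  rintro ⟨i, j⟩ hij
  rw [HasAntidiagonal.mem_antidiagonal] at hij
  simp only at hij
  have h1 := G2_eq e hS (s := s) (m := i) (by omega)
  have h2 := e_eq e hS (s := s) (m := j) (by omega)
  rw [← h1, ← h2]

theorem G4_eq (e : ℕ → ℤ) (hS : Sup4 e) {s m : ℕ} (hm : m < (s + 1) ^ 4) :
    G4 e m = ∑ r ∈ ((range (s + 1) ×ˢ range (s + 1)) ×ˢ range (s + 1)) ×ˢ range (s + 1),
      if r.1.1.1 ^ 4 + r.1.1.2 ^ 4 + r.1.2 ^ 4 + r.2 ^ 4 = m then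
        e (r.1.1.1 ^ 4) * e (r.1.1.2 ^ 4) * e (r.1.2 ^ 4) * e (r.2 ^ 4) else 0 := by
  have h := conv ((range (s + 1) ×ˢ range (s + 1)) ×ˢ range (s + 1)) (range (s + 1))
    (fun r => r.1.1 ^ 4 + r.1.2 ^ 4 + r.2 ^ 4)
    (fun u => u ^ 4) (fun r => e (r.1.1 ^ 4) * e (r.1.2 ^ 4) * e (r.2 ^ 4)) (fun u => e (u ^ 4)) m
  refine Eq.trans ?_ h
  unfold G4
  refine sum_congr rfl ?_
  rintro ⟨i, j⟩ hij
  rw [HasAntidiagonal.mem_antidiagonal] at hij
  simp only at hij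
  have h1 := G3_eq e hS (s := s) (m := i) (by omega)
  have h2 := e_eq e hS (s := s) (m := j) (by omega)
  rw [← h1, ← h2]

/-- the sum over a set of values -/
theorem bound {α : Type} (A : Finset α) (f : α → ℕ) (x : α → ℤ) (D : ℤ) (hx : ∀ r ∈ A, x r ≤ D)
    (M : Finset ℕ) :
    ∑ m ∈ M, ∑ r ∈ A, (if f r = m then x r else 0) ≤ D * ((A.filter fun r => f r ∈ M).card : ℤ) := by
  rw [sum_comm]
  have h1 : ∀ r ∈ A, ∑ m ∈ M, (if f r = m then x r else 0) = if f r ∈ M then x r else 0 := by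
    intro r _
    rw [sum_ite_eq]
  rw [sum_congr rfl h1, ← sum_filter]
  refine (sum_le_card_nsmul _ _ D ?_).trans (le_of_eq ?_)
  · intro r hr
    exact hx r (mem_filter.1 hr).1
  · rw [nsmul_eq_mul, mul_comm]

/-- the lattice points in one class -/
theorem cls (q n s Y : ℕ) (hq : 1 ≤ q) :
    ((((range (s + 1) ×ˢ range (s + 1)) ×ˢ range (s + 1)) ×ˢ range (s + 1)).filter
      fun r => r.1.1.1 ^ 4 + r.1.1.2 ^ 4 + r.1.2 ^ 4 + r.2 ^ 4 ∈
        (range (Y + 1)).filter (fun m => m ≡ n [MOD q])).card ≤ rhoQ q n * (s / q + 1) ^ 4 := by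
  have e1 : rhoQ q n * (s / q + 1) ^ 4 =
      (((range q ×ˢ range q ×ˢ range q ×ˢ range q).filter
        fun t => (t.1 ^ 4 + t.2.1 ^ 4 + t.2.2.1 ^ 4 + t.2.2.2 ^ 4) ≡ n [MOD q]) ×ˢ
        (range (s / q + 1) ×ˢ range (s / q + 1) ×ˢ range (s / q + 1) ×ˢ range (s / q + 1))).card := by
    rw [card_product, card_product, card_product, card_product, card_range, rhoQ]
    ring
  rw [e1]
  refine card_le_card_of_injOn
    (fun r => ((r.1.1.1 % q, r.1.1.2 % q, r.1.2 % q, r.2 % q),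
      (r.1.1.1 / q, r.1.1.2 / q, r.1.2 / q, r.2 / q))) ?_ ?_
  · rintro ⟨⟨⟨u, v⟩, w⟩, z⟩ hr
    simp only [coe_filter, Set.mem_ofPred_eq, mem_product, mem_range, mem_filter] at hr
    obtain ⟨⟨⟨⟨hu, hv⟩, hw⟩, hz⟩, _, hmod⟩ := hr
    simp only [coe_product, Set.mem_prod, coe_filter, Set.mem_ofPred_eq, mem_product, mem_range,
      coe_range, Set.mem_Iio]
    refine ⟨⟨⟨Nat.mod_lt _ hq, Nat.mod_lt _ hq, Nat.mod_lt _ hq, Nat.mod_lt _ hq⟩, ?_⟩, ?_, ?_, ?_, ?_⟩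
    · refine Nat.ModEq.trans ?_ hmod
      exact ((((Nat.mod_modEq u q).pow 4).add ((Nat.mod_modEq v q).pow 4)).add
        ((Nat.mod_modEq w q).pow 4)).add ((Nat.mod_modEq z q).pow 4)
    · exact Nat.lt_succ_of_le (Nat.div_le_div_right (by omega))
    · exact Nat.lt_succ_of_le (Nat.div_le_div_right (by omega))
    · exact Nat.lt_succ_of_le (Nat.div_le_div_right (by omega))
    · exact Nat.lt_succ_of_le (Nat.div_le_div_right (by omega))
  · rintro ⟨⟨⟨u, v⟩, w⟩, z⟩ _ ⟨⟨⟨u', v'⟩, w'⟩, z'⟩ _ h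
    simp only [Prod.mk.injEq] at h
    obtain ⟨⟨a1, a2, a3, a4⟩, b1, b2, b3, b4⟩ := h
    have key : ∀ a b : ℕ, a % q = b % q → a / q = b / q → a = b := by
      intro a b hab hab'
      rw [← Nat.div_add_mod a q, ← Nat.div_add_mod b q, hab, hab']
    rw [key u u' a1 b1, key v v' a2 b2, key w w' a3 b3, key z z' a4 b4]

end LATQ

open LATQ in
theorem latQ : S_LATQ := by
  intro e C he hS s Y hY
  have hC : 0 ≤ C := (he 0).1.trans (he 0).2
  have hb2 : ∀ u v : ℕ, e u * e v ≤ C ^ 2 := by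
    intro u v
    rw [sq]
    exact mul_le_mul (he u).2 (he v).2 (he v).1 hC
  have hb3 : ∀ u v w : ℕ, e u * e v * e w ≤ C ^ 3 := by
    intro u v w
    rw [pow_succ]
    exact mul_le_mul (hb2 u v) (he w).2 (he w).1 (by positivity)
  have hb4 : ∀ u v w z : ℕ, e u * e v * e w * e z ≤ C ^ 4 := by
    intro u v w z
    rw [pow_succ]
    exact mul_le_mul (hb3 u v w) (he z).2 (he z).1 (by positivity)
  refine ⟨?_, ?_, ?_, ?_⟩
  · intro q n hq
    set A := ((range (s + 1) ×ˢ range (s + 1)) ×ˢ range (s + 1)) ×ˢ range (s + 1) with hA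
    have h1 : ∑ m ∈ (range (Y + 1)).filter (fun m => m ≡ n [MOD q]), G4 e m =
        ∑ m ∈ (range (Y + 1)).filter (fun m => m ≡ n [MOD q]), ∑ r ∈ A,
        if r.1.1.1 ^ 4 + r.1.1.2 ^ 4 + r.1.2 ^ 4 + r.2 ^ 4 = m then
          e (r.1.1.1 ^ 4) * e (r.1.1.2 ^ 4) * e (r.1.2 ^ 4) * e (r.2 ^ 4) else 0 := by
      refine sum_congr rfl fun m hm => ?_
      rw [mem_filter, mem_range] at hm
      exact G4_eq e hS (by omega)
    rw [h1]
    refine (bound A (fun r => r.1.1.1 ^ 4 + r.1.1.2 ^ 4 + r.1.2 ^ 4 + r.2 ^ 4)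
      (fun r => e (r.1.1.1 ^ 4) * e (r.1.1.2 ^ 4) * e (r.1.2 ^ 4) * e (r.2 ^ 4)) (C ^ 4)
      (fun r _ => hb4 _ _ _ _) _).trans ?_
    have h2 := cls q n s Y hq
    rw [← hA] at h2
    calc C ^ 4 * ((A.filter fun r => r.1.1.1 ^ 4 + r.1.1.2 ^ 4 + r.1.2 ^ 4 + r.2 ^ 4 ∈
          (range (Y + 1)).filter (fun m => m ≡ n [MOD q])).card : ℤ) ≤
        C ^ 4 * ((rhoQ q n * (s / q + 1) ^ 4 : ℕ) : ℤ) := by
          apply mul_le_mul_of_nonneg_left _ (by positivity)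
          exact_mod_cast h2
      _ = C ^ 4 * (rhoQ q n : ℤ) * ((s / q + 1 : ℕ) : ℤ) ^ 4 := by
          push_cast
          ring
  · have h1 : ∑ m ∈ range (Y + 1), G3 e m = ∑ m ∈ range (Y + 1),
        ∑ r ∈ (range (s + 1) ×ˢ range (s + 1)) ×ˢ range (s + 1),
          if r.1.1 ^ 4 + r.1.2 ^ 4 + r.2 ^ 4 = m then
            e (r.1.1 ^ 4) * e (r.1.2 ^ 4) * e (r.2 ^ 4) else 0 := by
      refine sum_congr rfl fun m hm => ?_
      rw [mem_range] at hm
      exact G3_eq e hS (by omega)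
    rw [h1]
    refine (bound ((range (s + 1) ×ˢ range (s + 1)) ×ˢ range (s + 1))
      (fun r => r.1.1 ^ 4 + r.1.2 ^ 4 + r.2 ^ 4)
      (fun r => e (r.1.1 ^ 4) * e (r.1.2 ^ 4) * e (r.2 ^ 4)) (C ^ 3) (fun r _ => hb3 _ _ _)
      (range (Y + 1))).trans ?_
    apply mul_le_mul_of_nonneg_left _ (by positivity)
    have h2 := card_filter_le ((range (s + 1) ×ˢ range (s + 1)) ×ˢ range (s + 1))
      (fun r => r.1.1 ^ 4 + r.1.2 ^ 4 + r.2 ^ 4 ∈ range (Y + 1))
    rw [card_product, card_product, card_range] at h2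
    have h3 : ((((range (s + 1) ×ˢ range (s + 1)) ×ˢ range (s + 1)).filter
        fun r => r.1.1 ^ 4 + r.1.2 ^ 4 + r.2 ^ 4 ∈ range (Y + 1)).card : ℤ) ≤
        (((s + 1) * (s + 1) * (s + 1) : ℕ) : ℤ) := by
      exact_mod_cast h2
    refine h3.trans (le_of_eq ?_)
    push_cast
    ring
  · have h1 : ∑ m ∈ range (Y + 1), G2 e m = ∑ m ∈ range (Y + 1),
        ∑ r ∈ range (s + 1) ×ˢ range (s + 1),
          if r.1 ^ 4 + r.2 ^ 4 = m then e (r.1 ^ 4) * e (r.2 ^ 4) else 0 := by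
      refine sum_congr rfl fun m hm => ?_
      rw [mem_range] at hm
      exact G2_eq e hS (by omega)
    rw [h1]
    refine (bound (range (s + 1) ×ˢ range (s + 1)) (fun r => r.1 ^ 4 + r.2 ^ 4)
      (fun r => e (r.1 ^ 4) * e (r.2 ^ 4)) (C ^ 2) (fun r _ => hb2 _ _) (range (Y + 1))).trans ?_
    apply mul_le_mul_of_nonneg_left _ (by positivity)
    have h2 := card_filter_le (range (s + 1) ×ˢ range (s + 1))
      (fun r => r.1 ^ 4 + r.2 ^ 4 ∈ range (Y + 1))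
    rw [card_product, card_range] at h2
    have h3 : (((range (s + 1) ×ˢ range (s + 1)).filter
        fun r => r.1 ^ 4 + r.2 ^ 4 ∈ range (Y + 1)).card : ℤ) ≤ (((s + 1) * (s + 1) : ℕ) : ℤ) := by
      exact_mod_cast h2
    refine h3.trans (le_of_eq ?_)
    push_cast
    ring
  · have h1 : ∑ m ∈ range (Y + 1), e m = ∑ m ∈ range (Y + 1),
        ∑ u ∈ range (s + 1), if u ^ 4 = m then e (u ^ 4) else 0 := by
      refine sum_congr rfl fun m hm => ?_
      rw [mem_range] at hm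
      exact e_eq e hS (by omega)
    rw [h1]
    refine (bound (range (s + 1)) (fun u => u ^ 4) (fun u => e (u ^ 4)) C
      (fun u _ => (he _).2) (range (Y + 1))).trans ?_
    apply mul_le_mul_of_nonneg_left _ hC
    have h2 := card_filter_le (range (s + 1)) (fun u => u ^ 4 ∈ range (Y + 1))
    rw [card_range] at h2
    exact_mod_cast h2

end Pool.Agent.H52.TC
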