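import Pool.Agent.H52.TC.Stm2

/-!
# Stub TC-LIO: Liouville's inequality
-/

set_option autoImplicit false

namespace Pool.Agent.H52.TC

open Finset

namespace LIO

theorem e1_cube (ε : ℕ → ℤ) (u : ℕ) : E1 ε (u ^ 3) = ε u := by
  unfold E1
  rw [Finset.sum_eq_single u]
  · rw [if_pos rfl]
  · intro v _ hv
    rw [if_neg]
    intro h
    exact hv (Nat.pow_left_injective (by norm_num : 3 ≠ 0) h)
  · intro h
    exfalso
    apply h
    rw [Finset.mem_range]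
    exact Nat.lt_succ_of_le (Nat.le_self_pow (by norm_num) u)

theorem cube_add (u i : ℕ) : u ^ 3 + i ≤ (u + i) ^ 3 := by
  have h : i ≤ i ^ 3 := Nat.le_self_pow (by norm_num) i
  calc u ^ 3 + i ≤ u ^ 3 + i ^ 3 := by omega
    _ ≤ (u + i) ^ 3 := by
      have : (u + i) ^ 3 = u ^ 3 + i ^ 3 + (3 * u ^ 2 * i + 3 * u * i ^ 2) := by ring
      omega

theorem tail_term {b : ℕ} (hb : 2 ≤ b) {ε : ℕ → ℤ} {C : ℤ} (hε : ∀ n, 0 ≤ ε n ∧ ε n ≤ C) (u i : ℕ) :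
    (ε (u + i) : ℝ) / (b : ℝ) ^ ((u + i) ^ 3) ≤ (C : ℝ) / (b : ℝ) ^ (u ^ 3) * (1 / 2) ^ i := by
  have hb1 : (1 : ℝ) ≤ b := by exact_mod_cast (by omega : 1 ≤ b)
  have hb2 : (2 : ℝ) ≤ b := by exact_mod_cast hb
  have hC : (0 : ℝ) ≤ C := by
    have := (hε 0).1.trans (hε 0).2
    exact_mod_cast this
  have h1 : (ε (u + i) : ℝ) ≤ C := by exact_mod_cast (hε (u + i)).2
  have h2 : (b : ℝ) ^ (u ^ 3) * 2 ^ i ≤ (b : ℝ) ^ ((u + i) ^ 3) := by
    calc (b : ℝ) ^ (u ^ 3) * 2 ^ i ≤ (b : ℝ) ^ (u ^ 3) * (b : ℝ) ^ i :=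
          mul_le_mul_of_nonneg_left (pow_le_pow_left₀ (by norm_num) hb2 i) (by positivity)
      _ = (b : ℝ) ^ (u ^ 3 + i) := (pow_add _ _ _).symm
      _ ≤ _ := pow_le_pow_right₀ hb1 (cube_add u i)
  calc (ε (u + i) : ℝ) / (b : ℝ) ^ ((u + i) ^ 3) ≤ (C : ℝ) / (b : ℝ) ^ ((u + i) ^ 3) :=
        div_le_div_of_nonneg_right h1 (by positivity)
    _ ≤ (C : ℝ) / ((b : ℝ) ^ (u ^ 3) * 2 ^ i) := div_le_div_of_nonneg_left hC (by positivity) h2
    _ = (C : ℝ) / (b : ℝ) ^ (u ^ 3) * (1 / 2) ^ i := by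
      rw [one_div, inv_pow, ← div_div, div_eq_mul_inv (_ / _)]

theorem tail_nonneg {b : ℕ} {ε : ℕ → ℤ} {C : ℤ} (hε : ∀ n, 0 ≤ ε n ∧ ε n ≤ C) (n : ℕ) :
    (0 : ℝ) ≤ (ε n : ℝ) / (b : ℝ) ^ (n ^ 3) := by
  have : (0 : ℝ) ≤ ε n := by exact_mod_cast (hε n).1
  positivity

theorem summ {b : ℕ} (hb : 2 ≤ b) {ε : ℕ → ℤ} {C : ℤ} (hε : ∀ n, 0 ≤ ε n ∧ ε n ≤ C) :
    Summable fun n : ℕ => (ε n : ℝ) / (b : ℝ) ^ (n ^ 3) := by
  refine Summable.of_nonneg_of_le (tail_nonneg hε) (fun n => ?_)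
    ((summable_geometric_of_lt_one (by norm_num) (by norm_num : (1 : ℝ) / 2 < 1)).mul_left
      ((C : ℝ) / (b : ℝ) ^ (0 ^ 3)))
  have := tail_term hb hε 0 n
  simpa only [zero_add] using this

theorem tail_le {b : ℕ} (hb : 2 ≤ b) {ε : ℕ → ℤ} {C : ℤ} (hε : ∀ n, 0 ≤ ε n ∧ ε n ≤ C) (u : ℕ) :
    ∑' i : ℕ, (ε (i + u) : ℝ) / (b : ℝ) ^ ((i + u) ^ 3) ≤ 2 * C / (b : ℝ) ^ (u ^ 3) := by
  have hg := summable_geometric_of_lt_one (by norm_num) (by norm_num : (1 : ℝ) / 2 < 1)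
  have h1 : ∑' i : ℕ, (ε (i + u) : ℝ) / (b : ℝ) ^ ((i + u) ^ 3) ≤
      ∑' i : ℕ, (C : ℝ) / (b : ℝ) ^ (u ^ 3) * (1 / 2) ^ i := by
    refine Summable.tsum_le_tsum (fun i => ?_) ((summable_nat_add_iff u).2 (summ hb hε)) (hg.mul_left _)
    rw [add_comm i u]
    exact tail_term hb hε u i
  rw [tsum_mul_left, tsum_geometric_of_lt_one (by norm_num) (by norm_num)] at h1
  refine h1.trans (le_of_eq ?_)
  norm_num
  ring

end LIO

theorem lio : S_IRR → S_LIO := by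
  intro hirr b hb ε C hε hinf a0 a1 a2 a3 ha3 x hx hroot
  have hirx : Irrational x := by rw [hx]; exact hirr b hb ε C hε hinf
  set f : Polynomial ℤ := Polynomial.C a3 * Polynomial.X ^ 3 + Polynomial.C a2 * Polynomial.X ^ 2 +
    Polynomial.C a1 * Polynomial.X + Polynomial.C a0 with hf
  have hdeg : f.natDegree = 3 := Polynomial.natDegree_cubic (by omega)
  have hf0 : f ≠ 0 := by
    intro h
    rw [h, Polynomial.natDegree_zero] at hdeg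
    omega
  have hfx : Polynomial.eval x (f.map (algebraMap ℤ ℝ)) = 0 := by
    rw [hf]
    simp only [Polynomial.map_add, Polynomial.map_mul, Polynomial.map_C, Polynomial.map_pow,
      Polynomial.map_X, Polynomial.eval_add, Polynomial.eval_mul, Polynomial.eval_C,
      Polynomial.eval_pow, Polynomial.eval_X]
    simpa using hroot
  obtain ⟨A, hA, hL⟩ := Liouville.exists_pos_real_of_irrational_root hirx hf0 hfx
  rw [hdeg] at hL
  have hb1 : (1 : ℝ) < b := by exact_mod_cast (by omega : 1 < b)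
  have hb0 : (0 : ℝ) < b := by linarith
  have hC : (0 : ℝ) ≤ C := by
    have := (hε 0).1.trans (hε 0).2
    exact_mod_cast this
  obtain ⟨K, hK⟩ := pow_unbounded_of_one_lt (2 * (C : ℝ) * A) hb1
  refine ⟨K, fun m => ?_⟩
  have hN : ∃ n : ℕ, m < n ^ 3 := ⟨m + 1, (Nat.lt_succ_self m).trans_le (Nat.le_self_pow (by norm_num) _)⟩
  classical
  set N := Nat.find hN with hNdef
  have hN1 : m < N ^ 3 := Nat.find_spec hN
  have hN2 : ∀ n, n < N → n ^ 3 ≤ m := fun n hn => not_lt.1 (Nat.find_min hN hn)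
  have hu := hinf N
  set u := Nat.find hu with hudef
  obtain ⟨hNu, hεu⟩ := Nat.find_spec hu
  rw [← hudef] at hNu hεu
  have hu2 : ∀ n, N ≤ n → n < u → ε n = 0 := by
    intro n hn hnu
    by_contra h
    exact Nat.find_min hu hnu ⟨hn, h⟩
  have hNu3 : N ^ 3 ≤ u ^ 3 := Nat.pow_le_pow_left hNu 3
  refine ⟨u ^ 3, hN1.trans_le hNu3, ?_, by rw [LIO.e1_cube]; exact hεu⟩
  -- the approximation
  set p : ℤ := ∑ n ∈ range N, ε n * (b : ℤ) ^ (m - n ^ 3) with hp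
  have hpm : (p : ℝ) / (b : ℝ) ^ m = ∑ n ∈ range N, (ε n : ℝ) / (b : ℝ) ^ (n ^ 3) := by
    rw [hp]
    push_cast
    rw [Finset.sum_div]
    refine Finset.sum_congr rfl fun n hn => ?_
    have h1 := hN2 n (Finset.mem_range.1 hn)
    rw [div_eq_div_iff (by positivity) (by positivity), mul_assoc, ← pow_add, Nat.sub_add_cancel h1]
  have hsplit : x = ∑ n ∈ range N, (ε n : ℝ) / (b : ℝ) ^ (n ^ 3) +
      ∑' i : ℕ, (ε (i + u) : ℝ) / (b : ℝ) ^ ((i + u) ^ 3) := by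
    rw [hx, ← (LIO.summ hb hε).sum_add_tsum_nat_add u]
    congr 1
    symm
    refine Finset.sum_subset (Finset.range_mono hNu) ?_
    intro n hn hn2
    rw [Finset.mem_range] at hn hn2
    rw [hu2 n (not_lt.1 hn2) hn]
    simp
  have hT0 : 0 ≤ ∑' i : ℕ, (ε (i + u) : ℝ) / (b : ℝ) ^ ((i + u) ^ 3) :=
    tsum_nonneg fun i => LIO.tail_nonneg hε (i + u)
  have hT1 := LIO.tail_le hb hε u
  have hbm : 1 ≤ b ^ m := Nat.one_le_pow _ _ (by omega)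
  have hL1 := hL p (b ^ m - 1)
  have hcast : (((b ^ m - 1 : ℕ) : ℝ)) + 1 = (b : ℝ) ^ m := by
    rw [Nat.cast_sub hbm]
    push_cast
    ring
  rw [hcast, hpm, hsplit, add_sub_cancel_left, abs_of_nonneg hT0] at hL1
  have h5 : (1 : ℝ) ≤ ((b : ℝ) ^ m) ^ 3 * (2 * C / (b : ℝ) ^ (u ^ 3) * A) :=
    hL1.trans (mul_le_mul_of_nonneg_left (mul_le_mul_of_nonneg_right hT1 hA.le) (by positivity))
  have h6 : (b : ℝ) ^ (u ^ 3) ≤ ((b : ℝ) ^ m) ^ 3 * (2 * C * A) := by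
    have h7 : (0 : ℝ) < (b : ℝ) ^ (u ^ 3) := by positivity
    have h8 := mul_le_mul_of_nonneg_right h5 h7.le
    rw [one_mul] at h8
    refine h8.trans (le_of_eq ?_)
    field_simp
  have h9 : (b : ℝ) ^ (u ^ 3) ≤ (b : ℝ) ^ (3 * m + K) := by
    refine h6.trans ?_
    rw [pow_add, mul_comm 3 m, pow_mul]
    exact mul_le_mul_of_nonneg_left hK.le (by positivity)
  exact (pow_le_pow_iff_right₀ hb1).1 h9

end Pool.Agent.H52.TC
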