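import Pool.Agent.H52.TC.Stm5
import Pool.Agent.H52.TC.LIO3

/-!
# Stub TC-LIOQ (helper1), adapted from LIO3.lean: Liouville's inequality in degree 4
-/

set_option autoImplicit false

namespace Pool.Agent.H52.TC

open Finset

theorem lioQ : S_LIOQ := by
  intro b hb ε C hε a0 a1 a2 a3 a4 ha4 x hx hirx hroot
  set f : Polynomial ℤ := Polynomial.C a4 * Polynomial.X ^ 4 + Polynomial.C a3 * Polynomial.X ^ 3 + Polynomial.C a2 * Polynomial.X ^ 2 +
    Polynomial.C a1 * Polynomial.X + Polynomial.C a0 with hf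
  have ha4' : a4 ≠ 0 := by omega
  have hdeg : f.natDegree = 4 := by
    rw [hf]
    compute_degree!
  have hf0 : f ≠ 0 := by
    intro h
    rw [h, Polynomial.natDegree_zero] at hdeg
    omega
  have hfx : Polynomial.eval x (f.map (algebraMap ℤ ℝ)) = 0 := by
    rw [hf]
    simp only [Polynomial.map_add, Polynomial.map_mul, Polynomial.map_C, Polynomial.map_pow,
      Polynomial.map_X, Polynomial.eval_add, Polynomial.eval_mul, Polynomial.eval_C,
      Polynomial.eval_pow, Polynomial.eval_X]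
    simpa using hroot
  obtain ⟨A, hA, hL⟩ := Liouville.exists_pos_real_of_irrational_root hirx hf0 hfx
  rw [hdeg] at hL
  have hb1 : (1 : ℝ) < b := by exact_mod_cast (by omega : 1 < b)
  have hb0 : (0 : ℝ) < b := by linarith
  have hC : (0 : ℝ) ≤ C := by
    have := (hε 0).1.trans (hε 0).2
    exact_mod_cast this
  obtain ⟨K, hK⟩ := pow_unbounded_of_one_lt (2 * (C : ℝ) * A) hb1
  refine ⟨K, fun m => ?_⟩
  classical
  -- the approximation
  set p : ℤ := ∑ n ∈ range (m + 1), ε n * (b : ℤ) ^ (m - n) with hp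
  have hpm : (p : ℝ) / (b : ℝ) ^ m = ∑ n ∈ range (m + 1), (ε n : ℝ) / (b : ℝ) ^ n := by
    rw [hp]
    push_cast
    rw [Finset.sum_div]
    refine Finset.sum_congr rfl fun n hn => ?_
    have h1 : n ≤ m := by
      have := Finset.mem_range.1 hn
      omega
    rw [div_eq_div_iff (by positivity) (by positivity), mul_assoc, ← pow_add, Nat.sub_add_cancel h1]
  have hbm : 1 ≤ b ^ m := Nat.one_le_pow _ _ (by omega)
  have hL1 := hL p (b ^ m - 1)
  have hcast : (((b ^ m - 1 : ℕ) : ℝ)) + 1 = (b : ℝ) ^ m := by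
    rw [Nat.cast_sub hbm]
    push_cast
    ring
  rw [hcast, hpm] at hL1
  -- a later place exists
  have hu : ∃ n, m + 1 ≤ n ∧ ε n ≠ 0 := by
    by_contra hcon
    push Not at hcon
    have hsplit : x = ∑ n ∈ range (m + 1), (ε n : ℝ) / (b : ℝ) ^ n := by
      rw [hx]
      refine tsum_eq_sum fun n hn => ?_
      rw [Finset.mem_range, not_lt] at hn
      rw [hcon n hn]
      simp
    rw [← hsplit, sub_self, abs_zero, zero_mul, mul_zero] at hL1
    linarith
  set u := Nat.find hu with hudef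
  obtain ⟨hNu, hεu⟩ := Nat.find_spec hu
  rw [← hudef] at hNu hεu
  have hu2 : ∀ n, m + 1 ≤ n → n < u → ε n = 0 := by
    intro n hn hnu
    by_contra h
    exact Nat.find_min hu hnu ⟨hn, h⟩
  refine ⟨u, hNu, ?_, hεu⟩
  have hsplit : x = ∑ n ∈ range (m + 1), (ε n : ℝ) / (b : ℝ) ^ n +
      ∑' i : ℕ, (ε (i + u) : ℝ) / (b : ℝ) ^ (i + u) := by
    rw [hx, ← (LIO3.summ hb hε).sum_add_tsum_nat_add u]
    congr 1
    symm
    refine Finset.sum_subset (Finset.range_mono hNu) ?_
    intro n hn hn2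
    rw [Finset.mem_range] at hn hn2
    rw [hu2 n (not_lt.1 hn2) hn]
    simp
  have hT0 : 0 ≤ ∑' i : ℕ, (ε (i + u) : ℝ) / (b : ℝ) ^ (i + u) :=
    tsum_nonneg fun i => LIO3.tail_nonneg hε (i + u)
  have hT1 := LIO3.tail_le hb hε u
  rw [hsplit, add_sub_cancel_left, abs_of_nonneg hT0] at hL1
  have h5 : (1 : ℝ) ≤ ((b : ℝ) ^ m) ^ 4 * (2 * C / (b : ℝ) ^ u * A) :=
    hL1.trans (mul_le_mul_of_nonneg_left (mul_le_mul_of_nonneg_right hT1 hA.le) (by positivity))
  have h6 : (b : ℝ) ^ u ≤ ((b : ℝ) ^ m) ^ 4 * (2 * C * A) := by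
    have h7 : (0 : ℝ) < (b : ℝ) ^ u := by positivity
    have h8 := mul_le_mul_of_nonneg_right h5 h7.le
    rw [one_mul] at h8
    refine h8.trans (le_of_eq ?_)
    field_simp
  have h9 : (b : ℝ) ^ u ≤ (b : ℝ) ^ (4 * m + K) := by
    refine h6.trans ?_
    rw [pow_add, mul_comm 4 m, pow_mul]
    exact mul_le_mul_of_nonneg_left hK.le (by positivity)
  exact (pow_le_pow_iff_right₀ hb1).1 h9

end Pool.Agent.H52.TC
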