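import Pool.Agent.H52.TC.Stm

/-! TC-LOC: local counts with cubic Jacobi sums -/

set_option autoImplicit false

namespace Pool.Agent.H52.TC

open Finset

namespace LOC

variable {p : ℕ} [Fact p.Prime] {χ : MulChar (ZMod p) ℂ}

lemma ne_one (h3 : orderOf χ = 3) : χ ≠ 1 := by
  rintro rfl
  rw [orderOf_one] at h3
  omega

lemma pow3 (h3 : orderOf χ = 3) : χ ^ 3 = 1 := by
  rw [← h3]; exact pow_orderOf_eq_one χ

lemma sq_eq (h3 : orderOf χ = 3) : χ * χ = χ⁻¹ := by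
  rw [eq_inv_iff_mul_eq_one, ← pow3 h3]
  rw [pow_succ, pow_two]

lemma inv_ne_one (h3 : orderOf χ = 3) : χ⁻¹ ≠ 1 := by
  rw [Ne, inv_eq_one]
  exact ne_one h3

lemma order_inv (h3 : orderOf χ = 3) : orderOf χ⁻¹ = 3 := by
  rw [orderOf_inv]; exact h3

lemma val_cube (h3 : orderOf χ = 3) {x : ZMod p} (hx : x ≠ 0) : χ x ^ 3 = 1 := by
  rw [← MulChar.pow_apply' χ (by norm_num : (3 : ℕ) ≠ 0), pow3 h3]
  exact MulChar.one_apply (isUnit_iff_ne_zero.2 hx)

lemma val_neg_one (h3 : orderOf χ = 3) : χ (-1) = 1 := by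
  have h1 : χ (-1) ^ 2 = 1 := by rw [← map_pow]; simp
  have h2 : χ (-1) ^ 3 = 1 := val_cube h3 (neg_ne_zero.2 one_ne_zero)
  calc χ (-1) = χ (-1) ^ 2 * χ (-1) := by rw [h1, one_mul]
    _ = χ (-1) ^ 3 := by ring
    _ = 1 := h2

lemma conv_ne (χ φ : MulChar (ZMod p) ℂ) {m : ZMod p} (hm : m ≠ 0) :
    ∑ t, χ t * φ (m - t) = (χ * φ) m * jacobiSum χ φ := by
  rw [← Fintype.sum_equiv (Equiv.mulLeft₀ m hm) (fun x => χ (m * x) * φ (m - m * x))
    (fun t => χ t * φ (m - t)) (fun x => rfl)]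
  unfold jacobiSum
  rw [Finset.mul_sum]
  refine Finset.sum_congr rfl fun x _ => ?_
  rw [show m - m * x = m * (1 - x) by ring, map_mul, map_mul, MulChar.mul_apply]
  ring

lemma conv_zero (χ φ : MulChar (ZMod p) ℂ) :
    ∑ t, χ t * φ (0 - t) = φ (-1) * ∑ t, (χ * φ) t := by
  rw [Finset.mul_sum]
  refine Finset.sum_congr rfl fun x _ => ?_
  rw [show (0 : ZMod p) - x = -1 * x by ring, map_mul, MulChar.mul_apply]
  ring

lemma L2 (h3 : orderOf χ = 3) (m : ZMod p) :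
    ∑ t, χ t * χ (m - t) = χ⁻¹ m * jacobiSum χ χ := by
  by_cases hm : m = 0
  · subst hm
    rw [conv_zero, sq_eq h3, MulChar.sum_eq_zero_of_ne_one (inv_ne_one h3), mul_zero,
      MulChar.map_zero, zero_mul]
  · rw [conv_ne χ χ hm, sq_eq h3]

lemma L4 (h3 : orderOf χ = 3) (m : ZMod p) :
    ∑ t, χ t * χ⁻¹ (m - t) = -1 + if m = 0 then (p : ℂ) else 0 := by
  by_cases hm : m = 0
  · subst hm
    rw [conv_zero, mul_inv_cancel, if_pos rfl, val_neg_one (order_inv h3), one_mul,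
      MulChar.sum_one_eq_card_units, Fintype.card_units, ZMod.card, Nat.cast_sub
        (Nat.Prime.one_lt (Fact.out)).le]
    push_cast
    ring
  · rw [conv_ne χ _ hm, mul_inv_cancel, if_neg hm, jacobiSum_nontrivial_inv (ne_one h3),
      val_neg_one h3, MulChar.one_apply (isUnit_iff_ne_zero.2 hm)]
    ring

/-- the number of cube roots, by characters -/
noncomputable def f (χ : MulChar (ZMod p) ℂ) (t : ZMod p) : ℂ := 1 + χ t + χ⁻¹ t

lemma sum_f (h3 : orderOf χ = 3) : ∑ t, f χ t = p := by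
  unfold f
  rw [Finset.sum_add_distrib, Finset.sum_add_distrib, MulChar.sum_eq_zero_of_ne_one (ne_one h3),
    MulChar.sum_eq_zero_of_ne_one (inv_ne_one h3), Finset.sum_const, Finset.card_univ, ZMod.card]
  simp

lemma f_zero : f χ 0 = 1 := by
  unfold f
  rw [MulChar.map_zero, MulChar.map_zero]; ring

/-- `f` is `3` or `0` outside of `0` -/
lemma f_val (h3 : orderOf χ = 3) {t : ZMod p} (ht : t ≠ 0) :
    (χ t = 1 ∧ f χ t = 3) ∨ (χ t ≠ 1 ∧ f χ t = 0) := by
  have h1 := val_cube h3 ht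
  have h2 : χ⁻¹ t = χ t ^ 2 := by
    rw [← sq_eq h3, MulChar.mul_apply]; ring
  unfold f
  rw [h2]
  by_cases h : χ t = 1
  · left
    refine ⟨h, ?_⟩
    rw [h]; norm_num
  · right
    refine ⟨h, ?_⟩
    have h4 : (χ t - 1) * (1 + χ t + χ t ^ 2) = 0 := by
      ring_nf
      ring_nf at h1
      rw [h1]; ring
    rcases mul_eq_zero.1 h4 with h5 | h5
    · exact absurd (sub_eq_zero.1 h5) h
    · exact h5

lemma sum_shift (χ : MulChar (ZMod p) ℂ) (hχ : χ ≠ 1) (m : ZMod p) : ∑ t, χ (m - t) = 0 := by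
  rw [Fintype.sum_equiv (Equiv.subLeft m) (fun t => χ (m - t)) (fun t => χ t) (fun t => rfl)]
  exact MulChar.sum_eq_zero_of_ne_one hχ

lemma sum_f_shift (h3 : orderOf χ = 3) (m : ZMod p) : ∑ t, f χ (m - t) = p := by
  rw [Fintype.sum_equiv (Equiv.subLeft m) (fun t => f χ (m - t)) (fun t => f χ t) (fun t => rfl)]
  exact sum_f h3

/-- `f * χ⁻¹` -/
lemma conv_f_inv (h3 : orderOf χ = 3) (m : ZMod p) :
    ∑ t, f χ t * χ⁻¹ (m - t) =
      -1 + (if m = 0 then (p : ℂ) else 0) + χ m * jacobiSum χ⁻¹ χ⁻¹ := by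
  have h1 : ∀ t, f χ t * χ⁻¹ (m - t) = χ⁻¹ (m - t) + χ t * χ⁻¹ (m - t) + χ⁻¹ t * χ⁻¹ (m - t) := by
    intro t; unfold f; ring
  have h2 := L2 (order_inv h3) m
  rw [inv_inv] at h2
  rw [Finset.sum_congr rfl fun t _ => h1 t, Finset.sum_add_distrib, Finset.sum_add_distrib,
    sum_shift _ (inv_ne_one h3), L4 h3, h2]
  ring

lemma conv_f (h3 : orderOf χ = 3) (m : ZMod p) :
    ∑ t, f χ t * χ (m - t) =
      -1 + (if m = 0 then (p : ℂ) else 0) + χ⁻¹ m * jacobiSum χ χ := by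
  have h := conv_f_inv (order_inv h3) m
  rw [inv_inv] at h
  have h1 : f χ⁻¹ = f χ := by
    funext t; unfold f; rw [inv_inv]; ring
  rw [h1] at h
  exact h

/-- `f * f` -/
lemma conv_ff (h3 : orderOf χ = 3) (m : ZMod p) :
    ∑ t, f χ t * f χ (m - t) = (p : ℂ) - 2 + 2 * (if m = 0 then (p : ℂ) else 0) +
      χ⁻¹ m * jacobiSum χ χ + χ m * jacobiSum χ⁻¹ χ⁻¹ := by
  have h1 : ∀ t, f χ t * f χ (m - t) = f χ t + f χ t * χ (m - t) + f χ t * χ⁻¹ (m - t) := by
    intro t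
    conv_lhs => rw [show f χ (m - t) = 1 + χ (m - t) + χ⁻¹ (m - t) from rfl]
    ring
  rw [Finset.sum_congr rfl fun t _ => h1 t, Finset.sum_add_distrib, Finset.sum_add_distrib,
    sum_f h3, conv_f h3, conv_f_inv h3]
  ring

lemma JJ (h3 : orderOf χ = 3) : jacobiSum χ χ * jacobiSum χ⁻¹ χ⁻¹ = p := by
  have hp : p.Prime := Fact.out
  rw [jacobiSum_mul_jacobiSum_inv _ (ne_one h3) (ne_one h3), ZMod.card]
  · rw [sq_eq h3]; exact inv_ne_one h3
  · rw [ringChar.eq ℂ 0, ZMod.ringChar_zmod_n]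
    exact hp.ne_zero.symm

/-- `f * f * f` -/
lemma conv_fff (h3 : orderOf χ = 3) (n : ZMod p) :
    ∑ t, f χ t * ∑ s, f χ s * f χ (n - t - s) =
      (p : ℂ) ^ 2 + 3 * p * (χ n + χ⁻¹ n) - (jacobiSum χ χ + jacobiSum χ⁻¹ χ⁻¹) *
        (1 - if n = 0 then (p : ℂ) else 0) := by
  have h1 : ∀ t, f χ t * ∑ s, f χ s * f χ (n - t - s) = ((p : ℂ) - 2) * f χ t +
      2 * (if n - t = 0 then (p : ℂ) * f χ t else 0) +
      jacobiSum χ χ * (f χ t * χ⁻¹ (n - t)) + jacobiSum χ⁻¹ χ⁻¹ * (f χ t * χ (n - t)) := by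
    intro t
    rw [conv_ff h3]
    split_ifs <;> ring
  have h2 : ∑ t, (if n - t = 0 then (p : ℂ) * f χ t else 0) = p * f χ n := by
    have h3 : ∀ t, (if n - t = 0 then (p : ℂ) * f χ t else 0) =
        if t = n then (p : ℂ) * f χ t else 0 := by
      intro t
      by_cases h : t = n
      · rw [if_pos h, if_pos (by rw [h, sub_self])]
      · rw [if_neg h, if_neg fun h' => h (sub_eq_zero.1 h').symm]
    rw [Finset.sum_congr rfl fun t _ => h3 t, Finset.sum_ite_eq' , if_pos (Finset.mem_univ _)]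
  rw [Finset.sum_congr rfl fun t _ => h1 t, Finset.sum_add_distrib, Finset.sum_add_distrib,
    Finset.sum_add_distrib, ← Finset.mul_sum, ← Finset.mul_sum, ← Finset.mul_sum, ← Finset.mul_sum,
    h2, sum_f h3, conv_f h3, conv_f_inv h3]
  have hJ := JJ h3
  unfold f
  linear_combination (χ n + χ⁻¹ n) * hJ

/-- the number of cube roots -/
noncomputable def cr (p : ℕ) [Fact p.Prime] (t : ZMod p) : ℕ :=
  ((univ : Finset (ZMod p)).filter (fun u => u ^ 3 = t)).card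

open Classical in
/-- the values of `f` -/
noncomputable def gr (χ : MulChar (ZMod p) ℂ) (t : ZMod p) : ℝ :=
  if t = 0 then 1 else if χ t = 1 then 3 else 0

lemma gr_eq (h3 : orderOf χ = 3) (t : ZMod p) : ((gr χ t : ℝ) : ℂ) = f χ t := by
  unfold gr
  by_cases ht : t = 0
  · subst ht
    rw [if_pos rfl, f_zero]; simp
  · rw [if_neg ht]
    rcases f_val h3 ht with ⟨h1, h2⟩ | ⟨h1, h2⟩
    · rw [if_pos h1, h2]; simp
    · rw [if_neg h1, h2]; simp

lemma cr_le (h3 : orderOf χ = 3) (t : ZMod p) : (cr p t : ℝ) ≤ gr χ t := by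
  unfold gr
  by_cases ht : t = 0
  · subst ht
    rw [if_pos rfl]
    have : (univ : Finset (ZMod p)).filter (fun u => u ^ 3 = 0) = {0} := by
      ext u
      simp
    unfold cr
    rw [this]
    simp
  · rw [if_neg ht]
    by_cases h1 : χ t = 1
    · rw [if_pos h1]
      have h2 : cr p t ≤ 3 := by
        unfold cr
        refine le_trans (Finset.card_le_card (t := (Polynomial.nthRoots 3 t).toFinset) ?_) ?_
        · intro u hu
          rw [Multiset.mem_toFinset, Polynomial.mem_nthRoots (by norm_num)]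
          exact (Finset.mem_filter.1 hu).2
        · exact (Multiset.toFinset_card_le _).trans (Polynomial.card_nthRoots 3 t)
      exact_mod_cast h2
    · rw [if_neg h1]
      have h2 : cr p t = 0 := by
        unfold cr
        rw [Finset.card_eq_zero, Finset.filter_eq_empty_iff]
        intro u _ hu
        apply h1
        have hu0 : u ≠ 0 := by
          rintro rfl
          exact ht (by rw [← hu]; simp)
        rw [← hu, map_pow, val_cube h3 hu0]
      rw [h2]; simp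

lemma cr_eq (h3 : orderOf χ = 3) (t : ZMod p) : (cr p t : ℂ) = f χ t := by
  have h1 : ∑ t : ZMod p, (cr p t : ℝ) = p := by
    have h2 := Finset.card_eq_sum_card_fiberwise (f := fun u : ZMod p => u ^ 3)
      (s := (univ : Finset (ZMod p))) (t := (univ : Finset (ZMod p)))
      (fun _ _ => Finset.mem_coe.2 (Finset.mem_univ _))
    rw [Finset.card_univ, ZMod.card] at h2
    have h4 : ∑ t : ZMod p, cr p t = p := h2.symm
    exact_mod_cast h4
  have h2 : ∑ t : ZMod p, gr χ t = p := by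
    have h4 := sum_f h3
    have h5 : ((∑ t : ZMod p, gr χ t : ℝ) : ℂ) = ((p : ℝ) : ℂ) := by
      push_cast
      rw [← h4]
      exact Finset.sum_congr rfl fun t _ => gr_eq h3 t
    exact_mod_cast h5
  have h4 := (Finset.sum_eq_sum_iff_of_le (s := (univ : Finset (ZMod p)))
    (f := fun t => (cr p t : ℝ)) (g := fun t => gr χ t) (fun t _ => cr_le h3 t)).1
    (h1.trans h2.symm) t (Finset.mem_univ _)
  rw [← gr_eq h3, ← h4]
  simp

/-- sums over cubes -/
lemma push (h3 : orderOf χ = 3) (H : ZMod p → ℂ) : ∑ u, H (u ^ 3) = ∑ t, f χ t * H t := by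
  rw [← Finset.sum_fiberwise (univ : Finset (ZMod p)) (fun u => u ^ 3) (fun u => H (u ^ 3))]
  refine Finset.sum_congr rfl fun t _ => ?_
  rw [← cr_eq h3]
  rw [Finset.sum_congr rfl (g := fun _ => H t) (fun u hu => by rw [(Finset.mem_filter.1 hu).2]),
    Finset.sum_const, nsmul_eq_mul]
  rfl

/-- number of solutions -/
noncomputable def NS (p : ℕ) [Fact p.Prime] (m : ZMod p) : ℕ :=
  ((univ : Finset (ZMod p × ZMod p × ZMod p)).filter
    (fun x => x.1 ^ 3 + x.2.1 ^ 3 + x.2.2 ^ 3 = m)).card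

lemma rho_eq (n : ℕ) : rho p n = NS p (n : ZMod p) := by
  unfold rho NS
  refine Finset.card_nbij' (fun x => ((x.1 : ZMod p), (x.2.1 : ZMod p), (x.2.2 : ZMod p)))
    (fun x => (x.1.val, x.2.1.val, x.2.2.val)) ?_ ?_ ?_ ?_
  · intro x hx
    have h := (Finset.mem_filter.1 hx).2
    refine Finset.mem_coe.2 (Finset.mem_filter.2 ⟨Finset.mem_univ _, ?_⟩)
    have h1 := (ZMod.natCast_eq_natCast_iff _ _ p).2 h
    push_cast at h1
    exact h1
  · intro x hx
    have h := (Finset.mem_filter.1 hx).2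
    refine Finset.mem_coe.2 (Finset.mem_filter.2 ⟨?_, ?_⟩)
    · simp only [Finset.mem_product, Finset.mem_range]
      exact ⟨ZMod.val_lt _, ZMod.val_lt _, ZMod.val_lt _⟩
    · rw [← ZMod.natCast_eq_natCast_iff]
      push_cast
      rw [ZMod.natCast_zmod_val, ZMod.natCast_zmod_val, ZMod.natCast_zmod_val]
      exact h
  · intro x hx
    have h := (Finset.mem_filter.1 hx).1
    simp only [Finset.mem_product, Finset.mem_range] at h
    simp only
    rw [ZMod.val_natCast_of_lt h.1, ZMod.val_natCast_of_lt h.2.1, ZMod.val_natCast_of_lt h.2.2]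
  · intro x _
    simp only
    rw [ZMod.natCast_zmod_val, ZMod.natCast_zmod_val, ZMod.natCast_zmod_val]

lemma NS_eq (h3 : orderOf χ = 3) (m : ZMod p) : (NS p m : ℂ) =
    (p : ℂ) ^ 2 + 3 * p * (χ m + χ⁻¹ m) - (jacobiSum χ χ + jacobiSum χ⁻¹ χ⁻¹) *
        (1 - if m = 0 then (p : ℂ) else 0) := by
  rw [← conv_fff h3]
  have h1 : (NS p m : ℂ) = ∑ u : ZMod p, ∑ v : ZMod p, ∑ w : ZMod p,
      if w ^ 3 = m - u ^ 3 - v ^ 3 then (1 : ℂ) else 0 := by
    unfold NS
    rw [Finset.card_filter, Nat.cast_sum, Fintype.sum_prod_type]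
    refine Finset.sum_congr rfl fun u _ => ?_
    rw [Fintype.sum_prod_type]
    refine Finset.sum_congr rfl fun v _ => Finset.sum_congr rfl fun w _ => ?_
    have h2 : (u ^ 3 + v ^ 3 + w ^ 3 = m) ↔ (w ^ 3 = m - u ^ 3 - v ^ 3) := by
      constructor
      · intro h; rw [← h]; ring
      · intro h; rw [h]; ring
    by_cases h : w ^ 3 = m - u ^ 3 - v ^ 3
    · rw [if_pos h, if_pos (h2.2 h)]; simp
    · rw [if_neg h, if_neg fun h' => h (h2.1 h')]; simp
  have h2 : ∀ r : ZMod p, ∑ w : ZMod p, (if w ^ 3 = r then (1 : ℂ) else 0) = f χ r := by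
    intro r
    rw [push h3 (fun t => if t = r then (1 : ℂ) else 0)]
    simp
  rw [h1]
  have h4 : ∀ u : ZMod p, ∑ v : ZMod p, ∑ w : ZMod p,
      (if w ^ 3 = m - u ^ 3 - v ^ 3 then (1 : ℂ) else 0) =
      ∑ s, f χ s * f χ (m - u ^ 3 - s) := by
    intro u
    rw [Finset.sum_congr rfl fun v _ => h2 (m - u ^ 3 - v ^ 3)]
    exact push h3 (fun s => f χ (m - u ^ 3 - s))
  rw [Finset.sum_congr rfl fun u _ => h4 u]
  exact push h3 (fun t => ∑ s, f χ s * f χ (m - t - s))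

lemma J_star : jacobiSum χ⁻¹ χ⁻¹ = (starRingEnd ℂ) (jacobiSum χ χ) := by
  unfold jacobiSum
  rw [map_sum]
  refine Finset.sum_congr rfl fun x _ => ?_
  rw [map_mul]
  have h1 := MulChar.star_apply' χ x
  have h2 := MulChar.star_apply' χ (1 - x)
  rw [← h1, ← h2]
  rfl

lemma norm_J (h3 : orderOf χ = 3) : ‖jacobiSum χ χ‖ = Real.sqrt p := by
  have h1 := JJ h3
  rw [J_star, Complex.mul_conj, Complex.normSq_eq_norm_sq] at h1
  have h2 : ‖jacobiSum χ χ‖ ^ 2 = (p : ℝ) := by exact_mod_cast h1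
  rw [← h2, Real.sqrt_sq (norm_nonneg _)]

lemma norm_J' (h3 : orderOf χ = 3) : ‖jacobiSum χ⁻¹ χ⁻¹‖ = Real.sqrt p := norm_J (order_inv h3)

lemma norm_val_le (h3 : orderOf χ = 3) (x : ZMod p) : ‖χ x‖ ≤ 1 := by
  by_cases hx : x = 0
  · subst hx; rw [MulChar.map_zero]; simp
  · have h1 := congrArg norm (val_cube h3 hx)
    rw [norm_pow, norm_one] at h1
    by_contra h
    push Not at h
    have h2 : 1 < ‖χ x‖ ^ 3 := one_lt_pow₀ h (by norm_num)
    linarith

open Classical in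
/-- the non-residues -/
noncomputable def GF (χ : MulChar (ZMod p) ℂ) : Finset (ZMod p) :=
  univ.filter (fun x => x ≠ 0 ∧ χ x ≠ 1)

open Classical in
lemma ind (h3 : orderOf χ = 3) (x : ZMod p) :
    (if x ∈ GF χ then (1 : ℂ) else 0) = 1 - f χ x / 3 - (if x = 0 then (2 / 3 : ℂ) else 0) := by
  unfold GF
  by_cases hx : x = 0
  · subst hx
    rw [if_neg (by simp), if_pos rfl, f_zero]; norm_num
  · rcases f_val h3 hx with ⟨h1, h2⟩ | ⟨h1, h2⟩
    · rw [if_neg (by simp [h1]), if_neg hx, h2]; norm_num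
    · rw [if_pos (by simp [h1, hx]), if_neg hx, h2]; norm_num

lemma sum_GF (h3 : orderOf χ = 3) (H : ZMod p → ℂ) :
    ∑ x ∈ GF χ, H x = ∑ x, H x - (∑ x, f χ x * H x) / 3 - 2 / 3 * H 0 := by
  classical
  have h1 : ∑ x ∈ GF χ, H x = ∑ x, (if x ∈ GF χ then (1 : ℂ) else 0) * H x := by
    rw [← Finset.sum_filter_add_sum_filter_not univ (fun x => x ∈ GF χ)]
    have h2 : ∑ x ∈ univ.filter (fun x => ¬ x ∈ GF χ),
        (if x ∈ GF χ then (1 : ℂ) else 0) * H x = 0 := by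
      refine Finset.sum_eq_zero fun x hx => ?_
      rw [if_neg (Finset.mem_filter.1 hx).2, zero_mul]
    rw [h2, add_zero]
    refine Finset.sum_congr ?_ ?_
    · ext x; simp
    · intro x hx
      rw [if_pos (Finset.mem_filter.1 hx).2, one_mul]
  rw [h1]
  have h2 : ∀ x, (if x ∈ GF χ then (1 : ℂ) else 0) * H x =
      H x - (f χ x * H x) / 3 - (if x = 0 then (2 / 3 : ℂ) * H x else 0) := by
    intro x
    rw [ind h3]
    split_ifs <;> ring
  rw [Finset.sum_congr rfl fun x _ => h2 x, Finset.sum_sub_distrib, Finset.sum_sub_distrib,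
    Finset.sum_div, Finset.sum_ite_eq', if_pos (Finset.mem_univ _)]

lemma card_GF (h3 : orderOf χ = 3) : ((GF χ).card : ℝ) = (2 * p - 2) / 3 := by
  have h1 := sum_GF h3 (fun _ => 1)
  simp only [mul_one] at h1
  rw [sum_f h3, Finset.sum_const, Finset.sum_const, Finset.card_univ, ZMod.card, nsmul_eq_mul,
    nsmul_eq_mul] at h1
  have h2 : (((GF χ).card : ℝ) : ℂ) = (((2 * (p : ℝ) - 2) / 3 : ℝ) : ℂ) := by
    push_cast
    rw [← mul_one ((GF χ).card : ℂ), h1]
    ring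
  exact_mod_cast h2

lemma f_neg (h3 : orderOf χ = 3) (x : ZMod p) : f χ (-x) = f χ x := by
  unfold f
  rw [show -x = -1 * x by ring, map_mul, map_mul, val_neg_one h3, val_neg_one (order_inv h3)]
  ring

lemma sum_X (h3 : orderOf χ = 3) {τ : ZMod p} (hτ : τ ≠ 0) :
    ‖∑ x ∈ GF χ, (χ (x + τ) + χ⁻¹ (x + τ))‖ ≤ (6 + 2 * Real.sqrt p) / 3 := by
  have e1 : ∑ x, (χ (x + τ) + χ⁻¹ (x + τ)) = 0 := by
    rw [Fintype.sum_equiv (Equiv.addRight τ) (fun x => χ (x + τ) + χ⁻¹ (x + τ))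
      (fun x => χ x + χ⁻¹ x) (fun x => rfl), Finset.sum_add_distrib,
      MulChar.sum_eq_zero_of_ne_one (ne_one h3), MulChar.sum_eq_zero_of_ne_one (inv_ne_one h3),
      add_zero]
  have e2 : ∑ x, f χ x * (χ (x + τ) + χ⁻¹ (x + τ)) =
      -2 + χ⁻¹ τ * jacobiSum χ χ + χ τ * jacobiSum χ⁻¹ χ⁻¹ := by
    rw [Fintype.sum_equiv (Equiv.neg (ZMod p)) (fun x => f χ x * (χ (x + τ) + χ⁻¹ (x + τ)))
      (fun x => f χ x * χ (τ - x) + f χ x * χ⁻¹ (τ - x)) ?_, Finset.sum_add_distrib, conv_f h3,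
      conv_f_inv h3, if_neg hτ]
    · ring
    · intro x
      simp only [Equiv.neg_apply]
      rw [f_neg h3, show τ - -x = x + τ by ring]
      ring
  rw [sum_GF h3 (fun x => χ (x + τ) + χ⁻¹ (x + τ)), e1, e2, zero_add]
  have hJ := norm_J h3
  have hJ' := norm_J' h3
  have n1 := norm_val_le h3 τ
  have n2 := norm_val_le (order_inv h3) τ
  have hs : 0 ≤ Real.sqrt p := Real.sqrt_nonneg _
  have m1 : ‖χ⁻¹ τ * jacobiSum χ χ‖ ≤ Real.sqrt p := by
    rw [norm_mul, hJ]; nlinarith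
  have m2 : ‖χ τ * jacobiSum χ⁻¹ χ⁻¹‖ ≤ Real.sqrt p := by
    rw [norm_mul, hJ']; nlinarith
  have m3 : ‖χ τ + χ⁻¹ τ‖ ≤ 2 := (norm_add_le _ _).trans (by linarith)
  have m4 : ‖(-2 : ℂ) + χ⁻¹ τ * jacobiSum χ χ + χ τ * jacobiSum χ⁻¹ χ⁻¹‖ ≤
      2 + 2 * Real.sqrt p := by
    refine (norm_add_le _ _).trans ?_
    have := norm_add_le (-2 : ℂ) (χ⁻¹ τ * jacobiSum χ χ)
    rw [norm_neg] at this
    have h2 : ‖(2 : ℂ)‖ = 2 := by simp
    linarith
  calc ‖(0 : ℂ) - (-2 + χ⁻¹ τ * jacobiSum χ χ + χ τ * jacobiSum χ⁻¹ χ⁻¹) / 3 -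
        2 / 3 * (χ τ + χ⁻¹ τ)‖ ≤
        ‖(0 : ℂ) - (-2 + χ⁻¹ τ * jacobiSum χ χ + χ τ * jacobiSum χ⁻¹ χ⁻¹) / 3‖ +
        ‖2 / 3 * (χ τ + χ⁻¹ τ)‖ := norm_sub_le _ _
    _ ≤ (2 + 2 * Real.sqrt p) / 3 + 2 / 3 * 2 := by
        rw [zero_sub, norm_neg, norm_div, norm_mul]
        have h2 : ‖(3 : ℂ)‖ = 3 := by simp
        have h4 : ‖(2 / 3 : ℂ)‖ = 2 / 3 := by simp
        rw [h2, h4]
        refine add_le_add (by linarith) (by linarith)
    _ = (6 + 2 * Real.sqrt p) / 3 := by ring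

lemma exists_char (hp3 : p % 3 = 1) : ∃ χ : MulChar (ZMod p) ℂ, orderOf χ = 3 := by
  have h1 : 3 ∣ Fintype.card (ZMod p) - 1 := by
    rw [ZMod.card]; omega
  exact MulChar.exists_mulChar_orderOf (ZMod p) h1 (Complex.isPrimitiveRoot_exp 3 (by norm_num))

end LOC

open LOC in
theorem loc : S_LOC := by
  classical
  intro p hp hp3
  haveI : Fact p.Prime := ⟨hp⟩
  obtain ⟨χ, h3⟩ := exists_char (p := p) hp3
  have hp7 : 7 ≤ p := by
    have h2 := hp.two_le
    by_contra h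
    have h5 : p = 4 := by omega
    rw [h5] at hp
    exact absurd hp (by norm_num)
  set s : ℝ := Real.sqrt p with hs
  have hpr : (7 : ℝ) ≤ p := by exact_mod_cast hp7
  have hs2 : s ^ 2 = p := Real.sq_sqrt (by linarith)
  have hs0 : 0 < s := Real.sqrt_pos.2 (by linarith)
  have hs1 : 2 ≤ s := by
    by_contra h
    push Not at h
    nlinarith
  have hJ : ‖jacobiSum χ χ + jacobiSum χ⁻¹ χ⁻¹‖ ≤ 2 * s := by
    refine (norm_add_le _ _).trans ?_
    rw [norm_J h3, norm_J' h3]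
    linarith
  have hmem : ∀ g : ℕ, g ∈ (range p).filter (fun g : ℕ => (g : ZMod p) ∈ GF χ) →
      (g : ZMod p) ≠ 0 ∧ χ (g : ZMod p) ≠ 1 := by
    intro g hg
    have := (Finset.mem_filter.1 hg).2
    unfold GF at this
    exact (Finset.mem_filter.1 this).2
  have hbij : ∀ H : ZMod p → ℝ, ∑ g ∈ (range p).filter (fun g : ℕ => (g : ZMod p) ∈ GF χ),
      H (g : ZMod p) = ∑ x ∈ GF χ, H x := by
    intro H
    refine Finset.sum_nbij' (fun g => (g : ZMod p)) (fun x => x.val) ?_ ?_ ?_ ?_ ?_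
    · intro g hg
      exact (Finset.mem_filter.1 hg).2
    · intro x hx
      refine Finset.mem_filter.2 ⟨Finset.mem_range.2 (ZMod.val_lt _), ?_⟩
      rw [ZMod.natCast_zmod_val]; exact hx
    · intro g hg
      exact ZMod.val_natCast_of_lt (Finset.mem_range.1 (Finset.mem_filter.1 hg).1)
    · intro x _
      exact ZMod.natCast_zmod_val x
    · intro g _
      rfl
  have hcard : (((range p).filter (fun g : ℕ => (g : ZMod p) ∈ GF χ)).card : ℝ) =
      (2 * p - 2) / 3 := by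
    have h1 := hbij (fun _ => 1)
    simp only [Finset.sum_const, nsmul_eq_mul, mul_one] at h1
    rw [h1, card_GF h3]
  refine ⟨(range p).filter (fun g : ℕ => (g : ZMod p) ∈ GF χ), Finset.filter_subset _ _, ?_, ?_, ?_⟩
  · rw [← Finset.card_pos]
    have h1 : (0 : ℝ) < (((range p).filter (fun g : ℕ => (g : ZMod p) ∈ GF χ)).card : ℝ) := by
      rw [hcard]; linarith
    exact_mod_cast h1
  · intro g hg
    obtain ⟨hg0, hg1⟩ := hmem g hg
    rw [rho_eq]
    have h1 := NS_eq h3 (g : ZMod p)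
    rw [if_neg hg0, sub_zero, mul_one] at h1
    have h2 : χ (g : ZMod p) + χ⁻¹ (g : ZMod p) = -1 := by
      rcases f_val h3 hg0 with ⟨h, _⟩ | ⟨_, h⟩
      · exact absurd h hg1
      · unfold f at h
        linear_combination h
    rw [h2] at h1
    have h4 : (NS p (g : ZMod p) : ℝ) = (p : ℝ) ^ 2 - 3 * p -
        (jacobiSum χ χ + jacobiSum χ⁻¹ χ⁻¹).re := by
      have h5 := congrArg Complex.re h1
      have h6 : ((NS p (g : ZMod p) : ℂ)).re = (NS p (g : ZMod p) : ℝ) := Complex.natCast_re _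
      rw [h6] at h5
      rw [h5]
      have h7 : ((p : ℂ) ^ 2 + 3 * p * (-1)) = (((p : ℝ) ^ 2 - 3 * p : ℝ) : ℂ) := by
        push_cast; ring
      rw [h7, Complex.sub_re, Complex.ofReal_re]
    have h5 : |(jacobiSum χ χ + jacobiSum χ⁻¹ χ⁻¹).re| ≤ 2 * s :=
      (Complex.abs_re_le_norm _).trans hJ
    have h6 := (abs_le.1 h5).1
    rw [h4]
    have h8 : (p : ℝ) ^ 2 * (1 - 1 / p) = (p : ℝ) ^ 2 - p := by
      field_simp
    rw [h8, ← hs2]
    nlinarith
  · intro t ht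
    have hτ : (t : ZMod p) ≠ 0 := by
      rw [Ne, ZMod.natCast_eq_zero_iff]; exact ht
    set τ : ZMod p := (t : ZMod p) with hτd
    have h0 : ∑ g ∈ (range p).filter (fun g : ℕ => (g : ZMod p) ∈ GF χ), (rho p (g + t) : ℝ) =
        ∑ x ∈ GF χ, (NS p (x + τ) : ℝ) := by
      rw [← hbij (fun x => (NS p (x + τ) : ℝ))]
      refine Finset.sum_congr rfl fun g _ => ?_
      rw [rho_eq]
      push_cast
      rfl
    rw [h0, hcard]
    have h1 : ((∑ x ∈ GF χ, (NS p (x + τ) : ℝ) : ℝ) : ℂ) = (((GF χ).card * (p : ℝ) ^ 2 : ℝ) : ℂ) +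
        (3 * p * ∑ x ∈ GF χ, (χ (x + τ) + χ⁻¹ (x + τ)) -
        (jacobiSum χ χ + jacobiSum χ⁻¹ χ⁻¹) * ((GF χ).card -
          p * ((GF χ).filter (fun x => x + τ = 0)).card)) := by
      push_cast
      rw [Finset.sum_congr rfl fun x _ => NS_eq h3 (x + τ), Finset.sum_sub_distrib,
        Finset.sum_add_distrib, Finset.sum_const, nsmul_eq_mul, ← Finset.mul_sum, ← Finset.mul_sum,
        Finset.sum_sub_distrib, Finset.sum_const, nsmul_eq_mul, Finset.card_filter]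
      have h2 : ∑ x ∈ GF χ, (if x + τ = 0 then (p : ℂ) else 0) =
          p * ((∑ x ∈ GF χ, if x + τ = 0 then 1 else 0 : ℕ) : ℂ) := by
        push_cast
        rw [Finset.mul_sum]
        refine Finset.sum_congr rfl fun x _ => ?_
        split_ifs <;> simp
      rw [h2]
      ring
    have hc1 : (((GF χ).filter (fun x => x + τ = 0)).card : ℝ) ≤ 1 := by
      have : ((GF χ).filter (fun x => x + τ = 0)).card ≤ 1 := by
        rw [Finset.card_le_one]
        intro a ha b hb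
        have h5 := (Finset.mem_filter.1 ha).2
        have h6 := (Finset.mem_filter.1 hb).2
        exact add_right_cancel (h5.trans h6.symm)
      exact_mod_cast this
    have hc0 : (0 : ℝ) ≤ (((GF χ).filter (fun x => x + τ = 0)).card : ℝ) := Nat.cast_nonneg _
    set c : ℕ := ((GF χ).filter (fun x => x + τ = 0)).card with hc
    have hcg := card_GF h3
    set m : ℕ := (GF χ).card with hm
    have hm0 : (0 : ℝ) ≤ m := Nat.cast_nonneg _
    set E : ℂ := 3 * p * ∑ x ∈ GF χ, (χ (x + τ) + χ⁻¹ (x + τ)) -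
        (jacobiSum χ χ + jacobiSum χ⁻¹ χ⁻¹) * (m - p * c) with hE
    have hEn : ‖E‖ ≤ p * (6 + 2 * s) + 2 * s * (m + p) := by
      rw [hE]
      refine (norm_sub_le _ _).trans ?_
      have h2 : ‖(3 * p * ∑ x ∈ GF χ, (χ (x + τ) + χ⁻¹ (x + τ)) : ℂ)‖ ≤ p * (6 + 2 * s) := by
        rw [norm_mul, norm_mul]
        have e1 : ‖(3 : ℂ)‖ = 3 := by simp
        have e2 : ‖(p : ℂ)‖ = p := by simp
        rw [e1, e2]
        have := sum_X h3 hτ
        have h4 : (0 : ℝ) ≤ 3 * p := by linarith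
        nlinarith [mul_le_mul_of_nonneg_left this h4]
      have h4 : ‖((jacobiSum χ χ + jacobiSum χ⁻¹ χ⁻¹) * (m - p * c) : ℂ)‖ ≤ 2 * s * (m + p) := by
        rw [norm_mul]
        have e1 : ‖((m : ℂ) - p * c)‖ ≤ m + p := by
          refine (norm_sub_le _ _).trans ?_
          rw [norm_mul]
          have e2 : ‖(p : ℂ)‖ = p := by simp
          have e3 : ‖(m : ℂ)‖ = m := by simp
          have e4 : ‖(c : ℂ)‖ = c := by simp
          rw [e2, e3, e4]
          nlinarith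
        exact mul_le_mul hJ e1 (norm_nonneg _) (by positivity)
      linarith
    have h5 : ∑ x ∈ GF χ, (NS p (x + τ) : ℝ) = m * (p : ℝ) ^ 2 + E.re := by
      have h6 := congrArg Complex.re h1
      rw [Complex.ofReal_re, Complex.add_re, Complex.ofReal_re] at h6
      exact h6
    rw [h5]
    have h6 : E.re ≤ p * (6 + 2 * s) + 2 * s * (m + p) := (Complex.re_le_norm _).trans hEn
    rw [hcg] at h6 ⊢
    have h7 : (2 * (p : ℝ) - 2) / 3 * (p : ℝ) ^ 2 * (1 + 100 / ((p : ℝ) * s)) =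
        (2 * (p : ℝ) - 2) / 3 * (p : ℝ) ^ 2 + 100 * ((2 * (p : ℝ) - 2) / 3) * s := by
      rw [← hs2]
      field_simp
    rw [h7]
    have h8 : (p : ℝ) * (6 + 2 * s) + 2 * s * ((2 * (p : ℝ) - 2) / 3 + p) ≤
        100 * ((2 * (p : ℝ) - 2) / 3) * s := by
      rw [← hs2]
      have h9 : 0 ≤ s * (184 / 3 * s ^ 2 - 6 * s - 196 / 3) := by
        refine mul_nonneg hs0.le ?_
        nlinarith
      nlinarith
    linarith

end Pool.Agent.H52.TC
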