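import Pool.Agent.H52.TC.Stm5
import Pool.Agent.H52.TC.LOC

/-! TCQ-LOC (helper29): local counts with quartic Jacobi sums -/

set_option autoImplicit false

namespace Pool.Agent.H52.TC

open Finset

namespace LOCQ

variable {p : ℕ} [Fact p.Prime] {χ : MulChar (ZMod p) ℂ}

lemma pow4 (h4 : orderOf χ = 4) : χ ^ 4 = 1 := by
  rw [← h4]; exact pow_orderOf_eq_one χ

lemma ne_one (h4 : orderOf χ = 4) : χ ≠ 1 := by
  rintro rfl
  rw [orderOf_one] at h4
  omega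

lemma eta_ne (h4 : orderOf χ = 4) : χ * χ ≠ 1 := by
  intro h
  have h1 : χ ^ 2 = 1 := by rw [pow_two]; exact h
  have h2 := orderOf_dvd_of_pow_eq_one h1
  rw [h4] at h2
  omega

lemma inv_ne_one (h4 : orderOf χ = 4) : χ⁻¹ ≠ 1 := by
  rw [Ne, inv_eq_one]
  exact ne_one h4

lemma m1 (h4 : orderOf χ = 4) : (χ * χ) * (χ * χ) = 1 := by
  have h := pow4 h4
  rw [show (4 : ℕ) = 2 + 2 from rfl, pow_add, pow_two] at h
  exact h

lemma m2 (h4 : orderOf χ = 4) : (χ * χ) * χ = χ⁻¹ := by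
  rw [eq_inv_iff_mul_eq_one, mul_assoc]
  exact m1 h4

lemma m2' (h4 : orderOf χ = 4) : χ * (χ * χ) = χ⁻¹ := by
  rw [mul_comm]
  exact m2 h4

lemma m3 : (χ * χ) * χ⁻¹ = χ := by
  rw [mul_assoc, mul_inv_cancel, mul_one]

lemma m3' : χ⁻¹ * (χ * χ) = χ := by
  rw [← mul_assoc, inv_mul_cancel, one_mul]

lemma m4 (h4 : orderOf χ = 4) : χ⁻¹ * χ⁻¹ = χ * χ := by
  rw [← mul_inv]
  exact inv_eq_of_mul_eq_one_right (m1 h4)

lemma order_inv (h4 : orderOf χ = 4) : orderOf χ⁻¹ = 4 := by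
  rw [orderOf_inv]; exact h4

/-- convolution -/
noncomputable def c (α β : MulChar (ZMod p) ℂ) (m : ZMod p) : ℂ := ∑ t, α t * β (m - t)

lemma c_gen (α β : MulChar (ZMod p) ℂ) (h : α * β ≠ 1) (m : ZMod p) :
    c α β m = (α * β) m * jacobiSum α β := by
  unfold c
  by_cases hm : m = 0
  · subst hm
    rw [LOC.conv_zero, MulChar.sum_eq_zero_of_ne_one h, mul_zero, MulChar.map_zero, zero_mul]
  · exact LOC.conv_ne α β hm

lemma c_inv (α β : MulChar (ZMod p) ℂ) (hα : α ≠ 1) (h : α * β = 1) (m : ZMod p) :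
    c α β m = α (-1) * (-1 + if m = 0 then (p : ℂ) else 0) := by
  have hβ : β = α⁻¹ := (inv_eq_of_mul_eq_one_right h).symm
  have hα1 : α⁻¹ (-1) = α (-1) := by
    rw [MulChar.inv_apply']
    congr 1
    rw [inv_neg, inv_one]
  unfold c
  by_cases hm : m = 0
  · subst hm
    rw [LOC.conv_zero, h, if_pos rfl, hβ, hα1,
      MulChar.sum_one_eq_card_units, Fintype.card_units, ZMod.card, Nat.cast_sub
        (Nat.Prime.one_lt (Fact.out)).le]
    push_cast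
    ring
  · rw [LOC.conv_ne α β hm, h, if_neg hm, hβ, jacobiSum_nontrivial_inv hα,
      MulChar.one_apply (isUnit_iff_ne_zero.2 hm)]
    ring

/-- the number of fourth roots, by characters -/
noncomputable def f (χ : MulChar (ZMod p) ℂ) (t : ZMod p) : ℂ := 1 + χ t + (χ * χ) t + χ⁻¹ t

lemma sum_f (h4 : orderOf χ = 4) : ∑ t, f χ t = p := by
  unfold f
  rw [Finset.sum_add_distrib, Finset.sum_add_distrib, Finset.sum_add_distrib,
    MulChar.sum_eq_zero_of_ne_one (ne_one h4), MulChar.sum_eq_zero_of_ne_one (inv_ne_one h4),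
    MulChar.sum_eq_zero_of_ne_one (eta_ne h4),
    Finset.sum_const, Finset.card_univ, ZMod.card]
  simp

lemma f_zero : f χ 0 = 1 := by
  unfold f
  rw [MulChar.map_zero, MulChar.map_zero, MulChar.map_zero]; ring

lemma val_four (h4 : orderOf χ = 4) {x : ZMod p} (hx : x ≠ 0) : χ x ^ 4 = 1 := by
  rw [← MulChar.pow_apply' χ (by norm_num : (4 : ℕ) ≠ 0), pow4 h4]
  exact MulChar.one_apply (isUnit_iff_ne_zero.2 hx)

lemma f_val (h4 : orderOf χ = 4) {t : ZMod p} (ht : t ≠ 0) :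
    (χ t = 1 ∧ f χ t = 4) ∨ (χ t ≠ 1 ∧ f χ t = 0) := by
  have h1 := val_four h4 ht
  have h2 : χ⁻¹ t = χ t ^ 3 := by
    rw [← m2 h4, MulChar.mul_apply, MulChar.mul_apply]; ring
  unfold f
  rw [h2, MulChar.mul_apply]
  by_cases h : χ t = 1
  · left
    refine ⟨h, ?_⟩
    rw [h]; norm_num
  · right
    refine ⟨h, ?_⟩
    have h5 : (χ t - 1) * (1 + χ t + χ t * χ t + χ t ^ 3) = 0 := by
      linear_combination h1
    rcases mul_eq_zero.1 h5 with h6 | h6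
    · exact absurd (sub_eq_zero.1 h6) h
    · exact h6

/-- the number of fourth roots -/
noncomputable def cr (p : ℕ) [Fact p.Prime] (t : ZMod p) : ℕ :=
  ((univ : Finset (ZMod p)).filter (fun u => u ^ 4 = t)).card

open Classical in
/-- the values of `f` -/
noncomputable def gr (χ : MulChar (ZMod p) ℂ) (t : ZMod p) : ℝ :=
  if t = 0 then 1 else if χ t = 1 then 4 else 0

lemma gr_eq (h4 : orderOf χ = 4) (t : ZMod p) : ((gr χ t : ℝ) : ℂ) = f χ t := by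
  unfold gr
  by_cases ht : t = 0
  · subst ht
    rw [if_pos rfl, f_zero]; simp
  · rw [if_neg ht]
    rcases f_val h4 ht with ⟨h1, h2⟩ | ⟨h1, h2⟩
    · rw [if_pos h1, h2]; simp
    · rw [if_neg h1, h2]; simp

lemma cr_le (h4 : orderOf χ = 4) (t : ZMod p) : (cr p t : ℝ) ≤ gr χ t := by
  unfold gr
  by_cases ht : t = 0
  · subst ht
    rw [if_pos rfl]
    have : (univ : Finset (ZMod p)).filter (fun u => u ^ 4 = 0) = {0} := by
      ext u
      simp
    unfold cr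
    rw [this]
    simp
  · rw [if_neg ht]
    by_cases h1 : χ t = 1
    · rw [if_pos h1]
      have h2 : cr p t ≤ 4 := by
        unfold cr
        refine le_trans (Finset.card_le_card (t := (Polynomial.nthRoots 4 t).toFinset) ?_) ?_
        · intro u hu
          rw [Multiset.mem_toFinset, Polynomial.mem_nthRoots (by norm_num)]
          exact (Finset.mem_filter.1 hu).2
        · exact (Multiset.toFinset_card_le _).trans (Polynomial.card_nthRoots 4 t)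
      exact_mod_cast h2
    · rw [if_neg h1]
      have h2 : cr p t = 0 := by
        unfold cr
        rw [Finset.card_eq_zero, Finset.filter_eq_empty_iff]
        intro u _ hu
        apply h1
        have hu0 : u ≠ 0 := by
          rintro rfl
          exact ht (by rw [← hu]; simp)
        rw [← hu, map_pow, val_four h4 hu0]
      rw [h2]; simp

lemma cr_eq (h4 : orderOf χ = 4) (t : ZMod p) : (cr p t : ℂ) = f χ t := by
  have h1 : ∑ t : ZMod p, (cr p t : ℝ) = p := by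
    have h2 := Finset.card_eq_sum_card_fiberwise (f := fun u : ZMod p => u ^ 4)
      (s := (univ : Finset (ZMod p))) (t := (univ : Finset (ZMod p)))
      (fun _ _ => Finset.mem_coe.2 (Finset.mem_univ _))
    rw [Finset.card_univ, ZMod.card] at h2
    have h4 : ∑ t : ZMod p, cr p t = p := h2.symm
    exact_mod_cast h4
  have h2 : ∑ t : ZMod p, gr χ t = p := by
    have h6 := sum_f h4
    have h5 : ((∑ t : ZMod p, gr χ t : ℝ) : ℂ) = ((p : ℝ) : ℂ) := by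
      push_cast
      rw [← h6]
      exact Finset.sum_congr rfl fun t _ => gr_eq h4 t
    exact_mod_cast h5
  have h7 := (Finset.sum_eq_sum_iff_of_le (s := (univ : Finset (ZMod p)))
    (f := fun t => (cr p t : ℝ)) (g := fun t => gr χ t) (fun t _ => cr_le h4 t)).1
    (h1.trans h2.symm) t (Finset.mem_univ _)
  rw [← gr_eq h4, ← h7]
  simp

/-- sums over fourth powers -/
lemma push (h4 : orderOf χ = 4) (H : ZMod p → ℂ) : ∑ u, H (u ^ 4) = ∑ t, f χ t * H t := by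
  rw [← Finset.sum_fiberwise (univ : Finset (ZMod p)) (fun u => u ^ 4) (fun u => H (u ^ 4))]
  refine Finset.sum_congr rfl fun t _ => ?_
  rw [← cr_eq h4]
  rw [Finset.sum_congr rfl (g := fun _ => H t) (fun u hu => by rw [(Finset.mem_filter.1 hu).2]),
    Finset.sum_const, nsmul_eq_mul]
  rfl

/-- number of solutions -/
noncomputable def NS (p : ℕ) [Fact p.Prime] (m : ZMod p) : ℕ :=
  ((univ : Finset (ZMod p × ZMod p × ZMod p × ZMod p)).filter
    (fun x => x.1 ^ 4 + x.2.1 ^ 4 + x.2.2.1 ^ 4 + x.2.2.2 ^ 4 = m)).card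

lemma rho_eq (n : ℕ) : rhoQ p n = NS p (n : ZMod p) := by
  unfold rhoQ NS
  refine Finset.card_nbij' (fun x => ((x.1 : ZMod p), (x.2.1 : ZMod p), (x.2.2.1 : ZMod p),
      (x.2.2.2 : ZMod p)))
    (fun x => (x.1.val, x.2.1.val, x.2.2.1.val, x.2.2.2.val)) ?_ ?_ ?_ ?_
  · intro x hx
    have h := (Finset.mem_filter.1 hx).2
    refine Finset.mem_coe.2 (Finset.mem_filter.2 ⟨Finset.mem_univ _, ?_⟩)
    have h1 := (ZMod.natCast_eq_natCast_iff _ _ p).2 h
    push_cast at h1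
    exact h1
  · intro x hx
    have h := (Finset.mem_filter.1 hx).2
    refine Finset.mem_coe.2 (Finset.mem_filter.2 ⟨?_, ?_⟩)
    · simp only [Finset.mem_product, Finset.mem_range]
      exact ⟨ZMod.val_lt _, ZMod.val_lt _, ZMod.val_lt _, ZMod.val_lt _⟩
    · rw [← ZMod.natCast_eq_natCast_iff]
      push_cast
      rw [ZMod.natCast_zmod_val, ZMod.natCast_zmod_val, ZMod.natCast_zmod_val,
        ZMod.natCast_zmod_val]
      exact h
  · intro x hx
    have h := (Finset.mem_filter.1 hx).1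
    simp only [Finset.mem_product, Finset.mem_range] at h
    simp only
    rw [ZMod.val_natCast_of_lt h.1, ZMod.val_natCast_of_lt h.2.1, ZMod.val_natCast_of_lt h.2.2.1,
      ZMod.val_natCast_of_lt h.2.2.2]
  · intro x _
    simp only
    rw [ZMod.natCast_zmod_val, ZMod.natCast_zmod_val, ZMod.natCast_zmod_val,
      ZMod.natCast_zmod_val]

/-- two fourth powers -/
noncomputable def N2 (χ : MulChar (ZMod p) ℂ) (m : ZMod p) : ℂ := ∑ t, f χ t * f χ (m - t)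

lemma NS_conv (h4 : orderOf χ = 4) (n : ZMod p) :
    (NS p n : ℂ) = ∑ m, N2 χ m * N2 χ (n - m) := by
  have h1 : (NS p n : ℂ) = ∑ u : ZMod p, ∑ v : ZMod p, ∑ w : ZMod p, ∑ z : ZMod p,
      if z ^ 4 = n - u ^ 4 - v ^ 4 - w ^ 4 then (1 : ℂ) else 0 := by
    unfold NS
    rw [Finset.card_filter, Nat.cast_sum, Fintype.sum_prod_type]
    refine Finset.sum_congr rfl fun u _ => ?_
    rw [Fintype.sum_prod_type]
    refine Finset.sum_congr rfl fun v _ => ?_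
    rw [Fintype.sum_prod_type]
    refine Finset.sum_congr rfl fun w _ => Finset.sum_congr rfl fun z _ => ?_
    have h2 : (u ^ 4 + v ^ 4 + w ^ 4 + z ^ 4 = n) ↔ (z ^ 4 = n - u ^ 4 - v ^ 4 - w ^ 4) := by
      constructor
      · intro h; rw [← h]; ring
      · intro h; rw [h]; ring
    by_cases h : z ^ 4 = n - u ^ 4 - v ^ 4 - w ^ 4
    · rw [if_pos h, if_pos (h2.2 h)]; simp
    · rw [if_neg h, if_neg fun h' => h (h2.1 h')]; simp
  have h2 : ∀ r : ZMod p, ∑ w : ZMod p, (if w ^ 4 = r then (1 : ℂ) else 0) = f χ r := by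
    intro r
    rw [push h4 (fun t => if t = r then (1 : ℂ) else 0)]
    simp
  have h3 : ∀ k : ZMod p, ∑ w : ZMod p, ∑ z : ZMod p,
      (if z ^ 4 = k - w ^ 4 then (1 : ℂ) else 0) = N2 χ k := by
    intro k
    rw [Finset.sum_congr rfl fun w _ => h2 (k - w ^ 4)]
    exact push h4 (fun s => f χ (k - s))
  rw [h1]
  have h5 : ∀ u : ZMod p, ∑ v : ZMod p, ∑ w : ZMod p, ∑ z : ZMod p,
      (if z ^ 4 = n - u ^ 4 - v ^ 4 - w ^ 4 then (1 : ℂ) else 0) =
      ∑ s, f χ s * N2 χ (n - u ^ 4 - s) := by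
    intro u
    rw [Finset.sum_congr rfl fun v _ => h3 (n - u ^ 4 - v ^ 4)]
    exact push h4 (fun s => N2 χ (n - u ^ 4 - s))
  rw [Finset.sum_congr rfl fun u _ => h5 u,
    push h4 (fun t => ∑ s, f χ s * N2 χ (n - t - s))]
  have h6 : ∀ t : ZMod p, ∑ s, f χ s * N2 χ (n - t - s) = ∑ m, f χ (m - t) * N2 χ (n - m) := by
    intro t
    rw [Fintype.sum_equiv (Equiv.addLeft t) (fun s => f χ s * N2 χ (n - t - s))
      (fun m => f χ (m - t) * N2 χ (n - m)) (fun s => ?_)]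
    show f χ s * N2 χ (n - t - s) = f χ (t + s - t) * N2 χ (n - (t + s))
    rw [add_sub_cancel_left, sub_sub]
  rw [Finset.sum_congr rfl fun t _ => by rw [h6 t, Finset.mul_sum], Finset.sum_comm]
  refine Finset.sum_congr rfl fun m _ => ?_
  unfold N2
  rw [Finset.sum_mul]
  refine Finset.sum_congr rfl fun t _ => ?_
  ring

/-- the oscillating part -/
noncomputable def G (χ : MulChar (ZMod p) ℂ) (R Q Q' : ℂ) (m : ZMod p) : ℂ :=
  (χ * χ) m * R + 2 * (χ⁻¹ m * Q) + 2 * (χ m * Q')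

lemma eta_neg : (χ * χ) (-1) = 1 := by
  rw [MulChar.mul_apply, ← map_mul]
  simp

lemma N2_eq (h4 : orderOf χ = 4) (hneg : χ (-1) = -1) (m : ZMod p) :
    N2 χ m = (p + 1) + G χ (jacobiSum χ χ + jacobiSum χ⁻¹ χ⁻¹) (jacobiSum χ (χ * χ))
      (jacobiSum χ⁻¹ (χ * χ)) m - (if m = 0 then (p : ℂ) else 0) := by
  have hneg' : χ⁻¹ (-1) = -1 := by
    rw [MulChar.inv_apply', inv_neg, inv_one, hneg]
  have e : ∀ t, f χ t * f χ (m - t) = f χ t + (χ (m - t) + (χ * χ) (m - t) + χ⁻¹ (m - t)) +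
      (χ t * χ (m - t) + χ t * (χ * χ) (m - t) + χ t * χ⁻¹ (m - t)) +
      ((χ * χ) t * χ (m - t) + (χ * χ) t * (χ * χ) (m - t) + (χ * χ) t * χ⁻¹ (m - t)) +
      (χ⁻¹ t * χ (m - t) + χ⁻¹ t * (χ * χ) (m - t) + χ⁻¹ t * χ⁻¹ (m - t)) := by
    intro t; unfold f; ring
  have c1 := c_gen χ χ (eta_ne h4) m
  have c2 := c_gen χ (χ * χ) (by rw [m2' h4]; exact inv_ne_one h4) m
  have c3 := c_inv χ χ⁻¹ (ne_one h4) (mul_inv_cancel χ) m
  have c4 := c_gen (χ * χ) χ (by rw [m2 h4]; exact inv_ne_one h4) m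
  have c5 := c_inv (χ * χ) (χ * χ) (eta_ne h4) (m1 h4) m
  have c6 := c_gen (χ * χ) χ⁻¹ (by rw [m3]; exact ne_one h4) m
  have c7 := c_inv χ⁻¹ χ (inv_ne_one h4) (inv_mul_cancel χ) m
  have c8 := c_gen χ⁻¹ (χ * χ) (by rw [m3']; exact ne_one h4) m
  have c9 := c_gen χ⁻¹ χ⁻¹ (by rw [m4 h4]; exact eta_ne h4) m
  rw [m2' h4] at c2
  rw [hneg] at c3
  rw [m2 h4, jacobiSum_comm] at c4
  rw [eta_neg] at c5
  rw [m3, jacobiSum_comm] at c6
  rw [hneg'] at c7
  rw [m3'] at c8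
  rw [m4 h4] at c9
  unfold c at c1 c2 c3 c4 c5 c6 c7 c8 c9
  unfold N2 G
  rw [Finset.sum_congr rfl fun t _ => e t]
  simp only [Finset.sum_add_distrib]
  rw [c1, c2, c3, c4, c5, c6, c7, c8, c9, sum_f h4, LOC.sum_shift _ (ne_one h4),
    LOC.sum_shift _ (eta_ne h4), LOC.sum_shift _ (inv_ne_one h4)]
  split_ifs <;> ring

lemma sum_G (h4 : orderOf χ = 4) (R Q Q' : ℂ) : ∑ m, G χ R Q Q' m = 0 := by
  unfold G
  rw [Finset.sum_add_distrib, Finset.sum_add_distrib, ← Finset.sum_mul, ← Finset.mul_sum,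
    ← Finset.mul_sum, ← Finset.sum_mul, ← Finset.sum_mul,
    MulChar.sum_eq_zero_of_ne_one (eta_ne h4), MulChar.sum_eq_zero_of_ne_one (ne_one h4),
    MulChar.sum_eq_zero_of_ne_one (inv_ne_one h4)]
  ring

lemma sum_G' (h4 : orderOf χ = 4) (R Q Q' : ℂ) (n : ZMod p) :
    ∑ m, G χ R Q Q' (n - m) = 0 := by
  rw [Fintype.sum_equiv (Equiv.subLeft n) (fun m => G χ R Q Q' (n - m)) (fun m => G χ R Q Q' m)
    (fun t => rfl)]
  exact sum_G h4 R Q Q'

lemma GG (h4 : orderOf χ = 4) (hneg : χ (-1) = -1) (R Q Q' : ℂ) (n : ZMod p) :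
    ∑ m, G χ R Q Q' m * G χ R Q Q' (n - m) =
      R ^ 2 * (-1 + if n = 0 then (p : ℂ) else 0) +
      4 * R * Q * (χ n * jacobiSum χ⁻¹ (χ * χ)) + 4 * R * Q' * (χ⁻¹ n * jacobiSum χ (χ * χ)) +
      4 * Q ^ 2 * ((χ * χ) n * jacobiSum χ⁻¹ χ⁻¹) + 4 * Q' ^ 2 * ((χ * χ) n * jacobiSum χ χ) +
      8 * (Q * Q') * (1 - if n = 0 then (p : ℂ) else 0) := by
  have hneg' : χ⁻¹ (-1) = -1 := by
    rw [MulChar.inv_apply', inv_neg, inv_one, hneg]
  have e : ∀ t, G χ R Q Q' t * G χ R Q Q' (n - t) =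
      4 * Q' * Q' * (χ t * χ (n - t)) + 2 * Q' * R * (χ t * (χ * χ) (n - t)) +
      4 * Q' * Q * (χ t * χ⁻¹ (n - t)) +
      (2 * R * Q' * ((χ * χ) t * χ (n - t)) + R * R * ((χ * χ) t * (χ * χ) (n - t)) +
      2 * R * Q * ((χ * χ) t * χ⁻¹ (n - t))) +
      (4 * Q * Q' * (χ⁻¹ t * χ (n - t)) + 2 * Q * R * (χ⁻¹ t * (χ * χ) (n - t)) +
      4 * Q * Q * (χ⁻¹ t * χ⁻¹ (n - t))) := by
    intro t; unfold G; ring
  have c1 := c_gen χ χ (eta_ne h4) n
  have c2 := c_gen χ (χ * χ) (by rw [m2' h4]; exact inv_ne_one h4) n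
  have c3 := c_inv χ χ⁻¹ (ne_one h4) (mul_inv_cancel χ) n
  have c4 := c_gen (χ * χ) χ (by rw [m2 h4]; exact inv_ne_one h4) n
  have c5 := c_inv (χ * χ) (χ * χ) (eta_ne h4) (m1 h4) n
  have c6 := c_gen (χ * χ) χ⁻¹ (by rw [m3]; exact ne_one h4) n
  have c7 := c_inv χ⁻¹ χ (inv_ne_one h4) (inv_mul_cancel χ) n
  have c8 := c_gen χ⁻¹ (χ * χ) (by rw [m3']; exact ne_one h4) n
  have c9 := c_gen χ⁻¹ χ⁻¹ (by rw [m4 h4]; exact eta_ne h4) n
  rw [m2' h4] at c2
  rw [hneg] at c3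
  rw [m2 h4, jacobiSum_comm] at c4
  rw [eta_neg] at c5
  rw [m3, jacobiSum_comm] at c6
  rw [hneg'] at c7
  rw [m3'] at c8
  rw [m4 h4] at c9
  unfold c at c1 c2 c3 c4 c5 c6 c7 c8 c9
  rw [Finset.sum_congr rfl fun t _ => e t]
  simp only [Finset.sum_add_distrib, ← Finset.mul_sum]
  rw [c1, c2, c3, c4, c5, c6, c7, c8, c9]
  split_ifs <;> ring

lemma NS_eq (h4 : orderOf χ = 4) (hneg : χ (-1) = -1) (n : ZMod p) (R Q Q' : ℂ)
    (hR : R = jacobiSum χ χ + jacobiSum χ⁻¹ χ⁻¹) (hQ : Q = jacobiSum χ (χ * χ))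
    (hQ' : Q' = jacobiSum χ⁻¹ (χ * χ)) :
    (NS p n : ℂ) = (p : ℂ) ^ 3 - p + (if n = 0 then (p : ℂ) ^ 2 else 0) -
      2 * p * G χ R Q Q' n + ∑ m, G χ R Q Q' m * G χ R Q Q' (n - m) := by
  rw [NS_conv h4]
  have e : ∀ m, N2 χ m * N2 χ (n - m) =
      ((p : ℂ) + 1) ^ 2 + ((p : ℂ) + 1) * G χ R Q Q' (n - m) + ((p : ℂ) + 1) * G χ R Q Q' m +
      G χ R Q Q' m * G χ R Q Q' (n - m) -
      (if m = n then p * ((p : ℂ) + 1) + p * G χ R Q Q' m else 0) -
      (if m = 0 then p * ((p : ℂ) + 1) + p * G χ R Q Q' (n - m) else 0) +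
      (if m = 0 then (if n = 0 then (p : ℂ) ^ 2 else 0) else 0) := by
    intro m
    rw [N2_eq h4 hneg, N2_eq h4 hneg, ← hR, ← hQ, ← hQ']
    by_cases h1 : m = 0
    · by_cases h2 : m = n
      · rw [if_pos h1, if_pos h2, if_pos h1, if_pos h1, if_pos (by rw [h2, sub_self]),
          if_pos (by rw [← h2, h1])]
        ring
      · rw [if_pos h1, if_neg h2, if_pos h1, if_pos h1,
          if_neg (by intro h; exact h2 (sub_eq_zero.1 h).symm),
          if_neg (by intro h; exact h2 (by rw [h, h1]))]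
        ring
    · by_cases h2 : m = n
      · rw [if_neg h1, if_pos h2, if_neg h1, if_neg h1, if_pos (by rw [h2, sub_self])]
        ring
      · rw [if_neg h1, if_neg h2, if_neg h1, if_neg h1,
          if_neg (by intro h; exact h2 (sub_eq_zero.1 h).symm)]
        ring
  rw [Finset.sum_congr rfl fun m _ => e m]
  simp only [Finset.sum_add_distrib, Finset.sum_sub_distrib, ← Finset.mul_sum]
  rw [sum_G h4, sum_G' h4, Finset.sum_const, Finset.card_univ, ZMod.card, nsmul_eq_mul]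
  rw [Finset.sum_ite_eq' univ n, if_pos (Finset.mem_univ _), Finset.sum_ite_eq' univ (0 : ZMod p),
    if_pos (Finset.mem_univ _), Finset.sum_ite_eq' univ (0 : ZMod p), if_pos (Finset.mem_univ _),
    sub_zero]
  ring

lemma J_star (α β : MulChar (ZMod p) ℂ) :
    jacobiSum α⁻¹ β⁻¹ = (starRingEnd ℂ) (jacobiSum α β) := by
  unfold jacobiSum
  rw [map_sum]
  refine Finset.sum_congr rfl fun x _ => ?_
  rw [map_mul]
  have h1 := MulChar.star_apply' α x
  have h2 := MulChar.star_apply' β (1 - x)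
  rw [← h1, ← h2]
  rfl

lemma JJ {α β : MulChar (ZMod p) ℂ} (hα : α ≠ 1) (hβ : β ≠ 1) (h : α * β ≠ 1) :
    jacobiSum α β * jacobiSum α⁻¹ β⁻¹ = p := by
  have hp : p.Prime := Fact.out
  rw [jacobiSum_mul_jacobiSum_inv _ hα hβ h, ZMod.card]
  rw [ringChar.eq ℂ 0, ZMod.ringChar_zmod_n]
  exact hp.ne_zero.symm

lemma normJ {α β : MulChar (ZMod p) ℂ} (hα : α ≠ 1) (hβ : β ≠ 1) (h : α * β ≠ 1) :
    ‖jacobiSum α β‖ = Real.sqrt p := by
  have h1 := JJ hα hβ h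
  rw [J_star, Complex.mul_conj, Complex.normSq_eq_norm_sq] at h1
  have h2 : ‖jacobiSum α β‖ ^ 2 = (p : ℝ) := by exact_mod_cast h1
  rw [← h2, Real.sqrt_sq (norm_nonneg _)]

lemma norm_val {n : ZMod p} (h4 : orderOf χ = 4) : ‖χ n‖ ≤ 1 := by
  by_cases hx : n = 0
  · subst hx; rw [MulChar.map_zero]; simp
  · have h1 := congrArg norm (val_four h4 hx)
    rw [norm_pow, norm_one] at h1
    by_contra h
    push Not at h
    have h2 : 1 < ‖χ n‖ ^ 4 := one_lt_pow₀ h (by norm_num)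
    linarith

lemma exists_char (hp5 : p % 8 = 5) : ∃ χ : MulChar (ZMod p) ℂ, orderOf χ = 4 := by
  have h1 : 4 ∣ Fintype.card (ZMod p) - 1 := by
    rw [ZMod.card]; omega
  exact MulChar.exists_mulChar_orderOf (ZMod p) h1 (Complex.isPrimitiveRoot_exp 4 (by norm_num))

lemma sq_eq_one_iff_of_side_eq {z : ℂ} (h : z ^ 2 = 1) : z = 1 ∨ z = -1 := by
  have h1 : (z - 1) * (z + 1) = 0 := by linear_combination h
  rcases mul_eq_zero.1 h1 with h2 | h2
  · exact Or.inl (sub_eq_zero.1 h2)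
  · exact Or.inr (eq_neg_of_add_eq_zero_left h2)

/-- `χ(-1) = -1` -/
lemma neg_one (h4 : orderOf χ = 4) (hp5 : p % 8 = 5) : χ (-1) = -1 := by
  have hp : p.Prime := Fact.out
  have h1 : χ (-1) ^ 2 = 1 := by rw [← map_pow]; simp
  rcases sq_eq_one_iff_of_side_eq h1 with h | h
  · exfalso
    have hm1 : (-1 : ZMod p) ≠ 0 := neg_ne_zero.2 one_ne_zero
    rcases f_val h4 hm1 with ⟨-, h2⟩ | ⟨h2, -⟩
    · rw [← cr_eq h4] at h2
      have h3 : cr p (-1) = 4 := by exact_mod_cast h2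
      have h5 : ((univ : Finset (ZMod p)).filter (fun u => u ^ 4 = -1)).Nonempty := by
        rw [← Finset.card_pos]
        unfold cr at h3
        omega
      obtain ⟨u, hu⟩ := h5
      have hu4 : u ^ 4 = -1 := (Finset.mem_filter.1 hu).2
      haveI : Fact (2 < p) := ⟨by omega⟩
      haveI : Fact (Nat.Prime 2) := ⟨Nat.prime_two⟩
      have hu0 : u ≠ 0 := by
        rintro rfl
        rw [zero_pow (by norm_num)] at hu4
        exact hm1 hu4.symm
      have h6 : orderOf u = 2 ^ (2 + 1) := by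
        refine orderOf_eq_prime_pow ?_ ?_
        · rw [show (2 : ℕ) ^ 2 = 4 by norm_num, hu4]
          exact ZMod.neg_one_ne_one
        · rw [show (2 : ℕ) ^ (2 + 1) = 4 * 2 by norm_num, pow_mul, hu4]
          ring
      have h7 := ZMod.orderOf_dvd_card_sub_one hu0
      rw [h6] at h7
      omega
    · exact h2 h
  · exact h

end LOCQ

open LOCQ in
theorem locQ : S_LOCQ := by
  intro p hp hp5
  haveI : Fact p.Prime := ⟨hp⟩
  obtain ⟨χ, h4⟩ := exists_char (p := p) hp5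
  have hneg := neg_one h4 hp5
  obtain ⟨R, hR⟩ : ∃ R : ℂ, R = jacobiSum χ χ + jacobiSum χ⁻¹ χ⁻¹ := ⟨_, rfl⟩
  obtain ⟨Q, hQ⟩ : ∃ Q : ℂ, Q = jacobiSum χ (χ * χ) := ⟨_, rfl⟩
  obtain ⟨Q', hQ'⟩ : ∃ Q' : ℂ, Q' = jacobiSum χ⁻¹ (χ * χ) := ⟨_, rfl⟩
  have hη : (χ * χ)⁻¹ = χ * χ := inv_eq_of_mul_eq_one_right (m1 h4)
  have hcη : χ * (χ * χ) ≠ 1 := by rw [m2' h4]; exact inv_ne_one h4
  obtain ⟨s, hs⟩ : ∃ s : ℝ, s = Real.sqrt p := ⟨_, rfl⟩
  have hp5' : 5 ≤ p := by omega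
  have hpr : (5 : ℝ) ≤ p := by exact_mod_cast hp5'
  have hs2 : s ^ 2 = p := by rw [hs]; exact Real.sq_sqrt (by linarith)
  have hs0 : 0 < s := by rw [hs]; exact Real.sqrt_pos.2 (by linarith)
  have hs1 : 2 ≤ s := by
    by_contra h
    push Not at h
    nlinarith
  have nP : ‖jacobiSum χ χ‖ = s := by rw [hs]; exact normJ (ne_one h4) (ne_one h4) (eta_ne h4)
  have hP' : jacobiSum χ⁻¹ χ⁻¹ = (starRingEnd ℂ) (jacobiSum χ χ) := J_star χ χ
  have nP' : ‖jacobiSum χ⁻¹ χ⁻¹‖ = s := by rw [hP', Complex.norm_conj]; exact nP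
  have nQ : ‖Q‖ = s := by rw [hQ, hs]; exact normJ (ne_one h4) (eta_ne h4) hcη
  have hQ'' : Q' = (starRingEnd ℂ) Q := by
    rw [hQ', hQ, ← J_star, hη]
  have nQ' : ‖Q'‖ = s := by rw [hQ'', Complex.norm_conj]; exact nQ
  have hQQ : Q * Q' = p := by
    have h := JJ (ne_one h4) (eta_ne h4) hcη
    rw [hη, ← hQ, ← hQ'] at h
    exact h
  have hRre : R = ((2 * (jacobiSum χ χ).re : ℝ) : ℂ) := by
    rw [hR, hP', Complex.add_conj]
  constructor
  · -- `n = 0`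
    have h0 : rhoQ p 0 = NS p (0 : ZMod p) := by
      have := rho_eq (p := p) 0
      rwa [Nat.cast_zero] at this
    rw [h0]
    have h1 := NS_eq h4 hneg (0 : ZMod p) R Q Q' hR hQ hQ'
    rw [GG h4 hneg] at h1
    have hG0 : G χ R Q Q' 0 = 0 := by
      unfold G
      rw [MulChar.map_zero, MulChar.map_zero, MulChar.map_zero]
      ring
    rw [hG0, if_pos rfl, if_pos rfl, hQQ, MulChar.map_zero, MulChar.map_zero, MulChar.map_zero] at h1
    have h2 : (NS p (0 : ZMod p) : ℝ) = (p : ℝ) ^ 3 - p + p ^ 2 +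
        (2 * (jacobiSum χ χ).re) ^ 2 * (p - 1) - 8 * p * (p - 1) := by
      have h3 : ((NS p (0 : ZMod p) : ℝ) : ℂ) = (((p : ℝ) ^ 3 - p + p ^ 2 +
        (2 * (jacobiSum χ χ).re) ^ 2 * (p - 1) - 8 * p * (p - 1) : ℝ) : ℂ) := by
        rw [hRre] at h1
        push_cast at h1 ⊢
        rw [h1]
        ring
      exact_mod_cast h3
    rw [h2]
    have h3 : (jacobiSum χ χ).re ^ 2 ≤ p := by
      rw [← hs2, ← nP]
      have := Complex.abs_re_le_norm (jacobiSum χ χ)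
      rw [← sq_abs]
      exact pow_le_pow_left₀ (abs_nonneg _) this 2
    have h5 : (p : ℝ) ^ 3 * (1 - 1 / p) = (p : ℝ) ^ 3 - p ^ 2 := by
      field_simp
    rw [h5]
    have h6 : (2 * (jacobiSum χ χ).re) ^ 2 * ((p : ℝ) - 1) ≤ 4 * p * (p - 1) := by
      have : (0 : ℝ) ≤ (p : ℝ) - 1 := by linarith
      nlinarith
    nlinarith
  · intro n hn
    have hn0 : (n : ZMod p) ≠ 0 := by
      rw [Ne, ZMod.natCast_eq_zero_iff]; exact hn
    rw [rho_eq]
    have h1 := NS_eq h4 hneg (n : ZMod p) R Q Q' hR hQ hQ'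
    rw [GG h4 hneg, if_neg hn0, if_neg hn0, ← hQ, ← hQ'] at h1
    obtain ⟨x, hx⟩ : ∃ x : ℂ, x = χ (n : ZMod p) := ⟨_, rfl⟩
    obtain ⟨y, hy⟩ : ∃ y : ℂ, y = (χ * χ) (n : ZMod p) := ⟨_, rfl⟩
    obtain ⟨z, hz⟩ : ∃ z : ℂ, z = χ⁻¹ (n : ZMod p) := ⟨_, rfl⟩
    have nx : ‖x‖ ≤ 1 := by rw [hx]; exact norm_val h4
    have nz : ‖z‖ ≤ 1 := by rw [hz]; exact norm_val (order_inv h4)
    have ny : ‖y‖ ≤ 1 := by
      rw [hy, MulChar.mul_apply, norm_mul, ← hx]
      nlinarith [norm_nonneg x]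
    have nR : ‖R‖ ≤ 2 * s := by
      rw [hR]
      refine (norm_add_le _ _).trans ?_
      rw [nP, nP']
      linarith
    unfold G at h1
    rw [← hx, ← hy, ← hz] at h1
    obtain ⟨P, hP⟩ : ∃ P : ℂ, P = jacobiSum χ χ := ⟨_, rfl⟩
    obtain ⟨P', hPP⟩ : ∃ P' : ℂ, P' = jacobiSum χ⁻¹ χ⁻¹ := ⟨_, rfl⟩
    rw [← hP] at h1 nP
    rw [← hPP] at h1 nP'
    have h2 : (NS p (n : ZMod p) : ℂ) = ((((p : ℝ) ^ 3 - p : ℝ)) : ℂ) +
        (-(2 * p * (y * R)) - 4 * p * (z * Q) - 4 * p * (x * Q') - R ^ 2 +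
          4 * R * Q * (x * Q') + 4 * R * Q' * (z * Q) + 4 * Q ^ 2 * (y * P') +
          4 * Q' ^ 2 * (y * P) + 8 * (Q * Q')) := by
      rw [h1]
      push_cast
      ring
    have h3 : (NS p (n : ZMod p) : ℝ) ≤ (p : ℝ) ^ 3 - p +
        ‖(-(2 * p * (y * R)) - 4 * p * (z * Q) - 4 * p * (x * Q') - R ^ 2 +
          4 * R * Q * (x * Q') + 4 * R * Q' * (z * Q) + 4 * Q ^ 2 * (y * P') +
          4 * Q' ^ 2 * (y * P) + 8 * (Q * Q'))‖ := by
      have h5 := congrArg Complex.re h2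
      rw [Complex.natCast_re, Complex.add_re, Complex.ofReal_re] at h5
      rw [h5]
      have := Complex.re_le_norm (-(2 * p * (y * R)) - 4 * p * (z * Q) - 4 * p * (x * Q') - R ^ 2 +
          4 * R * Q * (x * Q') + 4 * R * Q' * (z * Q) + 4 * Q ^ 2 * (y * P') +
          4 * Q' ^ 2 * (y * P) + 8 * (Q * Q'))
      linarith
    have np : ‖(p : ℂ)‖ = p := by simp
    have n2 : ‖(2 : ℂ)‖ = 2 := by simp
    have n4 : ‖(4 : ℂ)‖ = 4 := by simp
    have n8 : ‖(8 : ℂ)‖ = 8 := by simp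
    have hprod : ∀ a b : ℂ, ∀ A B : ℝ, 0 ≤ B → ‖a‖ ≤ A → ‖b‖ ≤ B → ‖a * b‖ ≤ A * B := by
      intro a b A B hB ha hb
      rw [norm_mul]
      exact mul_le_mul ha hb (norm_nonneg _) ((norm_nonneg a).trans ha)
    have b1 : ‖2 * p * (y * R)‖ ≤ 2 * p * (1 * (2 * s)) :=
      hprod _ _ _ _ (by positivity) (by rw [norm_mul, n2, np]) (hprod _ _ _ _ (by positivity) ny nR)
    have b2 : ‖4 * p * (z * Q)‖ ≤ 4 * p * (1 * s) :=
      hprod _ _ _ _ (by positivity) (by rw [norm_mul, n4, np]) (hprod _ _ _ _ hs0.le nz nQ.le)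
    have b3 : ‖4 * p * (x * Q')‖ ≤ 4 * p * (1 * s) :=
      hprod _ _ _ _ (by positivity) (by rw [norm_mul, n4, np]) (hprod _ _ _ _ hs0.le nx nQ'.le)
    have b4 : ‖R ^ 2‖ ≤ (2 * s) ^ 2 := by
      rw [norm_pow]
      exact pow_le_pow_left₀ (norm_nonneg _) nR 2
    have b5 : ‖4 * R * Q * (x * Q')‖ ≤ 4 * (2 * s) * s * (1 * s) :=
      hprod _ _ _ _ (by positivity) (hprod _ _ _ _ hs0.le (hprod _ _ _ _ (by positivity) n4.le nR)
        nQ.le) (hprod _ _ _ _ hs0.le nx nQ'.le)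
    have b6 : ‖4 * R * Q' * (z * Q)‖ ≤ 4 * (2 * s) * s * (1 * s) :=
      hprod _ _ _ _ (by positivity) (hprod _ _ _ _ hs0.le (hprod _ _ _ _ (by positivity) n4.le nR)
        nQ'.le) (hprod _ _ _ _ hs0.le nz nQ.le)
    have b7 : ‖4 * Q ^ 2 * (y * P')‖ ≤ 4 * s ^ 2 * (1 * s) :=
      hprod _ _ _ _ (by positivity) (hprod _ _ _ _ (by positivity) n4.le (by rw [norm_pow, nQ]))
        (hprod _ _ _ _ hs0.le ny nP'.le)
    have b8 : ‖4 * Q' ^ 2 * (y * P)‖ ≤ 4 * s ^ 2 * (1 * s) :=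
      hprod _ _ _ _ (by positivity) (hprod _ _ _ _ (by positivity) n4.le (by rw [norm_pow, nQ']))
        (hprod _ _ _ _ hs0.le ny nP.le)
    have b9 : ‖8 * (Q * Q')‖ ≤ 8 * (s * s) :=
      hprod _ _ _ _ (by positivity) n8.le (hprod _ _ _ _ hs0.le nQ.le nQ'.le)
    have htot : ‖(-(2 * p * (y * R)) - 4 * p * (z * Q) - 4 * p * (x * Q') - R ^ 2 +
          4 * R * Q * (x * Q') + 4 * R * Q' * (z * Q) + 4 * Q ^ 2 * (y * P') +
          4 * Q' ^ 2 * (y * P) + 8 * (Q * Q'))‖ ≤ 2 * p * (1 * (2 * s)) + 4 * p * (1 * s) +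
          4 * p * (1 * s) + (2 * s) ^ 2 + 4 * (2 * s) * s * (1 * s) + 4 * (2 * s) * s * (1 * s) +
          4 * s ^ 2 * (1 * s) + 4 * s ^ 2 * (1 * s) + 8 * (s * s) := by
      refine (norm_add_le _ _).trans (add_le_add ?_ b9)
      refine (norm_add_le _ _).trans (add_le_add ?_ b8)
      refine (norm_add_le _ _).trans (add_le_add ?_ b7)
      refine (norm_add_le _ _).trans (add_le_add ?_ b6)
      refine (norm_add_le _ _).trans (add_le_add ?_ b5)
      refine (norm_sub_le _ _).trans (add_le_add ?_ b4)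
      refine (norm_sub_le _ _).trans (add_le_add ?_ b3)
      refine (norm_sub_le _ _).trans (add_le_add ?_ b2)
      rw [norm_neg]
      exact b1
    refine h3.trans ?_
    rw [← hs]
    have h7 : (p : ℝ) ^ 3 * (1 + 1000 / ((p : ℝ) * s)) = (p : ℝ) ^ 3 + 1000 * p * s := by
      rw [← hs2]
      field_simp
    rw [h7]
    have h8 : 2 * (p : ℝ) * (1 * (2 * s)) + 4 * p * (1 * s) +
          4 * p * (1 * s) + (2 * s) ^ 2 + 4 * (2 * s) * s * (1 * s) + 4 * (2 * s) * s * (1 * s) +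
          4 * s ^ 2 * (1 * s) + 4 * s ^ 2 * (1 * s) + 8 * (s * s) ≤ 1000 * p * s := by
      rw [← hs2]
      nlinarith [pow_pos hs0 2, pow_pos hs0 3, mul_le_mul_of_nonneg_left hs1 (pow_pos hs0 2).le]
    linarith

end Pool.Agent.H52.TC
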