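import Pool.Agent.H52.TC.Stm3

/-! TC-POSA3 (helper82), adapted from POSA.lean: positivity of the tails after a sum of two places. -/

set_option autoImplicit false

namespace Pool.Agent.H52.TC

open Finset

namespace PosaAux3

theorem hs2 (r : ℝ) : HasSum (fun j : ℕ => (r + j) / 2 ^ (j + 1)) (r + 1) := by
  have h1 : HasSum (fun n : ℕ => r / 2 / 2 ^ n) r := hasSum_geometric_two' r
  have h2 := hasSum_coe_mul_geometric_of_norm_lt_one (r := (1 / 2 : ℝ)) (by rw [Real.norm_eq_abs, abs_of_pos] <;> norm_num)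
  have h3 := h2.mul_left (1 / 2 : ℝ)
  have h4 := h1.add h3
  have e : r + 1 / 2 * (1 / 2 / (1 - 1 / 2) ^ 2) = r + 1 := by norm_num
  rw [e] at h4
  have e2 : (fun j : ℕ => (r + j) / 2 ^ (j + 1)) = fun n : ℕ => r / 2 / 2 ^ n + 1 / 2 * ((n : ℝ) * (1 / 2) ^ n) := by
    ext j
    rw [pow_succ, one_div, inv_pow]
    field_simp
  rw [e2]
  exact h4

end PosaAux3

open PosaAux3

theorem posa3 : S_SUP3 → S_POSA3 := by
  intro hsup b hb ε C hε a1 a2 a3 ha3 T hT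
  obtain ⟨hnn, -, hE3, -, hbd⟩ := hsup ε C hε
  have hC : 0 ≤ C := (hε 0).1.trans (hε 0).2
  have hb0 : (0 : ℝ) < b := by exact_mod_cast (by omega : 0 < b)
  have hb2 : (2 : ℝ) ≤ b := by exact_mod_cast hb
  set A : ℤ := |a2| * C ^ 2 + |a1| * C with hA
  have hA0 : 0 ≤ A := by positivity
  have hF : ∀ m : ℕ, -(A * ((m : ℤ) + 1)) ≤ FG ε a1 a2 a3 m := by
    intro m
    unfold FG
    obtain ⟨n2, n3⟩ := hnn m
    have n1 := (hε m).1
    have b1 := (hε m).2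
    have b2 := (hbd m).1
    have g3 : 0 ≤ a3 * G3 ε m := mul_nonneg (by omega) n3
    have g2 : -(|a2| * (C ^ 2 * ((m : ℤ) + 1))) ≤ a2 * G2 ε m := by
      have h1 : -(|a2| * G2 ε m) ≤ a2 * G2 ε m := by
        have := neg_abs_le a2
        nlinarith
      have h2 : |a2| * G2 ε m ≤ |a2| * (C ^ 2 * ((m : ℤ) + 1)) := mul_le_mul_of_nonneg_left b2 (abs_nonneg _)
      linarith
    have g1 : -(|a1| * C * ((m : ℤ) + 1)) ≤ a1 * ε m := by
      have h1 : -(|a1| * ε m) ≤ a1 * ε m := by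
        have := neg_abs_le a1
        nlinarith
      have h2 : |a1| * ε m ≤ |a1| * C := mul_le_mul_of_nonneg_left b1 (abs_nonneg _)
      have h3 : |a1| * C * 1 ≤ |a1| * C * ((m : ℤ) + 1) :=
        mul_le_mul_of_nonneg_left (by omega) (by positivity)
      linarith
    rw [hA]
    linarith
  refine ⟨A.natAbs + 2, ?_⟩
  intro R a R' hR ha hgap hK M hRM hMa
  set L := Nat.log 2 (R' + 2) with hL
  have hL1 : 1 ≤ L := by
    rw [hL]
    exact Nat.log_pos (by norm_num) (by omega)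
  have hK1 : (A.natAbs + 2) * (L + 1) = (L + 1) + (A.natAbs + 1) * (L + 1) := by ring
  have hK2 : (A.natAbs + 1) * 2 ≤ (A.natAbs + 1) * (L + 1) := Nat.mul_le_mul_left _ (by omega)
  have hRR : R + a < R' := by omega
  obtain ⟨-, hsum⟩ := hT
  have hs := hsum M
  -- the places
  obtain ⟨N, hN⟩ : ∃ N, R' = M + 1 + N := ⟨R' - (M + 1), by omega⟩
  obtain ⟨i0, hi0⟩ : ∃ i0, R + a = M + 1 + i0 := ⟨R + a - (M + 1), by omega⟩
  have hi0N : i0 < N := by omega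
  have h1 := (hasSum_nat_add_iff' N).2 hs
  -- the tail
  have h2 : HasSum (fun j : ℕ => -((A : ℝ) / (b : ℝ) ^ N) * (((R' : ℝ) + 1 + j) / 2 ^ (j + 1)))
      (-((A : ℝ) / (b : ℝ) ^ N) * ((R' : ℝ) + 1 + 1)) := (hs2 ((R' : ℝ) + 1)).mul_left _
  have hAr : (0 : ℝ) ≤ A := by exact_mod_cast hA0
  have h3 : -((A : ℝ) / (b : ℝ) ^ N) * ((R' : ℝ) + 1 + 1) ≤
      (T M : ℝ) - ∑ i ∈ range N, (FG ε a1 a2 a3 (M + 1 + i) : ℝ) / (b : ℝ) ^ (i + 1) := by
    refine hasSum_le (fun j => ?_) h2 h1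
    have e1 : M + 1 + (j + N) = R' + j := by omega
    rw [e1]
    have e2 : (b : ℝ) ^ (j + N + 1) = (b : ℝ) ^ N * (b : ℝ) ^ (j + 1) := by rw [← pow_add]; congr 1; ring
    rw [e2]
    have g1 : -((A : ℝ) * ((R' : ℝ) + 1 + j)) ≤ (FG ε a1 a2 a3 (R' + j) : ℝ) := by
      have := hF (R' + j)
      have h4 : ((-(A * (((R' + j : ℕ) : ℤ) + 1)) : ℤ) : ℝ) ≤ (FG ε a1 a2 a3 (R' + j) : ℝ) := by exact_mod_cast this
      push_cast at h4
      linarith
    have g2 : (2 : ℝ) ^ (j + 1) ≤ (b : ℝ) ^ (j + 1) := pow_le_pow_left₀ (by norm_num) hb2 _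
    have g3 : (0 : ℝ) ≤ (A : ℝ) * ((R' : ℝ) + 1 + j) := by positivity
    calc -((A : ℝ) / (b : ℝ) ^ N) * (((R' : ℝ) + 1 + j) / 2 ^ (j + 1))
        = -(((A : ℝ) * ((R' : ℝ) + 1 + j)) / ((b : ℝ) ^ N * 2 ^ (j + 1))) := by
          field_simp
      _ ≤ -(((A : ℝ) * ((R' : ℝ) + 1 + j)) / ((b : ℝ) ^ N * (b : ℝ) ^ (j + 1))) := by
          apply neg_le_neg
          refine div_le_div_of_nonneg_left g3 (by positivity) ?_
          exact mul_le_mul_of_nonneg_left g2 (by positivity)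
      _ = (-((A : ℝ) * ((R' : ℝ) + 1 + j))) / ((b : ℝ) ^ N * (b : ℝ) ^ (j + 1)) := by rw [neg_div]
      _ ≤ _ := div_le_div_of_nonneg_right g1 (by positivity)
  -- the head
  have h4 : 1 / (b : ℝ) ^ (i0 + 1) ≤ ∑ i ∈ range N, (FG ε a1 a2 a3 (M + 1 + i) : ℝ) / (b : ℝ) ^ (i + 1) := by
    have hpos : ∀ i ∈ range N, 0 ≤ (FG ε a1 a2 a3 (M + 1 + i) : ℝ) / (b : ℝ) ^ (i + 1) := by
      intro i hi
      rw [Finset.mem_range] at hi
      obtain ⟨z1, z2⟩ := hgap (M + 1 + i) (by omega) (by omega)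
      have : 0 ≤ FG ε a1 a2 a3 (M + 1 + i) := by
        unfold FG
        rw [z1, z2]
        have := mul_nonneg (by omega : 0 ≤ a3) (hnn (M + 1 + i)).2
        linarith
      have h5 : (0 : ℝ) ≤ (FG ε a1 a2 a3 (M + 1 + i) : ℝ) := by exact_mod_cast this
      positivity
    refine le_trans ?_ (Finset.single_le_sum hpos (Finset.mem_range.2 hi0N))
    refine div_le_div_of_nonneg_right ?_ (by positivity)
    have h5 : 1 ≤ FG ε a1 a2 a3 (M + 1 + i0) := by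
      rw [← hi0]
      have h6 := hE3 R a hR ha
      have h7 := (hnn (R + a)).2
      have h8 : 1 ≤ G3 ε (R + a) := by omega
      by_cases ha0 : a = 0
      · omega
      · obtain ⟨z1, z2⟩ := hgap (R + a) (by omega) hRR
        unfold FG
        rw [z1, z2]
        nlinarith
    exact_mod_cast h5
  -- comparison
  have h5 : (A : ℝ) / (b : ℝ) ^ N * ((R' : ℝ) + 1 + 1) < 1 / (b : ℝ) ^ (i0 + 1) := by
    have e1 : ∃ d, N = (i0 + 1) + d ∧ (L + 1) + (A.natAbs + 1) ≤ d := ⟨N - (i0 + 1), by omega, by omega⟩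
    obtain ⟨d, hd, hdL⟩ := e1
    have g1 : R' + 2 < 2 ^ (L + 1) := Nat.lt_pow_succ_log_self (by norm_num) _
    have g2 : A.natAbs + 1 < 2 ^ (A.natAbs + 1) := Nat.lt_two_pow_self
    have g3 : ((R' : ℝ) + 2) ≤ 2 ^ (L + 1) := by exact_mod_cast g1.le
    have g4 : (A : ℝ) < 2 ^ (A.natAbs + 1) := by
      have h6 : (A : ℝ) = (A.natAbs : ℝ) := by
        rw [Nat.cast_natAbs, abs_of_nonneg hA0]
      rw [h6]
      have : A.natAbs < 2 ^ (A.natAbs + 1) := by omega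
      exact_mod_cast this
    have g5 : (A : ℝ) * ((R' : ℝ) + 2) < (b : ℝ) ^ d := by
      calc (A : ℝ) * ((R' : ℝ) + 2) < 2 ^ (A.natAbs + 1) * ((R' : ℝ) + 2) :=
            mul_lt_mul_of_pos_right g4 (by positivity)
        _ ≤ 2 ^ (A.natAbs + 1) * 2 ^ (L + 1) := mul_le_mul_of_nonneg_left g3 (by positivity)
        _ = 2 ^ ((L + 1) + (A.natAbs + 1)) := by rw [← pow_add]; congr 1; ring
        _ ≤ 2 ^ d := pow_le_pow_right₀ (by norm_num) hdL
        _ ≤ (b : ℝ) ^ d := pow_le_pow_left₀ (by norm_num) hb2 d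
    rw [hd, pow_add, div_mul_eq_mul_div, div_lt_div_iff₀ (by positivity) (by positivity)]
    have g6 : (0 : ℝ) < (b : ℝ) ^ (i0 + 1) := by positivity
    nlinarith
  have h6 : (0 : ℝ) < (T M : ℝ) := by linarith
  have h7 : 0 < T M := by exact_mod_cast h6
  omega

end Pool.Agent.H52.TC
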