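import Pool.Agent.H52.TC.Stm2

set_option autoImplicit false

/-! # TC-POSB: positive proportion in a residue class -/

namespace Pool.Agent.H52.TC

open Finset

namespace POSBx

theorem count_ge (q c R a : ℕ) (hq : 1 ≤ q) :
    a ≤ q * (((Finset.Ico R (R + a)).filter (fun M => M ≡ c [MOD q])).card + 1) := by
  have h := Nat.Ico_filter_modEq_card R (R + a) (show 0 < q from hq) c
  set n := ((Finset.Ico R (R + a)).filter (fun M => M ≡ c [MOD q])).card with hn
  have hq0 : (0 : ℚ) < q := by exact_mod_cast hq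
  have h1 := Int.le_ceil ((((R + a : ℕ) : ℚ) - c) / q)
  have h2 := Int.ceil_lt_add_one (((R : ℚ) - c) / q)
  have h3 : ((⌈(((R + a : ℕ) : ℚ) - c) / q⌉ : ℤ) : ℚ) - ((⌈((R : ℚ) - c) / q⌉ : ℤ) : ℚ) ≤ (n : ℚ) := by
    have : (⌈(((R + a : ℕ) : ℚ) - c) / q⌉ - ⌈((R : ℚ) - c) / q⌉ : ℤ) ≤ (n : ℤ) := by
      rw [h]
      exact le_max_left _ _
    exact_mod_cast this
  have h4 : (a : ℚ) / q ≤ n + 1 := by
    have : (((R + a : ℕ) : ℚ) - c) / q = ((R : ℚ) - c) / q + a / q := by push_cast; ring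
    linarith
  rw [div_le_iff₀ hq0] at h4
  have h5 : (a : ℚ) ≤ ((q * (n + 1) : ℕ) : ℚ) := by push_cast; linarith
  exact_mod_cast h5

open Classical in
theorem key (S S2 A good : ℕ → Prop) (K K1 a0 : ℕ)
    (h1 : ∀ m, S2 m → S m) (h2 : ∀ m, A m → S m) (hA0 : A a0) (ha0 : 1 ≤ a0)
    (hS2 : ∀ m, S m → ¬ S2 m → S2 (m + a0))
    (hA : ∀ m : ℕ, ∃ m' : ℕ, m < m' ∧ m' ≤ 3 * m + K ∧ A m')
    (hgood : ∀ R a R' : ℕ, S2 R → A a → (∀ m, R < m → m < R' → ¬ S m) →
      R + a + K1 * (Nat.log 2 (R' + 2) + 1) ≤ R' → ∀ M, R ≤ M → M < R + a → good M)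
    (q c X : ℕ) (hq : 1 ≤ q) :
    ∀ R', R' ≤ X → S R' →
      R' ≤ 3 * q * ((range R').filter fun M => M ≡ c [MOD q] ∧ good M).card +
      (((range R').filter S).card + 1) * (K1 * (Nat.log 2 (X + 2) + 1) + K + 3 * q + a0) := by
  intro R'
  induction R' using Nat.strong_induction_on with
  | _ R' ih =>
  intro hX hS
  set B := K1 * (Nat.log 2 (X + 2) + 1) + K + 3 * q + a0 with hB
  by_cases hne : ∃ R, R < R' ∧ S R ∧ ∀ m, R < m → m < R' → ¬ S m
  · obtain ⟨R, hlt, hSR, hgap⟩ := hne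
    have hih := ih R hlt (by omega) hSR
    have hcard : ((range R').filter S).card = ((range R).filter S).card + 1 := by
      have : (range R').filter S = insert R ((range R).filter S) := by
        ext m
        simp only [Finset.mem_filter, Finset.mem_range, Finset.mem_insert]
        constructor
        · rintro ⟨h3, h4⟩
          rcases lt_trichotomy m R with h5 | h5 | h5
          · exact Or.inr ⟨h5, h4⟩
          · exact Or.inl h5
          · exact absurd h4 (hgap m h5 h3)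
        · rintro (h3 | ⟨h3, h4⟩)
          · rw [h3]
            exact ⟨hlt, hSR⟩
          · exact ⟨by omega, h4⟩
      rw [this, Finset.card_insert_of_notMem (by simp)]
    set G := ((range R).filter fun M => M ≡ c [MOD q] ∧ good M).card with hG
    set G' := ((range R').filter fun M => M ≡ c [MOD q] ∧ good M).card with hG'
    set N := ((range R).filter S).card with hN
    have hmono : G ≤ G' := by
      apply Finset.card_le_card
      intro m hm
      rw [Finset.mem_filter, Finset.mem_range] at hm ⊢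
      exact ⟨by omega, hm.2⟩
    have hqG : 3 * q * G ≤ 3 * q * G' := Nat.mul_le_mul_left _ hmono
    have hmain : R' + 3 * q * G ≤ R + 3 * q * G' + B := by
      by_cases hs : S2 R
      · have hl : K1 * (Nat.log 2 (R' + 2) + 1) ≤ K1 * (Nat.log 2 (X + 2) + 1) :=
          Nat.mul_le_mul_left _ (Nat.succ_le_succ (Nat.log_mono_right (by omega)))
        by_cases hD : R' < R + K1 * (Nat.log 2 (R' + 2) + 1) + K
        · omega
        · obtain ⟨a, ha1, ha2, ha3⟩ := hA ((R' - R - K1 * (Nat.log 2 (R' + 2) + 1) - K) / 3)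
          have hRa : R + a + K1 * (Nat.log 2 (R' + 2) + 1) ≤ R' := by omega
          have hg := hgood R a R' hs ha3 hgap hRa
          have hcnt := count_ge q c R a hq
          set n := ((Finset.Ico R (R + a)).filter (fun M => M ≡ c [MOD q])).card with hn
          have hGn : G + n ≤ G' := by
            have hdisj : Disjoint ((range R).filter fun M => M ≡ c [MOD q] ∧ good M)
                ((Finset.Ico R (R + a)).filter (fun M => M ≡ c [MOD q])) := by
              rw [Finset.disjoint_left]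
              intro m hm1 hm2
              rw [Finset.mem_filter, Finset.mem_range] at hm1
              rw [Finset.mem_filter, Finset.mem_Ico] at hm2
              omega
            rw [hG, hn, hG', ← Finset.card_union_of_disjoint hdisj]
            apply Finset.card_le_card
            intro m hm
            rw [Finset.mem_union, Finset.mem_filter, Finset.mem_filter, Finset.mem_range,
              Finset.mem_Ico] at hm
            rw [Finset.mem_filter, Finset.mem_range]
            rcases hm with ⟨hm1, hm2⟩ | ⟨⟨hm1, hm2⟩, hm3⟩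
            · exact ⟨by omega, hm2⟩
            · exact ⟨by omega, hm3, hg m hm1 hm2⟩
          have h5 : 3 * q * G + 3 * (q * n) ≤ 3 * q * G' := by
            have := Nat.mul_le_mul_left (3 * q) hGn
            rw [mul_add] at this
            rw [← mul_assoc 3 q n]
            exact this
          have h6 : q * (n + 1) = q * n + q := by ring
          rw [h6] at hcnt
          omega
      · have h3 := h1 _ (hS2 R hSR hs)
        have h4 : R' ≤ R + a0 := by
          by_contra h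
          exact hgap (R + a0) (by omega) (by omega) h3
        omega
    have h7 : (((range R').filter S).card + 1) * B = (N + 1) * B + B := by
      rw [hcard]
      ring
    rw [h7]
    omega
  · -- no element below
    have hnone : ∀ m, m < R' → ¬ S m := by
      by_contra hcon
      push Not at hcon
      obtain ⟨m, hm1, hm2⟩ := hcon
      have hne2 : ((range R').filter S).Nonempty :=
        ⟨m, by rw [Finset.mem_filter, Finset.mem_range]; exact ⟨hm1, hm2⟩⟩
      apply hne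
      have hmem := Finset.max'_mem _ hne2
      rw [Finset.mem_filter, Finset.mem_range] at hmem
      refine ⟨_, hmem.1, hmem.2, fun k hk1 hk2 hk3 => ?_⟩
      have := Finset.le_max' ((range R').filter S) k
        (by rw [Finset.mem_filter, Finset.mem_range]; exact ⟨hk2, hk3⟩)
      omega
    have h3 : R' ≤ a0 := by
      by_contra h
      exact hnone a0 (by omega) (h2 _ hA0)
    have h4 : 1 * B ≤ (((range R').filter S).card + 1) * B :=
      Nat.mul_le_mul_right _ (by omega)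
    omega

theorem cube_root (X : ℕ) : ∃ s : ℕ, s ^ 3 ≤ X ∧ X < (s + 1) ^ 3 := by
  induction X with
  | zero => exact ⟨0, by norm_num, by norm_num⟩
  | succ X ih =>
    obtain ⟨s, h1, h2⟩ := ih
    rcases Nat.lt_or_ge (X + 1) ((s + 1) ^ 3) with h | h
    · exact ⟨s, by omega, h⟩
    · refine ⟨s + 1, h, ?_⟩
      have : (s + 1) ^ 3 < (s + 1 + 1) ^ 3 := Nat.pow_lt_pow_left (by omega) (by norm_num)
      omega

theorem log_bound (K1 c : ℕ) : ∃ s0 : ℕ, ∀ s : ℕ, s0 ≤ s → ∀ X : ℕ, X < (s + 1) ^ 3 →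
    (9 : ℝ) * ((K1 * (Nat.log 2 (X + 2) + 1) + c : ℕ) : ℝ) ≤ 5 / 8 * s := by
  have hε : (0 : ℝ) < 1 / (8 * (54 * K1 + 1)) := by positivity
  obtain ⟨x0, hx0⟩ := Filter.eventually_atTop.1 (Real.isLittleO_log_id_atTop.bound hε)
  refine ⟨⌈x0⌉₊ + 2 * (9 * (K1 + c)) + 2, fun s hs X hX => ?_⟩
  have hs1 : x0 ≤ (s : ℝ) + 2 := by
    have h1 : x0 ≤ (⌈x0⌉₊ : ℝ) := Nat.le_ceil _
    have h2 : ((⌈x0⌉₊ : ℕ) : ℝ) ≤ s := by exact_mod_cast (by omega : ⌈x0⌉₊ ≤ s)
    linarith
  have h3 := hx0 ((s : ℝ) + 2) hs1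
  have hlog : 0 ≤ Real.log ((s : ℝ) + 2) := Real.log_nonneg (by linarith [Nat.cast_nonneg (α := ℝ) s])
  simp only [id_eq, Real.norm_eq_abs] at h3
  rw [abs_of_nonneg hlog, abs_of_nonneg (by positivity)] at h3
  have h4 : ((Nat.log 2 (X + 2) : ℕ) : ℝ) ≤ 6 * Real.log ((s : ℝ) + 2) := by
    have h5 : (2 : ℝ) ^ (Nat.log 2 (X + 2)) ≤ ((s : ℝ) + 2) ^ 3 := by
      have h6 : 2 ^ (Nat.log 2 (X + 2)) ≤ X + 2 := Nat.pow_log_le_self 2 (by omega)
      have h7 : X + 2 ≤ (s + 2) ^ 3 := by nlinarith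
      exact_mod_cast h6.trans h7
    have h8 := Real.log_le_log (by positivity) h5
    rw [Real.log_pow, Real.log_pow] at h8
    have h9 : (1 / 2 : ℝ) < Real.log 2 := by linarith [Real.log_two_gt_d9]
    have h10 : (0 : ℝ) ≤ (Nat.log 2 (X + 2) : ℕ) := Nat.cast_nonneg _
    push_cast at h8
    nlinarith
  have hs2 : ((2 * (9 * (K1 + c)) + 2 : ℕ) : ℝ) ≤ s := by exact_mod_cast (by omega : 2 * (9 * (K1 + c)) + 2 ≤ s)
  push_cast at hs2 ⊢
  have hK : (0 : ℝ) ≤ K1 := Nat.cast_nonneg _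
  have h11 : 54 * (K1 : ℝ) * Real.log ((s : ℝ) + 2) ≤ ((s : ℝ) + 2) / 8 := by
    calc 54 * (K1 : ℝ) * Real.log ((s : ℝ) + 2)
        ≤ 54 * (K1 : ℝ) * (1 / (8 * (54 * K1 + 1)) * ((s : ℝ) + 2)) :=
          mul_le_mul_of_nonneg_left h3 (by positivity)
      _ = (54 * (K1 : ℝ) / (54 * K1 + 1)) * (((s : ℝ) + 2) / 8) := by
          field_simp
      _ ≤ 1 * (((s : ℝ) + 2) / 8) := by
          apply mul_le_mul_of_nonneg_right _ (by positivity)
          rw [div_le_one (by positivity)]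
          linarith
      _ = _ := one_mul _
  have h12 : (K1 : ℝ) * (Nat.log 2 (X + 2) : ℕ) ≤ K1 * (6 * Real.log ((s : ℝ) + 2)) :=
    mul_le_mul_of_nonneg_left h4 hK
  nlinarith

end POSBx

open POSBx

open Classical in
theorem posb : S_POSB := by
  intro S S2 A good K K1 a0 h1 h2 hA0 ha0 hS2 hA hcard hgood q c hq X1
  obtain ⟨s0, hs0⟩ := log_bound K1 (K + 3 * q + a0)
  obtain ⟨X, hX1, -, hXA⟩ := hA (X1 + (s0 + 1) ^ 3)
  refine ⟨X, by omega, ?_⟩
  have hk := key S S2 A good K K1 a0 h1 h2 hA0 ha0 hS2 hA hgood q c X hq X le_rfl (h2 X hXA)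
  obtain ⟨s, hs1, hs2⟩ := cube_root X
  have hss : s0 + 1 ≤ s := by
    by_contra h
    have : (s + 1) ^ 3 ≤ (s0 + 1) ^ 3 := Nat.pow_le_pow_left (by omega) 3
    omega
  have hN := hcard s X hs2.le
  have hB := hs0 s (by omega) X hs2
  set G := ((range X).filter fun M => M ≡ c [MOD q] ∧ good M).card with hG
  set N := ((range X).filter S).card with hNdef
  have e : K1 * (Nat.log 2 (X + 2) + 1) + K + 3 * q + a0 =
      K1 * (Nat.log 2 (X + 2) + 1) + (K + 3 * q + a0) := by ring
  rw [e] at hk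
  set B := K1 * (Nat.log 2 (X + 2) + 1) + (K + 3 * q + a0) with hBdef
  have hN2 : N + 1 ≤ 9 * s ^ 2 := by nlinarith
  have hsR : (1 : ℝ) ≤ s := by exact_mod_cast (by omega : 1 ≤ s)
  have h3 : (((N + 1) * B : ℕ) : ℝ) ≤ 5 / 8 * X := by
    have h4 : ((N + 1 : ℕ) : ℝ) ≤ 9 * (s : ℝ) ^ 2 := by exact_mod_cast hN2
    have h5 : (0 : ℝ) ≤ (B : ℝ) := Nat.cast_nonneg _
    have h6 : (s : ℝ) ^ 3 ≤ X := by exact_mod_cast hs1
    calc (((N + 1) * B : ℕ) : ℝ) = ((N + 1 : ℕ) : ℝ) * B := by push_cast; ring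
      _ ≤ 9 * (s : ℝ) ^ 2 * B := mul_le_mul_of_nonneg_right h4 h5
      _ = (s : ℝ) ^ 2 * (9 * B) := by ring
      _ ≤ (s : ℝ) ^ 2 * (5 / 8 * s) := mul_le_mul_of_nonneg_left hB (by positivity)
      _ = 5 / 8 * (s : ℝ) ^ 3 := by ring
      _ ≤ 5 / 8 * X := by linarith
  have hk' : (X : ℝ) ≤ 3 * q * G + (((N + 1) * B : ℕ) : ℝ) := by exact_mod_cast hk
  have hq0 : (0 : ℝ) < q := by exact_mod_cast hq
  rw [div_le_iff₀ (by positivity)]
  linarith

end Pool.Agent.H52.TC
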