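import Pool.Agent.H52.TC.Stm4
import Pool.Agent.H52.TC.POSB

set_option autoImplicit false

/-! # TC-POSB4: positive proportion in a residue class, at one scale (after POSB.lean) -/

namespace Pool.Agent.H52.TC

open Finset

open POSBx

open Classical in
theorem posb4 : S_POSB4 := by
  intro S S2 A good K K1 a0 h1 h2 hA0 ha0 hS2 hA hgood q c hq
  obtain ⟨s0, hs0⟩ := log_bound (44 * K1) (44 * (K + 3 * q + a0))
  refine ⟨s0 + 12 * K + 1, fun s hs hcard => ?_⟩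
  obtain ⟨X, hX1, hX2, hXA⟩ := hA (s ^ 3 / 12)
  have hs1 : 1 ≤ s := by omega
  have hs3 : s ≤ s ^ 3 := Nat.le_self_pow (by norm_num) s
  have hX3 : s ^ 3 ≤ 12 * X := by omega
  have hX4 : 3 * X ≤ s ^ 3 := by omega
  refine ⟨X, hX3, hX4, ?_⟩
  have hk := key S S2 A good K K1 a0 h1 h2 hA0 ha0 hS2 hA hgood q c X hq X le_rfl (h2 X hXA)
  have hXs : X ≤ s ^ 3 := by omega
  have hX5 : X < (s + 1) ^ 3 := by
    have : s ^ 3 < (s + 1) ^ 3 := Nat.pow_lt_pow_left (by omega) (by norm_num)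
    omega
  have hN := hcard X hXs
  have hB := hs0 s (by omega) X hX5
  set G := ((range X).filter fun M => M ≡ c [MOD q] ∧ good M).card with hG
  set N := ((range X).filter S).card with hNdef
  have e : K1 * (Nat.log 2 (X + 2) + 1) + K + 3 * q + a0 =
      K1 * (Nat.log 2 (X + 2) + 1) + (K + 3 * q + a0) := by ring
  rw [e] at hk
  have e2 : 44 * K1 * (Nat.log 2 (X + 2) + 1) + 44 * (K + 3 * q + a0) =
      44 * (K1 * (Nat.log 2 (X + 2) + 1) + (K + 3 * q + a0)) := by ring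
  rw [e2] at hB
  set B := K1 * (Nat.log 2 (X + 2) + 1) + (K + 3 * q + a0) with hBdef
  have hN2 : N + 1 ≤ 33 * s ^ 2 := by
    have g1 : (s + 1) ^ 2 ≤ 4 * s ^ 2 := by nlinarith
    have g3 : 1 ≤ s ^ 2 := Nat.one_le_pow _ _ (by omega)
    omega
  have hsR : (1 : ℝ) ≤ s := by exact_mod_cast hs1
  have h3 : (((N + 1) * B : ℕ) : ℝ) ≤ 5 / 8 * X := by
    have h4 : ((N + 1 : ℕ) : ℝ) ≤ 33 * (s : ℝ) ^ 2 := by exact_mod_cast hN2
    have h5 : (0 : ℝ) ≤ (B : ℝ) := Nat.cast_nonneg _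
    have h6 : (s : ℝ) ^ 3 ≤ 12 * X := by exact_mod_cast hX3
    push_cast at hB
    have h7 : (B : ℝ) ≤ 5 / 3168 * s := by linarith
    calc (((N + 1) * B : ℕ) : ℝ) = ((N + 1 : ℕ) : ℝ) * B := by push_cast; ring
      _ ≤ 33 * (s : ℝ) ^ 2 * B := mul_le_mul_of_nonneg_right h4 h5
      _ ≤ 33 * (s : ℝ) ^ 2 * (5 / 3168 * s) := mul_le_mul_of_nonneg_left h7 (by positivity)
      _ = 5 / 96 * (s : ℝ) ^ 3 := by ring
      _ ≤ 5 / 8 * X := by linarith
  have hk' : (X : ℝ) ≤ 3 * q * G + (((N + 1) * B : ℕ) : ℝ) := by exact_mod_cast hk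
  have hq0 : (0 : ℝ) < q := by exact_mod_cast hq
  rw [div_le_iff₀ (by positivity)]
  linarith

end Pool.Agent.H52.TC
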