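import Pool.Agent.H52.TC.Stm

/-! TC-SUP (helper62): positivity, supports and trivial bounds -/

set_option autoImplicit false

namespace Pool.Agent.H52.TC

open Finset

namespace SUPx

theorem E1_cube (ε : ℕ → ℤ) (u : ℕ) : E1 ε (u ^ 3) = ε u := by
  unfold E1
  rw [Finset.sum_eq_single u]
  · rw [if_pos rfl]
  · intro v _ hv
    rw [if_neg]
    intro h
    exact hv (Nat.pow_left_injective (by norm_num : (3 : ℕ) ≠ 0) h)
  · intro h
    exfalso
    apply h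
    rw [mem_range]
    have h2 : u ≤ u ^ 3 := Nat.le_self_pow (by norm_num) u
    omega

theorem E1_noncube (ε : ℕ → ℤ) (m : ℕ) (h : ∀ u : ℕ, u ^ 3 ≠ m) : E1 ε m = 0 :=
  Finset.sum_eq_zero fun u _ => if_neg (h u)

end SUPx

open SUPx

theorem sup : S_SUP := by
  intro ε C hε
  have hC : 0 ≤ C := le_trans (by norm_num) ((hε 0).1.trans (hε 0).2)
  have n1 : ∀ m, 0 ≤ E1 ε m := by
    intro m
    refine Finset.sum_nonneg fun u _ => ?_
    split_ifs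
    · exact le_trans (by norm_num) (hε u).1
    · exact le_rfl
  have b1 : ∀ m, E1 ε m ≤ C := by
    intro m
    by_cases h : ∃ u : ℕ, u ^ 3 = m
    · obtain ⟨u, rfl⟩ := h
      rw [E1_cube]
      exact (hε u).2
    · rw [E1_noncube ε m fun u hu => h ⟨u, hu⟩]
      exact hC
  have c1 : ∀ m, E1 ε m ≠ 0 → ∃ u : ℕ, u ^ 3 = m := by
    intro m hm
    by_contra h
    exact hm (E1_noncube ε m fun u hu => h ⟨u, hu⟩)
  have n2 : ∀ m, 0 ≤ E2 ε m := fun m => Finset.sum_nonneg fun ij _ => mul_nonneg (n1 _) (n1 _)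
  have n3 : ∀ m, 0 ≤ E3 ε m := fun m => Finset.sum_nonneg fun ij _ => mul_nonneg (n2 _) (n1 _)
  have b2 : ∀ m : ℕ, E2 ε m ≤ C ^ 2 * ((m : ℤ) + 1) := by
    intro m
    calc E2 ε m ≤ ∑ ij ∈ antidiagonal m, C ^ 2 := Finset.sum_le_sum fun ij _ => by
          rw [pow_two]
          exact mul_le_mul (b1 _) (b1 _) (n1 _) hC
      _ = C ^ 2 * ((m : ℤ) + 1) := by
          rw [Finset.sum_const, Finset.Nat.card_antidiagonal, nsmul_eq_mul]
          push_cast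
          ring
  have b3 : ∀ m : ℕ, E3 ε m ≤ C ^ 3 * ((m : ℤ) + 1) ^ 2 := by
    intro m
    calc E3 ε m ≤ ∑ ij ∈ antidiagonal m, C ^ 3 * ((m : ℤ) + 1) :=
          Finset.sum_le_sum fun ij hij => by
          have h1 : (ij.1 : ℤ) ≤ m := by
            have h2 := Finset.HasAntidiagonal.mem_antidiagonal.1 hij
            omega
          calc E2 ε ij.1 * E1 ε ij.2 ≤ (C ^ 2 * ((ij.1 : ℤ) + 1)) * C :=
                mul_le_mul (b2 _) (b1 _) (n1 _) (by positivity)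
            _ ≤ (C ^ 2 * ((m : ℤ) + 1)) * C := by gcongr
            _ = C ^ 3 * ((m : ℤ) + 1) := by ring
      _ = C ^ 3 * ((m : ℤ) + 1) ^ 2 := by
          rw [Finset.sum_const, Finset.Nat.card_antidiagonal, nsmul_eq_mul]
          push_cast
          ring
  have p2 : ∀ u v : ℕ, 1 ≤ E2 ε (u ^ 3 + v ^ 3) := by
    intro u v
    have h1 : E1 ε (u ^ 3) * E1 ε (v ^ 3) ≤ E2 ε (u ^ 3 + v ^ 3) :=
      Finset.single_le_sum (f := fun ij : ℕ × ℕ => E1 ε ij.1 * E1 ε ij.2)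
        (fun ij _ => mul_nonneg (n1 _) (n1 _)) (Finset.HasAntidiagonal.mem_antidiagonal.2 rfl :
          ((u ^ 3, v ^ 3) : ℕ × ℕ) ∈ antidiagonal (u ^ 3 + v ^ 3))
    rw [E1_cube, E1_cube] at h1
    have h2 := (hε u).1
    have h3 := (hε v).1
    nlinarith
  refine ⟨fun m => ⟨n1 m, n2 m, n3 m⟩, fun u v w => ?_, fun m hm => ?_, fun m hm => ?_,
    fun m => ⟨b1 m, b2 m, b3 m⟩⟩
  · have h1 : E2 ε (u ^ 3 + v ^ 3) * E1 ε (w ^ 3) ≤ E3 ε (u ^ 3 + v ^ 3 + w ^ 3) :=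
      Finset.single_le_sum (f := fun ij : ℕ × ℕ => E2 ε ij.1 * E1 ε ij.2)
        (fun ij _ => mul_nonneg (n2 _) (n1 _)) (Finset.HasAntidiagonal.mem_antidiagonal.2 rfl :
          ((u ^ 3 + v ^ 3, w ^ 3) : ℕ × ℕ) ∈ antidiagonal (u ^ 3 + v ^ 3 + w ^ 3))
    rw [E1_cube] at h1
    have h2 := (hε w).1
    have h3 := p2 u v
    nlinarith
  · obtain ⟨u, hu⟩ := c1 m hm
    exact ⟨u, 0, by rw [← hu]; ring⟩
  · obtain ⟨ij, hij, hne⟩ := Finset.exists_ne_zero_of_sum_ne_zero hm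
    obtain ⟨u, hu⟩ := c1 _ (left_ne_zero_of_mul hne)
    obtain ⟨v, hv⟩ := c1 _ (right_ne_zero_of_mul hne)
    exact ⟨u, v, by rw [hu, hv]; exact (Finset.HasAntidiagonal.mem_antidiagonal.1 hij).symm⟩

end Pool.Agent.H52.TC
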