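import Pool.Agent.H52.TC.Stm2
import Pool.Agent.H52.TC.SUP

/-! TC-SUP2 (helper1): positivity, supports and trivial bounds, coefficients `≥ 0` -/

set_option autoImplicit false

namespace Pool.Agent.H52.TC

open Finset

open SUPx

theorem sup2 : S_SUP2 := by
  intro ε C hε
  have hC : 0 ≤ C := (hε 0).1.trans (hε 0).2
  have n1 : ∀ m, 0 ≤ E1 ε m := by
    intro m
    refine Finset.sum_nonneg fun u _ => ?_
    split_ifs
    · exact (hε u).1
    · exact le_rfl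
  have b1 : ∀ m, E1 ε m ≤ C := by
    intro m
    by_cases h : ∃ u : ℕ, u ^ 3 = m
    · obtain ⟨u, rfl⟩ := h
      rw [E1_cube]
      exact (hε u).2
    · rw [E1_noncube ε m fun u hu => h ⟨u, hu⟩]
      exact hC
  have c1 : ∀ m, E1 ε m ≠ 0 → ∃ u : ℕ, m = u ^ 3 ∧ ε u ≠ 0 := by
    intro m hm
    by_cases h : ∃ u : ℕ, u ^ 3 = m
    · obtain ⟨u, rfl⟩ := h
      rw [E1_cube] at hm
      exact ⟨u, rfl, hm⟩
    · exact absurd (E1_noncube ε m fun u hu => h ⟨u, hu⟩) hm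
  have n2 : ∀ m, 0 ≤ E2 ε m := fun m => Finset.sum_nonneg fun ij _ => mul_nonneg (n1 _) (n1 _)
  have n3 : ∀ m, 0 ≤ E3 ε m := fun m => Finset.sum_nonneg fun ij _ => mul_nonneg (n2 _) (n1 _)
  have b2 : ∀ m : ℕ, E2 ε m ≤ C ^ 2 * ((m : ℤ) + 1) := by
    intro m
    calc E2 ε m ≤ ∑ ij ∈ antidiagonal m, C ^ 2 := Finset.sum_le_sum fun ij _ => by
          rw [pow_two]
          exact mul_le_mul (b1 _) (b1 _) (n1 _) hC
      _ = C ^ 2 * ((m : ℤ) + 1) := by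
          rw [Finset.sum_const, Finset.Nat.card_antidiagonal, nsmul_eq_mul]
          push_cast
          ring
  have b3 : ∀ m : ℕ, E3 ε m ≤ C ^ 3 * ((m : ℤ) + 1) ^ 2 := by
    intro m
    calc E3 ε m ≤ ∑ ij ∈ antidiagonal m, C ^ 3 * ((m : ℤ) + 1) :=
          Finset.sum_le_sum fun ij hij => by
          have h1 : (ij.1 : ℤ) ≤ m := by
            have h2 := Finset.HasAntidiagonal.mem_antidiagonal.1 hij
            omega
          calc E2 ε ij.1 * E1 ε ij.2 ≤ (C ^ 2 * ((ij.1 : ℤ) + 1)) * C :=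
                mul_le_mul (b2 _) (b1 _) (n1 _) (by positivity)
            _ ≤ (C ^ 2 * ((m : ℤ) + 1)) * C := by gcongr
            _ = C ^ 3 * ((m : ℤ) + 1) := by ring
      _ = C ^ 3 * ((m : ℤ) + 1) ^ 2 := by
          rw [Finset.sum_const, Finset.Nat.card_antidiagonal, nsmul_eq_mul]
          push_cast
          ring
  refine ⟨fun m => ⟨n1 m, n2 m, n3 m⟩, c1, fun u hu => ?_, fun i j hi hj => ?_,
    fun i j hi hj => ?_, fun m hm => ?_, fun m => ⟨b1 m, b2 m, b3 m⟩⟩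
  · rw [E1_cube]
    exact hu
  · have h1 : E1 ε i * E1 ε j ≤ E2 ε (i + j) :=
      Finset.single_le_sum (f := fun ij : ℕ × ℕ => E1 ε ij.1 * E1 ε ij.2)
        (fun ij _ => mul_nonneg (n1 _) (n1 _)) (Finset.HasAntidiagonal.mem_antidiagonal.2 rfl :
          ((i, j) : ℕ × ℕ) ∈ antidiagonal (i + j))
    have h2 : 0 < E1 ε i * E1 ε j :=
      mul_pos (lt_of_le_of_ne (n1 i) (Ne.symm hi)) (lt_of_le_of_ne (n1 j) (Ne.symm hj))
    exact (lt_of_lt_of_le h2 h1).ne'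
  · have h1 : E2 ε i * E1 ε j ≤ E3 ε (i + j) :=
      Finset.single_le_sum (f := fun ij : ℕ × ℕ => E2 ε ij.1 * E1 ε ij.2)
        (fun ij _ => mul_nonneg (n2 _) (n1 _)) (Finset.HasAntidiagonal.mem_antidiagonal.2 rfl :
          ((i, j) : ℕ × ℕ) ∈ antidiagonal (i + j))
    have h2 : 0 < E2 ε i * E1 ε j :=
      mul_pos (lt_of_le_of_ne (n2 i) (Ne.symm hi)) (lt_of_le_of_ne (n1 j) (Ne.symm hj))
    exact (lt_of_lt_of_le h2 h1).ne'
  · obtain ⟨ij, hij, hne⟩ := Finset.exists_ne_zero_of_sum_ne_zero hm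
    exact ⟨ij.1, ij.2, (Finset.HasAntidiagonal.mem_antidiagonal.1 hij).symm,
      left_ne_zero_of_mul hne, right_ne_zero_of_mul hne⟩

end Pool.Agent.H52.TC
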