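import Pool.Agent.H52.TC.Stm3

/-! TC-SUP3 (helper82), adapted from SUP2.lean (helper1): positivity, supports and trivial bounds -/

set_option autoImplicit false

namespace Pool.Agent.H52.TC

open Finset

theorem sup3 : S_SUP3 := by
  intro e C hε
  have hC : 0 ≤ C := (hε 0).1.trans (hε 0).2
  have n1 : ∀ m, 0 ≤ e m := fun m => (hε m).1
  have b1 : ∀ m, e m ≤ C := fun m => (hε m).2
  have n2 : ∀ m, 0 ≤ G2 e m := fun m => Finset.sum_nonneg fun ij _ => mul_nonneg (n1 _) (n1 _)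
  have n3 : ∀ m, 0 ≤ G3 e m := fun m => Finset.sum_nonneg fun ij _ => mul_nonneg (n2 _) (n1 _)
  have b2 : ∀ m : ℕ, G2 e m ≤ C ^ 2 * ((m : ℤ) + 1) := by
    intro m
    calc G2 e m ≤ ∑ ij ∈ antidiagonal m, C ^ 2 := Finset.sum_le_sum fun ij _ => by
          rw [pow_two]
          exact mul_le_mul (b1 _) (b1 _) (n1 _) hC
      _ = C ^ 2 * ((m : ℤ) + 1) := by
          rw [Finset.sum_const, Finset.Nat.card_antidiagonal, nsmul_eq_mul]
          push_cast
          ring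
  have b3 : ∀ m : ℕ, G3 e m ≤ C ^ 3 * ((m : ℤ) + 1) ^ 2 := by
    intro m
    calc G3 e m ≤ ∑ ij ∈ antidiagonal m, C ^ 3 * ((m : ℤ) + 1) :=
          Finset.sum_le_sum fun ij hij => by
          have h1 : (ij.1 : ℤ) ≤ m := by
            have h2 := Finset.HasAntidiagonal.mem_antidiagonal.1 hij
            omega
          calc G2 e ij.1 * e ij.2 ≤ (C ^ 2 * ((ij.1 : ℤ) + 1)) * C :=
                mul_le_mul (b2 _) (b1 _) (n1 _) (by positivity)
            _ ≤ (C ^ 2 * ((m : ℤ) + 1)) * C := by gcongr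
            _ = C ^ 3 * ((m : ℤ) + 1) := by ring
      _ = C ^ 3 * ((m : ℤ) + 1) ^ 2 := by
          rw [Finset.sum_const, Finset.Nat.card_antidiagonal, nsmul_eq_mul]
          push_cast
          ring
  refine ⟨fun m => ⟨n2 m, n3 m⟩, fun i j hi hj => ?_, fun i j hi hj => ?_, fun m hm => ?_,
    fun m => ⟨b2 m, b3 m⟩⟩
  · have h1 : e i * e j ≤ G2 e (i + j) :=
      Finset.single_le_sum (f := fun ij : ℕ × ℕ => e ij.1 * e ij.2)
        (fun ij _ => mul_nonneg (n1 _) (n1 _)) (Finset.HasAntidiagonal.mem_antidiagonal.2 rfl :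
          ((i, j) : ℕ × ℕ) ∈ antidiagonal (i + j))
    have h2 : 0 < e i * e j :=
      mul_pos (lt_of_le_of_ne (n1 i) (Ne.symm hi)) (lt_of_le_of_ne (n1 j) (Ne.symm hj))
    exact (lt_of_lt_of_le h2 h1).ne'
  · have h1 : G2 e i * e j ≤ G3 e (i + j) :=
      Finset.single_le_sum (f := fun ij : ℕ × ℕ => G2 e ij.1 * e ij.2)
        (fun ij _ => mul_nonneg (n2 _) (n1 _)) (Finset.HasAntidiagonal.mem_antidiagonal.2 rfl :
          ((i, j) : ℕ × ℕ) ∈ antidiagonal (i + j))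
    have h2 : 0 < G2 e i * e j :=
      mul_pos (lt_of_le_of_ne (n2 i) (Ne.symm hi)) (lt_of_le_of_ne (n1 j) (Ne.symm hj))
    exact (lt_of_lt_of_le h2 h1).ne'
  · obtain ⟨ij, hij, hne⟩ := Finset.exists_ne_zero_of_sum_ne_zero hm
    exact ⟨ij.1, ij.2, (Finset.HasAntidiagonal.mem_antidiagonal.1 hij).symm,
      left_ne_zero_of_mul hne, right_ne_zero_of_mul hne⟩

end Pool.Agent.H52.TC
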