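import Pool.Agent.H52.TC.Stm4

set_option autoImplicit false

namespace Pool.Agent.H52.TC

open Finset

namespace THKAux

/-- `m` is within `H` of a cube -/
def near (H m : ℕ) : Prop := ∃ u : ℕ, u ^ 3 ≤ m + H ∧ m ≤ u ^ 3 + H

open Classical in
/-- the least cube within `H` of `m`, or `m` -/
noncomputable def tgt (H m : ℕ) : ℕ := if h : near H m then (Nat.find h) ^ 3 else m

theorem tgt_le (H m : ℕ) : tgt H m ≤ m + H := by
  unfold tgt
  split_ifs with h
  · exact (Nat.find_spec h).1
  · omega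

theorem le_tgt (H m : ℕ) : m ≤ tgt H m + H := by
  unfold tgt
  split_ifs with h
  · exact (Nat.find_spec h).2
  · omega

theorem tgt_of_near {H m : ℕ} (h : near H m) : ∃ u : ℕ, tgt H m = u ^ 3 := by
  classical
  refine ⟨Nat.find h, ?_⟩
  unfold tgt
  rw [dif_pos h]

theorem tgt_of_not {H m : ℕ} (h : ¬ near H m) : tgt H m = m := by
  unfold tgt
  rw [dif_neg h]

open Classical in
/-- the new coefficients -/
noncomputable def ee (b H : ℕ) (d : ℕ → ℤ) (k : ℕ) : ℤ :=
  ∑ m ∈ (range (k + H + 1)).filter (fun m => tgt H m = k), d m * (b : ℤ) ^ (H + k - m)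

theorem bound {b : ℕ} (hb : 2 ≤ b) (H : ℕ) {d : ℕ → ℤ} {C : ℤ} (hd : ∀ n, 0 ≤ d n ∧ d n ≤ C) (k : ℕ) :
    0 ≤ ee b H d k ∧ ee b H d k ≤ (2 * H + 1 : ℕ) * (C * (b : ℤ) ^ (2 * H)) := by
  classical
  have hC : 0 ≤ C := (hd 0).1.trans (hd 0).2
  have hb1 : (1 : ℤ) ≤ b := by exact_mod_cast (by omega : 1 ≤ b)
  refine ⟨Finset.sum_nonneg fun m _ => mul_nonneg (hd m).1 (by positivity), ?_⟩
  unfold ee
  have h1 : ∀ m ∈ (range (k + H + 1)).filter (fun m => tgt H m = k),
      d m * (b : ℤ) ^ (H + k - m) ≤ C * (b : ℤ) ^ (2 * H) := by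
    intro m hm
    rw [Finset.mem_filter] at hm
    have h2 := tgt_le H m
    have h3 := le_tgt H m
    rw [hm.2] at h2 h3
    exact mul_le_mul (hd m).2 (pow_le_pow_right₀ hb1 (by omega)) (by positivity) hC
  refine (Finset.sum_le_card_nsmul _ _ _ h1).trans ?_
  rw [nsmul_eq_mul]
  refine mul_le_mul_of_nonneg_right ?_ (by positivity)
  have h4 : (range (k + H + 1)).filter (fun m => tgt H m = k) ⊆ Icc (k - H) (k + H) := by
    intro m hm
    rw [Finset.mem_filter] at hm
    have h2 := tgt_le H m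
    have h3 := le_tgt H m
    rw [hm.2] at h2 h3
    rw [Finset.mem_Icc]
    omega
  have h5 := Finset.card_le_card h4
  rw [Nat.card_Icc] at h5
  exact_mod_cast (by omega : _ ≤ 2 * H + 1)

end THKAux

open THKAux in
theorem thk : S_THK := by
  classical
  intro b hb H d C hd
  have hb1 : (1 : ℝ) < b := by exact_mod_cast (by omega : 1 < b)
  have hb0 : (0 : ℝ) < b := by linarith
  refine ⟨ee b H d, _, bound hb H hd, ?_, ?_⟩
  · intro N
    unfold off offH
    refine Finset.card_le_card ?_
    intro k hk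
    rw [Finset.mem_filter] at hk ⊢
    obtain ⟨h1, h2, h3⟩ := hk
    refine ⟨h1, ?_⟩
    have h4 : ∃ m, tgt H m = k ∧ d m ≠ 0 := by
      by_contra hcon
      push Not at hcon
      apply h2
      unfold ee
      refine Finset.sum_eq_zero fun m hm => ?_
      rw [Finset.mem_filter] at hm
      rw [hcon m hm.2, zero_mul]
    obtain ⟨m, hm1, hm2⟩ := h4
    by_cases hn : near H m
    · obtain ⟨u, hu⟩ := tgt_of_near hn
      exact absurd (hu.symm.trans hm1) (h3 u)
    · rw [tgt_of_not hn] at hm1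
      subst hm1
      refine ⟨hm2, fun u => ?_⟩
      by_contra hcon
      apply hn
      push Not at hcon
      exact ⟨u, hcon.2, hcon.1⟩
  · have hsum : Summable fun m : ℕ => (b : ℝ) ^ H * ((d m : ℝ) / (b : ℝ) ^ m) := by
      apply Summable.mul_left
      have h1 : Summable fun m : ℕ => (C : ℝ) * ((b : ℝ)⁻¹) ^ m :=
        (summable_geometric_of_lt_one (by positivity) (inv_lt_one_of_one_lt₀ hb1)).mul_left _
      refine Summable.of_nonneg_of_le (fun m => ?_) (fun m => ?_) h1
      · have : (0 : ℝ) ≤ d m := by exact_mod_cast (hd m).1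
        positivity
      · rw [inv_pow, div_eq_mul_inv]
        refine mul_le_mul_of_nonneg_right ?_ (by positivity)
        exact_mod_cast (hd m).2
    rw [← tsum_mul_left]
    have h2 := (hsum.hasSum.tsum_fiberwise (tgt H))
    rw [← h2.tsum_eq]
    refine tsum_congr fun k => ?_
    rw [tsum_subtype (tgt H ⁻¹' {k}) (fun m => (b : ℝ) ^ H * ((d m : ℝ) / (b : ℝ) ^ m))]
    rw [tsum_eq_sum (s := (range (k + H + 1)).filter (fun m => tgt H m = k))]
    · unfold ee
      push_cast
      rw [Finset.sum_div]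
      refine Finset.sum_congr rfl fun m hm => ?_
      rw [Finset.mem_filter] at hm
      have hm' : m ∈ tgt H ⁻¹' {k} := hm.2
      rw [Set.indicator_of_mem hm']
      have h3 := le_tgt H m
      rw [hm.2] at h3
      have h4 : (b : ℝ) ^ (H + k - m) = (b : ℝ) ^ H * (b : ℝ) ^ k / (b : ℝ) ^ m := by
        rw [eq_div_iff (by positivity), ← pow_add, ← pow_add]
        congr 1
        omega
      rw [h4]
      field_simp
    · intro m hm
      rw [Set.indicator_of_notMem]
      intro h3
      have h4 : tgt H m = k := h3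
      apply hm
      rw [Finset.mem_filter, Finset.mem_range]
      have h5 := le_tgt H m
      exact ⟨by omega, h4⟩

end Pool.Agent.H52.TC
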