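import Pool.Agent.H52.TC.Stm4
import Pool.Agent.H52.TC.UP2

/-! # Project TC, stub UP4 (helper33): the mean of `|T|` over a residue class, at one scale -/

set_option autoImplicit false

namespace Pool.Agent.H52.TC

open Finset

namespace UP4aux

lemma sum4 (N : ℕ) : ∑ i ∈ range N, ((i : ℝ) + 1) ^ 4 / 2 ^ (i + 1) =
    150 - ((N : ℝ) ^ 4 + 8 * N ^ 3 + 36 * N ^ 2 + 104 * N + 150) / 2 ^ N := by
  induction N with
  | zero => norm_num
  | succ N ih =>
    rw [sum_range_succ, ih]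
    push_cast
    field_simp
    ring

lemma sum4_le (N : ℕ) : ∑ i ∈ range N, ((i : ℝ) + 1) ^ 4 / 2 ^ (i + 1) ≤ 150 := by
  rw [sum4]
  have : 0 ≤ ((N : ℝ) ^ 4 + 8 * N ^ 3 + 36 * N ^ 2 + 104 * N + 150) / 2 ^ N := by positivity
  linarith

lemma sum0 (N : ℕ) : ∑ i ∈ range N, (1 : ℝ) / 2 ^ (i + 1) = 1 - 1 / 2 ^ N := by
  induction N with
  | zero => norm_num
  | succ N ih =>
    rw [sum_range_succ, ih]
    field_simp
    ring

lemma sum0_le (N : ℕ) : ∑ i ∈ range N, (1 : ℝ) / 2 ^ (i + 1) ≤ 1 := by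
  rw [sum0]
  have : 0 ≤ (1 : ℝ) / 2 ^ N := by positivity
  linarith

lemma off_mono (e : ℕ → ℤ) {Y Z : ℕ} (h : Y ≤ Z) : off e Y ≤ off e Z := by
  classical
  unfold off
  apply card_le_card
  intro m hm
  rw [mem_filter, mem_range] at hm ⊢
  exact ⟨by omega, hm.2⟩

end UP4aux

open UP2aux UP4aux in
theorem up4 : S_SUP3 → S_LAT3 → S_UP4 := by
  intro hsup hlat b hb e C he a1 a2 a3 ha3 T hT q c K hq hK
  have hC : 0 ≤ C := (he 0).1.trans (he 0).2
  obtain ⟨hpos, -, -, -, hpoly⟩ := hsup e C he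
  obtain ⟨Q, hQ⟩ : ∃ Q : ℕ, 9 * |a2| * C ^ 2 + 3 * |a1| * C ≤ (Q : ℤ) := ⟨_, Int.self_le_toNat _⟩
  obtain ⟨P, hP⟩ : ∃ P : ℕ, 4 * a3 * C ^ 3 + 2 * |a2| * C ^ 2 + |a1| * C ≤ (P : ℤ) := ⟨_, Int.self_le_toNat _⟩
  have hq0 : (0 : ℝ) < q := by exact_mod_cast hq
  have hCr : (0 : ℝ) ≤ C := by exact_mod_cast hC
  have ha3r : (1 : ℝ) ≤ a3 := by exact_mod_cast ha3
  have hA : 0 ≤ (a3 : ℝ) * C ^ 3 := by positivity
  obtain ⟨η, hη⟩ : ∃ η : ℝ, η = 1 / (1296 * q * ((a3 : ℝ) * C ^ 3 + 1)) := ⟨_, rfl⟩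
  have hη0 : 0 < η := by rw [hη]; positivity
  have hq1 : (1 : ℝ) ≤ q := by exact_mod_cast hq
  have hη1 : η ≤ 1 := by
    rw [hη, div_le_one (by positivity)]
    have := mul_le_mul hq1 (show (1 : ℝ) ≤ (a3 : ℝ) * C ^ 3 + 1 by linarith) (by norm_num) hq0.le
    nlinarith
  have hηA : 324 * ((a3 : ℝ) * C ^ 3) * η ≤ 1 / (4 * q) := by
    rw [hη, mul_one_div, div_le_div_iff₀ (by positivity) (by positivity)]
    nlinarith [mul_nonneg hq0.le hA]
  refine ⟨η, hη0, 12 * (300 * P * q + q ^ 3 + 1) + 48 * Q * q, fun s hs hoff X hX1 hX2 => ?_⟩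
  have hs1 : 1 ≤ s := by omega
  have hss : s ≤ s ^ 3 := Nat.le_self_pow (by norm_num) s
  have hXb : 300 * P * q + q ^ 3 + 1 ≤ X := by omega
  have hXq : q ^ 3 ≤ X := by omega
  have hXP : 300 * P * q ≤ X := by omega
  have hXone : 1 ≤ X := by omega
  have hsQ : 48 * Q * q ≤ s := by omega
  have hXr : (1 : ℝ) ≤ X := by exact_mod_cast hXone
  have hsr : (1 : ℝ) ≤ s := by exact_mod_cast hs1
  obtain ⟨S, hS⟩ : ∃ S, S = (range X).filter (fun M => M ≡ c [MOD q]) := ⟨_, rfl⟩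
  rw [← hS]
  obtain ⟨E, hE⟩ : ∃ E : ℝ, E = 324 * ((a3 : ℝ) * C ^ 3) * η * X + Q * (s : ℝ) ^ 2 := ⟨_, rfl⟩
  have hE0 : 0 ≤ E := by rw [hE]; positivity
  have hXs : (s : ℝ) ^ 3 ≤ 12 * X := by exact_mod_cast hX1
  have hEX : E ≤ X / (2 * q) := by
    have h1 : 324 * ((a3 : ℝ) * C ^ 3) * η * X ≤ 1 / (4 * q) * X :=
      mul_le_mul_of_nonneg_right hηA (by positivity)
    have h2 : Q * (s : ℝ) ^ 2 ≤ 1 / (4 * q) * X := by
      rw [one_div, inv_mul_eq_div, le_div_iff₀ (by positivity)]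
      have h3 : 48 * (Q : ℝ) * q ≤ s := by exact_mod_cast hsQ
      have h4 : 48 * (Q : ℝ) * q * (s : ℝ) ^ 2 ≤ s * (s : ℝ) ^ 2 :=
        mul_le_mul_of_nonneg_right h3 (by positivity)
      nlinarith
    have h5 : 1 / (4 * q) * (X : ℝ) + 1 / (4 * q) * X = X / (2 * q) := by
      field_simp
      norm_num
    rw [hE]
    linarith
  -- the bound for one place
  have hW : ∀ i : ℕ, ((∑ M ∈ S, (a3 * G3 e (M + 1 + i) + |a2| * G2 e (M + 1 + i) + |a1| * e (M + 1 + i)) : ℤ) : ℝ) ≤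
      a3 * C ^ 3 * (rho q (c + 1 + i)) * (8 * X * (i + 1) / q ^ 3) + E + P / X * (i + 1) ^ 4 := by
    intro i
    have hmain0 : (0 : ℝ) ≤ a3 * C ^ 3 * (rho q (c + 1 + i)) * (8 * X * (i + 1) / q ^ 3) := by positivity
    have hlast0 : (0 : ℝ) ≤ P / X * (i + 1) ^ 4 := by positivity
    by_cases hi : X + i ≤ s ^ 3
    · obtain ⟨t, ht1, ht2⟩ := cbrt (X + i)
      have hl := hlat e C he t (X + i) ht2
      have hqt : q ≤ t := by
        have h1 : q ^ 3 < (t + 1) ^ 3 :=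
          lt_of_le_of_lt (hXq.trans (Nat.le_add_right X i)) ht2
        have := lt_of_pow_lt_pow_left₀ 3 (by omega) h1
        omega
      have hts : t ≤ s := le_of_pow_le_pow_left₀ (n := 3) (by norm_num) (by omega) (ht1.trans hi)
      obtain ⟨D, hD⟩ : ∃ D : ℕ, D = off e (X + i) := ⟨_, rfl⟩
      rw [← hD] at hl
      have hDs : (D : ℝ) ≤ η * s := by
        rw [hD]
        refine le_trans ?_ hoff
        exact_mod_cast off_mono e hi
      have hs3 : ((t / q + 1 : ℕ) : ℝ) ^ 3 ≤ 8 * X * (i + 1) / q ^ 3 := by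
        have h1 : ((t / q : ℕ) : ℝ) ≤ (t : ℝ) / q := Nat.cast_div_le
        have h2 : (1 : ℝ) ≤ (t : ℝ) / q := by
          rw [le_div_iff₀ hq0, one_mul]
          exact_mod_cast hqt
        have h3 : ((t / q + 1 : ℕ) : ℝ) ≤ 2 * ((t : ℝ) / q) := by push_cast; linarith
        have h4 : (t : ℝ) ^ 3 ≤ X * (i + 1) := by
          have : t ^ 3 ≤ X * (i + 1) := ht1.trans (by nlinarith)
          exact_mod_cast this
        calc ((t / q + 1 : ℕ) : ℝ) ^ 3 ≤ (2 * ((t : ℝ) / q)) ^ 3 := pow_le_pow_left₀ (by positivity) h3 3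
          _ = 8 * (t : ℝ) ^ 3 / q ^ 3 := by ring
          _ ≤ 8 * (X * (i + 1)) / q ^ 3 := by
              apply div_le_div_of_nonneg_right _ (by positivity)
              linarith
          _ = _ := by ring
      have e3 : ∑ M ∈ S, G3 e (M + 1 + i) ≤ C ^ 3 * ((rho q (c + 1 + i) : ℤ) * ((t / q + 1 : ℕ) : ℤ) ^ 3 +
          3 * (D : ℤ) * ((t : ℤ) + 1 + D) ^ 2) := by
        refine (shift (G3 e) (fun m => (hpos m).2) S _ i ?_).trans (hl.1 q (c + 1 + i) hq)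
        intro M hM
        rw [hS, mem_filter, mem_range] at hM
        rw [mem_filter, mem_range]
        exact ⟨by omega, (hM.2.add_right 1).add_right i⟩
      have e2 : ∑ M ∈ S, G2 e (M + 1 + i) ≤ C ^ 2 * ((t : ℤ) + 1 + D) ^ 2 := by
        refine (shift (G2 e) (fun m => (hpos m).1) S _ i ?_).trans hl.2.1
        intro M hM
        rw [hS, mem_filter, mem_range] at hM
        rw [mem_range]
        omega
      have e1 : ∑ M ∈ S, e (M + 1 + i) ≤ C * ((t : ℤ) + 1 + D) := by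
        refine (shift e (fun m => (he m).1) S _ i ?_).trans hl.2.2
        intro M hM
        rw [hS, mem_filter, mem_range] at hM
        rw [mem_range]
        omega
      have e4 : ∑ M ∈ S, (a3 * G3 e (M + 1 + i) + |a2| * G2 e (M + 1 + i) + |a1| * e (M + 1 + i)) ≤
          a3 * (C ^ 3 * ((rho q (c + 1 + i) : ℤ) * ((t / q + 1 : ℕ) : ℤ) ^ 3 +
          3 * (D : ℤ) * ((t : ℤ) + 1 + D) ^ 2)) + |a2| * (C ^ 2 * ((t : ℤ) + 1 + D) ^ 2) +
            |a1| * (C * ((t : ℤ) + 1 + D)) := by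
        rw [sum_add_distrib, sum_add_distrib, ← mul_sum, ← mul_sum, ← mul_sum]
        have := mul_le_mul_of_nonneg_left e3 (show 0 ≤ a3 by linarith)
        have := mul_le_mul_of_nonneg_left e2 (abs_nonneg a2)
        have := mul_le_mul_of_nonneg_left e1 (abs_nonneg a1)
        linarith
      have e5 : ((∑ M ∈ S, (a3 * G3 e (M + 1 + i) + |a2| * G2 e (M + 1 + i) + |a1| * e (M + 1 + i)) : ℤ) : ℝ) ≤
          a3 * (C ^ 3 * ((rho q (c + 1 + i) : ℝ) * ((t / q + 1 : ℕ) : ℝ) ^ 3 +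
          3 * (D : ℝ) * ((t : ℝ) + 1 + D) ^ 2)) + |(a2 : ℝ)| * (C ^ 2 * ((t : ℝ) + 1 + D) ^ 2) +
            |(a1 : ℝ)| * (C * ((t : ℝ) + 1 + D)) := by
        have e6 := (Int.cast_le (R := ℝ)).2 e4
        push_cast at e6 ⊢
        exact e6
      refine e5.trans ?_
      have htr : (t : ℝ) ≤ s := by exact_mod_cast hts
      have hηs : η * s ≤ s := by nlinarith
      have hZ : (t : ℝ) + 1 + D ≤ 3 * s := by linarith
      have hZ0 : (0 : ℝ) ≤ (t : ℝ) + 1 + D := by positivity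
      have hZ2 : ((t : ℝ) + 1 + D) ^ 2 ≤ 9 * (s : ℝ) ^ 2 := by
        calc ((t : ℝ) + 1 + D) ^ 2 ≤ (3 * (s : ℝ)) ^ 2 := pow_le_pow_left₀ hZ0 hZ 2
          _ = _ := by ring
      have hDZ : 3 * (D : ℝ) * ((t : ℝ) + 1 + D) ^ 2 ≤ 324 * η * X := by
        calc 3 * (D : ℝ) * ((t : ℝ) + 1 + D) ^ 2 ≤ 3 * (η * s) * (9 * (s : ℝ) ^ 2) :=
              mul_le_mul (by linarith) hZ2 (by positivity) (by positivity)
          _ = 27 * η * (s : ℝ) ^ 3 := by ring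
          _ ≤ 27 * η * (12 * X) := mul_le_mul_of_nonneg_left hXs (by positivity)
          _ = _ := by ring
      have g3 : (a3 : ℝ) * (C ^ 3 * ((rho q (c + 1 + i) : ℝ) * ((t / q + 1 : ℕ) : ℝ) ^ 3 +
          3 * (D : ℝ) * ((t : ℝ) + 1 + D) ^ 2)) ≤
          a3 * (C ^ 3 * ((rho q (c + 1 + i) : ℝ) * (8 * X * (i + 1) / q ^ 3) + 324 * η * X)) := by
        apply mul_le_mul_of_nonneg_left _ (by linarith)
        apply mul_le_mul_of_nonneg_left _ (by positivity)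
        exact add_le_add (mul_le_mul_of_nonneg_left hs3 (by positivity)) hDZ
      have g2 : |(a2 : ℝ)| * (C ^ 2 * ((t : ℝ) + 1 + D) ^ 2) ≤ |(a2 : ℝ)| * (C ^ 2 * (9 * (s : ℝ) ^ 2)) := by
        apply mul_le_mul_of_nonneg_left _ (abs_nonneg _)
        exact mul_le_mul_of_nonneg_left hZ2 (by positivity)
      have g1 : |(a1 : ℝ)| * (C * ((t : ℝ) + 1 + D)) ≤ |(a1 : ℝ)| * (C * (3 * (s : ℝ) ^ 2)) := by
        apply mul_le_mul_of_nonneg_left _ (abs_nonneg _)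
        apply mul_le_mul_of_nonneg_left _ hCr
        nlinarith
      have hQr : 9 * |(a2 : ℝ)| * C ^ 2 + 3 * |(a1 : ℝ)| * C ≤ Q := by exact_mod_cast hQ
      have g0 : (9 * |(a2 : ℝ)| * C ^ 2 + 3 * |(a1 : ℝ)| * C) * (s : ℝ) ^ 2 ≤ Q * (s : ℝ) ^ 2 :=
        mul_le_mul_of_nonneg_right hQr (by positivity)
      calc _ ≤ a3 * (C ^ 3 * ((rho q (c + 1 + i) : ℝ) * (8 * X * (i + 1) / q ^ 3) + 324 * η * X)) +
            |(a2 : ℝ)| * (C ^ 2 * (9 * (s : ℝ) ^ 2)) + |(a1 : ℝ)| * (C * (3 * (s : ℝ) ^ 2)) :=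
            add_le_add (add_le_add g3 g2) g1
        _ = a3 * C ^ 3 * (rho q (c + 1 + i)) * (8 * X * (i + 1) / q ^ 3) + 324 * ((a3 : ℝ) * C ^ 3) * η * X +
            (9 * |(a2 : ℝ)| * C ^ 2 + 3 * |(a1 : ℝ)| * C) * (s : ℝ) ^ 2 := by ring
        _ ≤ _ := by rw [hE]; linarith
    · have hiX : X ≤ i := by omega
      have hiXr : (X : ℝ) ≤ i := by exact_mod_cast hiX
      have hi0 : (0 : ℝ) ≤ i := Nat.cast_nonneg i
      have hcard : (S.card : ℝ) ≤ i + 1 := by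
        have h1 : S.card ≤ X := by
          rw [hS]
          exact (card_filter_le _ _).trans (le_of_eq (card_range X))
        have : S.card ≤ i + 1 := by omega
        exact_mod_cast this
      have h1 : ∀ M ∈ S, a3 * G3 e (M + 1 + i) + |a2| * G2 e (M + 1 + i) + |a1| * e (M + 1 + i) ≤
          (P : ℤ) * ((i : ℤ) + 1) ^ 2 := by
        intro M hM
        rw [hS, mem_filter, mem_range] at hM
        have hm : ((M + 1 + i : ℕ) : ℤ) + 1 ≤ 2 * ((i : ℤ) + 1) := by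
          push_cast
          omega
        have hm0 : (0 : ℤ) ≤ ((M + 1 + i : ℕ) : ℤ) + 1 := by positivity
        obtain ⟨p2, p3⟩ := hpoly (M + 1 + i)
        have j1 : (1 : ℤ) ≤ (i : ℤ) + 1 := by omega
        have j2 : (i : ℤ) + 1 ≤ ((i : ℤ) + 1) ^ 2 := by nlinarith
        have j3 : (1 : ℤ) ≤ ((i : ℤ) + 1) ^ 2 := by linarith
        have k3 : G3 e (M + 1 + i) ≤ C ^ 3 * (4 * ((i : ℤ) + 1) ^ 2) := by
          refine p3.trans (mul_le_mul_of_nonneg_left ?_ (by positivity))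
          calc (((M + 1 + i : ℕ) : ℤ) + 1) ^ 2 ≤ (2 * ((i : ℤ) + 1)) ^ 2 := pow_le_pow_left₀ hm0 hm 2
            _ = _ := by ring
        have k2 : G2 e (M + 1 + i) ≤ C ^ 2 * (2 * ((i : ℤ) + 1) ^ 2) := by
          refine p2.trans (mul_le_mul_of_nonneg_left ?_ (by positivity))
          linarith
        have k1 : e (M + 1 + i) ≤ C * ((i : ℤ) + 1) ^ 2 :=
          (he _).2.trans (le_mul_of_one_le_right hC j3)
        have l3 := mul_le_mul_of_nonneg_left k3 (show 0 ≤ a3 by linarith)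
        have l2 := mul_le_mul_of_nonneg_left k2 (abs_nonneg a2)
        have l1 := mul_le_mul_of_nonneg_left k1 (abs_nonneg a1)
        have l0 := mul_le_mul_of_nonneg_right hP (show 0 ≤ ((i : ℤ) + 1) ^ 2 by positivity)
        linarith
      have h2 : ((∑ M ∈ S, (a3 * G3 e (M + 1 + i) + |a2| * G2 e (M + 1 + i) + |a1| * e (M + 1 + i)) : ℤ) : ℝ) ≤
          S.card * (P * ((i : ℝ) + 1) ^ 2) := by
        have h3 := sum_le_card_nsmul S _ _ h1
        rw [nsmul_eq_mul] at h3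
        exact_mod_cast h3
      refine h2.trans ?_
      have h4 : (S.card : ℝ) * (P * ((i : ℝ) + 1) ^ 2) ≤ (i + 1) * (P * ((i : ℝ) + 1) ^ 2) :=
        mul_le_mul_of_nonneg_right hcard (by positivity)
      have h5 : ((i : ℝ) + 1) * (P * ((i : ℝ) + 1) ^ 2) ≤ P / X * (i + 1) ^ 4 := by
        rw [div_mul_eq_mul_div, le_div_iff₀ (by positivity)]
        have h6 : (X : ℝ) ≤ i + 1 := by linarith
        calc ((i : ℝ) + 1) * (P * ((i : ℝ) + 1) ^ 2) * X = (P * ((i : ℝ) + 1) ^ 3) * X := by ring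
          _ ≤ (P * ((i : ℝ) + 1) ^ 3) * (i + 1) := mul_le_mul_of_nonneg_left h6 (by positivity)
          _ = _ := by ring
      linarith
  -- finite version
  have hfin : ∀ N : ℕ, ∑ M ∈ S, |∑ i ∈ range N, (FG e a1 a2 a3 (M + 1 + i) : ℝ) / (b : ℝ) ^ (i + 1)| ≤
      (8 * a3 * C ^ 3 * K + 1) * X / q := by
    intro N
    have h1 : ∀ M ∈ S, |∑ i ∈ range N, (FG e a1 a2 a3 (M + 1 + i) : ℝ) / (b : ℝ) ^ (i + 1)| ≤
        ∑ i ∈ range N, ((a3 * G3 e (M + 1 + i) + |a2| * G2 e (M + 1 + i) + |a1| * e (M + 1 + i) : ℤ) : ℝ) / 2 ^ (i + 1) := by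
      intro M _
      refine (abs_sum_le_sum_abs _ _).trans (sum_le_sum fun i _ => ?_)
      have hb2 : (2 : ℝ) ≤ b := by exact_mod_cast hb
      rw [abs_div, abs_of_nonneg (show (0 : ℝ) ≤ (b : ℝ) ^ (i + 1) by positivity)]
      obtain ⟨p2, p3⟩ := hpos (M + 1 + i)
      have p1 := (he (M + 1 + i)).1
      have h2 : |FG e a1 a2 a3 (M + 1 + i)| ≤ a3 * G3 e (M + 1 + i) + |a2| * G2 e (M + 1 + i) + |a1| * e (M + 1 + i) := by
        unfold FG
        refine (abs_add_le _ _).trans (add_le_add ((abs_add_le _ _).trans (add_le_add ?_ ?_)) ?_)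
        · rw [abs_mul, abs_of_nonneg p3, abs_of_nonneg (show 0 ≤ a3 by linarith)]
        · rw [abs_mul, abs_of_nonneg p2]
        · rw [abs_mul, abs_of_nonneg p1]
      have h3 : |(FG e a1 a2 a3 (M + 1 + i) : ℝ)| ≤
          ((a3 * G3 e (M + 1 + i) + |a2| * G2 e (M + 1 + i) + |a1| * e (M + 1 + i) : ℤ) : ℝ) := by exact_mod_cast h2
      exact div_le_div₀ ((abs_nonneg _).trans h3) h3 (by positivity) (pow_le_pow_left₀ (by norm_num) hb2 _)
    refine (sum_le_sum h1).trans ?_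
    rw [sum_comm]
    have h2 : ∀ i ∈ range N, ∑ M ∈ S, ((a3 * G3 e (M + 1 + i) + |a2| * G2 e (M + 1 + i) + |a1| * e (M + 1 + i) : ℤ) : ℝ) / 2 ^ (i + 1) ≤
        8 * a3 * C ^ 3 * X / q ^ 3 * (((i : ℝ) + 1) / 2 ^ (i + 1) * rho q (c + 1 + i)) +
          E * (1 / 2 ^ (i + 1)) + P / X * (((i : ℝ) + 1) ^ 4 / 2 ^ (i + 1)) := by
      intro i _
      rw [← sum_div]
      have h3 := hW i
      push_cast at h3 ⊢
      refine (div_le_div_of_nonneg_right h3 (by positivity)).trans (le_of_eq ?_)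
      field_simp
    refine (sum_le_sum h2).trans ?_
    rw [sum_add_distrib, sum_add_distrib, ← mul_sum, ← mul_sum, ← mul_sum]
    have k1 : 8 * a3 * C ^ 3 * X / q ^ 3 * ∑ i ∈ range N, (((i : ℝ) + 1) / 2 ^ (i + 1) * rho q (c + 1 + i)) ≤
        8 * a3 * C ^ 3 * X / q ^ 3 * (K * (q : ℝ) ^ 2) := by
      exact mul_le_mul_of_nonneg_left (hK N) (by positivity)
    have k2 : E * ∑ i ∈ range N, (1 : ℝ) / 2 ^ (i + 1) ≤ E * 1 :=
      mul_le_mul_of_nonneg_left (sum0_le N) hE0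
    have k3 : (P : ℝ) / X * ∑ i ∈ range N, (((i : ℝ) + 1) ^ 4 / 2 ^ (i + 1)) ≤ (P : ℝ) / X * 150 :=
      mul_le_mul_of_nonneg_left (sum4_le N) (by positivity)
    have k4 : (P : ℝ) / X * 150 ≤ X / (2 * q) := by
      rw [div_mul_eq_mul_div, div_le_div_iff₀ (by positivity) (by positivity)]
      have h6 : 300 * (P : ℝ) * q ≤ X := by exact_mod_cast hXP
      nlinarith
    have k5 : (X : ℝ) / (2 * q) + X / (2 * q) = X / q := by
      field_simp
      norm_num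
    calc _ ≤ 8 * a3 * C ^ 3 * X / q ^ 3 * (K * (q : ℝ) ^ 2) + E * 1 + (P : ℝ) / X * 150 :=
          add_le_add (add_le_add k1 k2) k3
      _ = 8 * a3 * C ^ 3 * K * X / q + E + P / X * 150 := by field_simp
      _ ≤ 8 * a3 * C ^ 3 * K * X / q + X / q := by linarith
      _ = _ := by ring
  -- the limit
  have hlim : Filter.Tendsto (fun N : ℕ => ∑ M ∈ S, |∑ i ∈ range N, (FG e a1 a2 a3 (M + 1 + i) : ℝ) / (b : ℝ) ^ (i + 1)|)
      Filter.atTop (nhds (∑ M ∈ S, |(T M : ℝ)|)) := by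
    apply tendsto_finsetSum
    intro M _
    exact (hT.2 M).tendsto_sum_nat.abs
  exact le_of_tendsto' hlim hfin

end Pool.Agent.H52.TC
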