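import Pool.Agent.H52.TC.Stm2

/-! TC-WIN2 (helper10, from helper62's WIN): most windows in the class `c` are empty -/

set_option autoImplicit false

namespace Pool.Agent.H52.TC

open Finset

namespace WIN2x

theorem cnt (g : ℕ → ℤ) (hg : ∀ m, 0 ≤ g m) (A B : Finset ℕ) (j : ℕ)
    (h1 : ∀ M ∈ A, 1 ≤ g (M + j)) (h2 : ∀ M ∈ A, M + j ∈ B) :
    (A.card : ℤ) ≤ ∑ m ∈ B, g m := by
  calc (A.card : ℤ) = ∑ M ∈ A, (1 : ℤ) := by simp
    _ ≤ ∑ M ∈ A, g (M + j) := Finset.sum_le_sum h1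
    _ = ∑ m ∈ A.image (fun M => M + j), g m :=
        (Finset.sum_image (fun a _ b _ h => Nat.add_right_cancel h)).symm
    _ ≤ ∑ m ∈ B, g m :=
        Finset.sum_le_sum_of_subset_of_nonneg (Finset.image_subset_iff.2 h2) (fun m _ _ => hg m)

theorem root (Y : ℕ) : ∃ s : ℕ, s ^ 3 ≤ Y ∧ Y < (s + 1) ^ 3 := by
  induction Y with
  | zero => exact ⟨0, by norm_num, by norm_num⟩
  | succ Y ih =>
    obtain ⟨s, h1, h2⟩ := ih
    by_cases h : Y + 1 < (s + 1) ^ 3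
    · exact ⟨s, by omega, h⟩
    · refine ⟨s + 1, by omega, ?_⟩
      have h3 : (s + 1) ^ 3 < (s + 1 + 1) ^ 3 := Nat.pow_lt_pow_left (Nat.lt_succ_self _) (by norm_num)
      omega

theorem memf {p : ℕ → Prop} (inst : DecidablePred p) (s : Finset ℕ) (a : ℕ)
    (h : a ∈ @Finset.filter ℕ p inst s) : a ∈ s ∧ p a := (@Finset.mem_filter ℕ p inst s a).1 h

end WIN2x

open WIN2x

open Classical in
theorem win2 : S_SUP2 → S_LAT → S_WIN2 := by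
  intro hS hL ε C₀ hε₀ a1 a2 a3 q c k hq hrho
  obtain ⟨C, hC1, hε⟩ : ∃ C : ℤ, 1 ≤ C ∧ ∀ n, 0 ≤ ε n ∧ ε n ≤ C :=
    ⟨max C₀ 1, le_max_right _ _, fun n => ⟨(hε₀ n).1, (hε₀ n).2.trans (le_max_left _ _)⟩⟩
  obtain ⟨hn, hE1, -, -, -, hE2, -⟩ := hS ε C hε
  obtain ⟨hn', -, g1, g2, g3, -, -⟩ := hS (fun _ => 1) 1 (fun _ => ⟨by norm_num, le_rfl⟩)
  have h3 : ∀ m, E3 ε m ≠ 0 → 1 ≤ E3 (fun _ => 1) m := by
    intro m hm
    obtain ⟨ij, hij, hne⟩ := Finset.exists_ne_zero_of_sum_ne_zero hm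
    obtain ⟨i, j, hi, h1, h2⟩ := hE2 _ (left_ne_zero_of_mul hne)
    obtain ⟨u, hu, -⟩ := hE1 _ h1
    obtain ⟨v, hv, -⟩ := hE1 _ h2
    obtain ⟨w, hw, -⟩ := hE1 _ (right_ne_zero_of_mul hne)
    have k1 := g1 u one_ne_zero
    have k2 := g1 v one_ne_zero
    have k3 := g1 w one_ne_zero
    have h4 := g3 _ _ (g2 _ _ k1 k2) k3
    rw [← hu, ← hv, ← hi, ← hw, Finset.HasAntidiagonal.mem_antidiagonal.1 hij] at h4
    have h5 := (hn' m).2.2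
    omega
  obtain ⟨Cn, hCn⟩ : ∃ Cn : ℕ, C = (Cn : ℤ) := ⟨C.toNat, (Int.toNat_of_nonneg (by omega)).symm⟩
  set S0 : ℕ := 1000 * q * k * Cn ^ 2 + 100 * k + q + 1 with hS0
  refine ⟨(S0 + 1) ^ 3, fun X hX => ?_⟩
  obtain ⟨s, hs1, hs2⟩ := root (X + k)
  have hsS : S0 ≤ s := by
    by_contra hcon
    have h5 : (s + 1) ^ 3 ≤ (S0 + 1) ^ 3 := Nat.pow_le_pow_left (by omega) 3
    omega
  obtain ⟨hL3, -, -⟩ := hL (fun _ => 1) 1 (fun _ => ⟨by norm_num, le_rfl⟩) s (X + k) hs2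
  obtain ⟨-, hL2, hL1⟩ := hL ε C hε s (X + k) hs2
  suffices hA : ∀ A : Finset ℕ, (∀ M ∈ A, M ∈ range X ∧ M ≡ c [MOD q] ∧
      ∃ j ∈ Icc 1 k, F ε a1 a2 a3 (M + j) ≠ 0) → (A.card : ℝ) ≤ X / (10 * q) from
    hA _ (fun M hM => memf _ _ _ hM)
  intro A hA
  -- the three sets
  let A3 : ℕ → Finset ℕ := fun j => (range X).filter fun M => M ≡ c [MOD q] ∧
    1 ≤ E3 (fun _ => 1) (M + j)
  let A2 : ℕ → Finset ℕ := fun j => (range X).filter fun M => 1 ≤ E2 ε (M + j)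
  let A1 : ℕ → Finset ℕ := fun j => (range X).filter fun M => 1 ≤ E1 ε (M + j)
  have hsub : A ⊆ (Icc 1 k).biUnion fun j => A3 j ∪ (A2 j ∪ A1 j) := by
    intro M hM
    obtain ⟨hMX, hMc, j, hj, hF⟩ := hA M hM
    refine mem_biUnion.2 ⟨j, hj, ?_⟩
    by_cases e3 : E3 ε (M + j) = 0
    · by_cases e2 : E2 ε (M + j) = 0
      · have e1 : E1 ε (M + j) ≠ 0 := by
          intro e1
          apply hF
          unfold F
          rw [e1, e2, e3]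
          ring
        refine mem_union_right _ (mem_union_right _ (mem_filter.2 ⟨hMX, ?_⟩))
        have := (hn (M + j)).1
        omega
      · refine mem_union_right _ (mem_union_left _ (mem_filter.2 ⟨hMX, ?_⟩))
        have := (hn (M + j)).2.1
        omega
    · exact mem_union_left _ (mem_filter.2 ⟨hMX, hMc, h3 _ e3⟩)
  have hc3 : ∀ j ∈ Icc 1 k, ((A3 j).card : ℤ) ≤ (rho q (c + j) : ℤ) * ((s / q + 1 : ℕ) : ℤ) ^ 3 := by
    intro j hj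
    have h5 := cnt (E3 fun _ => 1) (fun m => (hn' m).2.2) (A3 j)
      ((range (X + k + 1)).filter (fun m => m ≡ c + j [MOD q])) j
      (fun M hM => (mem_filter.1 hM).2.2) (fun M hM => by
        have h6 := mem_filter.1 hM
        have h7 := mem_range.1 h6.1
        have h8 := (mem_Icc.1 hj).2
        exact mem_filter.2 ⟨mem_range.2 (by omega), Nat.ModEq.add_right j h6.2.1⟩)
    have h6 := hL3 q (c + j) hq
    calc ((A3 j).card : ℤ) ≤ _ := h5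
      _ ≤ _ := h6
      _ = (rho q (c + j) : ℤ) * ((s / q + 1 : ℕ) : ℤ) ^ 3 := by ring
  have hc2 : ∀ j ∈ Icc 1 k, ((A2 j).card : ℤ) ≤ C ^ 2 * ((s : ℤ) + 1) ^ 2 := by
    intro j hj
    exact (cnt (E2 ε) (fun m => (hn m).2.1) (A2 j) (range (X + k + 1)) j
      (fun M hM => (mem_filter.1 hM).2) (fun M hM => by
        have h7 := mem_range.1 (mem_filter.1 hM).1
        have h8 := (mem_Icc.1 hj).2
        exact mem_range.2 (by omega))).trans hL2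
  have hc1 : ∀ j ∈ Icc 1 k, ((A1 j).card : ℤ) ≤ C * ((s : ℤ) + 1) := by
    intro j hj
    exact (cnt (E1 ε) (fun m => (hn m).1) (A1 j) (range (X + k + 1)) j
      (fun M hM => (mem_filter.1 hM).2) (fun M hM => by
        have h7 := mem_range.1 (mem_filter.1 hM).1
        have h8 := (mem_Icc.1 hj).2
        exact mem_range.2 (by omega))).trans hL1
  have hcard : (A.card : ℤ) ≤ ∑ j ∈ Icc 1 k, ((rho q (c + j) : ℤ) * ((s / q + 1 : ℕ) : ℤ) ^ 3 +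
      (C ^ 2 * ((s : ℤ) + 1) ^ 2 + C * ((s : ℤ) + 1))) := by
    have h5 : A.card ≤ ∑ j ∈ Icc 1 k, ((A3 j).card + ((A2 j).card + (A1 j).card)) :=
      (card_le_card hsub).trans (card_biUnion_le.trans (Finset.sum_le_sum fun j _ =>
        (card_union_le _ _).trans (Nat.add_le_add_left (card_union_le _ _) _)))
    have h6 : (A.card : ℤ) ≤ ∑ j ∈ Icc 1 k, (((A3 j).card : ℤ) + (((A2 j).card : ℤ) +
        ((A1 j).card : ℤ))) := by exact_mod_cast h5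
    exact h6.trans (Finset.sum_le_sum fun j hj =>
      add_le_add (hc3 j hj) (add_le_add (hc2 j hj) (hc1 j hj)))
  -- real numbers
  have hr : (A.card : ℝ) ≤ (∑ j ∈ Icc 1 k, (rho q (c + j) : ℝ)) * ((s / q + 1 : ℕ) : ℝ) ^ 3 +
      k * ((Cn : ℝ) ^ 2 * ((s : ℝ) + 1) ^ 2 + Cn * ((s : ℝ) + 1)) := by
    have h5 : (A.card : ℝ) ≤ ∑ j ∈ Icc 1 k, ((rho q (c + j) : ℝ) * ((s / q + 1 : ℕ) : ℝ) ^ 3 +
      ((Cn : ℝ) ^ 2 * ((s : ℝ) + 1) ^ 2 + Cn * ((s : ℝ) + 1))) := by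
      rw [hCn] at hcard
      exact_mod_cast hcard
    rw [Finset.sum_add_distrib, ← Finset.sum_mul, Finset.sum_const, Nat.card_Icc,
      Nat.add_sub_cancel, nsmul_eq_mul] at h5
    exact h5
  have hq0 : (0 : ℝ) < q := by exact_mod_cast hq
  have hCn1 : (1 : ℝ) ≤ Cn := by
    have : (1 : ℤ) ≤ Cn := by rw [← hCn]; exact hC1
    exact_mod_cast this
  have hk0 : (0 : ℝ) ≤ k := Nat.cast_nonneg k
  have hsr : 1000 * (q : ℝ) * k * Cn ^ 2 + 100 * k + q + 1 ≤ s := by exact_mod_cast hsS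
  have hsX : (s : ℝ) ^ 3 ≤ X + k := by exact_mod_cast hs1
  have hqk : 0 ≤ 1000 * (q : ℝ) * k * Cn ^ 2 := by positivity
  have hsq : (q : ℝ) ≤ s := by linarith
  have hs0 : (1 : ℝ) ≤ s := by linarith
  have hdiv : ((s / q + 1 : ℕ) : ℝ) ≤ 2 * (s / q) := by
    push_cast
    have h5 : ((s / q : ℕ) : ℝ) ≤ (s : ℝ) / q := Nat.cast_div_le
    have h6 : 1 ≤ (s : ℝ) / q := (one_le_div hq0).2 hsq
    linarith
  have hcube : ((s / q + 1 : ℕ) : ℝ) ^ 3 ≤ 8 * (X + k) / q ^ 3 := by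
    calc ((s / q + 1 : ℕ) : ℝ) ^ 3 ≤ (2 * (s / q)) ^ 3 := pow_le_pow_left₀ (Nat.cast_nonneg _) hdiv 3
      _ = 8 * s ^ 3 / q ^ 3 := by ring
      _ ≤ 8 * (X + k) / q ^ 3 := by gcongr
  have hmain : (∑ j ∈ Icc 1 k, (rho q (c + j) : ℝ)) * ((s / q + 1 : ℕ) : ℝ) ^ 3 ≤
      8 * (X + k) / (100 * q) := by
    calc (∑ j ∈ Icc 1 k, (rho q (c + j) : ℝ)) * ((s / q + 1 : ℕ) : ℝ) ^ 3
        ≤ ((q : ℝ) ^ 2 / 100) * (8 * (X + k) / q ^ 3) :=
          mul_le_mul hrho hcube (by positivity) (by positivity)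
      _ = 8 * (X + k) / (100 * q) := by field_simp
  have hrest : (k : ℝ) * ((Cn : ℝ) ^ 2 * ((s : ℝ) + 1) ^ 2 + Cn * ((s : ℝ) + 1)) ≤
      8 * (k * Cn ^ 2 * s ^ 2) := by
    have h5 : (Cn : ℝ) ≤ Cn ^ 2 := by nlinarith
    have h6 : ((s : ℝ) + 1) ^ 2 ≤ 4 * s ^ 2 := by nlinarith
    have h7 : (s : ℝ) + 1 ≤ 4 * s ^ 2 := by nlinarith
    have h8 : (Cn : ℝ) ^ 2 * ((s : ℝ) + 1) ^ 2 ≤ Cn ^ 2 * (4 * s ^ 2) :=
      mul_le_mul_of_nonneg_left h6 (by positivity)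
    have h9 : (Cn : ℝ) * ((s : ℝ) + 1) ≤ Cn ^ 2 * (4 * s ^ 2) :=
      mul_le_mul h5 h7 (by positivity) (by positivity)
    nlinarith
  have hfin : 8 * (X + k : ℝ) + 100 * q * (8 * (k * Cn ^ 2 * s ^ 2)) ≤ 10 * X := by
    have h5 : 800 * ((q : ℝ) * k * Cn ^ 2) * s ^ 2 ≤ (s : ℝ) ^ 3 := by
      have h6 : 800 * ((q : ℝ) * k * Cn ^ 2) ≤ s := by linarith
      have h7 : 0 ≤ (s : ℝ) ^ 2 := by positivity
      nlinarith [mul_le_mul_of_nonneg_right h6 h7]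
    have h8 : 100 * (k : ℝ) ≤ (s : ℝ) ^ 3 := by
      have h9 : (s : ℝ) ≤ s ^ 3 := le_self_pow₀ hs0 (by norm_num)
      linarith
    nlinarith
  have hgoal : 8 * (X + k : ℝ) / (100 * q) + 8 * (k * Cn ^ 2 * s ^ 2) ≤ X / (10 * q) := by
    have e1 : 8 * (X + k : ℝ) / (100 * q) + 8 * (k * Cn ^ 2 * s ^ 2) =
        (8 * (X + k : ℝ) + 100 * q * (8 * (k * Cn ^ 2 * s ^ 2))) / (100 * q) := by
      rw [add_div, mul_div_cancel_left₀ _ (by positivity)]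
    have e2 : (X : ℝ) / (10 * q) = 10 * X / (100 * q) := by
      rw [div_eq_div_iff (by positivity) (by positivity)]
      ring
    rw [e1, e2]
    exact div_le_div_of_nonneg_right hfin (by positivity)
  linarith

end Pool.Agent.H52.TC
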