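import Pool.Agent.H52.TC.Stm4

/-! TC-WIN4 (helper48, from WIN2 of helper10 and helper62): most windows in the class `c` are empty,
at one scale -/

set_option autoImplicit false

namespace Pool.Agent.H52.TC

open Finset

namespace WIN4x

theorem cnt (g : ℕ → ℤ) (hg : ∀ m, 0 ≤ g m) (A B : Finset ℕ) (j : ℕ)
    (h1 : ∀ M ∈ A, 1 ≤ g (M + j)) (h2 : ∀ M ∈ A, M + j ∈ B) :
    (A.card : ℤ) ≤ ∑ m ∈ B, g m := by
  calc (A.card : ℤ) = ∑ M ∈ A, (1 : ℤ) := by simp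
    _ ≤ ∑ M ∈ A, g (M + j) := Finset.sum_le_sum h1
    _ = ∑ m ∈ A.image (fun M => M + j), g m :=
        (Finset.sum_image (fun a _ b _ h => Nat.add_right_cancel h)).symm
    _ ≤ ∑ m ∈ B, g m :=
        Finset.sum_le_sum_of_subset_of_nonneg (Finset.image_subset_iff.2 h2) (fun m _ _ => hg m)

theorem root (Y : ℕ) : ∃ s : ℕ, s ^ 3 ≤ Y ∧ Y < (s + 1) ^ 3 := by
  induction Y with
  | zero => exact ⟨0, by norm_num, by norm_num⟩
  | succ Y ih =>
    obtain ⟨s, h1, h2⟩ := ih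
    by_cases h : Y + 1 < (s + 1) ^ 3
    · exact ⟨s, by omega, h⟩
    · refine ⟨s + 1, by omega, ?_⟩
      have h3 : (s + 1) ^ 3 < (s + 1 + 1) ^ 3 := Nat.pow_lt_pow_left (Nat.lt_succ_self _) (by norm_num)
      omega

theorem memf {p : ℕ → Prop} (inst : DecidablePred p) (s : Finset ℕ) (a : ℕ)
    (h : a ∈ @Finset.filter ℕ p inst s) : a ∈ s ∧ p a := (@Finset.mem_filter ℕ p inst s a).1 h

theorem off_mono (e : ℕ → ℤ) {Y Z : ℕ} (h : Y ≤ Z) : off e Y ≤ off e Z := by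
  classical
  unfold off
  refine card_le_card ?_
  intro m hm
  have h1 := memf _ _ _ hm
  refine (@Finset.mem_filter ℕ _ _ _ _).2 ⟨?_, h1.2⟩
  have h2 := mem_range.1 h1.1
  exact mem_range.2 (by omega)

/-- the numbers (part 1) -/
theorem num1 (q k Cn s t D X R : ℝ) (hq : 1 ≤ q) (hk : 0 ≤ k) (hC : 1 ≤ Cn) (hs : 1 ≤ s)
    (hsb : 12 * (8 * k + 1200 * q * k * Cn ^ 2) ≤ s) (ht : 0 ≤ t) (hts : t ≤ s)
    (hD0 : 0 ≤ D) (hD1 : D ≤ s) (hDη : D * (32400 * q * (k + 1)) ≤ s)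
    (hX : s ^ 3 ≤ 12 * X) (hR : R ≤ 8 * (X + k) / (100 * q)) :
    R + k * (3 * D * (t + 1 + D) ^ 2 + (Cn ^ 2 * (t + 1 + D) ^ 2 + Cn * (t + 1 + D))) ≤
      X / (10 * q) := by
  have hq0 : 0 < q := by linarith
  have h1 : t + 1 + D ≤ 3 * s := by linarith
  have h0 : 0 ≤ t + 1 + D := by linarith
  have h2 : (t + 1 + D) ^ 2 ≤ 9 * s ^ 2 := by nlinarith
  have h3 : 3 * D * (t + 1 + D) ^ 2 ≤ 27 * (D * s ^ 2) := by
    have := mul_le_mul_of_nonneg_left h2 (by positivity : 0 ≤ 3 * D)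
    linarith
  have h4 : Cn ^ 2 * (t + 1 + D) ^ 2 ≤ 9 * (Cn ^ 2 * s ^ 2) := by
    have := mul_le_mul_of_nonneg_left h2 (by positivity : 0 ≤ Cn ^ 2)
    linarith
  have h5 : Cn * (t + 1 + D) ≤ 3 * (Cn ^ 2 * s ^ 2) := by
    have h6 : Cn ≤ Cn ^ 2 := by nlinarith
    have h7 : t + 1 + D ≤ 3 * s ^ 2 := by nlinarith
    calc Cn * (t + 1 + D) ≤ Cn ^ 2 * (3 * s ^ 2) := mul_le_mul h6 h7 h0 (by positivity)
      _ = _ := by ring
  have h8 : k * (3 * D * (t + 1 + D) ^ 2 + (Cn ^ 2 * (t + 1 + D) ^ 2 + Cn * (t + 1 + D))) ≤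
      k * (27 * (D * s ^ 2) + 12 * (Cn ^ 2 * s ^ 2)) :=
    mul_le_mul_of_nonneg_left (by linarith) hk
  have hs2 : 0 ≤ s ^ 2 := by positivity
  -- the term with `D`
  have h9 : 100 * q * (k * (27 * (D * s ^ 2))) ≤ X := by
    have h10 : D * (32400 * q * (k + 1)) * s ^ 2 ≤ s * s ^ 2 := mul_le_mul_of_nonneg_right hDη hs2
    have h11 : 100 * q * (k * (27 * (D * s ^ 2))) * 12 ≤ D * (32400 * q * (k + 1)) * s ^ 2 := by
      have : 0 ≤ D * q * s ^ 2 := by positivity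
      nlinarith
    have h12 : s * s ^ 2 = s ^ 3 := by ring
    linarith
  -- the other terms
  have h13 : 8 * k + 100 * q * (k * (12 * (Cn ^ 2 * s ^ 2))) ≤ X := by
    have h14 : (12 * (8 * k + 1200 * q * k * Cn ^ 2)) * s ^ 2 ≤ s * s ^ 2 :=
      mul_le_mul_of_nonneg_right hsb hs2
    have h15 : 8 * k ≤ 8 * k * s ^ 2 := by
      have : 1 ≤ s ^ 2 := by nlinarith
      nlinarith
    have h12 : s * s ^ 2 = s ^ 3 := by ring
    nlinarith
  have e1 : 8 * (X + k) / (100 * q) + k * (27 * (D * s ^ 2) + 12 * (Cn ^ 2 * s ^ 2)) =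
      (8 * (X + k) + 100 * q * (k * (27 * (D * s ^ 2))) +
        100 * q * (k * (12 * (Cn ^ 2 * s ^ 2)))) / (100 * q) := by
    field_simp
    ring
  have e2 : X / (10 * q) = 10 * X / (100 * q) := by
    rw [div_eq_div_iff (by positivity) (by positivity)]
    ring
  have h16 : 8 * (X + k) / (100 * q) + k * (27 * (D * s ^ 2) + 12 * (Cn ^ 2 * s ^ 2)) ≤
      X / (10 * q) := by
    rw [e1, e2]
    exact div_le_div_of_nonneg_right (by linarith) (by positivity)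
  linarith

end WIN4x

open WIN4x

open Classical in
theorem win4 : S_SUP3 → S_LAT3 → S_WIN4 := by
  intro hS hL e C₀ he₀ a1 a2 a3 q c k hq hrho
  obtain ⟨C, hC1, he⟩ : ∃ C : ℤ, 1 ≤ C ∧ ∀ n, 0 ≤ e n ∧ e n ≤ C :=
    ⟨max C₀ 1, le_max_right _ _, fun n => ⟨(he₀ n).1, (he₀ n).2.trans (le_max_left _ _)⟩⟩
  set d : ℕ → ℤ := fun m => min (e m) 1 with hd
  have hd1 : ∀ n, 0 ≤ d n ∧ d n ≤ 1 := fun n => ⟨le_min (he n).1 zero_le_one, min_le_right _ _⟩
  have hde : ∀ n, d n ≠ 0 ↔ e n ≠ 0 := by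
    intro n
    have h1 := (he n).1
    simp only [hd]
    constructor
    · intro h2 h3
      apply h2
      rw [h3]
      rfl
    · intro h2 h3
      rcases min_choice (e n) 1 with h4 | h4
      · rw [h4] at h3
        exact h2 h3
      · rw [h4] at h3
        exact absurd h3 one_ne_zero
  have hoff : ∀ Y, off d Y = off e Y := by
    intro Y
    unfold off
    congr 1
    refine Finset.filter_congr fun m _ => ?_
    rw [hde]
  obtain ⟨hn, -, -, hE2, -⟩ := hS e C he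
  obtain ⟨hn', g2, g3, -, -⟩ := hS d 1 hd1
  have h3 : ∀ m, G3 e m ≠ 0 → 1 ≤ G3 d m := by
    intro m hm
    obtain ⟨ij, hij, hne⟩ := Finset.exists_ne_zero_of_sum_ne_zero hm
    obtain ⟨i, j, hi, h1, h2⟩ := hE2 _ (left_ne_zero_of_mul hne)
    have h4 := g3 _ _ (g2 i j ((hde i).2 h1) ((hde j).2 h2)) ((hde _).2 (right_ne_zero_of_mul hne))
    rw [← hi, Finset.HasAntidiagonal.mem_antidiagonal.1 hij] at h4
    have h5 := (hn' m).2
    omega
  obtain ⟨Cn, hCn⟩ : ∃ Cn : ℕ, C = (Cn : ℤ) := ⟨C.toNat, (Int.toNat_of_nonneg (by omega)).symm⟩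
  have hq0 : (0 : ℝ) < q := by exact_mod_cast hq
  have hq1 : (1 : ℝ) ≤ q := by exact_mod_cast hq
  have hk0 : (0 : ℝ) ≤ k := Nat.cast_nonneg k
  have hCn1 : (1 : ℝ) ≤ Cn := by
    have : (1 : ℤ) ≤ Cn := by rw [← hCn]; exact hC1
    exact_mod_cast this
  set S0 : ℕ := 12 * (8 * k + 1200 * q * k * Cn ^ 2) + 12 * k + 30 * q + 12 with hS0
  refine ⟨1 / (32400 * q * (k + 1)), by positivity, S0, fun s hs hη X hX1 hX2 => ?_⟩
  have hs1 : 1 ≤ s := by omega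
  have hss : s ≤ s ^ 3 := Nat.le_self_pow (by norm_num) s
  have hkX : k ≤ X := by omega
  have hY : X + k ≤ s ^ 3 := by omega
  obtain ⟨t, ht1, ht2⟩ := root (X + k)
  have hts : t ≤ s := by
    by_contra hcon
    have : s ^ 3 < t ^ 3 := Nat.pow_lt_pow_left (by omega) (by norm_num)
    omega
  have htq : q ≤ t := by
    by_contra hcon
    have h5 : (t + 1) ^ 3 ≤ q ^ 3 := Nat.pow_le_pow_left (by omega) 3
    have h6 : (30 * q) ^ 3 ≤ s ^ 3 := Nat.pow_le_pow_left (by omega) 3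
    have h7 : (30 * q) ^ 3 = 27000 * q ^ 3 := by ring
    omega
  obtain ⟨hL3, -, -⟩ := hL d 1 hd1 t (X + k) ht2
  obtain ⟨-, hL2, hL1⟩ := hL e C he t (X + k) ht2
  rw [hoff] at hL3
  obtain ⟨D, hD⟩ : ∃ D : ℕ, D = off e (X + k) := ⟨_, rfl⟩
  rw [← hD] at hL3 hL2 hL1
  have hDs : D ≤ off e (s ^ 3) := by
    rw [hD]
    exact off_mono e hY
  suffices hA : ∀ A : Finset ℕ, (∀ M ∈ A, M ∈ range X ∧ M ≡ c [MOD q] ∧
      ∃ j ∈ Icc 1 k, FG e a1 a2 a3 (M + j) ≠ 0) → (A.card : ℝ) ≤ X / (10 * q) from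
    hA _ (fun M hM => memf _ _ _ hM)
  intro A hA
  -- the three sets
  let A3 : ℕ → Finset ℕ := fun j => (range X).filter fun M => M ≡ c [MOD q] ∧
    1 ≤ G3 d (M + j)
  let A2 : ℕ → Finset ℕ := fun j => (range X).filter fun M => 1 ≤ G2 e (M + j)
  let A1 : ℕ → Finset ℕ := fun j => (range X).filter fun M => 1 ≤ e (M + j)
  have hsub : A ⊆ (Icc 1 k).biUnion fun j => A3 j ∪ (A2 j ∪ A1 j) := by
    intro M hM
    obtain ⟨hMX, hMc, j, hj, hF⟩ := hA M hM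
    refine mem_biUnion.2 ⟨j, hj, ?_⟩
    by_cases e3 : G3 e (M + j) = 0
    · by_cases e2 : G2 e (M + j) = 0
      · have e1 : e (M + j) ≠ 0 := by
          intro e1
          apply hF
          unfold FG
          rw [e1, e2, e3]
          ring
        refine mem_union_right _ (mem_union_right _ (mem_filter.2 ⟨hMX, ?_⟩))
        have := (he (M + j)).1
        omega
      · refine mem_union_right _ (mem_union_left _ (mem_filter.2 ⟨hMX, ?_⟩))
        have := (hn (M + j)).1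
        omega
    · exact mem_union_left _ (mem_filter.2 ⟨hMX, hMc, h3 _ e3⟩)
  have hc3 : ∀ j ∈ Icc 1 k, ((A3 j).card : ℤ) ≤ (rho q (c + j) : ℤ) * ((t / q + 1 : ℕ) : ℤ) ^ 3 +
      3 * (D : ℤ) * ((t : ℤ) + 1 + D) ^ 2 := by
    intro j hj
    have h5 := cnt (G3 d) (fun m => (hn' m).2) (A3 j)
      ((range (X + k + 1)).filter (fun m => m ≡ c + j [MOD q])) j
      (fun M hM => (mem_filter.1 hM).2.2) (fun M hM => by
        have h6 := mem_filter.1 hM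
        have h7 := mem_range.1 h6.1
        have h8 := (mem_Icc.1 hj).2
        exact mem_filter.2 ⟨mem_range.2 (by omega), Nat.ModEq.add_right j h6.2.1⟩)
    have h6 := hL3 q (c + j) hq
    calc ((A3 j).card : ℤ) ≤ _ := h5
      _ ≤ _ := h6
      _ = (rho q (c + j) : ℤ) * ((t / q + 1 : ℕ) : ℤ) ^ 3 +
        3 * (D : ℤ) * ((t : ℤ) + 1 + D) ^ 2 := by ring
  have hc2 : ∀ j ∈ Icc 1 k, ((A2 j).card : ℤ) ≤ C ^ 2 * ((t : ℤ) + 1 + D) ^ 2 := by
    intro j hj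
    exact (cnt (G2 e) (fun m => (hn m).1) (A2 j) (range (X + k + 1)) j
      (fun M hM => (mem_filter.1 hM).2) (fun M hM => by
        have h7 := mem_range.1 (mem_filter.1 hM).1
        have h8 := (mem_Icc.1 hj).2
        exact mem_range.2 (by omega))).trans hL2
  have hc1 : ∀ j ∈ Icc 1 k, ((A1 j).card : ℤ) ≤ C * ((t : ℤ) + 1 + D) := by
    intro j hj
    exact (cnt e (fun m => (he m).1) (A1 j) (range (X + k + 1)) j
      (fun M hM => (mem_filter.1 hM).2) (fun M hM => by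
        have h7 := mem_range.1 (mem_filter.1 hM).1
        have h8 := (mem_Icc.1 hj).2
        exact mem_range.2 (by omega))).trans hL1
  have hcard : (A.card : ℤ) ≤ ∑ j ∈ Icc 1 k, ((rho q (c + j) : ℤ) * ((t / q + 1 : ℕ) : ℤ) ^ 3 +
      (3 * (D : ℤ) * ((t : ℤ) + 1 + D) ^ 2 +
      (C ^ 2 * ((t : ℤ) + 1 + D) ^ 2 + C * ((t : ℤ) + 1 + D)))) := by
    have h5 : A.card ≤ ∑ j ∈ Icc 1 k, ((A3 j).card + ((A2 j).card + (A1 j).card)) :=
      (card_le_card hsub).trans (card_biUnion_le.trans (Finset.sum_le_sum fun j _ =>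
        (card_union_le _ _).trans (Nat.add_le_add_left (card_union_le _ _) _)))
    have h6 : (A.card : ℤ) ≤ ∑ j ∈ Icc 1 k, (((A3 j).card : ℤ) + (((A2 j).card : ℤ) +
        ((A1 j).card : ℤ))) := by exact_mod_cast h5
    refine h6.trans (Finset.sum_le_sum fun j hj => ?_)
    have h7 := hc3 j hj
    have h8 := hc2 j hj
    have h9 := hc1 j hj
    linarith
  -- real numbers
  have hr : (A.card : ℝ) ≤ (∑ j ∈ Icc 1 k, (rho q (c + j) : ℝ)) * ((t / q + 1 : ℕ) : ℝ) ^ 3 +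
      k * (3 * (D : ℝ) * ((t : ℝ) + 1 + D) ^ 2 +
      ((Cn : ℝ) ^ 2 * ((t : ℝ) + 1 + D) ^ 2 + Cn * ((t : ℝ) + 1 + D))) := by
    have h5 : (A.card : ℝ) ≤ ∑ j ∈ Icc 1 k, ((rho q (c + j) : ℝ) * ((t / q + 1 : ℕ) : ℝ) ^ 3 +
      (3 * (D : ℝ) * ((t : ℝ) + 1 + D) ^ 2 +
      ((Cn : ℝ) ^ 2 * ((t : ℝ) + 1 + D) ^ 2 + Cn * ((t : ℝ) + 1 + D)))) := by
      rw [hCn] at hcard
      exact_mod_cast hcard
    rw [Finset.sum_add_distrib, ← Finset.sum_mul, Finset.sum_const, Nat.card_Icc,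
      Nat.add_sub_cancel, nsmul_eq_mul] at h5
    exact h5
  have hsX : (t : ℝ) ^ 3 ≤ X + k := by exact_mod_cast ht1
  have htq' : (q : ℝ) ≤ t := by exact_mod_cast htq
  have hdiv : ((t / q + 1 : ℕ) : ℝ) ≤ 2 * (t / q) := by
    push_cast
    have h5 : ((t / q : ℕ) : ℝ) ≤ (t : ℝ) / q := Nat.cast_div_le
    have h6 : 1 ≤ (t : ℝ) / q := (one_le_div hq0).2 htq'
    linarith
  have hcube : ((t / q + 1 : ℕ) : ℝ) ^ 3 ≤ 8 * (X + k) / q ^ 3 := by
    calc ((t / q + 1 : ℕ) : ℝ) ^ 3 ≤ (2 * (t / q)) ^ 3 := pow_le_pow_left₀ (Nat.cast_nonneg _) hdiv 3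
      _ = 8 * t ^ 3 / q ^ 3 := by ring
      _ ≤ 8 * (X + k) / q ^ 3 := by gcongr
  have hmain : (∑ j ∈ Icc 1 k, (rho q (c + j) : ℝ)) * ((t / q + 1 : ℕ) : ℝ) ^ 3 ≤
      8 * (X + k) / (100 * q) := by
    calc (∑ j ∈ Icc 1 k, (rho q (c + j) : ℝ)) * ((t / q + 1 : ℕ) : ℝ) ^ 3
        ≤ ((q : ℝ) ^ 2 / 100) * (8 * (X + k) / q ^ 3) :=
          mul_le_mul hrho hcube (by positivity) (by positivity)
      _ = 8 * (X + k) / (100 * q) := by field_simp
  have hDr : (D : ℝ) ≤ 1 / (32400 * q * (k + 1)) * s := by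
    have : (D : ℝ) ≤ off e (s ^ 3) := by exact_mod_cast hDs
    linarith
  have hpos : (0 : ℝ) < 32400 * q * (k + 1) := by positivity
  have hDη : (D : ℝ) * (32400 * q * (k + 1)) ≤ s := by
    have := mul_le_mul_of_nonneg_right hDr hpos.le
    have e1 : 1 / (32400 * (q : ℝ) * (k + 1)) * s * (32400 * q * (k + 1)) = s := by
      field_simp
    rwa [e1] at this
  have hbig : (1 : ℝ) ≤ 32400 * q * (k + 1) := by nlinarith
  have hD0 : (0 : ℝ) ≤ D := Nat.cast_nonneg D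
  have hDs1 : (D : ℝ) ≤ s := by nlinarith
  have hsS : 12 * (8 * (k : ℝ) + 1200 * q * k * Cn ^ 2) ≤ s := by
    have h5 : 12 * (8 * k + 1200 * q * k * Cn ^ 2) ≤ s := by omega
    exact_mod_cast h5
  exact hr.trans (num1 q k Cn s t D X _ hq1 hk0 hCn1 (by exact_mod_cast hs1) hsS
    (Nat.cast_nonneg t) (by exact_mod_cast hts) hD0 hDs1 hDη (by exact_mod_cast hX1) hmain)

end Pool.Agent.H52.TC
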