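import Pool.Agent.H52.TC.ANA2
import Pool.Agent.H52.TC.ANA3
import Pool.Agent.H52.TC.CNT
import Pool.Agent.H52.TC.CNT4
import Pool.Agent.H52.TC.COEF
import Pool.Agent.H52.TC.CRT
import Pool.Agent.H52.TC.DIV
import Pool.Agent.H52.TC.EX
import Pool.Agent.H52.TC.FIN2
import Pool.Agent.H52.TC.FIN4
import Pool.Agent.H52.TC.IRR
import Pool.Agent.H52.TC.LAT
import Pool.Agent.H52.TC.LAT3
import Pool.Agent.H52.TC.LIO
import Pool.Agent.H52.TC.LIO3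
import Pool.Agent.H52.TC.LOC
import Pool.Agent.H52.TC.POLY2
import Pool.Agent.H52.TC.POSA
import Pool.Agent.H52.TC.POSA3
import Pool.Agent.H52.TC.POSB
import Pool.Agent.H52.TC.POSB4
import Pool.Agent.H52.TC.SUP2
import Pool.Agent.H52.TC.SUP3
import Pool.Agent.H52.TC.THK
import Pool.Agent.H52.TC.UP2
import Pool.Agent.H52.TC.UP4
import Pool.Agent.H52.TC.WIN2
import Pool.Agent.H52.TC.WIN4

set_option autoImplicit false

namespace Pool.Agent.H52.TC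

open Polynomial

theorem exM : S_EX := ex loc crt dv

theorem final4 : S_FIN4 :=
  fin4 sup3 ana3 lio3 (posa3 sup3) posb4 (cnt4 sup3) (up4 sup3 lat3) (win4 sup3 lat3) exM

theorem coefM (b : ℕ) (hb : 2 ≤ b) (d : ℕ → ℤ) (C : ℤ)
    (hd : ∀ m, 0 ≤ d m ∧ d m ≤ C) (hx : Irrational (∑' m : ℕ, (d m : ℝ) / (b : ℝ) ^ m))
    (P : ℤ[X]) (hP : P ≠ 0) (hdeg : P.natDegree ≤ 3)
    (h0 : aeval (∑' m : ℕ, (d m : ℝ) / (b : ℝ) ^ m) P = 0) (H : ℕ) :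
    ∃ c : ℝ, 0 < c ∧ ∃ N0 : ℕ, ∀ N : ℕ, N0 ≤ N →
      c * (N : ℝ) ^ ((1 : ℝ) / 3) ≤ offH H d N :=
  coef_all final4 thk b hb d C hd hx P hP hdeg h0 H

end Pool.Agent.H52.TC
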