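import Pool.Agent.H52.TC.Stm5

/-! TC-POSAQ (helper71), adapted from POSA3.lean: positivity of the tails after a sum of four places. -/

set_option autoImplicit false

namespace Pool.Agent.H52.TC

open Finset

namespace PosaAuxQ

theorem hsq (r : ℝ) : HasSum (fun j : ℕ => (r + j) ^ 2 / 2 ^ (j + 1)) (r ^ 2 + 2 * r + 3) := by
  have hn : ‖(1 / 2 : ℝ)‖ < 1 := by rw [Real.norm_eq_abs, abs_of_pos] <;> norm_num
  have h1 := (hasSum_geometric_of_norm_lt_one hn).mul_left ((r ^ 2 - 2) / 2)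
  have h2 := (hasSum_coe_mul_geometric_of_norm_lt_one hn).mul_left ((2 * r - 3) / 2)
  have h3 := hasSum_choose_mul_geometric_of_norm_lt_one 2 hn
  have h4 := (h1.add h2).add h3
  have e : (r ^ 2 - 2) / 2 * (1 - 1 / 2 : ℝ)⁻¹ + (2 * r - 3) / 2 * (1 / 2 / (1 - 1 / 2) ^ 2) +
      1 / (1 - 1 / 2 : ℝ) ^ (2 + 1) = r ^ 2 + 2 * r + 3 := by norm_num; ring
  rw [e] at h4
  have e2 : (fun j : ℕ => (r + j) ^ 2 / 2 ^ (j + 1)) = fun n : ℕ =>
      (r ^ 2 - 2) / 2 * (1 / 2 : ℝ) ^ n + (2 * r - 3) / 2 * ((n : ℝ) * (1 / 2) ^ n) +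
        ((n + 2).choose 2 : ℝ) * (1 / 2) ^ n := by
    ext j
    rw [Nat.cast_choose_two, pow_succ, one_div, inv_pow]
    push_cast
    field_simp
    ring
  rw [e2]
  exact h4

end PosaAuxQ

open PosaAuxQ

theorem posaQ : S_SUPQ → S_POSAQ := by
  intro hsup b hb ε C hε a1 a2 a3 a4 ha4 T hT
  obtain ⟨hnn, -, -, hE4, -, -, hbd⟩ := hsup ε C hε
  have hC : 0 ≤ C := (hε 0).1.trans (hε 0).2
  have hb0 : (0 : ℝ) < b := by exact_mod_cast (by omega : 0 < b)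
  have hb2 : (2 : ℝ) ≤ b := by exact_mod_cast hb
  set A : ℤ := |a3| * C ^ 3 + |a2| * C ^ 2 + |a1| * C with hA
  have hA0 : 0 ≤ A := by positivity
  have hF : ∀ m : ℕ, -(A * ((m : ℤ) + 1) ^ 2) ≤ FQ ε a1 a2 a3 a4 m := by
    intro m
    unfold FQ
    obtain ⟨n2, n3, n4⟩ := hnn m
    have n1 := (hε m).1
    have b1 := (hε m).2
    obtain ⟨b2, b3, -⟩ := hbd m
    have hm1 : (1 : ℤ) ≤ (m : ℤ) + 1 := by omega
    have hm2 : (m : ℤ) + 1 ≤ ((m : ℤ) + 1) ^ 2 := by nlinarith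
    have hm3 : (1 : ℤ) ≤ ((m : ℤ) + 1) ^ 2 := by nlinarith
    have g4 : 0 ≤ a4 * G4 ε m := mul_nonneg (by omega) n4
    have g3 : -(|a3| * C ^ 3 * ((m : ℤ) + 1) ^ 2) ≤ a3 * G3 ε m := by
      have h1 : -(|a3| * G3 ε m) ≤ a3 * G3 ε m := by
        have := neg_abs_le a3
        nlinarith
      have h2 : |a3| * G3 ε m ≤ |a3| * (C ^ 3 * ((m : ℤ) + 1) ^ 2) :=
        mul_le_mul_of_nonneg_left b3 (abs_nonneg _)
      linarith
    have g2 : -(|a2| * C ^ 2 * ((m : ℤ) + 1) ^ 2) ≤ a2 * G2 ε m := by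
      have h1 : -(|a2| * G2 ε m) ≤ a2 * G2 ε m := by
        have := neg_abs_le a2
        nlinarith
      have h2 : |a2| * G2 ε m ≤ |a2| * (C ^ 2 * ((m : ℤ) + 1)) :=
        mul_le_mul_of_nonneg_left b2 (abs_nonneg _)
      have h3 : |a2| * C ^ 2 * ((m : ℤ) + 1) ≤ |a2| * C ^ 2 * ((m : ℤ) + 1) ^ 2 :=
        mul_le_mul_of_nonneg_left hm2 (by positivity)
      linarith
    have g1 : -(|a1| * C * ((m : ℤ) + 1) ^ 2) ≤ a1 * ε m := by
      have h1 : -(|a1| * ε m) ≤ a1 * ε m := by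
        have := neg_abs_le a1
        nlinarith
      have h2 : |a1| * ε m ≤ |a1| * C := mul_le_mul_of_nonneg_left b1 (abs_nonneg _)
      have h3 : |a1| * C * 1 ≤ |a1| * C * ((m : ℤ) + 1) ^ 2 :=
        mul_le_mul_of_nonneg_left hm3 (by positivity)
      linarith
    rw [hA]
    linarith
  refine ⟨A.natAbs + 4, ?_⟩
  intro R a R' hR ha hgap hK M hRM hMa
  set L := Nat.log 2 (R' + 2) with hL
  have hL1 : 1 ≤ L := by
    rw [hL]
    exact Nat.log_pos (by norm_num) (by omega)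
  have hK1 : (A.natAbs + 4) * (L + 1) = 2 * (L + 1) + (A.natAbs + 2) * (L + 1) := by ring
  have hK2 : (A.natAbs + 2) * 2 ≤ (A.natAbs + 2) * (L + 1) := Nat.mul_le_mul_left _ (by omega)
  have hRR : R + a < R' := by omega
  obtain ⟨-, hsum⟩ := hT
  have hs := hsum M
  -- the places
  obtain ⟨N, hN⟩ : ∃ N, R' = M + 1 + N := ⟨R' - (M + 1), by omega⟩
  obtain ⟨i0, hi0⟩ : ∃ i0, R + a = M + 1 + i0 := ⟨R + a - (M + 1), by omega⟩
  have hi0N : i0 < N := by omega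
  have h1 := (hasSum_nat_add_iff' N).2 hs
  -- the tail
  have h2 : HasSum (fun j : ℕ => -((A : ℝ) / (b : ℝ) ^ N) * (((R' : ℝ) + 1 + j) ^ 2 / 2 ^ (j + 1)))
      (-((A : ℝ) / (b : ℝ) ^ N) * (((R' : ℝ) + 1) ^ 2 + 2 * ((R' : ℝ) + 1) + 3)) :=
    (hsq ((R' : ℝ) + 1)).mul_left _
  have hAr : (0 : ℝ) ≤ A := by exact_mod_cast hA0
  have h3 : -((A : ℝ) / (b : ℝ) ^ N) * (((R' : ℝ) + 1) ^ 2 + 2 * ((R' : ℝ) + 1) + 3) ≤
      (T M : ℝ) - ∑ i ∈ range N, (FQ ε a1 a2 a3 a4 (M + 1 + i) : ℝ) / (b : ℝ) ^ (i + 1) := by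
    refine hasSum_le (fun j => ?_) h2 h1
    have e1 : M + 1 + (j + N) = R' + j := by omega
    rw [e1]
    have e2 : (b : ℝ) ^ (j + N + 1) = (b : ℝ) ^ N * (b : ℝ) ^ (j + 1) := by rw [← pow_add]; congr 1; ring
    rw [e2]
    have g1 : -((A : ℝ) * ((R' : ℝ) + 1 + j) ^ 2) ≤ (FQ ε a1 a2 a3 a4 (R' + j) : ℝ) := by
      have := hF (R' + j)
      have h4 : ((-(A * (((R' + j : ℕ) : ℤ) + 1) ^ 2) : ℤ) : ℝ) ≤ (FQ ε a1 a2 a3 a4 (R' + j) : ℝ) := by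
        exact_mod_cast this
      push_cast at h4
      have e3 : ((R' : ℝ) + 1 + j) = (R' : ℝ) + j + 1 := by ring
      rw [e3]
      linarith
    have g2 : (2 : ℝ) ^ (j + 1) ≤ (b : ℝ) ^ (j + 1) := pow_le_pow_left₀ (by norm_num) hb2 _
    have g3 : (0 : ℝ) ≤ (A : ℝ) * ((R' : ℝ) + 1 + j) ^ 2 := by positivity
    calc -((A : ℝ) / (b : ℝ) ^ N) * (((R' : ℝ) + 1 + j) ^ 2 / 2 ^ (j + 1))
        = -(((A : ℝ) * ((R' : ℝ) + 1 + j) ^ 2) / ((b : ℝ) ^ N * 2 ^ (j + 1))) := by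
          field_simp
      _ ≤ -(((A : ℝ) * ((R' : ℝ) + 1 + j) ^ 2) / ((b : ℝ) ^ N * (b : ℝ) ^ (j + 1))) := by
          apply neg_le_neg
          refine div_le_div_of_nonneg_left g3 (by positivity) ?_
          exact mul_le_mul_of_nonneg_left g2 (by positivity)
      _ = (-((A : ℝ) * ((R' : ℝ) + 1 + j) ^ 2)) / ((b : ℝ) ^ N * (b : ℝ) ^ (j + 1)) := by rw [neg_div]
      _ ≤ _ := div_le_div_of_nonneg_right g1 (by positivity)
  -- the head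
  have h4 : 1 / (b : ℝ) ^ (i0 + 1) ≤
      ∑ i ∈ range N, (FQ ε a1 a2 a3 a4 (M + 1 + i) : ℝ) / (b : ℝ) ^ (i + 1) := by
    have hpos : ∀ i ∈ range N, 0 ≤ (FQ ε a1 a2 a3 a4 (M + 1 + i) : ℝ) / (b : ℝ) ^ (i + 1) := by
      intro i hi
      rw [Finset.mem_range] at hi
      obtain ⟨z1, z2, z3⟩ := hgap (M + 1 + i) (by omega) (by omega)
      have : 0 ≤ FQ ε a1 a2 a3 a4 (M + 1 + i) := by
        unfold FQ
        rw [z1, z2, z3]
        have := mul_nonneg (by omega : 0 ≤ a4) (hnn (M + 1 + i)).2.2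
        linarith
      have h5 : (0 : ℝ) ≤ (FQ ε a1 a2 a3 a4 (M + 1 + i) : ℝ) := by exact_mod_cast this
      positivity
    refine le_trans ?_ (Finset.single_le_sum hpos (Finset.mem_range.2 hi0N))
    refine div_le_div_of_nonneg_right ?_ (by positivity)
    have h5 : 1 ≤ FQ ε a1 a2 a3 a4 (M + 1 + i0) := by
      rw [← hi0]
      have h6 := hE4 R a hR ha
      have h7 := (hnn (R + a)).2.2
      have h8 : 1 ≤ G4 ε (R + a) := by omega
      by_cases ha0 : a = 0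
      · omega
      · obtain ⟨z1, z2, z3⟩ := hgap (R + a) (by omega) hRR
        unfold FQ
        rw [z1, z2, z3]
        nlinarith
    exact_mod_cast h5
  -- comparison
  have h5 : (A : ℝ) / (b : ℝ) ^ N * (((R' : ℝ) + 1) ^ 2 + 2 * ((R' : ℝ) + 1) + 3) <
      1 / (b : ℝ) ^ (i0 + 1) := by
    have e1 : ∃ d, N = (i0 + 1) + d ∧ 2 * (L + 1) + (A.natAbs + 2) ≤ d :=
      ⟨N - (i0 + 1), by omega, by omega⟩
    obtain ⟨d, hd, hdL⟩ := e1
    have g1 : R' + 2 < 2 ^ (L + 1) := Nat.lt_pow_succ_log_self (by norm_num) _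
    have g2 : A.natAbs + 1 < 2 ^ (A.natAbs + 1) := Nat.lt_two_pow_self
    have g3 : ((R' : ℝ) + 2) ≤ 2 ^ (L + 1) := by exact_mod_cast g1.le
    have g3' : ((R' : ℝ) + 2) ^ 2 ≤ 2 ^ (2 * (L + 1)) := by
      have : ((R' : ℝ) + 2) ^ 2 ≤ ((2 : ℝ) ^ (L + 1)) ^ 2 := pow_le_pow_left₀ (by positivity) g3 2
      rw [← pow_mul, mul_comm (L + 1) 2] at this
      exact this
    have g4 : 2 * (A : ℝ) < 2 ^ (A.natAbs + 2) := by
      have h6 : (A : ℝ) = (A.natAbs : ℝ) := by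
        rw [Nat.cast_natAbs, abs_of_nonneg hA0]
      rw [h6]
      have : 2 * A.natAbs < 2 ^ (A.natAbs + 2) := by
        have e : 2 ^ (A.natAbs + 2) = 2 * 2 ^ (A.natAbs + 1) := by ring
        omega
      exact_mod_cast this
    have g5' : ((R' : ℝ) + 1) ^ 2 + 2 * ((R' : ℝ) + 1) + 3 ≤ 2 * ((R' : ℝ) + 2) ^ 2 := by
      have : (0 : ℝ) ≤ (R' : ℝ) := Nat.cast_nonneg _
      nlinarith
    have g5 : (A : ℝ) * (((R' : ℝ) + 1) ^ 2 + 2 * ((R' : ℝ) + 1) + 3) < (b : ℝ) ^ d := by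
      calc (A : ℝ) * (((R' : ℝ) + 1) ^ 2 + 2 * ((R' : ℝ) + 1) + 3)
          ≤ (A : ℝ) * (2 * ((R' : ℝ) + 2) ^ 2) := mul_le_mul_of_nonneg_left g5' hAr
        _ = 2 * (A : ℝ) * ((R' : ℝ) + 2) ^ 2 := by ring
        _ < 2 ^ (A.natAbs + 2) * ((R' : ℝ) + 2) ^ 2 := mul_lt_mul_of_pos_right g4 (by positivity)
        _ ≤ 2 ^ (A.natAbs + 2) * 2 ^ (2 * (L + 1)) := mul_le_mul_of_nonneg_left g3' (by positivity)
        _ = 2 ^ (2 * (L + 1) + (A.natAbs + 2)) := by rw [← pow_add]; congr 1; ring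
        _ ≤ 2 ^ d := pow_le_pow_right₀ (by norm_num) hdL
        _ ≤ (b : ℝ) ^ d := pow_le_pow_left₀ (by norm_num) hb2 d
    rw [hd, pow_add, div_mul_eq_mul_div, div_lt_div_iff₀ (by positivity) (by positivity)]
    have g6 : (0 : ℝ) < (b : ℝ) ^ (i0 + 1) := by positivity
    nlinarith
  have h6 : (0 : ℝ) < (T M : ℝ) := by linarith
  have h7 : 0 < T M := by exact_mod_cast h6
  omega

end Pool.Agent.H52.TC
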