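import Pool.Agent.H52.TC.Stm5
import Pool.Agent.H52.TC.POSB

set_option autoImplicit false

/-! # TC-POSBQ (helper33): positive proportion in a residue class, fourth powers (after POSB.lean) -/

namespace Pool.Agent.H52.TC

open Finset

namespace POSBQx

open POSBx

open Classical in
theorem key (S S2 A good : ℕ → Prop) (K K1 a0 : ℕ)
    (h1 : ∀ m, S2 m → S m) (h2 : ∀ m, A m → S m)
    (hS2 : ∀ m, S m → ¬ S2 m → ∃ t, 1 ≤ t ∧ t ≤ a0 ∧ S2 (m + t))
    (hA : ∀ m : ℕ, ∃ m' : ℕ, m < m' ∧ m' ≤ 4 * m + K ∧ A m')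
    (hgood : ∀ R a R' : ℕ, S2 R → A a → (∀ m, R < m → m < R' → ¬ S m) →
      R + a + K1 * (Nat.log 2 (R' + 2) + 1) ≤ R' → ∀ M, R ≤ M → M < R + a → good M)
    (q c X : ℕ) (hq : 1 ≤ q) :
    ∀ R', R' ≤ X → S R' →
      R' ≤ 4 * q * ((range R').filter fun M => M ≡ c [MOD q] ∧ good M).card +
      (((range R').filter S).card + 1) * (K1 * (Nat.log 2 (X + 2) + 1) + K + 4 * q + a0) := by
  intro R'
  induction R' using Nat.strong_induction_on with
  | _ R' ih =>
  intro hX hS
  set B := K1 * (Nat.log 2 (X + 2) + 1) + K + 4 * q + a0 with hB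
  by_cases hne : ∃ R, R < R' ∧ S R ∧ ∀ m, R < m → m < R' → ¬ S m
  · obtain ⟨R, hlt, hSR, hgap⟩ := hne
    have hih := ih R hlt (by omega) hSR
    have hcard : ((range R').filter S).card = ((range R).filter S).card + 1 := by
      have : (range R').filter S = insert R ((range R).filter S) := by
        ext m
        simp only [Finset.mem_filter, Finset.mem_range, Finset.mem_insert]
        constructor
        · rintro ⟨h3, h4⟩
          rcases lt_trichotomy m R with h5 | h5 | h5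
          · exact Or.inr ⟨h5, h4⟩
          · exact Or.inl h5
          · exact absurd h4 (hgap m h5 h3)
        · rintro (h3 | ⟨h3, h4⟩)
          · rw [h3]
            exact ⟨hlt, hSR⟩
          · exact ⟨by omega, h4⟩
      rw [this, Finset.card_insert_of_notMem (by simp)]
    set G := ((range R).filter fun M => M ≡ c [MOD q] ∧ good M).card with hG
    set G' := ((range R').filter fun M => M ≡ c [MOD q] ∧ good M).card with hG'
    set N := ((range R).filter S).card with hN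
    have hmono : G ≤ G' := by
      apply Finset.card_le_card
      intro m hm
      rw [Finset.mem_filter, Finset.mem_range] at hm ⊢
      exact ⟨by omega, hm.2⟩
    have hqG : 4 * q * G ≤ 4 * q * G' := Nat.mul_le_mul_left _ hmono
    have hmain : R' + 4 * q * G ≤ R + 4 * q * G' + B := by
      by_cases hs : S2 R
      · have hl : K1 * (Nat.log 2 (R' + 2) + 1) ≤ K1 * (Nat.log 2 (X + 2) + 1) :=
          Nat.mul_le_mul_left _ (Nat.succ_le_succ (Nat.log_mono_right (by omega)))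
        by_cases hD : R' < R + K1 * (Nat.log 2 (R' + 2) + 1) + K
        · omega
        · obtain ⟨a, ha1, ha2, ha3⟩ := hA ((R' - R - K1 * (Nat.log 2 (R' + 2) + 1) - K) / 4)
          have hRa : R + a + K1 * (Nat.log 2 (R' + 2) + 1) ≤ R' := by omega
          have hg := hgood R a R' hs ha3 hgap hRa
          have hcnt := count_ge q c R a hq
          set n := ((Finset.Ico R (R + a)).filter (fun M => M ≡ c [MOD q])).card with hn
          have hGn : G + n ≤ G' := by
            have hdisj : Disjoint ((range R).filter fun M => M ≡ c [MOD q] ∧ good M)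
                ((Finset.Ico R (R + a)).filter (fun M => M ≡ c [MOD q])) := by
              rw [Finset.disjoint_left]
              intro m hm1 hm2
              rw [Finset.mem_filter, Finset.mem_range] at hm1
              rw [Finset.mem_filter, Finset.mem_Ico] at hm2
              omega
            rw [hG, hn, hG', ← Finset.card_union_of_disjoint hdisj]
            apply Finset.card_le_card
            intro m hm
            rw [Finset.mem_union, Finset.mem_filter, Finset.mem_filter, Finset.mem_range,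
              Finset.mem_Ico] at hm
            rw [Finset.mem_filter, Finset.mem_range]
            rcases hm with ⟨hm1, hm2⟩ | ⟨⟨hm1, hm2⟩, hm3⟩
            · exact ⟨by omega, hm2⟩
            · exact ⟨by omega, hm3, hg m hm1 hm2⟩
          have h5 : 4 * q * G + 4 * (q * n) ≤ 4 * q * G' := by
            have := Nat.mul_le_mul_left (4 * q) hGn
            rw [mul_add] at this
            rw [← mul_assoc 4 q n]
            exact this
          have h6 : q * (n + 1) = q * n + q := by ring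
          rw [h6] at hcnt
          omega
      · obtain ⟨t, ht1, ht2, ht3⟩ := hS2 R hSR hs
        have h3 := h1 _ ht3
        have h4 : R' ≤ R + t := by
          by_contra h
          exact hgap (R + t) (by omega) (by omega) h3
        omega
    have h7 : (((range R').filter S).card + 1) * B = (N + 1) * B + B := by
      rw [hcard]
      ring
    rw [h7]
    omega
  · -- no element below
    have hnone : ∀ m, m < R' → ¬ S m := by
      by_contra hcon
      push Not at hcon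
      obtain ⟨m, hm1, hm2⟩ := hcon
      have hne2 : ((range R').filter S).Nonempty :=
        ⟨m, by rw [Finset.mem_filter, Finset.mem_range]; exact ⟨hm1, hm2⟩⟩
      apply hne
      have hmem := Finset.max'_mem _ hne2
      rw [Finset.mem_filter, Finset.mem_range] at hmem
      refine ⟨_, hmem.1, hmem.2, fun k hk1 hk2 hk3 => ?_⟩
      have := Finset.le_max' ((range R').filter S) k
        (by rw [Finset.mem_filter, Finset.mem_range]; exact ⟨hk2, hk3⟩)
      omega
    obtain ⟨a, ha1, ha2, ha3⟩ := hA 0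
    have h3 : R' ≤ K := by
      by_contra h
      exact hnone a (by omega) (h2 _ ha3)
    have h4 : 1 * B ≤ (((range R').filter S).card + 1) * B :=
      Nat.mul_le_mul_right _ (by omega)
    omega

theorem fourth_root (X : ℕ) : ∃ s : ℕ, s ^ 4 ≤ X ∧ X < (s + 1) ^ 4 := by
  induction X with
  | zero => exact ⟨0, by norm_num, by norm_num⟩
  | succ X ih =>
    obtain ⟨s, h1, h2⟩ := ih
    rcases Nat.lt_or_ge (X + 1) ((s + 1) ^ 4) with h | h
    · exact ⟨s, by omega, h⟩
    · refine ⟨s + 1, h, ?_⟩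
      have : (s + 1) ^ 4 < (s + 1 + 1) ^ 4 := Nat.pow_lt_pow_left (by omega) (by norm_num)
      omega

theorem log_bound (K1 c : ℕ) : ∃ s0 : ℕ, ∀ s : ℕ, s0 ≤ s → ∀ X : ℕ, X < (s + 1) ^ 4 →
    (8 : ℝ) * ((K1 * (Nat.log 2 (X + 2) + 1) + c : ℕ) : ℝ) ≤ 1 / 2 * s := by
  have hε : (0 : ℝ) < 1 / (8 * (64 * K1 + 1)) := by positivity
  obtain ⟨x0, hx0⟩ := Filter.eventually_atTop.1 (Real.isLittleO_log_id_atTop.bound hε)
  refine ⟨⌈x0⌉₊ + 32 * (K1 + c) + 2, fun s hs X hX => ?_⟩
  have hs1 : x0 ≤ (s : ℝ) + 2 := by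
    have h1 : x0 ≤ (⌈x0⌉₊ : ℝ) := Nat.le_ceil _
    have h2 : ((⌈x0⌉₊ : ℕ) : ℝ) ≤ s := by exact_mod_cast (by omega : ⌈x0⌉₊ ≤ s)
    linarith
  have h3 := hx0 ((s : ℝ) + 2) hs1
  have hlog : 0 ≤ Real.log ((s : ℝ) + 2) := Real.log_nonneg (by linarith [Nat.cast_nonneg (α := ℝ) s])
  simp only [id_eq, Real.norm_eq_abs] at h3
  rw [abs_of_nonneg hlog, abs_of_nonneg (by positivity)] at h3
  have h4 : ((Nat.log 2 (X + 2) : ℕ) : ℝ) ≤ 8 * Real.log ((s : ℝ) + 2) := by
    have h5 : (2 : ℝ) ^ (Nat.log 2 (X + 2)) ≤ ((s : ℝ) + 2) ^ 4 := by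
      have h6 : 2 ^ (Nat.log 2 (X + 2)) ≤ X + 2 := Nat.pow_log_le_self 2 (by omega)
      have h7 : X + 2 ≤ (s + 2) ^ 4 := by
        have : (s + 1) ^ 4 < (s + 1 + 1) ^ 4 := Nat.pow_lt_pow_left (by omega) (by norm_num)
        have e : (s + 1 + 1) ^ 4 = (s + 2) ^ 4 := rfl
        omega
      exact_mod_cast h6.trans h7
    have h8 := Real.log_le_log (by positivity) h5
    rw [Real.log_pow, Real.log_pow] at h8
    have h9 : (1 / 2 : ℝ) < Real.log 2 := by linarith [Real.log_two_gt_d9]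
    have h10 : (0 : ℝ) ≤ (Nat.log 2 (X + 2) : ℕ) := Nat.cast_nonneg _
    push_cast at h8
    nlinarith
  have hs2 : ((32 * (K1 + c) + 2 : ℕ) : ℝ) ≤ s := by exact_mod_cast (by omega : 32 * (K1 + c) + 2 ≤ s)
  push_cast at hs2 ⊢
  have hK : (0 : ℝ) ≤ K1 := Nat.cast_nonneg _
  have hc : (0 : ℝ) ≤ c := Nat.cast_nonneg _
  have h11 : 64 * (K1 : ℝ) * Real.log ((s : ℝ) + 2) ≤ ((s : ℝ) + 2) / 8 := by
    calc 64 * (K1 : ℝ) * Real.log ((s : ℝ) + 2)
        ≤ 64 * (K1 : ℝ) * (1 / (8 * (64 * K1 + 1)) * ((s : ℝ) + 2)) :=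
          mul_le_mul_of_nonneg_left h3 (by positivity)
      _ = (64 * (K1 : ℝ) / (64 * K1 + 1)) * (((s : ℝ) + 2) / 8) := by
          field_simp
      _ ≤ 1 * (((s : ℝ) + 2) / 8) := by
          apply mul_le_mul_of_nonneg_right _ (by positivity)
          rw [div_le_one (by positivity)]
          linarith
      _ = _ := one_mul _
  have h12 : (K1 : ℝ) * (Nat.log 2 (X + 2) : ℕ) ≤ K1 * (8 * Real.log ((s : ℝ) + 2)) :=
    mul_le_mul_of_nonneg_left h4 hK
  have h13 : 8 * ((K1 : ℝ) * ((Nat.log 2 (X + 2) : ℕ) + 1) + c) =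
    8 * ((K1 : ℝ) * (Nat.log 2 (X + 2) : ℕ)) + 8 * (K1 + c) := by ring
  rw [h13]
  have h14 : (K1 : ℝ) * (8 * Real.log ((s : ℝ) + 2)) * 8 = 64 * (K1 : ℝ) * Real.log ((s : ℝ) + 2) := by ring
  linarith

end POSBQx

open POSBQx

open Classical in
theorem posbQ : S_POSBQ := by
  intro S S2 A good K K1 K2 a0 h1 h2 hS2 hA hcard hgood q c hq X1
  obtain ⟨s0, hs0⟩ := log_bound ((K2 + 1) * K1) ((K2 + 1) * (K + 4 * q + a0))
  obtain ⟨X, hX1, -, hXA⟩ := hA (X1 + (s0 + 1) ^ 4)
  refine ⟨X, by omega, ?_⟩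
  have hk := key S S2 A good K K1 a0 h1 h2 hS2 hA hgood q c X hq X le_rfl (h2 X hXA)
  obtain ⟨s, hs1, hs2⟩ := fourth_root X
  have hss : s0 + 1 ≤ s := by
    by_contra h
    have : (s + 1) ^ 4 ≤ (s0 + 1) ^ 4 := Nat.pow_le_pow_left (by omega) 4
    omega
  have hN := hcard s X hs2.le
  have hB := hs0 s (by omega) X hs2
  set G := ((range X).filter fun M => M ≡ c [MOD q] ∧ good M).card with hG
  set N := ((range X).filter S).card with hNdef
  have e : K1 * (Nat.log 2 (X + 2) + 1) + K + 4 * q + a0 =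
      K1 * (Nat.log 2 (X + 2) + 1) + (K + 4 * q + a0) := by ring
  rw [e] at hk
  have e2 : (K2 + 1) * K1 * (Nat.log 2 (X + 2) + 1) + (K2 + 1) * (K + 4 * q + a0) =
      (K2 + 1) * (K1 * (Nat.log 2 (X + 2) + 1) + (K + 4 * q + a0)) := by ring
  rw [e2] at hB
  set B := K1 * (Nat.log 2 (X + 2) + 1) + (K + 4 * q + a0) with hBdef
  have hN2 : N + 1 ≤ 8 * (K2 + 1) * s ^ 3 := by
    have g1 : (s + 1) ^ 3 ≤ 8 * s ^ 3 := by
      calc (s + 1) ^ 3 ≤ (2 * s) ^ 3 := Nat.pow_le_pow_left (by omega) 3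
        _ = 8 * s ^ 3 := by ring
    have g2 : K2 * (s + 1) ^ 3 ≤ K2 * (8 * s ^ 3) := Nat.mul_le_mul_left _ g1
    have g3 : 1 ≤ s ^ 3 := Nat.one_le_pow _ _ (by omega)
    have g4 : 8 * (K2 + 1) * s ^ 3 = K2 * (8 * s ^ 3) + 8 * s ^ 3 := by ring
    omega
  have hsR : (1 : ℝ) ≤ s := by exact_mod_cast (by omega : 1 ≤ s)
  have h3 : (((N + 1) * B : ℕ) : ℝ) ≤ 1 / 2 * X := by
    have h4 : ((N + 1 : ℕ) : ℝ) ≤ 8 * ((K2 : ℝ) + 1) * (s : ℝ) ^ 3 := by exact_mod_cast hN2
    have h5 : (0 : ℝ) ≤ (B : ℝ) := Nat.cast_nonneg _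
    have h6 : (s : ℝ) ^ 4 ≤ X := by exact_mod_cast hs1
    push_cast at hB
    calc (((N + 1) * B : ℕ) : ℝ) = ((N + 1 : ℕ) : ℝ) * B := by push_cast; ring
      _ ≤ 8 * ((K2 : ℝ) + 1) * (s : ℝ) ^ 3 * B := mul_le_mul_of_nonneg_right h4 h5
      _ = (s : ℝ) ^ 3 * (8 * (((K2 : ℝ) + 1) * B)) := by ring
      _ ≤ (s : ℝ) ^ 3 * (1 / 2 * s) := mul_le_mul_of_nonneg_left hB (by positivity)
      _ = 1 / 2 * (s : ℝ) ^ 4 := by ring
      _ ≤ 1 / 2 * X := by linarith
  have hk' : (X : ℝ) ≤ 4 * q * G + (((N + 1) * B : ℕ) : ℝ) := by exact_mod_cast hk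
  have hq0 : (0 : ℝ) < q := by exact_mod_cast hq
  rw [div_le_iff₀ (by positivity)]
  linarith

end Pool.Agent.H52.TC
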