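import Pool.Agent.H52.TC.Stm5

/-! # Project TC, stub UPQ: the mean of `|T|` over a residue class, fourth powers (adapted from UP2) -/

set_option autoImplicit false

namespace Pool.Agent.H52.TC

open Finset

namespace UPQaux

lemma qrt (Y : ℕ) : ∃ s : ℕ, s ^ 4 ≤ Y ∧ Y < (s + 1) ^ 4 := by
  induction Y with
  | zero => exact ⟨0, by norm_num, by norm_num⟩
  | succ Y ih =>
    obtain ⟨s, h1, h2⟩ := ih
    by_cases h : Y + 1 < (s + 1) ^ 4
    · exact ⟨s, by omega, h⟩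
    · refine ⟨s + 1, by omega, ?_⟩
      have h3 : (s + 1) ^ 4 < (s + 1 + 1) ^ 4 := Nat.pow_lt_pow_left (by omega) (by norm_num)
      omega

lemma sumcu (N : ℕ) : ∑ i ∈ range N, ((i : ℝ) + 1) ^ 3 / 2 ^ (i + 1) =
    26 - ((N : ℝ) ^ 3 + 6 * N ^ 2 + 18 * N + 26) / 2 ^ N := by
  induction N with
  | zero => norm_num
  | succ N ih =>
    rw [sum_range_succ, ih]
    push_cast
    field_simp
    ring

lemma sumcu_le (N : ℕ) : ∑ i ∈ range N, ((i : ℝ) + 1) ^ 3 / 2 ^ (i + 1) ≤ 26 := by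
  rw [sumcu]
  have : 0 ≤ ((N : ℝ) ^ 3 + 6 * N ^ 2 + 18 * N + 26) / 2 ^ N := by positivity
  linarith

lemma sumli (N : ℕ) : ∑ i ∈ range N, ((i : ℝ) + 1) / 2 ^ (i + 1) = 2 - ((N : ℝ) + 2) / 2 ^ N := by
  induction N with
  | zero => norm_num
  | succ N ih =>
    rw [sum_range_succ, ih]
    push_cast
    field_simp
    ring

lemma sumli_le (N : ℕ) : ∑ i ∈ range N, ((i : ℝ) + 1) / 2 ^ (i + 1) ≤ 2 := by
  rw [sumli]
  have : 0 ≤ ((N : ℝ) + 2) / 2 ^ N := by positivity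
  linarith

lemma shift (g : ℕ → ℤ) (hg : ∀ m, 0 ≤ g m) (S R : Finset ℕ) (i : ℕ) (h : ∀ M ∈ S, M + 1 + i ∈ R) :
    ∑ M ∈ S, g (M + 1 + i) ≤ ∑ m ∈ R, g m := by
  classical
  have h1 : ∑ M ∈ S, g (M + 1 + i) = ∑ m ∈ S.image (fun M => M + 1 + i), g m := by
    rw [sum_image]
    intro x _ y _ hxy
    simp only at hxy
    omega
  rw [h1]
  apply sum_le_sum_of_subset_of_nonneg
  · intro m hm
    rw [mem_image] at hm
    obtain ⟨M, hM, rfl⟩ := hm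
    exact h M hM
  · intro m _ _
    exact hg m

end UPQaux

open UPQaux in
theorem upQ : S_SUPQ → S_LATQ → S_UPQ := by
  intro hsup hlat b hb ε C hε h4 a1 a2 a3 a4 ha4 T hT q c K hq hK
  have hC : 0 ≤ C := (hε 0).1.trans (hε 0).2
  obtain ⟨hpos, -⟩ := hsup ε C hε
  obtain ⟨D, hD⟩ : ∃ D : ℕ, 26 * (|a3| * C ^ 3 + |a2| * C ^ 2 + |a1| * C) ≤ (D : ℤ) :=
    ⟨(26 * (|a3| * C ^ 3 + |a2| * C ^ 2 + |a1| * C)).toNat, Int.self_le_toNat _⟩
  have hq0 : (0 : ℝ) < q := by exact_mod_cast hq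
  have hK0 : 0 ≤ K := by
    have h1 : 0 ≤ K * (q : ℝ) ^ 3 := (Nat.cast_nonneg (rhoQ q 0)).trans (hK 0)
    exact nonneg_of_mul_nonneg_left h1 (by positivity)
  refine ⟨(q + 8 * D * q + 2) ^ 4, fun X hX => ?_⟩
  obtain ⟨r, hr1, hr2⟩ := qrt X
  have hr : q + 8 * D * q + 2 ≤ r := by
    have := lt_of_pow_lt_pow_left₀ 4 (by omega) (hX.trans_lt hr2)
    omega
  have hX1 : 1 ≤ X := le_trans (Nat.one_le_pow _ _ (by omega)) hX
  have hXr : (1 : ℝ) ≤ X := by exact_mod_cast hX1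
  have hCr : (0 : ℝ) ≤ C := by exact_mod_cast hC
  have ha4r : (1 : ℝ) ≤ a4 := by exact_mod_cast ha4
  obtain ⟨S, hS⟩ : ∃ S, S = (range X).filter (fun M => M ≡ c [MOD q]) := ⟨_, rfl⟩
  rw [← hS]
  -- the bound for one place
  have hW : ∀ i : ℕ, ((∑ M ∈ S, (a4 * G4 ε (M + 1 + i) + |a3| * G3 ε (M + 1 + i) +
        |a2| * G2 ε (M + 1 + i) + |a1| * ε (M + 1 + i)) : ℤ) : ℝ) ≤
      a4 * C ^ 4 * (K * (q : ℝ) ^ 3) * (16 * X * (i + 1) / q ^ 4) +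
        (D / 26) * ((r + 1) ^ 3 * (i + 1) ^ 3) := by
    intro i
    obtain ⟨s, hs1, hs2⟩ := qrt (X + i)
    have hl := hlat ε C hε h4 s (X + i) hs2
    have hsq : q ≤ s := by
      have h1 : q ^ 4 < (s + 1) ^ 4 := by
        refine lt_of_le_of_lt ?_ hs2
        refine le_trans ?_ (Nat.le_add_right X i)
        refine le_trans ?_ hX
        exact Nat.pow_le_pow_left (by omega) 4
      have := lt_of_pow_lt_pow_left₀ 4 (by omega) h1
      omega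
    have hsr : s + 1 ≤ (r + 1) * (i + 1) := by
      have h1 : s ^ 4 < ((r + 1) * (i + 1)) ^ 4 := by
        calc s ^ 4 ≤ X + i := hs1
          _ ≤ X * (i + 1) := by nlinarith
          _ < (r + 1) ^ 4 * (i + 1) := Nat.mul_lt_mul_of_pos_right hr2 (by omega)
          _ ≤ (r + 1) ^ 4 * (i + 1) ^ 4 := Nat.mul_le_mul_left _ (Nat.le_self_pow (by norm_num) _)
          _ = _ := by rw [mul_pow]
      exact lt_of_pow_lt_pow_left₀ 4 (by positivity) h1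
    have hs3 : ((s / q + 1 : ℕ) : ℝ) ^ 4 ≤ 16 * X * (i + 1) / q ^ 4 := by
      have h1 : ((s / q : ℕ) : ℝ) ≤ (s : ℝ) / q := Nat.cast_div_le
      have h2 : (1 : ℝ) ≤ (s : ℝ) / q := by
        rw [le_div_iff₀ hq0, one_mul]
        exact_mod_cast hsq
      have h3 : ((s / q + 1 : ℕ) : ℝ) ≤ 2 * ((s : ℝ) / q) := by push_cast; linarith
      have h4 : (s : ℝ) ^ 4 ≤ X * (i + 1) := by
        have : s ^ 4 ≤ X * (i + 1) := hs1.trans (by nlinarith)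
        exact_mod_cast this
      calc ((s / q + 1 : ℕ) : ℝ) ^ 4 ≤ (2 * ((s : ℝ) / q)) ^ 4 := pow_le_pow_left₀ (by positivity) h3 4
        _ = 16 * (s : ℝ) ^ 4 / q ^ 4 := by ring
        _ ≤ 16 * (X * (i + 1)) / q ^ 4 := by
            apply div_le_div_of_nonneg_right _ (by positivity)
            linarith
        _ = _ := by ring
    have e4 : ∑ M ∈ S, G4 ε (M + 1 + i) ≤
        C ^ 4 * (rhoQ q (c + 1 + i) : ℤ) * ((s / q + 1 : ℕ) : ℤ) ^ 4 := by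
      refine (shift (G4 ε) (fun m => (hpos m).2.2) S _ i ?_).trans (hl.1 q (c + 1 + i) hq)
      intro M hM
      rw [hS, mem_filter, mem_range] at hM
      rw [mem_filter, mem_range]
      exact ⟨by omega, (hM.2.add_right 1).add_right i⟩
    have e3 : ∑ M ∈ S, G3 ε (M + 1 + i) ≤ C ^ 3 * ((s : ℤ) + 1) ^ 3 := by
      refine (shift (G3 ε) (fun m => (hpos m).2.1) S _ i ?_).trans hl.2.1
      intro M hM
      rw [hS, mem_filter, mem_range] at hM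
      rw [mem_range]
      omega
    have e2 : ∑ M ∈ S, G2 ε (M + 1 + i) ≤ C ^ 2 * ((s : ℤ) + 1) ^ 2 := by
      refine (shift (G2 ε) (fun m => (hpos m).1) S _ i ?_).trans hl.2.2.1
      intro M hM
      rw [hS, mem_filter, mem_range] at hM
      rw [mem_range]
      omega
    have e1 : ∑ M ∈ S, ε (M + 1 + i) ≤ C * ((s : ℤ) + 1) := by
      refine (shift ε (fun m => (hε m).1) S _ i ?_).trans hl.2.2.2
      intro M hM
      rw [hS, mem_filter, mem_range] at hM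
      rw [mem_range]
      omega
    have e5 : ∑ M ∈ S, (a4 * G4 ε (M + 1 + i) + |a3| * G3 ε (M + 1 + i) +
        |a2| * G2 ε (M + 1 + i) + |a1| * ε (M + 1 + i)) ≤
        a4 * (C ^ 4 * (rhoQ q (c + 1 + i) : ℤ) * ((s / q + 1 : ℕ) : ℤ) ^ 4) +
          |a3| * (C ^ 3 * ((s : ℤ) + 1) ^ 3) + |a2| * (C ^ 2 * ((s : ℤ) + 1) ^ 2) +
          |a1| * (C * ((s : ℤ) + 1)) := by
      rw [sum_add_distrib, sum_add_distrib, sum_add_distrib, ← mul_sum, ← mul_sum, ← mul_sum,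
        ← mul_sum]
      have := mul_le_mul_of_nonneg_left e4 (show 0 ≤ a4 by linarith)
      have := mul_le_mul_of_nonneg_left e3 (abs_nonneg a3)
      have := mul_le_mul_of_nonneg_left e2 (abs_nonneg a2)
      have := mul_le_mul_of_nonneg_left e1 (abs_nonneg a1)
      linarith
    have e6 : ((∑ M ∈ S, (a4 * G4 ε (M + 1 + i) + |a3| * G3 ε (M + 1 + i) +
        |a2| * G2 ε (M + 1 + i) + |a1| * ε (M + 1 + i)) : ℤ) : ℝ) ≤
        a4 * (C ^ 4 * (rhoQ q (c + 1 + i)) * ((s / q + 1 : ℕ) : ℝ) ^ 4) +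
          |(a3 : ℝ)| * (C ^ 3 * ((s : ℝ) + 1) ^ 3) + |(a2 : ℝ)| * (C ^ 2 * ((s : ℝ) + 1) ^ 2) +
          |(a1 : ℝ)| * (C * ((s : ℝ) + 1)) := by
      have e7 := (Int.cast_le (R := ℝ)).2 e5
      push_cast at e7 ⊢
      exact e7
    refine e6.trans ?_
    have hDr : 26 * (|(a3 : ℝ)| * C ^ 3 + |(a2 : ℝ)| * C ^ 2 + |(a1 : ℝ)| * C) ≤ D := by
      exact_mod_cast hD
    have hsr' : (s : ℝ) + 1 ≤ (r + 1) * (i + 1) := by exact_mod_cast hsr
    have hri : (1 : ℝ) ≤ (r + 1) * (i + 1) := by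
      have h1 : (0 : ℝ) ≤ r := Nat.cast_nonneg r
      have h2 : (0 : ℝ) ≤ i := Nat.cast_nonneg i
      nlinarith [mul_nonneg h1 h2]
    have f3 : ((s : ℝ) + 1) ^ 3 ≤ (r + 1) ^ 3 * (i + 1) ^ 3 := by
      rw [← mul_pow]
      exact pow_le_pow_left₀ (by positivity) hsr' 3
    have f2 : ((s : ℝ) + 1) ^ 2 ≤ (r + 1) ^ 3 * (i + 1) ^ 3 := by
      rw [← mul_pow]
      exact (pow_le_pow_left₀ (by positivity) hsr' 2).trans (pow_le_pow_right₀ hri (by norm_num))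
    have f1 : ((s : ℝ) + 1) ≤ (r + 1) ^ 3 * (i + 1) ^ 3 := by
      rw [← mul_pow]
      exact hsr'.trans (le_self_pow₀ hri (by norm_num))
    have g4 : (a4 : ℝ) * (C ^ 4 * (rhoQ q (c + 1 + i)) * ((s / q + 1 : ℕ) : ℝ) ^ 4) ≤
        a4 * C ^ 4 * (K * (q : ℝ) ^ 3) * (16 * X * (i + 1) / q ^ 4) := by
      calc (a4 : ℝ) * (C ^ 4 * (rhoQ q (c + 1 + i)) * ((s / q + 1 : ℕ) : ℝ) ^ 4) =
          (a4 * C ^ 4) * ((rhoQ q (c + 1 + i) : ℝ) * ((s / q + 1 : ℕ) : ℝ) ^ 4) := by ring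
        _ ≤ (a4 * C ^ 4) * ((K * (q : ℝ) ^ 3) * (16 * X * (i + 1) / q ^ 4)) := by
            apply mul_le_mul_of_nonneg_left _ (by positivity)
            exact mul_le_mul (hK _) hs3 (by positivity) (by positivity)
        _ = _ := by ring
    have g3 : |(a3 : ℝ)| * (C ^ 3 * ((s : ℝ) + 1) ^ 3) ≤
        |(a3 : ℝ)| * (C ^ 3 * ((r + 1) ^ 3 * (i + 1) ^ 3)) := by
      apply mul_le_mul_of_nonneg_left _ (abs_nonneg _)
      exact mul_le_mul_of_nonneg_left f3 (by positivity)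
    have g2 : |(a2 : ℝ)| * (C ^ 2 * ((s : ℝ) + 1) ^ 2) ≤
        |(a2 : ℝ)| * (C ^ 2 * ((r + 1) ^ 3 * (i + 1) ^ 3)) := by
      apply mul_le_mul_of_nonneg_left _ (abs_nonneg _)
      exact mul_le_mul_of_nonneg_left f2 (by positivity)
    have g1 : |(a1 : ℝ)| * (C * ((s : ℝ) + 1)) ≤ |(a1 : ℝ)| * (C * ((r + 1) ^ 3 * (i + 1) ^ 3)) := by
      apply mul_le_mul_of_nonneg_left _ (abs_nonneg _)
      exact mul_le_mul_of_nonneg_left f1 (by positivity)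
    have g0 : (|(a3 : ℝ)| * C ^ 3 + |(a2 : ℝ)| * C ^ 2 + |(a1 : ℝ)| * C) *
        ((r + 1) ^ 3 * (i + 1) ^ 3) ≤ (D / 26) * ((r + 1) ^ 3 * (i + 1) ^ 3) := by
      apply mul_le_mul_of_nonneg_right _ (by positivity)
      linarith
    calc _ ≤ a4 * C ^ 4 * (K * (q : ℝ) ^ 3) * (16 * X * (i + 1) / q ^ 4) +
          |(a3 : ℝ)| * (C ^ 3 * ((r + 1) ^ 3 * (i + 1) ^ 3)) +
          |(a2 : ℝ)| * (C ^ 2 * ((r + 1) ^ 3 * (i + 1) ^ 3)) +
          |(a1 : ℝ)| * (C * ((r + 1) ^ 3 * (i + 1) ^ 3)) :=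
          add_le_add (add_le_add (add_le_add g4 g3) g2) g1
      _ = a4 * C ^ 4 * (K * (q : ℝ) ^ 3) * (16 * X * (i + 1) / q ^ 4) +
          (|(a3 : ℝ)| * C ^ 3 + |(a2 : ℝ)| * C ^ 2 + |(a1 : ℝ)| * C) *
            ((r + 1) ^ 3 * (i + 1) ^ 3) := by ring
      _ ≤ _ := by linarith
  -- finite version
  have hfin : ∀ N : ℕ, ∑ M ∈ S, |∑ i ∈ range N, (FQ ε a1 a2 a3 a4 (M + 1 + i) : ℝ) / (b : ℝ) ^ (i + 1)| ≤
      (32 * a4 * C ^ 4 * K + 1) * X / q := by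
    intro N
    have h1 : ∀ M ∈ S, |∑ i ∈ range N, (FQ ε a1 a2 a3 a4 (M + 1 + i) : ℝ) / (b : ℝ) ^ (i + 1)| ≤
        ∑ i ∈ range N, ((a4 * G4 ε (M + 1 + i) + |a3| * G3 ε (M + 1 + i) +
          |a2| * G2 ε (M + 1 + i) + |a1| * ε (M + 1 + i) : ℤ) : ℝ) / 2 ^ (i + 1) := by
      intro M _
      refine (abs_sum_le_sum_abs _ _).trans (sum_le_sum fun i _ => ?_)
      have hb2 : (2 : ℝ) ≤ b := by exact_mod_cast hb
      rw [abs_div, abs_of_nonneg (show (0 : ℝ) ≤ (b : ℝ) ^ (i + 1) by positivity)]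
      obtain ⟨p1, p2, p3⟩ := hpos (M + 1 + i)
      have p0 := (hε (M + 1 + i)).1
      have h2 : |FQ ε a1 a2 a3 a4 (M + 1 + i)| ≤ a4 * G4 ε (M + 1 + i) + |a3| * G3 ε (M + 1 + i) +
          |a2| * G2 ε (M + 1 + i) + |a1| * ε (M + 1 + i) := by
        unfold FQ
        refine (abs_add_le _ _).trans (add_le_add ((abs_add_le _ _).trans (add_le_add
          ((abs_add_le _ _).trans (add_le_add ?_ ?_)) ?_)) ?_)
        · rw [abs_mul, abs_of_nonneg p3, abs_of_nonneg (show 0 ≤ a4 by linarith)]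
        · rw [abs_mul, abs_of_nonneg p2]
        · rw [abs_mul, abs_of_nonneg p1]
        · rw [abs_mul, abs_of_nonneg p0]
      have h3 : |(FQ ε a1 a2 a3 a4 (M + 1 + i) : ℝ)| ≤
          ((a4 * G4 ε (M + 1 + i) + |a3| * G3 ε (M + 1 + i) +
          |a2| * G2 ε (M + 1 + i) + |a1| * ε (M + 1 + i) : ℤ) : ℝ) := by exact_mod_cast h2
      exact div_le_div₀ ((abs_nonneg _).trans h3) h3 (by positivity)
        (pow_le_pow_left₀ (by norm_num) hb2 _)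
    refine (sum_le_sum h1).trans ?_
    rw [sum_comm]
    have h2 : ∀ i ∈ range N, ∑ M ∈ S, ((a4 * G4 ε (M + 1 + i) + |a3| * G3 ε (M + 1 + i) +
          |a2| * G2 ε (M + 1 + i) + |a1| * ε (M + 1 + i) : ℤ) : ℝ) / 2 ^ (i + 1) ≤
        16 * a4 * C ^ 4 * K * X / q * (((i : ℝ) + 1) / 2 ^ (i + 1)) +
          D / 26 * (r + 1) ^ 3 * (((i : ℝ) + 1) ^ 3 / 2 ^ (i + 1)) := by
      intro i _
      rw [← sum_div]
      have h3 := hW i
      push_cast at h3 ⊢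
      refine (div_le_div_of_nonneg_right h3 (by positivity)).trans (le_of_eq ?_)
      field_simp
    refine (sum_le_sum h2).trans ?_
    rw [sum_add_distrib, ← mul_sum, ← mul_sum]
    have k1 : 16 * a4 * C ^ 4 * K * X / q * ∑ i ∈ range N, (((i : ℝ) + 1) / 2 ^ (i + 1)) ≤
        16 * a4 * C ^ 4 * K * X / q * 2 :=
      mul_le_mul_of_nonneg_left (sumli_le N) (by positivity)
    have k2 : D / 26 * (r + 1) ^ 3 * ∑ i ∈ range N, (((i : ℝ) + 1) ^ 3 / 2 ^ (i + 1)) ≤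
        D / 26 * ((r : ℝ) + 1) ^ 3 * 26 :=
      mul_le_mul_of_nonneg_left (sumcu_le N) (by positivity)
    have k3 : (D : ℝ) * ((r : ℝ) + 1) ^ 3 ≤ X / q := by
      rw [le_div_iff₀ hq0]
      have h4 : D * (r + 1) ^ 3 * q ≤ r ^ 4 := by
        have h5 : 8 * D * q ≤ r := by omega
        have h6 : (r + 1) ^ 3 ≤ 8 * r ^ 3 := by
          calc (r + 1) ^ 3 ≤ (2 * r) ^ 3 := Nat.pow_le_pow_left (by omega) 3
            _ = 8 * r ^ 3 := by ring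
        calc D * (r + 1) ^ 3 * q ≤ D * (8 * r ^ 3) * q := Nat.mul_le_mul_right _ (Nat.mul_le_mul_left _ h6)
          _ = (8 * D * q) * r ^ 3 := by ring
          _ ≤ r * r ^ 3 := Nat.mul_le_mul_right _ h5
          _ = r ^ 4 := by ring
      exact_mod_cast h4.trans hr1
    calc _ ≤ 16 * a4 * C ^ 4 * K * X / q * 2 + D / 26 * ((r : ℝ) + 1) ^ 3 * 26 := add_le_add k1 k2
      _ = 32 * a4 * C ^ 4 * K * X / q + D * ((r : ℝ) + 1) ^ 3 := by ring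
      _ ≤ 32 * a4 * C ^ 4 * K * X / q + X / q := by linarith
      _ = _ := by ring
  -- the limit
  have hlim : Filter.Tendsto (fun N : ℕ => ∑ M ∈ S, |∑ i ∈ range N,
      (FQ ε a1 a2 a3 a4 (M + 1 + i) : ℝ) / (b : ℝ) ^ (i + 1)|)
      Filter.atTop (nhds (∑ M ∈ S, |(T M : ℝ)|)) := by
    apply tendsto_finsetSum
    intro M _
    exact (hT.2 M).tendsto_sum_nat.abs
  exact le_of_tendsto' hlim hfin

end Pool.Agent.H52.TC

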