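import Pool.Agent.H52.TC.ANAQ
import Pool.Agent.H52.TC.CNTQ
import Pool.Agent.H52.TC.CRTQ
import Pool.Agent.H52.TC.DIVQ
import Pool.Agent.H52.TC.EXQ52
import Pool.Agent.H52.TC.FINQ
import Pool.Agent.H52.TC.IRRQ
import Pool.Agent.H52.TC.LATQ
import Pool.Agent.H52.TC.LIOQ
import Pool.Agent.H52.TC.LOCQ
import Pool.Agent.H52.TC.POSAQ
import Pool.Agent.H52.TC.POSBQ
import Pool.Agent.H52.TC.SUPQ
import Pool.Agent.H52.TC.UPQ
import Pool.Agent.H52.TC.WINQ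

set_option autoImplicit false

namespace Pool.Agent.H52.TC

theorem finalQ : S_FINQ :=
  finQ supQ anaQ irrQ lioQ (posaQ supQ) posbQ (cntQ supQ) (upQ supQ latQ) (winQ supQ latQ)
    (exQ52 locQ crtQ dvQ)

end Pool.Agent.H52.TC
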