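import Pool.Agent.H52.TC.Stm

set_option autoImplicit false

namespace Pool.Agent.H52.TC

open Polynomial

theorem poly (hfin : S_FIN) (b : ℕ) (hb : 2 ≤ b) (ε : ℕ → ℤ) (C : ℤ)
    (hε : ∀ n, 1 ≤ ε n ∧ ε n ≤ C) (P : ℤ[X]) (hP : P ≠ 0) (hdeg : P.natDegree ≤ 3) :
    aeval (∑' n : ℕ, (ε n : ℝ) / (b : ℝ) ^ (n ^ 3)) P ≠ 0 := by
  intro h0
  set x : ℝ := ∑' n : ℕ, (ε n : ℝ) / (b : ℝ) ^ (n ^ 3) with hx
  -- a polynomial of degree exactly three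
  set Q : ℤ[X] := P * X ^ (3 - P.natDegree) with hQ
  have hQ0 : aeval x Q = 0 := by rw [hQ, map_mul, h0, zero_mul]
  have hQd : Q.natDegree = 3 := by
    rw [hQ, natDegree_mul_X_pow _ hP]; omega
  have hQl : Q.coeff 3 ≠ 0 := by
    rw [← hQd]
    exact leadingCoeff_ne_zero.2 (mul_ne_zero hP (pow_ne_zero _ X_ne_zero))
  have hexp : aeval x Q = (Q.coeff 0 : ℝ) + Q.coeff 1 * x + Q.coeff 2 * x ^ 2
      + Q.coeff 3 * x ^ 3 := by
    rw [aeval_eq_sum_range' (n := 4) (by omega)]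
    simp [Finset.sum_range_succ]
  rcases lt_or_gt_of_ne hQl with h | h
  · refine hfin b hb ε C hε (-Q.coeff 0) (-Q.coeff 1) (-Q.coeff 2) (-Q.coeff 3) (by omega) x hx ?_
    push_cast
    linarith
  · refine hfin b hb ε C hε (Q.coeff 0) (Q.coeff 1) (Q.coeff 2) (Q.coeff 3) (by omega) x hx ?_
    linarith

end Pool.Agent.H52.TC
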