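import Pool.Agent.H52.TC.Stm

/-!
# Project TC: the tails are positive for almost all `M` (stub POS)
-/

set_option autoImplicit false

namespace Pool.Agent.H52.TC

open Finset

namespace POSP

theorem geo : HasSum (fun i : ℕ => ((3 : ℝ) / 4) ^ (i + 1)) 3 := by
  have h := (hasSum_geometric_of_lt_one (r := (3 : ℝ) / 4) (by norm_num) (by norm_num)).mul_left
    ((3 : ℝ) / 4)
  have e : (3 : ℝ) / 4 * (1 - 3 / 4)⁻¹ = 3 := by norm_num
  rw [e] at h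
  have e2 : (fun i : ℕ => ((3 : ℝ) / 4) ^ (i + 1)) = fun i : ℕ => (3 : ℝ) / 4 * (3 / 4) ^ i := by
    funext i
    rw [pow_succ, mul_comm]
  rw [e2]
  exact h

/-- the tail is small -/
theorem tail {A : ℝ} (hA0 : 0 ≤ A) {X h g i b : ℕ} (hb : 2 ≤ b) (hg : g ≤ h) (hi : 4 * h ≤ i)
    (hX : 1 ≤ X) (hA : 12 * A * ((X : ℝ) + 4 * h + 2) ≤ 2 ^ h) :
    A * ((X : ℝ) + i + 1) / (b : ℝ) ^ (i + 1) ≤ (1 / (b : ℝ)) ^ g * (1 / 6) * (3 / 4) ^ (i + 1) := by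
  have hb2 : (2 : ℝ) ≤ b := by exact_mod_cast hb
  have hb0 : (0 : ℝ) < b := by linarith
  have hX1 : (1 : ℝ) ≤ X := by exact_mod_cast hX
  obtain ⟨l, rfl⟩ := Nat.exists_eq_add_of_le hi
  have hl0 : (0 : ℝ) ≤ l := Nat.cast_nonneg l
  have hh0 : (0 : ℝ) ≤ h := Nat.cast_nonneg h
  obtain ⟨m, hm⟩ : ∃ m, 4 * h + l + 1 = g + m := Nat.exists_eq_add_of_le (by omega)
  -- `6 A (X + i + 1) 2 ^ h ≤ (3/2) ^ (i + 1)`
  have k1 : 6 * A * ((X : ℝ) + (4 * h + l) + 1) * 2 ^ h ≤ (3 / 2) ^ (4 * h + l + 1) := by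
    have e1 : ((3 : ℝ) / 2) ^ (4 * h + l + 1) = (81 / 16) ^ h * (3 / 2) ^ (l + 1) := by
      rw [show 4 * h + l + 1 = 4 * h + (l + 1) by ring, pow_add, pow_mul]
      norm_num
    have e2 : (2 : ℝ) ^ h * 2 ^ h ≤ (81 / 16) ^ h := by
      rw [← mul_pow]
      exact pow_le_pow_left₀ (by norm_num) (by norm_num) h
    have e3 : 1 + ((l : ℝ) + 1) * (1 / 2) ≤ (3 / 2) ^ (l + 1) := by
      have := one_add_mul_le_pow (a := (1 / 2 : ℝ)) (by norm_num) (l + 1)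
      push_cast at this
      norm_num at this ⊢
      linarith
    have e4 : 6 * A * ((X : ℝ) + (4 * h + l) + 1) ≤ 2 ^ h * (3 / 2) ^ (l + 1) := by
      have e5 : (X : ℝ) + (4 * h + l) + 1 ≤ ((X : ℝ) + 4 * h + 2) * (l + 1) := by
        nlinarith
      have e6 : (0 : ℝ) ≤ 6 * A := by linarith
      calc 6 * A * ((X : ℝ) + (4 * h + l) + 1) ≤ 6 * A * (((X : ℝ) + 4 * h + 2) * (l + 1)) :=
            mul_le_mul_of_nonneg_left e5 e6
        _ = (12 * A * ((X : ℝ) + 4 * h + 2)) * ((l + 1) / 2) := by ring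
        _ ≤ 2 ^ h * ((l + 1) / 2) := mul_le_mul_of_nonneg_right hA (by positivity)
        _ ≤ 2 ^ h * (3 / 2) ^ (l + 1) := by
            apply mul_le_mul_of_nonneg_left _ (by positivity)
            linarith
    rw [e1]
    calc 6 * A * ((X : ℝ) + (4 * h + l) + 1) * 2 ^ h
        ≤ 2 ^ h * (3 / 2) ^ (l + 1) * 2 ^ h := mul_le_mul_of_nonneg_right e4 (by positivity)
      _ = (2 ^ h * 2 ^ h) * (3 / 2) ^ (l + 1) := by ring
      _ ≤ (81 / 16) ^ h * (3 / 2) ^ (l + 1) := mul_le_mul_of_nonneg_right e2 (by positivity)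
  have k2 : 6 * A * ((X : ℝ) + (4 * h + l) + 1) ≤ 2 ^ m * (3 / 4) ^ (4 * h + l + 1) := by
    have e1 : ((3 : ℝ) / 2) ^ (4 * h + l + 1) = 2 ^ g * (2 ^ m * (3 / 4) ^ (4 * h + l + 1)) := by
      rw [← mul_assoc, ← pow_add, ← hm, ← mul_pow]
      norm_num
    have e2 : (2 : ℝ) ^ g ≤ 2 ^ h := pow_le_pow_right₀ (by norm_num) hg
    rw [e1] at k1
    have e3 : (0 : ℝ) ≤ 6 * A * ((X : ℝ) + (4 * h + l) + 1) := by positivity
    have e4 : 6 * A * ((X : ℝ) + (4 * h + l) + 1) * 2 ^ g ≤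
        2 ^ m * (3 / 4) ^ (4 * h + l + 1) * 2 ^ g := by
      calc 6 * A * ((X : ℝ) + (4 * h + l) + 1) * 2 ^ g
          ≤ 6 * A * ((X : ℝ) + (4 * h + l) + 1) * 2 ^ h := mul_le_mul_of_nonneg_left e2 e3
        _ ≤ _ := k1
        _ = _ := by ring
    exact le_of_mul_le_mul_right e4 (by positivity)
  have k3 : (2 : ℝ) ^ m ≤ (b : ℝ) ^ m := pow_le_pow_left₀ (by norm_num) hb2 m
  have hbp : (b : ℝ) ^ (4 * h + l + 1) = (b : ℝ) ^ g * (b : ℝ) ^ m := by rw [hm, pow_add]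
  rw [div_le_iff₀ (by positivity), hbp]
  have e : (1 / (b : ℝ)) ^ g * (1 / 6) * (3 / 4) ^ (4 * h + l + 1) * ((b : ℝ) ^ g * (b : ℝ) ^ m) =
      (1 / 6) * ((b : ℝ) ^ m * (3 / 4) ^ (4 * h + l + 1)) := by
    have : (1 / (b : ℝ)) ^ g * (b : ℝ) ^ g = 1 := by
      rw [← mul_pow, one_div, inv_mul_cancel₀ hb0.ne', one_pow]
    calc (1 / (b : ℝ)) ^ g * (1 / 6) * (3 / 4) ^ (4 * h + l + 1) * ((b : ℝ) ^ g * (b : ℝ) ^ m)
        = ((1 / (b : ℝ)) ^ g * (b : ℝ) ^ g) * ((1 / 6) * ((b : ℝ) ^ m * (3 / 4) ^ (4 * h + l + 1))) := by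
          ring
      _ = _ := by rw [this, one_mul]
  rw [e]
  have e7 : (2 : ℝ) ^ m * (3 / 4) ^ (4 * h + l + 1) ≤ (b : ℝ) ^ m * (3 / 4) ^ (4 * h + l + 1) :=
    mul_le_mul_of_nonneg_right k3 (by positivity)
  push_cast
  linarith

/-- `T M ≥ 1` -/
theorem key {b : ℕ} (hb : 2 ≤ b) {ε : ℕ → ℤ} {C : ℤ} (hε : ∀ n, 1 ≤ ε n ∧ ε n ≤ C)
    (hS : S_SUP) {a1 a2 a3 : ℤ} (ha3 : 1 ≤ a3) {T : ℕ → ℤ} (hT : IsT b ε a1 a2 a3 T)
    {M X g h : ℕ} (hM : M < X) (hg1 : 1 ≤ g) (hgh : g ≤ h)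
    (hc : ∃ u v w : ℕ, u ^ 3 + v ^ 3 + w ^ 3 = M + g)
    (hno : ∀ m, M < m → m ≤ M + 4 * h → ¬ ∃ u v : ℕ, m = u ^ 3 + v ^ 3)
    (hA : 12 * ((|a2| * C ^ 2 + |a1| * C : ℤ) : ℝ) * ((X : ℝ) + 4 * h + 2) ≤ 2 ^ h) :
    1 ≤ T M := by
  obtain ⟨s1, s2, s3, s4, s5⟩ := hS ε C hε
  have hC1 : 1 ≤ C := (hε 0).1.trans (hε 0).2
  set A : ℤ := |a2| * C ^ 2 + |a1| * C with hAd
  have hA0 : 0 ≤ A := by positivity
  have hb2 : (2 : ℝ) ≤ b := by exact_mod_cast hb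
  have hb0 : (0 : ℝ) < b := by linarith
  -- values of `F`
  have f1 : ∀ m, M < m → m ≤ M + 4 * h → F ε a1 a2 a3 m = a3 * E3 ε m := by
    intro m h1 h2
    have e1 : E1 ε m = 0 := by
      by_contra h3
      exact hno m h1 h2 (s3 m h3)
    have e2 : E2 ε m = 0 := by
      by_contra h3
      exact hno m h1 h2 (s4 m h3)
    unfold F
    rw [e1, e2]
    ring
  have f2 : ∀ m, M < m → m ≤ M + 4 * h → 0 ≤ F ε a1 a2 a3 m := by
    intro m h1 h2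
    rw [f1 m h1 h2]
    exact mul_nonneg (by linarith) (s1 m).2.2
  have f3 : 1 ≤ F ε a1 a2 a3 (M + g) := by
    rw [f1 (M + g) (by omega) (by omega)]
    obtain ⟨u, v, w, h1⟩ := hc
    have h2 := s2 u v w
    rw [h1] at h2
    nlinarith
  have f4 : ∀ m : ℕ, -(A * ((m : ℤ) + 1)) ≤ F ε a1 a2 a3 m := by
    intro m
    obtain ⟨p1, p2, p3⟩ := s1 m
    obtain ⟨q1, q2, -⟩ := s5 m
    have hm0 : (0 : ℤ) ≤ m := Int.natCast_nonneg m
    have r3 : 0 ≤ a3 * E3 ε m := mul_nonneg (by linarith) p3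
    have r2 : -(|a2| * C ^ 2 * ((m : ℤ) + 1)) ≤ a2 * E2 ε m := by
      have h1 : -|a2| * E2 ε m ≤ a2 * E2 ε m := mul_le_mul_of_nonneg_right (neg_abs_le a2) p2
      have h2 : |a2| * E2 ε m ≤ |a2| * (C ^ 2 * ((m : ℤ) + 1)) :=
        mul_le_mul_of_nonneg_left q2 (abs_nonneg _)
      linarith
    have r1 : -(|a1| * C * ((m : ℤ) + 1)) ≤ a1 * E1 ε m := by
      have h1 : -|a1| * E1 ε m ≤ a1 * E1 ε m := mul_le_mul_of_nonneg_right (neg_abs_le a1) p1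
      have h2 : |a1| * E1 ε m ≤ |a1| * C := mul_le_mul_of_nonneg_left q1 (abs_nonneg _)
      have h3 : |a1| * C ≤ |a1| * C * ((m : ℤ) + 1) := by
        apply le_mul_of_one_le_right (by positivity)
        linarith
      linarith
    unfold F
    rw [hAd]
    linarith
  -- comparison of the series
  set c : ℝ := (1 / (b : ℝ)) ^ g with hcd
  have hc0 : 0 < c := by positivity
  have hφ : HasSum (fun i : ℕ => (if i = g - 1 then c else 0) - c * (1 / 6) * (3 / 4) ^ (i + 1))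
      (c - c * (1 / 6) * 3) := (hasSum_ite_eq (g - 1) c).sub (geo.mul_left _)
  have hle : ∀ i : ℕ, (if i = g - 1 then c else 0) - c * (1 / 6) * (3 / 4) ^ (i + 1) ≤
      (F ε a1 a2 a3 (M + 1 + i) : ℝ) / (b : ℝ) ^ (i + 1) := by
    intro i
    have hpos : 0 ≤ c * (1 / 6) * (3 / 4) ^ (i + 1) := by positivity
    by_cases h1 : i + 1 ≤ 4 * h
    · by_cases h2 : i = g - 1
      · rw [if_pos h2]
        have e1 : M + 1 + i = M + g := by omega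
        have e2 : i + 1 = g := by omega
        have e3 : (1 : ℝ) ≤ (F ε a1 a2 a3 (M + g) : ℝ) := by exact_mod_cast f3
        rw [e1, e2]
        rw [e2] at hpos
        have e4 : c ≤ (F ε a1 a2 a3 (M + g) : ℝ) / (b : ℝ) ^ g := by
          rw [hcd, one_div, inv_pow, ← one_div]
          exact div_le_div_of_nonneg_right e3 (by positivity)
        linarith
      · rw [if_neg h2]
        have e1 : (0 : ℝ) ≤ (F ε a1 a2 a3 (M + 1 + i) : ℝ) := by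
          exact_mod_cast f2 (M + 1 + i) (by omega) (by omega)
        have e2 : (0 : ℝ) ≤ (F ε a1 a2 a3 (M + 1 + i) : ℝ) / (b : ℝ) ^ (i + 1) := by positivity
        linarith
    · rw [if_neg (by omega)]
      have h2 := tail (A := (A : ℝ)) (by exact_mod_cast hA0) (i := i) hb hgh (by omega)
        (X := X) (by omega) hA
      have h3 := f4 (M + 1 + i)
      have h4 : -((A : ℝ) * ((X : ℝ) + i + 1)) ≤ (F ε a1 a2 a3 (M + 1 + i) : ℝ) := by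
        have h5 : (-((A : ℝ) * (((M + 1 + i : ℕ) : ℝ) + 1))) ≤ (F ε a1 a2 a3 (M + 1 + i) : ℝ) := by
          exact_mod_cast h3
        have h6 : (((M + 1 + i : ℕ) : ℝ) + 1) ≤ (X : ℝ) + i + 1 := by
          have : (M : ℝ) + 1 ≤ X := by exact_mod_cast hM
          push_cast
          linarith
        have h7 : (A : ℝ) * (((M + 1 + i : ℕ) : ℝ) + 1) ≤ (A : ℝ) * ((X : ℝ) + i + 1) :=
          mul_le_mul_of_nonneg_left h6 (by exact_mod_cast hA0)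
        linarith
      have h8 : -((A : ℝ) * ((X : ℝ) + i + 1) / (b : ℝ) ^ (i + 1)) ≤
          (F ε a1 a2 a3 (M + 1 + i) : ℝ) / (b : ℝ) ^ (i + 1) := by
        rw [← neg_div]
        exact div_le_div_of_nonneg_right h4 (by positivity)
      rw [hcd] at *
      linarith
  have hT0 := hasSum_le hle hφ (hT.2 M)
  have h9 : (0 : ℝ) < (T M : ℝ) := by linarith
  have h10 : (0 : ℤ) < T M := by exact_mod_cast h9
  omega

theorem exists_root (X : ℕ) : ∃ r : ℕ, r ^ 27 ≤ X ∧ X < (r + 1) ^ 27 := by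
  refine ⟨Nat.findGreatest (fun r => r ^ 27 ≤ X) X, ?_, ?_⟩
  · exact Nat.findGreatest_spec (P := fun r => r ^ 27 ≤ X) (m := 0) (Nat.zero_le _) (by simp)
  · by_contra h
    rw [not_lt] at h
    have h1 : Nat.findGreatest (fun r => r ^ 27 ≤ X) X + 1 ≤ X :=
      (Nat.le_self_pow (by norm_num) _).trans h
    have h2 := Nat.le_findGreatest (P := fun r => r ^ 27 ≤ X) h1 h
    omega

theorem count {X H S : ℕ} (hXH : X + H ≤ S ^ 3) (B : Finset ℕ)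
    (hB : ∀ M ∈ B, M < X ∧ ∃ m, M < m ∧ m ≤ M + H ∧ ∃ u v : ℕ, m = u ^ 3 + v ^ 3) :
    B.card ≤ S * S * H := by
  have hsub : B ⊆ (range S ×ˢ range S).biUnion
      fun p => Ico (p.1 ^ 3 + p.2 ^ 3 - H) (p.1 ^ 3 + p.2 ^ 3) := by
    intro M hM
    obtain ⟨h1, m, h2, h3, u, v, h4⟩ := hB M hM
    rw [mem_biUnion]
    have h5 : u ^ 3 < S ^ 3 := by
      have : 0 ≤ v ^ 3 := Nat.zero_le _
      omega
    have h6 : v ^ 3 < S ^ 3 := by
      have : 0 ≤ u ^ 3 := Nat.zero_le _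
      omega
    refine ⟨(u, v), ?_, ?_⟩
    · rw [mem_product, mem_range, mem_range]
      exact ⟨lt_of_pow_lt_pow_left₀ 3 (Nat.zero_le _) h5, lt_of_pow_lt_pow_left₀ 3 (Nat.zero_le _) h6⟩
    · rw [mem_Ico]
      simp only
      omega
  refine (card_le_card hsub).trans ?_
  refine (card_biUnion_le_card_mul _ _ H fun p _ => ?_).trans ?_
  · rw [Nat.card_Ico]
    omega
  · rw [card_product, card_range]

theorem r_ge {R r X : ℕ} (hX : R ^ 27 ≤ X) (hr : X < (r + 1) ^ 27) : R ≤ r := by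
  by_contra h
  have h1 : (r + 1) ^ 27 ≤ R ^ 27 := Nat.pow_le_pow_left (not_le.1 h) 27
  exact absurd (hr.trans_le (h1.trans hX)) (lt_irrefl _)

theorem cond {A K r h X : ℝ} (hA : 0 ≤ A) (hK : 0 ≤ K) (hr : 0 ≤ r) (hX : X ≤ (r + 1) ^ 27)
    (hh : h ≤ (K + 1) * (r + 1) ^ 8) :
    12 * A * (X + 4 * h + 2) ≤ 12 * A * (4 * K + 7) * (r + 1) ^ 27 := by
  have e0 : 1 ≤ r + 1 := by linarith
  have e2 : h ≤ (K + 1) * (r + 1) ^ 27 :=
    hh.trans (mul_le_mul_of_nonneg_left (pow_le_pow_right₀ e0 (by norm_num)) (by linarith))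
  have e3 : 1 ≤ (r + 1) ^ 27 := one_le_pow₀ e0
  have e4 : X + 4 * h + 2 ≤ (4 * K + 7) * (r + 1) ^ 27 := by
    nlinarith
  calc 12 * A * (X + 4 * h + 2) ≤ 12 * A * ((4 * K + 7) * (r + 1) ^ 27) :=
        mul_le_mul_of_nonneg_left e4 (by positivity)
    _ = _ := by ring

theorem fin1 {K r η R X : ℝ} (hK : 0 ≤ K) (hr : 1 ≤ r) (hη : 0 < η)
    (hR : 16 * (K + 1) * 2 ^ 26 / η ≤ R) (hRr : R ≤ r) (hX : r ^ 27 ≤ X) :
    16 * (K + 1) * (r + 1) ^ 26 ≤ η * X := by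
  have e1 : (r + 1) ^ 26 ≤ 2 ^ 26 * r ^ 26 := by
    rw [← mul_pow]
    exact pow_le_pow_left₀ (by linarith) (by linarith) 26
  have e3 : 16 * (K + 1) * 2 ^ 26 ≤ η * r := by
    have h1 := hR.trans hRr
    rw [div_le_iff₀ hη] at h1
    linarith
  have hr0 : 0 ≤ r := by linarith
  calc 16 * (K + 1) * (r + 1) ^ 26
      ≤ 16 * (K + 1) * (2 ^ 26 * r ^ 26) := mul_le_mul_of_nonneg_left e1 (by positivity)
    _ = (16 * (K + 1) * 2 ^ 26) * r ^ 26 := by ring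
    _ ≤ (η * r) * r ^ 26 := mul_le_mul_of_nonneg_right e3 (by positivity)
    _ = η * r ^ 27 := by ring
    _ ≤ η * X := mul_le_mul_of_nonneg_left hX hη.le

theorem nat1 (K r : ℕ) : r + 1 ≤ (K + 1) * (r + 1) ^ 8 :=
  calc r + 1 ≤ (r + 1) ^ 8 := Nat.le_self_pow (by norm_num) _
    _ ≤ (K + 1) * (r + 1) ^ 8 := Nat.le_mul_of_pos_left _ (Nat.succ_pos K)

theorem nat2 {K r X : ℕ} (hr : 4 * (K + 1) ≤ r + 1) (hX : X < (r + 1) ^ 27) :
    X + 4 * ((K + 1) * (r + 1) ^ 8) ≤ (2 * (r + 1) ^ 9) ^ 3 := by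
  have e1 : (2 * (r + 1) ^ 9) ^ 3 = 8 * (r + 1) ^ 27 := by
    rw [mul_pow, ← pow_mul]
    norm_num
  have e2 : 4 * (K + 1) ≤ (r + 1) ^ 19 := hr.trans (Nat.le_self_pow (by norm_num) _)
  have e3 : 4 * ((K + 1) * (r + 1) ^ 8) ≤ (r + 1) ^ 27 :=
    calc 4 * ((K + 1) * (r + 1) ^ 8) = (4 * (K + 1)) * (r + 1) ^ 8 := by ring
      _ ≤ (r + 1) ^ 19 * (r + 1) ^ 8 := Nat.mul_le_mul_right _ e2
      _ = (r + 1) ^ 27 := by rw [← pow_add]
  rw [e1]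
  omega

theorem nat3 {K r M g : ℕ} (hM : M + 1 ≤ (r + 1) ^ 27) (h : g ^ 27 ≤ K * (M + 1) ^ 8) :
    g ≤ (K + 1) * (r + 1) ^ 8 := by
  have e1 : g ^ 27 ≤ ((K + 1) * (r + 1) ^ 8) ^ 27 := by
    refine h.trans ?_
    calc K * (M + 1) ^ 8 ≤ (K + 1) ^ 27 * ((r + 1) ^ 27) ^ 8 := by
          apply Nat.mul_le_mul
          · exact (Nat.le_succ K).trans (Nat.le_self_pow (by norm_num) _)
          · exact Nat.pow_le_pow_left hM 8
      _ = ((K + 1) * (r + 1) ^ 8) ^ 27 := by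
          rw [mul_pow, ← pow_mul, ← pow_mul]
  exact (Nat.pow_le_pow_iff_left (by norm_num)).1 e1

theorem large (A K : ℝ) (hA : 0 ≤ A) (hK : 0 ≤ K) : ∃ R1 : ℕ, ∀ n : ℕ, R1 ≤ n →
    12 * A * (4 * K + 7) * (n : ℝ) ^ 27 ≤ 2 ^ n := by
  have h1 := tendsto_pow_const_div_const_pow_of_one_lt 27 (r := (2 : ℝ)) (by norm_num)
  have h2 : (0 : ℝ) < 1 / (12 * A * (4 * K + 7) + 1) := by positivity
  obtain ⟨R1, h3⟩ := Filter.eventually_atTop.1 (h1.eventually_lt_const h2)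
  refine ⟨R1, fun n hn => ?_⟩
  have h4 := h3 n hn
  rw [div_lt_div_iff₀ (by positivity) (by positivity)] at h4
  have h5 : (0 : ℝ) ≤ (n : ℝ) ^ 27 := by positivity
  linarith

end POSP

open POSP in
theorem pos : S_GRE → S_SUP → S_LAT → S_POS := by
  intro hG hS _ b hb ε C hε a1 a2 a3 ha3 T hT η hη
  obtain ⟨K, hK⟩ := hG
  have hC1 : 1 ≤ C := (hε 0).1.trans (hε 0).2
  obtain ⟨A, hAd⟩ : ∃ A : ℤ, A = |a2| * C ^ 2 + |a1| * C := ⟨_, rfl⟩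
  have hA0 : 0 ≤ A := by rw [hAd]; positivity
  have hA0r : (0 : ℝ) ≤ (A : ℝ) := by exact_mod_cast hA0
  have hK0 : (0 : ℝ) ≤ (K : ℝ) := Nat.cast_nonneg K
  obtain ⟨R1, hR1⟩ := large A K hA0r hK0
  obtain ⟨R2, hR2⟩ := exists_nat_ge (16 * ((K : ℝ) + 1) * 2 ^ 26 / η)
  refine ⟨(R1 + R2 + 4 * (K + 1) + 1) ^ 27, fun X hX => ?_⟩
  obtain ⟨r, hr1, hr2⟩ := exists_root X
  have hrR : R1 + R2 + 4 * (K + 1) + 1 ≤ r := r_ge hX hr2
  clear hX
  have hr0 : 1 ≤ r := by omega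
  obtain ⟨h, hh⟩ : ∃ h : ℕ, h = (K + 1) * (r + 1) ^ 8 := ⟨_, rfl⟩
  have hcond : 12 * ((A : ℤ) : ℝ) * ((X : ℝ) + 4 * h + 2) ≤ 2 ^ h := by
    have e1 : (X : ℝ) ≤ ((r : ℝ) + 1) ^ 27 := by exact_mod_cast hr2.le
    have e2 : (h : ℝ) ≤ ((K : ℝ) + 1) * ((r : ℝ) + 1) ^ 8 := by
      rw [hh]
      push_cast
      exact le_rfl
    have e3 := cond hA0r hK0 (Nat.cast_nonneg r) e1 e2
    have e4 := hR1 (r + 1) (by omega)
    rw [Nat.cast_add r 1, Nat.cast_one] at e4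
    have e5 : r + 1 ≤ h := by rw [hh]; exact nat1 K r
    exact e3.trans (e4.trans (pow_le_pow_right₀ (by norm_num) e5))
  have hcnt := count (X := X) (H := 4 * h) (S := 2 * (r + 1) ^ 9)
    (by rw [hh]; exact nat2 (by omega) hr2) ((range X).filter fun M => T M < 1) (by
    intro M hM
    rw [mem_filter, mem_range] at hM
    refine ⟨hM.1, ?_⟩
    by_contra hcon
    push Not at hcon
    obtain ⟨u, v, w, h1, h2⟩ := hK M
    have h3 : u ^ 3 + v ^ 3 + w ^ 3 - M ≤ h := by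
      rw [hh]
      exact nat3 ((Nat.succ_le_of_lt hM.1).trans hr2.le) h2
    clear h2 hr1 hr2
    have h4 := key hb hε hS ha3 hT (M := M) (X := X) (g := u ^ 3 + v ^ 3 + w ^ 3 - M) (h := h)
      hM.1 (by omega) h3 ⟨u, v, w, by omega⟩
      (fun m hm1 hm2 hm3 => by
        obtain ⟨u', v', h5⟩ := hm3
        exact hcon m hm1 hm2 u' v' h5) (by rw [← hAd]; exact hcond)
    exact absurd hM.2 (not_lt.2 h4))
  have hcr : ((((range X).filter fun M => T M < 1).card : ℕ) : ℝ) ≤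
      16 * ((K : ℝ) + 1) * ((r : ℝ) + 1) ^ 26 := by
    have e1 : 2 * (r + 1) ^ 9 * (2 * (r + 1) ^ 9) * (4 * h) = 16 * (K + 1) * (r + 1) ^ 26 := by
      rw [hh]
      ring
    rw [e1] at hcnt
    exact_mod_cast hcnt
  refine hcr.trans ?_
  exact fin1 hK0 (by exact_mod_cast hr0) hη hR2 (by exact_mod_cast (by omega : R2 ≤ r))
    (by exact_mod_cast hr1)

end Pool.Agent.H52.TC
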