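import Pool.Agent.H52.TC.Stm3
import Pool.Agent.H52.TC.POSB

set_option autoImplicit false

/-! # TC-POSB3: positive proportion in a residue class, arbitrary constant (after POSB.lean) -/

namespace Pool.Agent.H52.TC

open Finset

open POSBx

open Classical in
theorem posb3 : S_POSB3 := by
  intro S S2 A good K K1 K2 a0 h1 h2 hA0 ha0 hS2 hA hcard hgood q c hq X1
  obtain ⟨s0, hs0⟩ := log_bound ((K2 + 1) * K1) ((K2 + 1) * (K + 3 * q + a0))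
  obtain ⟨X, hX1, -, hXA⟩ := hA (X1 + (s0 + 1) ^ 3)
  refine ⟨X, by omega, ?_⟩
  have hk := key S S2 A good K K1 a0 h1 h2 hA0 ha0 hS2 hA hgood q c X hq X le_rfl (h2 X hXA)
  obtain ⟨s, hs1, hs2⟩ := cube_root X
  have hss : s0 + 1 ≤ s := by
    by_contra h
    have : (s + 1) ^ 3 ≤ (s0 + 1) ^ 3 := Nat.pow_le_pow_left (by omega) 3
    omega
  have hN := hcard s X hs2.le
  have hB := hs0 s (by omega) X hs2
  set G := ((range X).filter fun M => M ≡ c [MOD q] ∧ good M).card with hG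
  set N := ((range X).filter S).card with hNdef
  have e : K1 * (Nat.log 2 (X + 2) + 1) + K + 3 * q + a0 =
      K1 * (Nat.log 2 (X + 2) + 1) + (K + 3 * q + a0) := by ring
  rw [e] at hk
  have e2 : (K2 + 1) * K1 * (Nat.log 2 (X + 2) + 1) + (K2 + 1) * (K + 3 * q + a0) =
      (K2 + 1) * (K1 * (Nat.log 2 (X + 2) + 1) + (K + 3 * q + a0)) := by ring
  rw [e2] at hB
  set B := K1 * (Nat.log 2 (X + 2) + 1) + (K + 3 * q + a0) with hBdef
  have hN2 : N + 1 ≤ 9 * (K2 + 1) * s ^ 2 := by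
    have g1 : (s + 1) ^ 2 ≤ 4 * s ^ 2 := by nlinarith
    have g2 : K2 * (s + 1) ^ 2 ≤ K2 * (4 * s ^ 2) := Nat.mul_le_mul_left _ g1
    have g3 : 1 ≤ s ^ 2 := Nat.one_le_pow _ _ (by omega)
    have g4 : 9 * (K2 + 1) * s ^ 2 = K2 * (4 * s ^ 2) + 5 * (K2 * s ^ 2) + 9 * s ^ 2 := by ring
    omega
  have hsR : (1 : ℝ) ≤ s := by exact_mod_cast (by omega : 1 ≤ s)
  have h3 : (((N + 1) * B : ℕ) : ℝ) ≤ 5 / 8 * X := by
    have h4 : ((N + 1 : ℕ) : ℝ) ≤ 9 * ((K2 : ℝ) + 1) * (s : ℝ) ^ 2 := by exact_mod_cast hN2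
    have h5 : (0 : ℝ) ≤ (B : ℝ) := Nat.cast_nonneg _
    have h6 : (s : ℝ) ^ 3 ≤ X := by exact_mod_cast hs1
    push_cast at hB
    calc (((N + 1) * B : ℕ) : ℝ) = ((N + 1 : ℕ) : ℝ) * B := by push_cast; ring
      _ ≤ 9 * ((K2 : ℝ) + 1) * (s : ℝ) ^ 2 * B := mul_le_mul_of_nonneg_right h4 h5
      _ = (s : ℝ) ^ 2 * (9 * (((K2 : ℝ) + 1) * B)) := by ring
      _ ≤ (s : ℝ) ^ 2 * (5 / 8 * s) := mul_le_mul_of_nonneg_left hB (by positivity)
      _ = 5 / 8 * (s : ℝ) ^ 3 := by ring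
      _ ≤ 5 / 8 * X := by linarith
  have hk' : (X : ℝ) ≤ 3 * q * G + (((N + 1) * B : ℕ) : ℝ) := by exact_mod_cast hk
  have hq0 : (0 : ℝ) < q := by exact_mod_cast hq
  rw [div_le_iff₀ (by positivity)]
  linarith

end Pool.Agent.H52.TC
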