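import Pool.Agent.H52.TC.COEF

set_option autoImplicit false

namespace Pool.Agent.H52.TC

open Finset Polynomial

open Classical in
/-- the number of `m ≤ N` with `d m ≠ 0` at distance `> H` from all numbers `a u³` -/
noncomputable def offA (a H : ℕ) (d : ℕ → ℤ) (N : ℕ) : ℕ :=
  ((range (N + 1)).filter fun m => d m ≠ 0 ∧
    ∀ u : ℕ, a * u ^ 3 + H < m ∨ m + H < a * u ^ 3).card

theorem offA_mono (a H : ℕ) (d : ℕ → ℤ) {N N' : ℕ} (h : N ≤ N') : offA a H d N ≤ offA a H d N' := by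
  classical
  unfold offA
  refine card_le_card ?_
  intro m hm
  rw [mem_filter, mem_range] at hm ⊢
  exact ⟨by omega, hm.2⟩

/-- grouping `a` consecutive coefficients: `j ↦ ∑_{r<a} d_(a j + r) b^(a-1-r)` -/
noncomputable def grp (a b : ℕ) (d : ℕ → ℤ) (j : ℕ) : ℤ :=
  ∑ r ∈ range a, d (a * j + r) * (b : ℤ) ^ (a - 1 - r)

theorem grp_bound {a b : ℕ} {d : ℕ → ℤ} {C : ℤ} (hd : ∀ m, 0 ≤ d m ∧ d m ≤ C) (j : ℕ) :
    0 ≤ grp a b d j ∧ grp a b d j ≤ ∑ r ∈ range a, C * (b : ℤ) ^ (a - 1 - r) := by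
  unfold grp
  constructor
  · exact sum_nonneg fun r _ => mul_nonneg (hd _).1 (by positivity)
  · exact sum_le_sum fun r _ => mul_le_mul_of_nonneg_right (hd _).2 (by positivity)

theorem summable_d {b : ℕ} (hb : 2 ≤ b) {d : ℕ → ℤ} {C : ℤ} (hd : ∀ m, 0 ≤ d m ∧ d m ≤ C) :
    Summable fun m : ℕ => (d m : ℝ) / (b : ℝ) ^ m := by
  have hb2 : (2 : ℝ) ≤ b := by exact_mod_cast hb
  have hb0 : (0 : ℝ) < b := by linarith
  refine Summable.of_nonneg_of_le (f := fun m : ℕ => (C : ℝ) * (1 / b) ^ m) ?_ ?_ ?_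
  · intro m
    have : (0 : ℝ) ≤ d m := by exact_mod_cast (hd m).1
    positivity
  · intro m
    have : (d m : ℝ) ≤ C := by exact_mod_cast (hd m).2
    rw [one_div, inv_pow, div_eq_mul_inv]
    gcongr
  · exact (summable_geometric_of_lt_one (by positivity)
      (by rw [div_lt_one hb0]; linarith)).mul_left _

theorem tsum_grp {a b : ℕ} (ha : 1 ≤ a) (hb : 2 ≤ b) {d : ℕ → ℤ} {C : ℤ}
    (hd : ∀ m, 0 ≤ d m ∧ d m ≤ C) :
    ∑' j : ℕ, (grp a b d j : ℝ) / ((b ^ a : ℕ) : ℝ) ^ j =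
      (b : ℝ) ^ (a - 1) * ∑' m : ℕ, (d m : ℝ) / (b : ℝ) ^ m := by
  have hb2 : (2 : ℝ) ≤ b := by exact_mod_cast hb
  have hb0 : (0 : ℝ) < b := by linarith
  have hs := summable_d hb hd
  haveI : NeZero a := ⟨by omega⟩
  -- the equivalence `m = a j + r`
  have h1 : ∑' m : ℕ, (d m : ℝ) / (b : ℝ) ^ m =
      ∑' p : ℕ × Fin a, (d (p.1 * a + p.2) : ℝ) / (b : ℝ) ^ (p.1 * a + (p.2 : ℕ)) := by
    rw [← (Nat.divModEquiv a).symm.tsum_eq]
    rfl
  have h1' : Summable fun p : ℕ × Fin a =>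
      (d (p.1 * a + p.2) : ℝ) / (b : ℝ) ^ (p.1 * a + (p.2 : ℕ)) := by
    have := (Nat.divModEquiv a).symm.summable_iff.2 hs
    exact this
  rw [h1, h1'.tsum_prod, ← tsum_mul_left]
  congr 1
  funext j
  rw [tsum_fintype, Fin.sum_univ_eq_sum_range
    (fun r => (d (j * a + r) : ℝ) / (b : ℝ) ^ (j * a + r)) a]
  unfold grp
  push_cast
  rw [sum_div, mul_sum]
  refine sum_congr rfl fun r hr => ?_
  rw [mem_range] at hr
  rw [mul_comm a j]
  have h2 : (b : ℝ) ^ (a - 1) = (b : ℝ) ^ (a - 1 - r) * (b : ℝ) ^ r := by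
    rw [← pow_add]; congr 1; omega
  rw [h2, pow_add (b : ℝ) (j * a) r, mul_comm j a, pow_mul (b : ℝ) a j]
  field_simp

theorem sca (hcoef : ∀ (b : ℕ), 2 ≤ b → ∀ (d : ℕ → ℤ) (C : ℤ),
      (∀ m, 0 ≤ d m ∧ d m ≤ C) → Irrational (∑' m : ℕ, (d m : ℝ) / (b : ℝ) ^ m) →
      ∀ P : ℤ[X], P ≠ 0 → P.natDegree ≤ 3 → aeval (∑' m : ℕ, (d m : ℝ) / (b : ℝ) ^ m) P = 0 →
      ∀ H : ℕ, ∃ c : ℝ, 0 < c ∧ ∃ N0 : ℕ, ∀ N : ℕ, N0 ≤ N →
        c * (N : ℝ) ^ ((1 : ℝ) / 3) ≤ offH H d N)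
    (b : ℕ) (hb : 2 ≤ b) (d : ℕ → ℤ) (C : ℤ)
    (hd : ∀ m, 0 ≤ d m ∧ d m ≤ C) (hx : Irrational (∑' m : ℕ, (d m : ℝ) / (b : ℝ) ^ m))
    (P : ℤ[X]) (hP : P ≠ 0) (hdeg : P.natDegree ≤ 3)
    (h0 : aeval (∑' m : ℕ, (d m : ℝ) / (b : ℝ) ^ m) P = 0) (a : ℕ) (ha : 1 ≤ a) (H : ℕ) :
    ∃ c : ℝ, 0 < c ∧ ∃ N0 : ℕ, ∀ N : ℕ, N0 ≤ N →
      c * (N : ℝ) ^ ((1 : ℝ) / 3) ≤ offA a H d N := by
  classical
  have hB : 2 ≤ b ^ a := hb.trans (Nat.le_self_pow (by omega) b)
  have hts := tsum_grp ha hb hd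
  have hBn : (b ^ (a - 1) : ℕ) ≠ 0 := by positivity
  have hirr : Irrational (∑' j : ℕ, (grp a b d j : ℝ) / ((b ^ a : ℕ) : ℝ) ^ j) := by
    rw [hts]
    have h2 := hx.natCast_mul hBn
    have h3 : ((b ^ (a - 1) : ℕ) : ℝ) = (b : ℝ) ^ (a - 1) := by push_cast; rfl
    rwa [h3] at h2
  obtain ⟨a0, a1, a2, a3, ha3, hrel⟩ := relation_mul _ P hP hdeg h0 (b ^ (a - 1))
  -- the polynomial
  obtain ⟨Q, hQ⟩ : ∃ Q : ℤ[X], Q = Polynomial.C a3 * X ^ 3 + Polynomial.C a2 * X ^ 2 +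
    Polynomial.C a1 * X + Polynomial.C a0 := ⟨_, rfl⟩
  have hQd : Q.natDegree = 3 := by
    rw [hQ]
    exact natDegree_cubic (by omega)
  have hQ0 : Q ≠ 0 := by
    intro h
    rw [h, natDegree_zero] at hQd
    omega
  have hQr : aeval (∑' j : ℕ, (grp a b d j : ℝ) / ((b ^ a : ℕ) : ℝ) ^ j) Q = 0 := by
    have := hrel (∑' j : ℕ, (grp a b d j : ℝ) / ((b ^ a : ℕ) : ℝ) ^ j) (by
      rw [hts]; congr 1; push_cast; rfl)
    rw [hQ]
    simp only [map_add, map_mul, map_pow, aeval_X, aeval_C]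
    exact this
  obtain ⟨c, hc, N0, hN0⟩ := hcoef (b ^ a) hB (grp a b d) _ (fun j => grp_bound hd j) hirr Q hQ0
    (by omega) hQr (H / a + 2)
  -- comparison
  have hcmp : ∀ N, offH (H / a + 2) (grp a b d) N ≤ offA a H d (a * N + a) := by
    intro N
    unfold offH offA
    -- choose a nonzero coefficient in the block
    have hch : ∀ j, grp a b d j ≠ 0 → ∃ r, r < a ∧ d (a * j + r) ≠ 0 := by
      intro j hj
      by_contra hcon
      push Not at hcon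
      apply hj
      unfold grp
      refine sum_eq_zero fun r hr => ?_
      rw [hcon r (mem_range.1 hr), zero_mul]
    refine card_le_card_of_injOn
      (fun j => if h : grp a b d j ≠ 0 then a * j + (hch j h).choose else 0) ?_ ?_
    · intro j hj
      rw [mem_coe, mem_filter, mem_range] at hj
      obtain ⟨hj1, hj2, hj3⟩ := hj
      simp only [dif_pos hj2]
      obtain ⟨hr1, hr2⟩ := (hch j hj2).choose_spec
      set r := (hch j hj2).choose with hr
      rw [mem_coe, mem_filter, mem_range]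
      refine ⟨?_, hr2, fun u => ?_⟩
      · have : a * j ≤ a * N := Nat.mul_le_mul_left _ (by omega)
        omega
      · have hH : H < a * (H / a + 1) := by
          have := Nat.lt_mul_div_succ H (show 0 < a by omega)
          exact this
        rcases hj3 u with h | h
        · left
          have h4 : a * (u ^ 3 + (H / a + 2) + 1) ≤ a * j := Nat.mul_le_mul_left _ (by omega)
          have h5 : a * (u ^ 3 + (H / a + 2) + 1) =
            a * u ^ 3 + a * (H / a + 1) + a + a := by ring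
          omega
        · right
          have h4 : a * (j + (H / a + 2) + 1) ≤ a * u ^ 3 := Nat.mul_le_mul_left _ (by omega)
          have h5 : a * (j + (H / a + 2) + 1) = a * j + a * (H / a + 1) + a + a := by ring
          omega
    · intro j hj j' hj' heq
      rw [mem_coe, mem_filter, mem_range] at hj hj'
      simp only [dif_pos hj.2.1, dif_pos hj'.2.1] at heq
      have hr1 := (hch j hj.2.1).choose_spec.1
      have hr2 := (hch j' hj'.2.1).choose_spec.1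
      have e1 : (a * j + (hch j hj.2.1).choose) / a = j := by
        rw [Nat.mul_add_div (by omega), Nat.div_eq_of_lt hr1, add_zero]
      have e2 : (a * j' + (hch j' hj'.2.1).choose) / a = j' := by
        rw [Nat.mul_add_div (by omega), Nat.div_eq_of_lt hr2, add_zero]
      rw [← e1, ← e2, heq]
  refine ⟨c / (4 * a), by positivity, (N0 + 3) * a + 3 * a, fun N hN => ?_⟩
  have haR : (1 : ℝ) ≤ a := by exact_mod_cast ha
  set M := N / a - 1 with hM
  have hM1 : a * (M + 1) ≤ N := by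
    have h1 : 1 ≤ N / a := by
      rw [Nat.le_div_iff_mul_le (by omega)]
      nlinarith
    rw [hM, Nat.sub_add_cancel h1]
    exact Nat.mul_div_le N a
  have hM2 : N0 ≤ M := by
    have h1 : N0 + 3 ≤ N / a := by
      rw [Nat.le_div_iff_mul_le (by omega)]
      omega
    omega
  have hM3 : N < a * (M + 2) := by
    have h1 : N < a * (N / a + 1) := Nat.lt_mul_div_succ N (by omega)
    have h2 : 1 ≤ N / a := by
      rw [Nat.le_div_iff_mul_le (by omega)]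
      nlinarith
    have h3 : N / a + 1 = M + 2 := by omega
    rwa [h3] at h1
  have hM4 : 1 ≤ M := by
    have h1 : N0 + 3 ≤ N / a := by
      rw [Nat.le_div_iff_mul_le (by omega)]
      omega
    omega
  have h1 := hN0 M hM2
  have h2 : (offH (H / a + 2) (grp a b d) M : ℝ) ≤ offA a H d N := by
    have : a * M + a ≤ N := by
      have : a * (M + 1) = a * M + a := by ring
      omega
    exact_mod_cast (hcmp M).trans (offA_mono a H d this)
  refine le_trans ?_ (h1.trans h2)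
  have h3 : (N : ℝ) ≤ 3 * a * M := by
    have h4 : (N : ℝ) ≤ a * (M + 2) := by exact_mod_cast hM3.le
    have h5 : (1 : ℝ) ≤ M := by exact_mod_cast hM4
    nlinarith
  have h6 : (N : ℝ) ^ ((1 : ℝ) / 3) ≤ (3 * a) * (M : ℝ) ^ ((1 : ℝ) / 3) := by
    calc (N : ℝ) ^ ((1 : ℝ) / 3) ≤ (3 * a * M) ^ ((1 : ℝ) / 3) := by gcongr
      _ = (3 * (a : ℝ)) ^ ((1 : ℝ) / 3) * (M : ℝ) ^ ((1 : ℝ) / 3) :=
          Real.mul_rpow (by positivity) (by positivity)
      _ ≤ (3 * (a : ℝ)) ^ (1 : ℝ) * (M : ℝ) ^ ((1 : ℝ) / 3) := by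
          gcongr
          · linarith
          · norm_num
      _ = (3 * a) * (M : ℝ) ^ ((1 : ℝ) / 3) := by rw [Real.rpow_one]
  calc c / (4 * a) * (N : ℝ) ^ ((1 : ℝ) / 3) ≤ c / (4 * a) * ((3 * a) * (M : ℝ) ^ ((1 : ℝ) / 3)) := by
        gcongr
    _ = (3 / 4) * (c * (M : ℝ) ^ ((1 : ℝ) / 3)) := by field_simp
    _ ≤ 1 * (c * (M : ℝ) ^ ((1 : ℝ) / 3)) := by
        gcongr
        norm_num
    _ = c * (M : ℝ) ^ ((1 : ℝ) / 3) := one_mul _

end Pool.Agent.H52.TC
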