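import Mathlib

/-!
# Project TC (three cubes): `∑ ε_n b^(-n³)` is not algebraic of degree `≤ 3`

Problem MP_a7a9f5_nt (transcendence of `∑ d^(-n^s)`, `s ≥ 3`).

Idea: `T(M) = ∑_{i≥0} F(M+1+i) b^(-i-1)` is an integer for every `M`, it is `≥ 1` for almost all `M`, and it
is multiplied by `b^k` along a window of `k` places without sums of three cubes. By the cubic
residue characters there are residue classes modulo `q` in which almost all such windows are empty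
(for primes `p ≡ 1 (3)` and `n` a cubic non-residue, `u³+v³+w³ ≡ n` has `≤ p² - p` solutions),
whereas the mean of `T` over the residue class at the end of the window stays bounded.
All stubs: file `Pool/Agent/H52/TC/<NAME>.lean`, `import Pool.Agent.H52.TC.Stm`, namespace
`Pool.Agent.H52.TC`, theorem as said in the docstring.
-/

set_option autoImplicit false

namespace Pool.Agent.H52.TC

open Finset

/-- number of solutions of `u³ + v³ + w³ ≡ n` modulo `q` -/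
def rho (q n : ℕ) : ℕ :=
  ((range q ×ˢ range q ×ˢ range q).filter
    fun t => (t.1 ^ 3 + t.2.1 ^ 3 + t.2.2 ^ 3) ≡ n [MOD q]).card

/-- `E1 ε m = ε u` if `m = u³`, else `0` -/
def E1 (ε : ℕ → ℤ) (m : ℕ) : ℤ := ∑ u ∈ range (m + 1), if u ^ 3 = m then ε u else 0

/-- `∑ ε u * ε v` over `u³ + v³ = m` -/
def E2 (ε : ℕ → ℤ) (m : ℕ) : ℤ := ∑ ij ∈ antidiagonal m, E1 ε ij.1 * E1 ε ij.2

/-- `∑ ε u * ε v * ε w` over `u³ + v³ + w³ = m` -/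
def E3 (ε : ℕ → ℤ) (m : ℕ) : ℤ := ∑ ij ∈ antidiagonal m, E2 ε ij.1 * E1 ε ij.2

/-- the coefficient of `b^(-m)` in `a₃x³ + a₂x² + a₁x` -/
def F (ε : ℕ → ℤ) (a1 a2 a3 : ℤ) (m : ℕ) : ℤ := a3 * E3 ε m + a2 * E2 ε m + a1 * E1 ε m

/-- `T` is the integer sequence of the tails -/
def IsT (b : ℕ) (ε : ℕ → ℤ) (a1 a2 a3 : ℤ) (T : ℕ → ℤ) : Prop :=
  (∀ M, T (M + 1) = b * T M - F ε a1 a2 a3 (M + 1)) ∧
  ∀ M, HasSum (fun i : ℕ => (F ε a1 a2 a3 (M + 1 + i) : ℝ) / (b : ℝ) ^ (i + 1)) (T M)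

/-- TC-LOC, `theorem loc : S_LOC`. LOCAL COUNTS at a prime `p ≡ 1 (3)`; `G` = the cubic non-residues.
Proof. `χ` = a cubic multiplicative character of `ZMod p` (values in `ℂ`, `χ³ = 1`, `χ ≠ 1`; exists
as `3 ∣ p - 1`). For `t ≠ 0` the number of `u` with `u³ = t` is `1 + χ t + χ⁻¹ t` (for `t = 0` it is
`1`, the same formula). Multiply out the product of three such factors and sum over `t₁+t₂+t₃ = n`:
terms with one or two nontrivial characters vanish; with `J = jacobiSum χ χ`,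
`∑_{t₂+t₃=m} χ t₂ χ t₃ = χ²(m) J` (all `m`), `∑_{t₂+t₃=m} χ t₂ χ⁻¹ t₃ = -1 + p·[m=0]` (as `χ(-1)=1`),
so `∑ χχχ⁻¹ = p χ(n)`, `∑ χχχ = -J + p J [n=0]`. Hence
`rho p n = p² + 6 p Re χ(n) - 2 Re J + 2 p Re J [n=0]`.
(1) `n = g` a non-residue: `Re χ(g) = -1/2`, `|J| = √p` (`jacobiSum_mul_jacobiSum_inv`), so
`rho ≤ p² - 3p + 2√p ≤ p² - p`. (2) `t ≠ 0`: `1_G(g) = (2 - χ(g) - χ⁻¹(g))/3` for `g ≠ 0`,
`|G| = 2(p-1)/3`, `|∑_{g∈G} χ(g+t)| ≤ (2 + √p + 1)/3` (Jacobi sums again), so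
`∑_{g∈G} rho (g+t) ≤ |G|(p² + 2√p) + 6p(1+√p) + 2p√p ≤ |G|p² (1 + 21 p^(-3/2))`.
(The constant 21 may be replaced by 100 as in the statement; `p ≥ 7`.) -/
def S_LOC : Prop :=
  ∀ p : ℕ, p.Prime → p % 3 = 1 → ∃ G : Finset ℕ, G ⊆ range p ∧ G.Nonempty ∧
    (∀ g ∈ G, (rho p g : ℝ) ≤ (p : ℝ) ^ 2 * (1 - 1 / p)) ∧
    ∀ t : ℕ, ¬ p ∣ t →
      ∑ g ∈ G, (rho p (g + t) : ℝ) ≤ G.card * (p : ℝ) ^ 2 * (1 + 100 / ((p : ℝ) * Real.sqrt p))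

/-- TC-CRT, `theorem crt : S_CRT`. Chinese remainder theorem, and dependence on the class only. -/
def S_CRT : Prop :=
  (∀ q p n : ℕ, 0 < q → 0 < p → Nat.Coprime q p → rho (q * p) n = rho q n * rho p n) ∧
  (∀ q n m : ℕ, n ≡ m [MOD q] → rho q n = rho q m)

/-- TC-DIV, `theorem dv : S_DIV`. `∑ 1/p = ∞` over `p ≡ 1 (3)`. (Mathlib: PrimesInAP has the lower
bound of the L-series of the residue class as `s → 1+`; integrate over `s`; or find Mertens in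
progressions in the library.) -/
def S_DIV : Prop :=
  ∀ ε : ℝ, 0 < ε → ∀ y : ℕ, ∃ P : Finset ℕ, (∀ p ∈ P, p.Prime ∧ p % 3 = 1 ∧ y < p) ∧
    ∏ p ∈ P, (1 - 1 / (p : ℝ)) ≤ ε

/-- TC-EX, `theorem ex : S_LOC → S_CRT → S_DIV → S_EX`. Existence of the residue class.
Proof. Let `K1 = ∏ (1 + 100 p^(-3/2))` over all primes `p ≡ 1 (3)` (finite partial products are
`≤ K1 := exp (100 ∑ n^(-3/2))`), fix `k`. Choose disjoint finite sets `P_1, ..., P_k` of primes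
`≡ 1 (3)` with `∏_{p ∈ P_j} (1 - 1/p) ≤ 1/(1000 (k+1) K1)`, all primes `> 2k` (S_DIV with `y`
increasing).
Lemma (induction on a list of distinct primes `p` with a target `j_p ∈ [1,k]`): for all weights
`w_j ≥ 0`, `j < N`, there is `c` with, `q` = the product of the primes,
`∑_{j<N} w_j rho q (c+j)/q² ≤ ∑_{j<N} w_j ∏_p f_p(j)`, where `f_p(j) = 1 - 1/p` if `j = j_p`,
`f_p(j) = 1 + 100 p^(-3/2)` if `j ≢ j_p (p)`, and `f_p(j) = 1` (bound of (1)) if `j ≡ j_p (p)`, `j ≠ j_p`.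
Step: given a new prime `p`, apply the induction hypothesis to the weights `w_j f_p(j)` to get `c`;
then average over `g ∈ G_p` the class `c' ≡ c (q)`, `c' + j_p ≡ g (p)`; by S_CRT
`rho (qp) (c'+j) = rho q (c+j) * rho p (g + (j - j_p))`, and the average over `g` is
`≤ rho q (c+j) p² f_p(j)`; so some `g` is as good as the average.
Apply it with `w_j = 100 * 2` for `1 ≤ j ≤ k` and `w_(k+1+i) = (i+1)/2^(i+1)/(4 K1)`, `i < N'`: the right side is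
`≤ 200 k/(1000(k+1)) + 2 K1/(4 K1) < 1`. So each part is `≤ 1`: `∑_{j≤k} rho q (c+j) ≤ q²/200`, and
`∑_{i<N'} (i+1)/2^(i+1) rho q (c+k+1+i) ≤ 4 K1 q²`; as `rho q ≤ q³`, `N'` large depending on `q`
(`q` is fixed before `c`) the rest of the series is `≤ q²`. So `K0 = 4 K1 + 1`. -/
def S_EX : Prop :=
  ∃ K0 : ℝ, 0 < K0 ∧ ∀ k : ℕ, ∃ q c : ℕ, 1 ≤ q ∧
    ∑ j ∈ Icc 1 k, (rho q (c + j) : ℝ) ≤ (q : ℝ) ^ 2 / 100 ∧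
    ∀ N : ℕ, ∑ i ∈ range N, ((i : ℝ) + 1) / 2 ^ (i + 1) * rho q (c + k + 1 + i) ≤ K0 * (q : ℝ) ^ 2

/-- TC-LAT, `theorem lat : S_LAT`. Lattice points: every `u ≤ s` counted by its class modulo `q`
(each class has at most `s / q + 1` numbers `≤ s`). Also the sums of `E1`, `E2`. -/
def S_LAT : Prop :=
  ∀ (ε : ℕ → ℤ) (C : ℤ), (∀ n, 0 ≤ ε n ∧ ε n ≤ C) → ∀ s Y : ℕ, Y < (s + 1) ^ 3 →
    (∀ q n : ℕ, 1 ≤ q →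
      ∑ m ∈ (range (Y + 1)).filter (fun m => m ≡ n [MOD q]), E3 ε m ≤
        C ^ 3 * (rho q n : ℤ) * ((s / q + 1 : ℕ) : ℤ) ^ 3) ∧
    ∑ m ∈ range (Y + 1), E2 ε m ≤ C ^ 2 * ((s : ℤ) + 1) ^ 2 ∧
    ∑ m ∈ range (Y + 1), E1 ε m ≤ C * ((s : ℤ) + 1)

/-- TC-SUP, `theorem sup : S_SUP`. Positivity, supports and trivial bounds. -/
def S_SUP : Prop :=
  ∀ (ε : ℕ → ℤ) (C : ℤ), (∀ n, 1 ≤ ε n ∧ ε n ≤ C) →
    (∀ m, 0 ≤ E1 ε m ∧ 0 ≤ E2 ε m ∧ 0 ≤ E3 ε m) ∧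
    (∀ u v w : ℕ, 1 ≤ E3 ε (u ^ 3 + v ^ 3 + w ^ 3)) ∧
    (∀ m, E1 ε m ≠ 0 → ∃ u v : ℕ, m = u ^ 3 + v ^ 3) ∧
    (∀ m, E2 ε m ≠ 0 → ∃ u v : ℕ, m = u ^ 3 + v ^ 3) ∧
    (∀ m, E1 ε m ≤ C ∧ E2 ε m ≤ C ^ 2 * ((m : ℤ) + 1) ∧ E3 ε m ≤ C ^ 3 * ((m : ℤ) + 1) ^ 2)

/-- TC-ANA, `theorem ana : S_ANA`. Cauchy products, `T(M) = -a₀ b^M - ∑_{m ≤ M} F(m) b^(M-m)`. -/
def S_ANA : Prop :=
  ∀ b : ℕ, 2 ≤ b → ∀ (ε : ℕ → ℤ) (C : ℤ), (∀ n, 1 ≤ ε n ∧ ε n ≤ C) →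
    ∀ a0 a1 a2 a3 : ℤ, ∀ x : ℝ, x = ∑' n : ℕ, (ε n : ℝ) / (b : ℝ) ^ (n ^ 3) →
      a3 * x ^ 3 + a2 * x ^ 2 + a1 * x + a0 = 0 → ∃ T : ℕ → ℤ, IsT b ε a1 a2 a3 T

/-- TC-GRE, `theorem gre : S_GRE`. Greedy: `u = ⌊M^(1/3)⌋`, `M - u³ ≤ 7 M^(2/3)`, `v` the same for the
rest `≤ 26 M^(4/9)`, then `w³` just above the second rest: gap `≪ M^(8/27)`. -/
def S_GRE : Prop :=
  ∃ K : ℕ, ∀ M : ℕ, ∃ u v w : ℕ, M < u ^ 3 + v ^ 3 + w ^ 3 ∧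
    (u ^ 3 + v ^ 3 + w ^ 3 - M) ^ 27 ≤ K * (M + 1) ^ 8

/-- TC-POS, `theorem pos : S_GRE → S_SUP → S_LAT → S_POS`. `T(M) ≥ 1` for almost all `M`.
Proof. Let `H = 2 ⌈(K (X+1)^8)^(1/27)⌉ + 1`-ish `≍ X^(8/27)`. If there is no sum of two cubes in
`(M, M + H]` (all but `≤ H (#sums of two cubes ≤ X + H) ≪ H X^(2/3) = o(X)` of the `M < X`) then with the
sum of three cubes `m₀ ∈ (M, M + H/2]` of S_GRE, `T(M) ≥ a₃ b^(-H/2) - ∑_{i ≥ H} (|a₂| C² (M+i+2) +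
|a₁| C) b^(-i-1) > 0` for large `X`, and `T(M)` is an integer. -/
def S_POS : Prop :=
  ∀ b : ℕ, 2 ≤ b → ∀ (ε : ℕ → ℤ) (C : ℤ), (∀ n, 1 ≤ ε n ∧ ε n ≤ C) →
    ∀ a1 a2 a3 : ℤ, 1 ≤ a3 → ∀ T : ℕ → ℤ, IsT b ε a1 a2 a3 T →
      ∀ η : ℝ, 0 < η → ∃ X0 : ℕ, ∀ X : ℕ, X0 ≤ X →
        (((range X).filter fun M => T M < 1).card : ℝ) ≤ η * X

/-- TC-UP, `theorem up : S_SUP → S_LAT → S_UP`. The mean of `|T|` over a residue class.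
Proof. `|T M| ≤ ∑_i |F(M+1+i)| 2^(-i-1)`; sum over `M`, `m = M+1+i ≤ X+i`, `m ≡ c+1+i`. With
`s = ⌊(X+i)^(1/3)⌋`, `(s/q+1)³ ≤ 8 (X+i)/q³ ≤ 8 X (i+1)/q³` for `X ≥ q³`. The terms of `E2`, `E1` give
`O(X^(2/3))`. -/
def S_UP : Prop :=
  ∀ b : ℕ, 2 ≤ b → ∀ (ε : ℕ → ℤ) (C : ℤ), (∀ n, 1 ≤ ε n ∧ ε n ≤ C) →
    ∀ a1 a2 a3 : ℤ, 1 ≤ a3 → ∀ T : ℕ → ℤ, IsT b ε a1 a2 a3 T →
      ∀ (q c : ℕ) (K : ℝ), 1 ≤ q →
        (∀ N : ℕ, ∑ i ∈ range N, ((i : ℝ) + 1) / 2 ^ (i + 1) * rho q (c + 1 + i) ≤ K * (q : ℝ) ^ 2) →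
        ∃ X0 : ℕ, ∀ X : ℕ, X0 ≤ X →
          ∑ M ∈ (range X).filter (fun M => M ≡ c [MOD q]), |(T M : ℝ)| ≤
            (8 * a3 * C ^ 3 * K + 1) * X / q

open Classical in
/-- TC-WIN, `theorem win : S_SUP → S_LAT → S_WIN`. Most windows in the class `c` are empty.
Proof. If `F (M+j) ≠ 0` then `M + j` is a sum of two cubes (`O(k X^(2/3))` numbers `M`) or
`E3 ε (M+j) ≥ 1`, i.e. `E3 1 (M+j) ≥ 1` (`ε = 1`; or use `E3 ε` itself: it is positive, an integer,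
so `≥ 1`; take S_LAT with the constant sequence `1`, `C = 1`: `E3 ε m ≠ 0 → E3 1 m ≥ 1`). Sum over
`j`, S_LAT, `(s/q+1)³ ≤ 8 (X+k)/q³`: `≤ 8 (X+k)/q³ · q²/100 + o(X) ≤ X/(4q)`. -/
def S_WIN : Prop :=
  ∀ (ε : ℕ → ℤ) (C : ℤ), (∀ n, 1 ≤ ε n ∧ ε n ≤ C) → ∀ a1 a2 a3 : ℤ, ∀ q c k : ℕ, 1 ≤ q →
    ∑ j ∈ Icc 1 k, (rho q (c + j) : ℝ) ≤ (q : ℝ) ^ 2 / 100 →
      ∃ X0 : ℕ, ∀ X : ℕ, X0 ≤ X →
        (((range X).filter fun M => M ≡ c [MOD q] ∧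
          ∃ j ∈ Icc 1 k, F ε a1 a2 a3 (M + j) ≠ 0).card : ℝ) ≤ X / (4 * q)

/-- Assembly (helper52). -/
def S_FIN : Prop :=
  ∀ b : ℕ, 2 ≤ b → ∀ (ε : ℕ → ℤ) (C : ℤ), (∀ n, 1 ≤ ε n ∧ ε n ≤ C) →
    ∀ a0 a1 a2 a3 : ℤ, 1 ≤ a3 → ∀ x : ℝ, x = ∑' n : ℕ, (ε n : ℝ) / (b : ℝ) ^ (n ^ 3) →
      a3 * x ^ 3 + a2 * x ^ 2 + a1 * x + a0 ≠ 0

end Pool.Agent.H52.TC
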