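import Pool.Agent.H52.TC.Stm

/-!
# Project TC, second part: ANY bounded coefficients `≥ 0`, infinitely many `≠ 0`

Theorem: if `0 ≤ ε n ≤ C` are integers, infinitely many of them nonzero, then `∑ ε_n b^(-n³)` is not
algebraic of degree `≤ 3`: an irrational number of degree `≤ 3` cannot have all its nonzero base `b`
digits at places which are cubes.
All stubs: file `Pool/Agent/H52/TC/<NAME>.lean`, `import Pool.Agent.H52.TC.Stm2`, namespace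
`Pool.Agent.H52.TC`, theorem as said in the docstring.
-/

set_option autoImplicit false

namespace Pool.Agent.H52.TC

open Finset

/-- TC-SUP2, `theorem sup2 : S_SUP2`. -/
def S_SUP2 : Prop :=
  ∀ (ε : ℕ → ℤ) (C : ℤ), (∀ n, 0 ≤ ε n ∧ ε n ≤ C) →
    (∀ m, 0 ≤ E1 ε m ∧ 0 ≤ E2 ε m ∧ 0 ≤ E3 ε m) ∧
    (∀ m, E1 ε m ≠ 0 → ∃ u : ℕ, m = u ^ 3 ∧ ε u ≠ 0) ∧
    (∀ u, ε u ≠ 0 → E1 ε (u ^ 3) ≠ 0) ∧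
    (∀ i j, E1 ε i ≠ 0 → E1 ε j ≠ 0 → E2 ε (i + j) ≠ 0) ∧
    (∀ i j, E2 ε i ≠ 0 → E1 ε j ≠ 0 → E3 ε (i + j) ≠ 0) ∧
    (∀ m, E2 ε m ≠ 0 → ∃ i j, m = i + j ∧ E1 ε i ≠ 0 ∧ E1 ε j ≠ 0) ∧
    (∀ m, E1 ε m ≤ C ∧ E2 ε m ≤ C ^ 2 * ((m : ℤ) + 1) ∧ E3 ε m ≤ C ^ 3 * ((m : ℤ) + 1) ^ 2)

/-- TC-ANA2, `theorem ana2 : S_ANA2` (as S_ANA, see ANA.lean, now with `0 ≤ ε n`). -/
def S_ANA2 : Prop :=
  ∀ b : ℕ, 2 ≤ b → ∀ (ε : ℕ → ℤ) (C : ℤ), (∀ n, 0 ≤ ε n ∧ ε n ≤ C) →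
    ∀ a0 a1 a2 a3 : ℤ, ∀ x : ℝ, x = ∑' n : ℕ, (ε n : ℝ) / (b : ℝ) ^ (n ^ 3) →
      a3 * x ^ 3 + a2 * x ^ 2 + a1 * x + a0 = 0 → ∃ T : ℕ → ℤ, IsT b ε a1 a2 a3 T

/-- TC-UP2, `theorem up2 : S_SUP2 → S_LAT → S_UP2` (as S_UP, see UP.lean, now with `0 ≤ ε n`). -/
def S_UP2 : Prop :=
  ∀ b : ℕ, 2 ≤ b → ∀ (ε : ℕ → ℤ) (C : ℤ), (∀ n, 0 ≤ ε n ∧ ε n ≤ C) →
    ∀ a1 a2 a3 : ℤ, 1 ≤ a3 → ∀ T : ℕ → ℤ, IsT b ε a1 a2 a3 T →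
      ∀ (q c : ℕ) (K : ℝ), 1 ≤ q →
        (∀ N : ℕ, ∑ i ∈ range N, ((i : ℝ) + 1) / 2 ^ (i + 1) * rho q (c + 1 + i) ≤ K * (q : ℝ) ^ 2) →
        ∃ X0 : ℕ, ∀ X : ℕ, X0 ≤ X →
          ∑ M ∈ (range X).filter (fun M => M ≡ c [MOD q]), |(T M : ℝ)| ≤
            (8 * a3 * C ^ 3 * K + 1) * X / q

open Classical in
/-- TC-WIN2, `theorem win2 : S_SUP2 → S_LAT → S_WIN2` (as S_WIN, now with `0 ≤ ε n`, and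
`X / (50 q)` (the bound of the proof is `8 (X+k)/q³ · q²/100 + o(X)`, this is `0.08 X/q`, so the
statement asks for `X / (10 q)`). -/
def S_WIN2 : Prop :=
  ∀ (ε : ℕ → ℤ) (C : ℤ), (∀ n, 0 ≤ ε n ∧ ε n ≤ C) → ∀ a1 a2 a3 : ℤ, ∀ q c k : ℕ, 1 ≤ q →
    ∑ j ∈ Icc 1 k, (rho q (c + j) : ℝ) ≤ (q : ℝ) ^ 2 / 100 →
      ∃ X0 : ℕ, ∀ X : ℕ, X0 ≤ X →
        (((range X).filter fun M => M ≡ c [MOD q] ∧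
          ∃ j ∈ Icc 1 k, F ε a1 a2 a3 (M + j) ≠ 0).card : ℝ) ≤ X / (10 * q)

/-- TC-IRR, `theorem irr : S_IRR`. The digits (coefficients) are sparse: gaps between cubes. If
`x = p/r`, take `N` large: `b^(N³) x - integer = tail`, `0 < tail < 1/r`. (Positive since infinitely
many `ε n > 0`, small since the next cube is `≥ N³ + 3N²`.) -/
def S_IRR : Prop :=
  ∀ b : ℕ, 2 ≤ b → ∀ (ε : ℕ → ℤ) (C : ℤ), (∀ n, 0 ≤ ε n ∧ ε n ≤ C) →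
    (∀ N : ℕ, ∃ n, N ≤ n ∧ ε n ≠ 0) → Irrational (∑' n : ℕ, (ε n : ℝ) / (b : ℝ) ^ (n ^ 3))

/-- TC-LIO, `theorem lio : S_IRR → S_LIO`. Liouville's inequality
(`Liouville.exists_pos_real_of_irrational_root` in Mathlib) for `x`, a root of a nonzero polynomial
of degree 3: with `p/b^m` = the sum of the terms with `n³ ≤ m` and `m'` = the next place
(`m' > m` minimal with `E1 ε m' ≠ 0`): `0 < x - p/b^m ≤ 2 C b^(-m')`, so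
`b^(3m) * 2 C b^(-m') A ≥ 1`, `m' ≤ 3 m + K`. -/
def S_LIO : Prop :=
  ∀ b : ℕ, 2 ≤ b → ∀ (ε : ℕ → ℤ) (C : ℤ), (∀ n, 0 ≤ ε n ∧ ε n ≤ C) →
    (∀ N : ℕ, ∃ n, N ≤ n ∧ ε n ≠ 0) →
    ∀ a0 a1 a2 a3 : ℤ, 1 ≤ a3 → ∀ x : ℝ, x = ∑' n : ℕ, (ε n : ℝ) / (b : ℝ) ^ (n ^ 3) →
      a3 * x ^ 3 + a2 * x ^ 2 + a1 * x + a0 = 0 →
        ∃ K : ℕ, ∀ m : ℕ, ∃ m' : ℕ, m < m' ∧ m' ≤ 3 * m + K ∧ E1 ε m' ≠ 0

/-- TC-POSA, `theorem posa : S_SUP2 → S_POSA`. `T(M) ≥ 1` after a sum `R` of two places, up to `R + a`.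
Proof: `T M = ∑_{m > M} F(m) b^(M-m)`. For `M < m < R'`: `F m = a₃ E3 m ≥ 0`, and `F (R+a) ≥ 1`, so
this part is `≥ b^(M-R-a)`. For `m ≥ R'`: `F m ≥ -(|a₂| C² + |a₁| C)(m+1)`, so this part is
`≥ -4 (|a₂| C² + |a₁| C)(R'+3) b^(M-R')`. As `2^(K1 (log₂(R'+2) + 1)) ≥ (R'+2)^K1`, the sum is `> 0`
if `K1` is large, and `T M` is an integer. -/
def S_POSA : Prop :=
  ∀ b : ℕ, 2 ≤ b → ∀ (ε : ℕ → ℤ) (C : ℤ), (∀ n, 0 ≤ ε n ∧ ε n ≤ C) →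
    ∀ a1 a2 a3 : ℤ, 1 ≤ a3 → ∀ T : ℕ → ℤ, IsT b ε a1 a2 a3 T →
      ∃ K1 : ℕ, ∀ R a R' : ℕ, E2 ε R ≠ 0 → E1 ε a ≠ 0 →
        (∀ m, R < m → m < R' → E1 ε m = 0 ∧ E2 ε m = 0) →
        R + a + K1 * (Nat.log 2 (R' + 2) + 1) ≤ R' → ∀ M, R ≤ M → M < R + a → 1 ≤ T M

open Classical in
/-- TC-POSB, `theorem posb : S_POSB`. Pure combinatorics. `S ⊇ S2`, `S ⊇ A`. The gaps of `S` are
`(R, R')`. If `R ∈ S2` and `a` = the largest element of `A` with `R + a + K1 (log₂(R'+2)+1) ≤ R'`, then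
`a ≥ (R' - R - K1 (log₂(R'+2)+1) - K)/3` (hA), and the `M ∈ [R, R+a)` are good, at least `a/q - 1` of them
`≡ c (q)`. If `R ∈ S`, `R ∉ S2` then the gap is short, `≤ a0` (hS2). So by induction along `S`: for
`R ∈ S`, `R ≤ X`: `#{M < R good, ≡ c} ≥ R/(3q) - (#S ∩ [0,R) + 1) * (K1 (log₂(X+2)+1) + K + a0 + 4 + m0)/q`
(`m0` = the first element of `S`). The number of elements of `S` below `X` is `≤ 2 (s+1)²` if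
`X ≤ (s+1)³` (hcard), so the last term is `O(X^(2/3) log X) = o(X)`. Take `X` = a large element of `A`
(`A ⊆ S`; by hA there are arbitrarily large ones). -/
def S_POSB : Prop :=
  ∀ (S S2 A good : ℕ → Prop) (K K1 a0 : ℕ),
    (∀ m, S2 m → S m) → (∀ m, A m → S m) → A a0 → 1 ≤ a0 →
    (∀ m, S m → ¬ S2 m → S2 (m + a0)) →
    (∀ m : ℕ, ∃ m' : ℕ, m < m' ∧ m' ≤ 3 * m + K ∧ A m') →
    (∀ s X : ℕ, X ≤ (s + 1) ^ 3 → ((range X).filter S).card ≤ 2 * (s + 1) ^ 2) →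
    (∀ R a R' : ℕ, S2 R → A a → (∀ m, R < m → m < R' → ¬ S m) →
      R + a + K1 * (Nat.log 2 (R' + 2) + 1) ≤ R' → ∀ M, R ≤ M → M < R + a → good M) →
    ∀ q c : ℕ, 1 ≤ q → ∀ X1 : ℕ, ∃ X, X1 ≤ X ∧
      (X : ℝ) / (8 * q) ≤ ((range X).filter fun M => M ≡ c [MOD q] ∧ good M).card

open Classical in
/-- TC-CNT, `theorem cnt : S_SUP2 → S_CNT`. -/
def S_CNT : Prop :=
  ∀ (ε : ℕ → ℤ) (C : ℤ), (∀ n, 0 ≤ ε n ∧ ε n ≤ C) → ∀ s X : ℕ, X ≤ (s + 1) ^ 3 →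
    ((range X).filter fun m => E1 ε m ≠ 0 ∨ E2 ε m ≠ 0).card ≤ 2 * (s + 1) ^ 2

/-- Assembly (helper52). -/
def S_FIN2 : Prop :=
  ∀ b : ℕ, 2 ≤ b → ∀ (ε : ℕ → ℤ) (C : ℤ), (∀ n, 0 ≤ ε n ∧ ε n ≤ C) →
    (∀ N : ℕ, ∃ n, N ≤ n ∧ ε n ≠ 0) →
    ∀ a0 a1 a2 a3 : ℤ, 1 ≤ a3 → ∀ x : ℝ, x = ∑' n : ℕ, (ε n : ℝ) / (b : ℝ) ^ (n ^ 3) →
      a3 * x ^ 3 + a2 * x ^ 2 + a1 * x + a0 ≠ 0

end Pool.Agent.H52.TC
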