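import Pool.Agent.H52.TC.Stm2

/-!
# Project TC, third part: digits OFF the cubes

Theorem: every real irrational algebraic number of degree `≤ 3` has, in every base `b`, for some
`c > 0` and arbitrarily large `N` at least `c N^(1/3)` nonzero digits at places `≤ N` which are NOT
cubes. Everything as in Stm.lean, Stm2.lean, now for a general sequence `e` of coefficients
(`x = ∑ e_m b^(-m)`, `0 ≤ e m ≤ C`), with only few `e m ≠ 0` off the cubes.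
All stubs: file `Pool/Agent/H52/TC/<NAME>.lean`, `import Pool.Agent.H52.TC.Stm3`, namespace
`Pool.Agent.H52.TC`, theorem as said in the docstring.
-/

set_option autoImplicit false

namespace Pool.Agent.H52.TC

open Finset

def G2 (e : ℕ → ℤ) (m : ℕ) : ℤ := ∑ ij ∈ antidiagonal m, e ij.1 * e ij.2

def G3 (e : ℕ → ℤ) (m : ℕ) : ℤ := ∑ ij ∈ antidiagonal m, G2 e ij.1 * e ij.2

def FG (e : ℕ → ℤ) (a1 a2 a3 : ℤ) (m : ℕ) : ℤ := a3 * G3 e m + a2 * G2 e m + a1 * e m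

def IsTG (b : ℕ) (e : ℕ → ℤ) (a1 a2 a3 : ℤ) (T : ℕ → ℤ) : Prop :=
  (∀ M, T (M + 1) = b * T M - FG e a1 a2 a3 (M + 1)) ∧
  ∀ M, HasSum (fun i : ℕ => (FG e a1 a2 a3 (M + 1 + i) : ℝ) / (b : ℝ) ^ (i + 1)) (T M)

open Classical in
/-- the number of `m ≤ N` off the cubes with `e m ≠ 0` -/
noncomputable def off (e : ℕ → ℤ) (N : ℕ) : ℕ :=
  ((range (N + 1)).filter fun m => e m ≠ 0 ∧ ∀ u : ℕ, u ^ 3 ≠ m).card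

/-- few nonzero coefficients off the cubes: `o(N^(1/3))` for `N = s³` -/
def Few (e : ℕ → ℤ) : Prop :=
  ∀ η : ℝ, 0 < η → ∃ s0 : ℕ, ∀ s : ℕ, s0 ≤ s → (off e (s ^ 3) : ℝ) ≤ η * s

/-- TC-SUP3, `theorem sup3 : S_SUP3` (as SUP2). -/
def S_SUP3 : Prop :=
  ∀ (e : ℕ → ℤ) (C : ℤ), (∀ n, 0 ≤ e n ∧ e n ≤ C) →
    (∀ m, 0 ≤ G2 e m ∧ 0 ≤ G3 e m) ∧
    (∀ i j, e i ≠ 0 → e j ≠ 0 → G2 e (i + j) ≠ 0) ∧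
    (∀ i j, G2 e i ≠ 0 → e j ≠ 0 → G3 e (i + j) ≠ 0) ∧
    (∀ m, G2 e m ≠ 0 → ∃ i j, m = i + j ∧ e i ≠ 0 ∧ e j ≠ 0) ∧
    (∀ m, G2 e m ≤ C ^ 2 * ((m : ℤ) + 1) ∧ G3 e m ≤ C ^ 3 * ((m : ℤ) + 1) ^ 2)

/-- TC-ANA3, `theorem ana3 : S_ANA3` (as ANA, simpler: `x = ∑ e_m b^(-m)`). -/
def S_ANA3 : Prop :=
  ∀ b : ℕ, 2 ≤ b → ∀ (e : ℕ → ℤ) (C : ℤ), (∀ n, 0 ≤ e n ∧ e n ≤ C) →
    ∀ a0 a1 a2 a3 : ℤ, ∀ x : ℝ, x = ∑' m : ℕ, (e m : ℝ) / (b : ℝ) ^ m →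
      a3 * x ^ 3 + a2 * x ^ 2 + a1 * x + a0 = 0 → ∃ T : ℕ → ℤ, IsTG b e a1 a2 a3 T

/-- TC-LIO3, `theorem lio3 : S_LIO3` (as LIO, irrationality is a hypothesis). -/
def S_LIO3 : Prop :=
  ∀ b : ℕ, 2 ≤ b → ∀ (e : ℕ → ℤ) (C : ℤ), (∀ n, 0 ≤ e n ∧ e n ≤ C) →
    ∀ a0 a1 a2 a3 : ℤ, 1 ≤ a3 → ∀ x : ℝ, x = ∑' m : ℕ, (e m : ℝ) / (b : ℝ) ^ m → Irrational x →
      a3 * x ^ 3 + a2 * x ^ 2 + a1 * x + a0 = 0 →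
        ∃ K : ℕ, ∀ m : ℕ, ∃ m' : ℕ, m < m' ∧ m' ≤ 3 * m + K ∧ e m' ≠ 0

/-- TC-POSA3, `theorem posa3 : S_SUP3 → S_POSA3` (as POSA). -/
def S_POSA3 : Prop :=
  ∀ b : ℕ, 2 ≤ b → ∀ (e : ℕ → ℤ) (C : ℤ), (∀ n, 0 ≤ e n ∧ e n ≤ C) →
    ∀ a1 a2 a3 : ℤ, 1 ≤ a3 → ∀ T : ℕ → ℤ, IsTG b e a1 a2 a3 T →
      ∃ K1 : ℕ, ∀ R a R' : ℕ, G2 e R ≠ 0 → e a ≠ 0 →
        (∀ m, R < m → m < R' → e m = 0 ∧ G2 e m = 0) →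
        R + a + K1 * (Nat.log 2 (R' + 2) + 1) ≤ R' → ∀ M, R ≤ M → M < R + a → 1 ≤ T M

open Classical in
/-- TC-POSB3, `theorem posb3 : S_POSB3` (as POSB, with an arbitrary constant `K2` instead of `2`). -/
def S_POSB3 : Prop :=
  ∀ (S S2 A good : ℕ → Prop) (K K1 K2 a0 : ℕ),
    (∀ m, S2 m → S m) → (∀ m, A m → S m) → A a0 → 1 ≤ a0 →
    (∀ m, S m → ¬ S2 m → S2 (m + a0)) →
    (∀ m : ℕ, ∃ m' : ℕ, m < m' ∧ m' ≤ 3 * m + K ∧ A m') →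
    (∀ s X : ℕ, X ≤ (s + 1) ^ 3 → ((range X).filter S).card ≤ K2 * (s + 1) ^ 2) →
    (∀ R a R' : ℕ, S2 R → A a → (∀ m, R < m → m < R' → ¬ S m) →
      R + a + K1 * (Nat.log 2 (R' + 2) + 1) ≤ R' → ∀ M, R ≤ M → M < R + a → good M) →
    ∀ q c : ℕ, 1 ≤ q → ∀ X1 : ℕ, ∃ X, X1 ≤ X ∧
      (X : ℝ) / (8 * q) ≤ ((range X).filter fun M => M ≡ c [MOD q] ∧ good M).card

open Classical in
/-- TC-CNT3, `theorem cnt3 : S_SUP3 → S_CNT3`. The places `≤ X` number at most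
`s + 1 + off e ((s+1)³) ≤ K (s + 1)`. -/
def S_CNT3 : Prop :=
  ∀ (e : ℕ → ℤ) (C : ℤ), (∀ n, 0 ≤ e n ∧ e n ≤ C) → Few e →
    ∃ K2 : ℕ, ∀ s X : ℕ, X ≤ (s + 1) ^ 3 →
      ((range X).filter fun m => e m ≠ 0 ∨ G2 e m ≠ 0).card ≤ K2 * (s + 1) ^ 2

/-- TC-LAT3, `theorem lat3 : S_LAT3`. Lattice points (see LAT.lean), `D = off e Y`: triples of places
`i, j, l` with `i + j + l ≤ Y`: all three cubes `u³`, `u ≤ s` (counted by classes modulo `q`), or one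
of them off the cubes (`3 D (s + 1 + D)²` triples). -/
def S_LAT3 : Prop :=
  ∀ (e : ℕ → ℤ) (C : ℤ), (∀ n, 0 ≤ e n ∧ e n ≤ C) → ∀ s Y : ℕ, Y < (s + 1) ^ 3 →
    (∀ q n : ℕ, 1 ≤ q →
      ∑ m ∈ (range (Y + 1)).filter (fun m => m ≡ n [MOD q]), G3 e m ≤
        C ^ 3 * ((rho q n : ℤ) * ((s / q + 1 : ℕ) : ℤ) ^ 3 +
          3 * (off e Y : ℤ) * ((s : ℤ) + 1 + off e Y) ^ 2)) ∧
    ∑ m ∈ range (Y + 1), G2 e m ≤ C ^ 2 * ((s : ℤ) + 1 + off e Y) ^ 2 ∧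
    ∑ m ∈ range (Y + 1), e m ≤ C * ((s : ℤ) + 1 + off e Y)

/-- TC-UP3, `theorem up3 : S_SUP3 → S_LAT3 → S_UP3` (as UP; the new terms are
`3 D (s+1+D)² ≤ 3 η (1+η)² (s+1)³`, `D = off e (X+i) ≤ off e ((s+1)³) ≤ η (s+1)`, `η` small). -/
def S_UP3 : Prop :=
  ∀ b : ℕ, 2 ≤ b → ∀ (e : ℕ → ℤ) (C : ℤ), (∀ n, 0 ≤ e n ∧ e n ≤ C) → Few e →
    ∀ a1 a2 a3 : ℤ, 1 ≤ a3 → ∀ T : ℕ → ℤ, IsTG b e a1 a2 a3 T →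
      ∀ (q c : ℕ) (K : ℝ), 1 ≤ q →
        (∀ N : ℕ, ∑ i ∈ range N, ((i : ℝ) + 1) / 2 ^ (i + 1) * rho q (c + 1 + i) ≤ K * (q : ℝ) ^ 2) →
        ∃ X0 : ℕ, ∀ X : ℕ, X0 ≤ X →
          ∑ M ∈ (range X).filter (fun M => M ≡ c [MOD q]), |(T M : ℝ)| ≤
            (8 * a3 * C ^ 3 * K + 1) * X / q

open Classical in
/-- TC-WIN3, `theorem win3 : S_SUP3 → S_LAT3 → S_WIN3` (as WIN2; apply S_LAT3 to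
`min (e m) 1`, `C = 1`; `Few`, `off` depend only on the support). -/
def S_WIN3 : Prop :=
  ∀ (e : ℕ → ℤ) (C : ℤ), (∀ n, 0 ≤ e n ∧ e n ≤ C) → Few e →
    ∀ a1 a2 a3 : ℤ, ∀ q c k : ℕ, 1 ≤ q →
    ∑ j ∈ Icc 1 k, (rho q (c + j) : ℝ) ≤ (q : ℝ) ^ 2 / 100 →
      ∃ X0 : ℕ, ∀ X : ℕ, X0 ≤ X →
        (((range X).filter fun M => M ≡ c [MOD q] ∧
          ∃ j ∈ Icc 1 k, FG e a1 a2 a3 (M + j) ≠ 0).card : ℝ) ≤ X / (10 * q)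

/-- Assembly (helper52). -/
def S_FIN3 : Prop :=
  ∀ b : ℕ, 2 ≤ b → ∀ (e : ℕ → ℤ) (C : ℤ), (∀ n, 0 ≤ e n ∧ e n ≤ C) → Few e →
    ∀ a0 a1 a2 a3 : ℤ, 1 ≤ a3 → ∀ x : ℝ, x = ∑' m : ℕ, (e m : ℝ) / (b : ℝ) ^ m → Irrational x →
      a3 * x ^ 3 + a2 * x ^ 2 + a1 * x + a0 ≠ 0

end Pool.Agent.H52.TC
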