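import Pool.Agent.H52.TC.Stm3

/-!
# Project TC, fourth part: the lower bound at EVERY scale `N = s³`

The same proofs at one scale: only `off e (s³) ≤ η s` for ONE large `s` is assumed, `η` a small
constant, and everything happens for `M < X`, `s³/12 ≤ X ≤ s³/2`.
All stubs: file `Pool/Agent/H52/TC/<NAME>.lean`, `import Pool.Agent.H52.TC.Stm4`, namespace
`Pool.Agent.H52.TC`, theorem as said in the docstring.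
-/

set_option autoImplicit false

namespace Pool.Agent.H52.TC

open Finset

open Classical in
/-- TC-CNT4, `theorem cnt4 : S_SUP3 → S_CNT4`. Cubes `< s³`: `s`; off the cubes `≤ s`; sums of two. -/
def S_CNT4 : Prop :=
  ∀ (e : ℕ → ℤ) (C : ℤ), (∀ n, 0 ≤ e n ∧ e n ≤ C) →
    ∀ s X : ℕ, off e (s ^ 3) ≤ s → X ≤ s ^ 3 →
      ((range X).filter fun m => e m ≠ 0 ∨ G2 e m ≠ 0).card ≤ 8 * (s + 1) ^ 2

open Classical in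
/-- TC-POSB4, `theorem posb4 : S_POSB4` (proof of POSB/POSB3 at one scale: apply hA to `m = s³/12` to get
an element `X` of `A`, `s³/12 < X ≤ 3 s³/12 + K ≤ s³/3`; the bound
`#{M < X good, ≡ c} ≥ X/(3q) - (#S ∩ [0,X) + 1) O(log X) ≥ X/(8q)` as `#S ∩ [0,X) ≤ 8 (s+1)²`). -/
def S_POSB4 : Prop :=
  ∀ (S S2 A good : ℕ → Prop) (K K1 a0 : ℕ),
    (∀ m, S2 m → S m) → (∀ m, A m → S m) → A a0 → 1 ≤ a0 →
    (∀ m, S m → ¬ S2 m → S2 (m + a0)) →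
    (∀ m : ℕ, ∃ m' : ℕ, m < m' ∧ m' ≤ 3 * m + K ∧ A m') →
    (∀ R a R' : ℕ, S2 R → A a → (∀ m, R < m → m < R' → ¬ S m) →
      R + a + K1 * (Nat.log 2 (R' + 2) + 1) ≤ R' → ∀ M, R ≤ M → M < R + a → good M) →
    ∀ q c : ℕ, 1 ≤ q → ∃ s0 : ℕ, ∀ s : ℕ, s0 ≤ s →
      (∀ X : ℕ, X ≤ s ^ 3 → ((range X).filter S).card ≤ 8 * (s + 1) ^ 2) →
      ∃ X : ℕ, s ^ 3 ≤ 12 * X ∧ 3 * X ≤ s ^ 3 ∧
        (X : ℝ) / (8 * q) ≤ ((range X).filter fun M => M ≡ c [MOD q] ∧ good M).card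

/-- TC-UP4, `theorem up4 : S_SUP3 → S_LAT3 → S_UP4` (as UP3; `m = M+1+i ≤ s³`: `D = off e m ≤ η s`,
`3 D (s+1+D)² ≤ 20 η s³ ≤ 240 η X`, `η` small; the terms with `i > s³ - X ≥ s³/2` are bounded by the
polynomial bounds of S_SUP3 times `2^(-i)`, together `≤ 1`). -/
def S_UP4 : Prop :=
  ∀ b : ℕ, 2 ≤ b → ∀ (e : ℕ → ℤ) (C : ℤ), (∀ n, 0 ≤ e n ∧ e n ≤ C) →
    ∀ a1 a2 a3 : ℤ, 1 ≤ a3 → ∀ T : ℕ → ℤ, IsTG b e a1 a2 a3 T →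
      ∀ (q c : ℕ) (K : ℝ), 1 ≤ q →
        (∀ N : ℕ, ∑ i ∈ range N, ((i : ℝ) + 1) / 2 ^ (i + 1) * rho q (c + 1 + i) ≤ K * (q : ℝ) ^ 2) →
        ∃ η : ℝ, 0 < η ∧ ∃ s0 : ℕ, ∀ s : ℕ, s0 ≤ s → (off e (s ^ 3) : ℝ) ≤ η * s →
          ∀ X : ℕ, s ^ 3 ≤ 12 * X → 2 * X ≤ s ^ 3 →
            ∑ M ∈ (range X).filter (fun M => M ≡ c [MOD q]), |(T M : ℝ)| ≤
              (8 * a3 * C ^ 3 * K + 1) * X / q

open Classical in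
/-- TC-WIN4, `theorem win4 : S_SUP3 → S_LAT3 → S_WIN4` (as WIN3, `η` small depending on `k`, `q`). -/
def S_WIN4 : Prop :=
  ∀ (e : ℕ → ℤ) (C : ℤ), (∀ n, 0 ≤ e n ∧ e n ≤ C) →
    ∀ a1 a2 a3 : ℤ, ∀ q c k : ℕ, 1 ≤ q →
    ∑ j ∈ Icc 1 k, (rho q (c + j) : ℝ) ≤ (q : ℝ) ^ 2 / 100 →
      ∃ η : ℝ, 0 < η ∧ ∃ s0 : ℕ, ∀ s : ℕ, s0 ≤ s → (off e (s ^ 3) : ℝ) ≤ η * s →
        ∀ X : ℕ, s ^ 3 ≤ 12 * X → 2 * X ≤ s ^ 3 →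
          (((range X).filter fun M => M ≡ c [MOD q] ∧
            ∃ j ∈ Icc 1 k, FG e a1 a2 a3 (M + j) ≠ 0).card : ℝ) ≤ X / (10 * q)

open Classical in
/-- number of `m ≤ N` at distance `> H` from all cubes, with `d m ≠ 0` -/
noncomputable def offH (H : ℕ) (d : ℕ → ℤ) (N : ℕ) : ℕ :=
  ((range (N + 1)).filter fun m => d m ≠ 0 ∧ ∀ u : ℕ, u ^ 3 + H < m ∨ m + H < u ^ 3).card

/-- TC-THK, `theorem thk : S_THK`. Thickened cubes: coefficients `d` can be moved to the cubes. For `m`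
within `H` of a cube let `κ(m)` be the least such cube; `e (κ) := ∑_{κ(m) = κ} d_m b^(H + κ - m)` for
cubes (bounded, a finite sum over `|m - κ| ≤ H`), `e m := d_m b^H` for `m` at distance `> H` of all
cubes, `e m := 0` else. -/
def S_THK : Prop :=
  ∀ b : ℕ, 2 ≤ b → ∀ (H : ℕ) (d : ℕ → ℤ) (C : ℤ), (∀ n, 0 ≤ d n ∧ d n ≤ C) →
    ∃ (e : ℕ → ℤ) (C' : ℤ), (∀ n, 0 ≤ e n ∧ e n ≤ C') ∧ (∀ N, off e N ≤ offH H d N) ∧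
      ∑' m : ℕ, (e m : ℝ) / (b : ℝ) ^ m = (b : ℝ) ^ H * ∑' m : ℕ, (d m : ℝ) / (b : ℝ) ^ m

/-- Assembly (helper52). -/
def S_FIN4 : Prop :=
  ∀ b : ℕ, 2 ≤ b → ∀ (e : ℕ → ℤ) (C : ℤ), (∀ n, 0 ≤ e n ∧ e n ≤ C) →
    ∀ a0 a1 a2 a3 : ℤ, 1 ≤ a3 → ∀ x : ℝ, x = ∑' m : ℕ, (e m : ℝ) / (b : ℝ) ^ m → Irrational x →
      a3 * x ^ 3 + a2 * x ^ 2 + a1 * x + a0 = 0 →
        ∃ η : ℝ, 0 < η ∧ ∃ s0 : ℕ, ∀ s : ℕ, s0 ≤ s → η * s < off e (s ^ 3)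

end Pool.Agent.H52.TC
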