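import Pool.Agent.H52.TC.Stm3

/-!
# Project TC, last part: FOURTH powers, degree `≤ 4`

Theorem: if `0 ≤ ε n ≤ C`, infinitely many nonzero, then `∑ ε_n b^(-n⁴)` is not algebraic of degree
`≤ 4`. Same proof as for cubes; the residue classes are simpler: for a prime `p ≡ 5 (8)` the
number of solutions of `u⁴+v⁴+w⁴+z⁴ ≡ 0 (p)` is `≤ p³ (1 - 1/p)`, and `≤ p³ (1 + 1000 p^(-3/2))` for all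
other residues. File `Pool/Agent/H52/TC/<NAME>.lean`, `import Pool.Agent.H52.TC.Stm5`, namespace
`Pool.Agent.H52.TC`.
-/

set_option autoImplicit false

namespace Pool.Agent.H52.TC

open Finset

/-- number of solutions of `u⁴ + v⁴ + w⁴ + z⁴ ≡ n` modulo `q` -/
def rhoQ (q n : ℕ) : ℕ :=
  ((range q ×ˢ range q ×ˢ range q ×ˢ range q).filter
    fun t => (t.1 ^ 4 + t.2.1 ^ 4 + t.2.2.1 ^ 4 + t.2.2.2 ^ 4) ≡ n [MOD q]).card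

def G4 (e : ℕ → ℤ) (m : ℕ) : ℤ := ∑ ij ∈ antidiagonal m, G3 e ij.1 * e ij.2

def FQ (e : ℕ → ℤ) (a1 a2 a3 a4 : ℤ) (m : ℕ) : ℤ :=
  a4 * G4 e m + a3 * G3 e m + a2 * G2 e m + a1 * e m

def IsTQ (b : ℕ) (e : ℕ → ℤ) (a1 a2 a3 a4 : ℤ) (T : ℕ → ℤ) : Prop :=
  (∀ M, T (M + 1) = b * T M - FQ e a1 a2 a3 a4 (M + 1)) ∧
  ∀ M, HasSum (fun i : ℕ => (FQ e a1 a2 a3 a4 (M + 1 + i) : ℝ) / (b : ℝ) ^ (i + 1)) (T M)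

/-- supported on fourth powers -/
def Sup4 (e : ℕ → ℤ) : Prop := ∀ m, e m ≠ 0 → ∃ u : ℕ, u ^ 4 = m

/-- TCQ-LOC, `theorem locQ : S_LOCQ`. `S(a) = ∑_x e(a x⁴/p)` depends only on the class of `a` modulo
fourth powers (4 values `S_i`, classes of size `(p-1)/4`), `∑_{a≠0} |S(a)|² = 3p(p-1)`, so
`∑_i |S_i|² = 12 p`. `rho(n) = p³ + (1/p) ∑_{a≠0} e(-an/p) S(a)⁴`. For `n ≢ 0`: sum over a class of `a` of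
`e(-an/p)` is `(S_j(..) - 1)/4`, so `|rho - p³| ≤ (1/p) 4 (12 p)² √p·(..) ≤ 1000 p^(3/2)`. For `n = 0`:
`rho = p³ + (1/p)((p-1)/4) ∑_i S_i⁴`; as `-1` is a square but not a fourth power (`p ≡ 5 (8)`),
`S(a) + S(-a) = 2 ∑_y e(a y²/p)`, `S(-a) = conj S(a)`, so `(Re S_i)² = p`, `S_i = ±√p + i t_i`,
`t_{i+2} = -t_i`, `t_0² + t_1² = 4p`, `∑_i S_i⁴ = 2 (2p² - 24 p² + t_0⁴ + t_1⁴) ≤ -12 p²`. So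
`rho 0 ≤ p³ - 3p(p-1) ≤ p³ (1 - 1/p)`. (Or by Jacobi sums as in LOC.lean.) -/
def S_LOCQ : Prop :=
  ∀ p : ℕ, p.Prime → p % 8 = 5 →
    (rhoQ p 0 : ℝ) ≤ (p : ℝ) ^ 3 * (1 - 1 / p) ∧
    ∀ n : ℕ, ¬ p ∣ n → (rhoQ p n : ℝ) ≤ (p : ℝ) ^ 3 * (1 + 1000 / ((p : ℝ) * Real.sqrt p))

/-- TCQ-CRT, `theorem crtQ : S_CRTQ` (as CRT). -/
def S_CRTQ : Prop :=
  (∀ q p n : ℕ, 0 < q → 0 < p → Nat.Coprime q p → rhoQ (q * p) n = rhoQ q n * rhoQ p n) ∧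
  (∀ q n m : ℕ, n ≡ m [MOD q] → rhoQ q n = rhoQ q m)

/-- TCQ-DIV, `theorem dvQ : S_DIVQ` (as DIV, `p ≡ 5 (8)`). -/
def S_DIVQ : Prop :=
  ∀ ε : ℝ, 0 < ε → ∀ y : ℕ, ∃ P : Finset ℕ, (∀ p ∈ P, p.Prime ∧ p % 8 = 5 ∧ y < p) ∧
    ∏ p ∈ P, (1 - 1 / (p : ℝ)) ≤ ε

/-- TCQ-EX, `theorem exQ : S_LOCQ → S_CRTQ → S_DIVQ → S_EXQ`. `K0 = ∏ (1 + 1000 p^(-3/2))` over all
primes. Disjoint sets `P_1, ..., P_k` of primes `≡ 5 (8)`, `> k`, with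
`∏_{P_j} (1 - 1/p) ≤ 1/(200 (k+1) K0)`; `q` = the product of all, `c ≡ -j (p)` for `p ∈ P_j` (Chinese
remainder theorem). For every `n`: `rhoQ q n = ∏_p rhoQ p n ≤ K0 q³`, and for `n = c + j` the `p ∈ P_j`
divide `n`, so `rhoQ q (c+j) ≤ q³ ∏_{P_j} (1 - 1/p) K0`. -/
def S_EXQ : Prop :=
  ∃ K0 : ℝ, 0 < K0 ∧ ∀ k : ℕ, ∃ q c : ℕ, 1 ≤ q ∧
    ∑ j ∈ Icc 1 k, (rhoQ q (c + j) : ℝ) ≤ (q : ℝ) ^ 3 / 200 ∧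
    ∀ n : ℕ, (rhoQ q n : ℝ) ≤ K0 * (q : ℝ) ^ 3

/-- TCQ-SUP, `theorem supQ : S_SUPQ` (as SUP3). -/
def S_SUPQ : Prop :=
  ∀ (e : ℕ → ℤ) (C : ℤ), (∀ n, 0 ≤ e n ∧ e n ≤ C) →
    (∀ m, 0 ≤ G2 e m ∧ 0 ≤ G3 e m ∧ 0 ≤ G4 e m) ∧
    (∀ i j, e i ≠ 0 → e j ≠ 0 → G2 e (i + j) ≠ 0) ∧
    (∀ i j, G2 e i ≠ 0 → e j ≠ 0 → G3 e (i + j) ≠ 0) ∧
    (∀ i j, G3 e i ≠ 0 → e j ≠ 0 → G4 e (i + j) ≠ 0) ∧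
    (∀ m, G2 e m ≠ 0 → ∃ i j, m = i + j ∧ e i ≠ 0 ∧ e j ≠ 0) ∧
    (∀ m, G3 e m ≠ 0 → ∃ i j, m = i + j ∧ G2 e i ≠ 0 ∧ e j ≠ 0) ∧
    (∀ m, G2 e m ≤ C ^ 2 * ((m : ℤ) + 1) ∧ G3 e m ≤ C ^ 3 * ((m : ℤ) + 1) ^ 2 ∧
      G4 e m ≤ C ^ 4 * ((m : ℤ) + 1) ^ 3)

/-- TCQ-ANA, `theorem anaQ : S_ANAQ` (as ANA3). -/
def S_ANAQ : Prop :=
  ∀ b : ℕ, 2 ≤ b → ∀ (e : ℕ → ℤ) (C : ℤ), (∀ n, 0 ≤ e n ∧ e n ≤ C) →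
    ∀ a0 a1 a2 a3 a4 : ℤ, ∀ x : ℝ, x = ∑' m : ℕ, (e m : ℝ) / (b : ℝ) ^ m →
      a4 * x ^ 4 + a3 * x ^ 3 + a2 * x ^ 2 + a1 * x + a0 = 0 → ∃ T : ℕ → ℤ, IsTQ b e a1 a2 a3 a4 T

/-- TCQ-LIO, `theorem lioQ : S_LIOQ` (as LIO3, degree 4). -/
def S_LIOQ : Prop :=
  ∀ b : ℕ, 2 ≤ b → ∀ (e : ℕ → ℤ) (C : ℤ), (∀ n, 0 ≤ e n ∧ e n ≤ C) →
    ∀ a0 a1 a2 a3 a4 : ℤ, 1 ≤ a4 → ∀ x : ℝ, x = ∑' m : ℕ, (e m : ℝ) / (b : ℝ) ^ m →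
      Irrational x → a4 * x ^ 4 + a3 * x ^ 3 + a2 * x ^ 2 + a1 * x + a0 = 0 →
        ∃ K : ℕ, ∀ m : ℕ, ∃ m' : ℕ, m < m' ∧ m' ≤ 4 * m + K ∧ e m' ≠ 0

/-- TCQ-IRR, `theorem irrQ : S_IRRQ` (as IRR). -/
def S_IRRQ : Prop :=
  ∀ b : ℕ, 2 ≤ b → ∀ (e : ℕ → ℤ) (C : ℤ), (∀ n, 0 ≤ e n ∧ e n ≤ C) → Sup4 e →
    (∀ N : ℕ, ∃ n, N ≤ n ∧ e n ≠ 0) → Irrational (∑' m : ℕ, (e m : ℝ) / (b : ℝ) ^ m)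

/-- TCQ-POSA, `theorem posaQ : S_SUPQ → S_POSAQ` (as POSA3). -/
def S_POSAQ : Prop :=
  ∀ b : ℕ, 2 ≤ b → ∀ (e : ℕ → ℤ) (C : ℤ), (∀ n, 0 ≤ e n ∧ e n ≤ C) →
    ∀ a1 a2 a3 a4 : ℤ, 1 ≤ a4 → ∀ T : ℕ → ℤ, IsTQ b e a1 a2 a3 a4 T →
      ∃ K1 : ℕ, ∀ R a R' : ℕ, G3 e R ≠ 0 → e a ≠ 0 →
        (∀ m, R < m → m < R' → e m = 0 ∧ G2 e m = 0 ∧ G3 e m = 0) →
        R + a + K1 * (Nat.log 2 (R' + 2) + 1) ≤ R' → ∀ M, R ≤ M → M < R + a → 1 ≤ T M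

open Classical in
/-- TCQ-POSB, `theorem posbQ : S_POSBQ` (as POSB; ratio 4, `S ∖ S2` has short gaps: hS2 now with
`∃ t ≤ a0`; number of elements `≤ K2 (s+1)³` below `(s+1)⁴`; good proportion `1/4 > 1/8`). -/
def S_POSBQ : Prop :=
  ∀ (S S2 A good : ℕ → Prop) (K K1 K2 a0 : ℕ),
    (∀ m, S2 m → S m) → (∀ m, A m → S m) →
    (∀ m, S m → ¬ S2 m → ∃ t, 1 ≤ t ∧ t ≤ a0 ∧ S2 (m + t)) →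
    (∀ m : ℕ, ∃ m' : ℕ, m < m' ∧ m' ≤ 4 * m + K ∧ A m') →
    (∀ s X : ℕ, X ≤ (s + 1) ^ 4 → ((range X).filter S).card ≤ K2 * (s + 1) ^ 3) →
    (∀ R a R' : ℕ, S2 R → A a → (∀ m, R < m → m < R' → ¬ S m) →
      R + a + K1 * (Nat.log 2 (R' + 2) + 1) ≤ R' → ∀ M, R ≤ M → M < R + a → good M) →
    ∀ q c : ℕ, 1 ≤ q → ∀ X1 : ℕ, ∃ X, X1 ≤ X ∧
      (X : ℝ) / (8 * q) ≤ ((range X).filter fun M => M ≡ c [MOD q] ∧ good M).card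

open Classical in
/-- TCQ-CNT, `theorem cntQ : S_SUPQ → S_CNTQ` (as CNT). -/
def S_CNTQ : Prop :=
  ∀ (e : ℕ → ℤ) (C : ℤ), (∀ n, 0 ≤ e n ∧ e n ≤ C) → Sup4 e → ∀ s X : ℕ, X ≤ (s + 1) ^ 4 →
    ((range X).filter fun m => e m ≠ 0 ∨ G2 e m ≠ 0 ∨ G3 e m ≠ 0).card ≤ 3 * (s + 1) ^ 3

/-- TCQ-LAT, `theorem latQ : S_LATQ` (as LAT). -/
def S_LATQ : Prop :=
  ∀ (e : ℕ → ℤ) (C : ℤ), (∀ n, 0 ≤ e n ∧ e n ≤ C) → Sup4 e → ∀ s Y : ℕ, Y < (s + 1) ^ 4 →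
    (∀ q n : ℕ, 1 ≤ q →
      ∑ m ∈ (range (Y + 1)).filter (fun m => m ≡ n [MOD q]), G4 e m ≤
        C ^ 4 * (rhoQ q n : ℤ) * ((s / q + 1 : ℕ) : ℤ) ^ 4) ∧
    ∑ m ∈ range (Y + 1), G3 e m ≤ C ^ 3 * ((s : ℤ) + 1) ^ 3 ∧
    ∑ m ∈ range (Y + 1), G2 e m ≤ C ^ 2 * ((s : ℤ) + 1) ^ 2 ∧
    ∑ m ∈ range (Y + 1), e m ≤ C * ((s : ℤ) + 1)

/-- TCQ-UP, `theorem upQ : S_SUPQ → S_LATQ → S_UPQ` (as UP2; `(s/q+1)⁴ ≤ 16 X (i+1)/q⁴`,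
`∑ (i+1)/2^(i+1) = 2`). -/
def S_UPQ : Prop :=
  ∀ b : ℕ, 2 ≤ b → ∀ (e : ℕ → ℤ) (C : ℤ), (∀ n, 0 ≤ e n ∧ e n ≤ C) → Sup4 e →
    ∀ a1 a2 a3 a4 : ℤ, 1 ≤ a4 → ∀ T : ℕ → ℤ, IsTQ b e a1 a2 a3 a4 T →
      ∀ (q c : ℕ) (K : ℝ), 1 ≤ q → (∀ n : ℕ, (rhoQ q n : ℝ) ≤ K * (q : ℝ) ^ 3) →
        ∃ X0 : ℕ, ∀ X : ℕ, X0 ≤ X →
          ∑ M ∈ (range X).filter (fun M => M ≡ c [MOD q]), |(T M : ℝ)| ≤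
            (32 * a4 * C ^ 4 * K + 1) * X / q

open Classical in
/-- TCQ-WIN, `theorem winQ : S_SUPQ → S_LATQ → S_WINQ` (as WIN2; `16 (X+k)/q⁴ · q³/200 = 0.08 X/q`). -/
def S_WINQ : Prop :=
  ∀ (e : ℕ → ℤ) (C : ℤ), (∀ n, 0 ≤ e n ∧ e n ≤ C) → Sup4 e →
    ∀ a1 a2 a3 a4 : ℤ, ∀ q c k : ℕ, 1 ≤ q →
    ∑ j ∈ Icc 1 k, (rhoQ q (c + j) : ℝ) ≤ (q : ℝ) ^ 3 / 200 →
      ∃ X0 : ℕ, ∀ X : ℕ, X0 ≤ X →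
        (((range X).filter fun M => M ≡ c [MOD q] ∧
          ∃ j ∈ Icc 1 k, FQ e a1 a2 a3 a4 (M + j) ≠ 0).card : ℝ) ≤ X / (10 * q)

/-- Assembly (helper52). -/
def S_FINQ : Prop :=
  ∀ b : ℕ, 2 ≤ b → ∀ (e : ℕ → ℤ) (C : ℤ), (∀ n, 0 ≤ e n ∧ e n ≤ C) → Sup4 e →
    (∀ N : ℕ, ∃ n, N ≤ n ∧ e n ≠ 0) →
    ∀ a0 a1 a2 a3 a4 : ℤ, 1 ≤ a4 → ∀ x : ℝ, x = ∑' m : ℕ, (e m : ℝ) / (b : ℝ) ^ m →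
      a4 * x ^ 4 + a3 * x ^ 3 + a2 * x ^ 2 + a1 * x + a0 ≠ 0

end Pool.Agent.H52.TC
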