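import Pool.Agent.H52.TC.Stm

/-! # Project TC, stub UP: the mean of `|T|` over a residue class -/

set_option autoImplicit false

namespace Pool.Agent.H52.TC

open Finset

namespace UPaux

lemma cbrt (Y : ℕ) : ∃ s : ℕ, s ^ 3 ≤ Y ∧ Y < (s + 1) ^ 3 := by
  induction Y with
  | zero => exact ⟨0, by norm_num, by norm_num⟩
  | succ Y ih =>
    obtain ⟨s, h1, h2⟩ := ih
    by_cases h : Y + 1 < (s + 1) ^ 3
    · exact ⟨s, by omega, h⟩
    · refine ⟨s + 1, by omega, ?_⟩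
      have h3 : (s + 1) ^ 3 < (s + 1 + 1) ^ 3 := Nat.pow_lt_pow_left (by omega) (by norm_num)
      omega

lemma sumsq (N : ℕ) : ∑ i ∈ range N, ((i : ℝ) + 1) ^ 2 / 2 ^ (i + 1) = 6 - ((N : ℝ) ^ 2 + 4 * N + 6) / 2 ^ N := by
  induction N with
  | zero => norm_num
  | succ N ih =>
    rw [sum_range_succ, ih]
    push_cast
    field_simp
    ring

lemma sumsq_le (N : ℕ) : ∑ i ∈ range N, ((i : ℝ) + 1) ^ 2 / 2 ^ (i + 1) ≤ 6 := by
  rw [sumsq]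
  have : 0 ≤ ((N : ℝ) ^ 2 + 4 * N + 6) / 2 ^ N := by positivity
  linarith

lemma shift (g : ℕ → ℤ) (hg : ∀ m, 0 ≤ g m) (S R : Finset ℕ) (i : ℕ) (h : ∀ M ∈ S, M + 1 + i ∈ R) :
    ∑ M ∈ S, g (M + 1 + i) ≤ ∑ m ∈ R, g m := by
  classical
  have h1 : ∑ M ∈ S, g (M + 1 + i) = ∑ m ∈ S.image (fun M => M + 1 + i), g m := by
    rw [sum_image]
    intro x _ y _ hxy
    simp only at hxy
    omega
  rw [h1]
  apply sum_le_sum_of_subset_of_nonneg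
  · intro m hm
    rw [mem_image] at hm
    obtain ⟨M, hM, rfl⟩ := hm
    exact h M hM
  · intro m _ _
    exact hg m

end UPaux

open UPaux in
theorem up : S_SUP → S_LAT → S_UP := by
  intro hsup hlat b hb ε C hε a1 a2 a3 ha3 T hT q c K hq hK
  have hC : 1 ≤ C := (hε 0).1.trans (hε 0).2
  obtain ⟨hpos, -, -, -, -⟩ := hsup ε C hε
  obtain ⟨D, hD⟩ : ∃ D : ℕ, 6 * (|a2| * C ^ 2 + |a1| * C) ≤ (D : ℤ) :=
    ⟨(6 * (|a2| * C ^ 2 + |a1| * C)).toNat, Int.self_le_toNat _⟩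
  refine ⟨(q + 4 * D * q + 2) ^ 3, fun X hX => ?_⟩
  obtain ⟨r, hr1, hr2⟩ := cbrt X
  have hr : q + 4 * D * q + 2 ≤ r := by
    have := lt_of_pow_lt_pow_left₀ 3 (by omega) (hX.trans_lt hr2)
    omega
  have hX1 : 1 ≤ X := le_trans (Nat.one_le_pow _ _ (by omega)) hX
  have hXr : (1 : ℝ) ≤ X := by exact_mod_cast hX1
  have hq0 : (0 : ℝ) < q := by exact_mod_cast hq
  have hCr : (1 : ℝ) ≤ C := by exact_mod_cast hC
  have ha3r : (1 : ℝ) ≤ a3 := by exact_mod_cast ha3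
  obtain ⟨S, hS⟩ : ∃ S, S = (range X).filter (fun M => M ≡ c [MOD q]) := ⟨_, rfl⟩
  rw [← hS]
  -- the bound for one place
  have hW : ∀ i : ℕ, ((∑ M ∈ S, (a3 * E3 ε (M + 1 + i) + |a2| * E2 ε (M + 1 + i) + |a1| * E1 ε (M + 1 + i)) : ℤ) : ℝ) ≤
      a3 * C ^ 3 * (rho q (c + 1 + i)) * (8 * X * (i + 1) / q ^ 3) + (D / 6) * ((r + 1) ^ 2 * (i + 1) ^ 2) := by
    intro i
    obtain ⟨s, hs1, hs2⟩ := cbrt (X + i)
    have hl := hlat ε C (fun n => ⟨by linarith [(hε n).1], (hε n).2⟩) s (X + i) hs2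
    have hsq : q ≤ s := by
      have h1 : q ^ 3 < (s + 1) ^ 3 := by
        refine lt_of_le_of_lt ?_ hs2
        refine le_trans ?_ (Nat.le_add_right X i)
        refine le_trans ?_ hX
        exact Nat.pow_le_pow_left (by omega) 3
      have := lt_of_pow_lt_pow_left₀ 3 (by omega) h1
      omega
    have hsr : s + 1 ≤ (r + 1) * (i + 1) := by
      have h1 : s ^ 3 < ((r + 1) * (i + 1)) ^ 3 := by
        calc s ^ 3 ≤ X + i := hs1
          _ ≤ X * (i + 1) := by nlinarith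
          _ < (r + 1) ^ 3 * (i + 1) := Nat.mul_lt_mul_of_pos_right hr2 (by omega)
          _ ≤ (r + 1) ^ 3 * (i + 1) ^ 3 := Nat.mul_le_mul_left _ (Nat.le_self_pow (by norm_num) _)
          _ = _ := by rw [mul_pow]
      exact lt_of_pow_lt_pow_left₀ 3 (by positivity) h1
    have hs3 : ((s / q + 1 : ℕ) : ℝ) ^ 3 ≤ 8 * X * (i + 1) / q ^ 3 := by
      have h1 : ((s / q : ℕ) : ℝ) ≤ (s : ℝ) / q := Nat.cast_div_le
      have h2 : (1 : ℝ) ≤ (s : ℝ) / q := by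
        rw [le_div_iff₀ hq0, one_mul]
        exact_mod_cast hsq
      have h3 : ((s / q + 1 : ℕ) : ℝ) ≤ 2 * ((s : ℝ) / q) := by push_cast; linarith
      have h4 : (s : ℝ) ^ 3 ≤ X * (i + 1) := by
        have : s ^ 3 ≤ X * (i + 1) := hs1.trans (by nlinarith)
        exact_mod_cast this
      calc ((s / q + 1 : ℕ) : ℝ) ^ 3 ≤ (2 * ((s : ℝ) / q)) ^ 3 := pow_le_pow_left₀ (by positivity) h3 3
        _ = 8 * (s : ℝ) ^ 3 / q ^ 3 := by ring
        _ ≤ 8 * (X * (i + 1)) / q ^ 3 := by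
            apply div_le_div_of_nonneg_right _ (by positivity)
            linarith
        _ = _ := by ring
    have e3 : ∑ M ∈ S, E3 ε (M + 1 + i) ≤ C ^ 3 * (rho q (c + 1 + i) : ℤ) * ((s / q + 1 : ℕ) : ℤ) ^ 3 := by
      refine (shift (E3 ε) (fun m => (hpos m).2.2) S _ i ?_).trans (hl.1 q (c + 1 + i) hq)
      intro M hM
      rw [hS, mem_filter, mem_range] at hM
      rw [mem_filter, mem_range]
      exact ⟨by omega, (hM.2.add_right 1).add_right i⟩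
    have e2 : ∑ M ∈ S, E2 ε (M + 1 + i) ≤ C ^ 2 * ((s : ℤ) + 1) ^ 2 := by
      refine (shift (E2 ε) (fun m => (hpos m).2.1) S _ i ?_).trans hl.2.1
      intro M hM
      rw [hS, mem_filter, mem_range] at hM
      rw [mem_range]
      omega
    have e1 : ∑ M ∈ S, E1 ε (M + 1 + i) ≤ C * ((s : ℤ) + 1) := by
      refine (shift (E1 ε) (fun m => (hpos m).1) S _ i ?_).trans hl.2.2
      intro M hM
      rw [hS, mem_filter, mem_range] at hM
      rw [mem_range]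
      omega
    have e4 : ∑ M ∈ S, (a3 * E3 ε (M + 1 + i) + |a2| * E2 ε (M + 1 + i) + |a1| * E1 ε (M + 1 + i)) ≤
        a3 * (C ^ 3 * (rho q (c + 1 + i) : ℤ) * ((s / q + 1 : ℕ) : ℤ) ^ 3) + |a2| * (C ^ 2 * ((s : ℤ) + 1) ^ 2) +
          |a1| * (C * ((s : ℤ) + 1)) := by
      rw [sum_add_distrib, sum_add_distrib, ← mul_sum, ← mul_sum, ← mul_sum]
      have := mul_le_mul_of_nonneg_left e3 (show 0 ≤ a3 by linarith)
      have := mul_le_mul_of_nonneg_left e2 (abs_nonneg a2)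
      have := mul_le_mul_of_nonneg_left e1 (abs_nonneg a1)
      linarith
    have e5 : ((∑ M ∈ S, (a3 * E3 ε (M + 1 + i) + |a2| * E2 ε (M + 1 + i) + |a1| * E1 ε (M + 1 + i)) : ℤ) : ℝ) ≤
        a3 * (C ^ 3 * (rho q (c + 1 + i)) * ((s / q + 1 : ℕ) : ℝ) ^ 3) + |(a2 : ℝ)| * (C ^ 2 * ((s : ℝ) + 1) ^ 2) +
          |(a1 : ℝ)| * (C * ((s : ℝ) + 1)) := by
      have e6 := (Int.cast_le (R := ℝ)).2 e4
      push_cast at e6 ⊢
      exact e6
    refine e5.trans ?_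
    have hDr : 6 * (|(a2 : ℝ)| * C ^ 2 + |(a1 : ℝ)| * C) ≤ D := by exact_mod_cast hD
    have hsr' : (s : ℝ) + 1 ≤ (r + 1) * (i + 1) := by exact_mod_cast hsr
    have hri : (1 : ℝ) ≤ (r + 1) * (i + 1) := by
      have h1 : (0 : ℝ) ≤ r := Nat.cast_nonneg r
      have h2 : (0 : ℝ) ≤ i := Nat.cast_nonneg i
      nlinarith [mul_nonneg h1 h2]
    have f2 : ((s : ℝ) + 1) ^ 2 ≤ (r + 1) ^ 2 * (i + 1) ^ 2 := by
      rw [← mul_pow]
      exact pow_le_pow_left₀ (by positivity) hsr' 2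
    have f1 : ((s : ℝ) + 1) ≤ (r + 1) ^ 2 * (i + 1) ^ 2 := by
      rw [← mul_pow]
      refine hsr'.trans ?_
      nlinarith
    have g3 : (a3 : ℝ) * (C ^ 3 * (rho q (c + 1 + i)) * ((s / q + 1 : ℕ) : ℝ) ^ 3) ≤
        a3 * C ^ 3 * (rho q (c + 1 + i)) * (8 * X * (i + 1) / q ^ 3) := by
      rw [mul_assoc (a3 : ℝ) ((C : ℝ) ^ 3), mul_assoc (a3 : ℝ)]
      apply mul_le_mul_of_nonneg_left _ (by positivity)
      exact mul_le_mul_of_nonneg_left hs3 (by positivity)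
    have g2 : |(a2 : ℝ)| * (C ^ 2 * ((s : ℝ) + 1) ^ 2) ≤ |(a2 : ℝ)| * (C ^ 2 * ((r + 1) ^ 2 * (i + 1) ^ 2)) := by
      apply mul_le_mul_of_nonneg_left _ (abs_nonneg _)
      exact mul_le_mul_of_nonneg_left f2 (by positivity)
    have g1 : |(a1 : ℝ)| * (C * ((s : ℝ) + 1)) ≤ |(a1 : ℝ)| * (C * ((r + 1) ^ 2 * (i + 1) ^ 2)) := by
      apply mul_le_mul_of_nonneg_left _ (abs_nonneg _)
      exact mul_le_mul_of_nonneg_left f1 (by positivity)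
    have g0 : (|(a2 : ℝ)| * C ^ 2 + |(a1 : ℝ)| * C) * ((r + 1) ^ 2 * (i + 1) ^ 2) ≤ (D / 6) * ((r + 1) ^ 2 * (i + 1) ^ 2) := by
      apply mul_le_mul_of_nonneg_right _ (by positivity)
      linarith
    calc _ ≤ a3 * C ^ 3 * (rho q (c + 1 + i)) * (8 * X * (i + 1) / q ^ 3) + |(a2 : ℝ)| * (C ^ 2 * ((r + 1) ^ 2 * (i + 1) ^ 2)) +
          |(a1 : ℝ)| * (C * ((r + 1) ^ 2 * (i + 1) ^ 2)) := add_le_add (add_le_add g3 g2) g1
      _ = a3 * C ^ 3 * (rho q (c + 1 + i)) * (8 * X * (i + 1) / q ^ 3) +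
          (|(a2 : ℝ)| * C ^ 2 + |(a1 : ℝ)| * C) * ((r + 1) ^ 2 * (i + 1) ^ 2) := by ring
      _ ≤ _ := by linarith
  -- finite version
  have hfin : ∀ N : ℕ, ∑ M ∈ S, |∑ i ∈ range N, (F ε a1 a2 a3 (M + 1 + i) : ℝ) / (b : ℝ) ^ (i + 1)| ≤
      (8 * a3 * C ^ 3 * K + 1) * X / q := by
    intro N
    have h1 : ∀ M ∈ S, |∑ i ∈ range N, (F ε a1 a2 a3 (M + 1 + i) : ℝ) / (b : ℝ) ^ (i + 1)| ≤
        ∑ i ∈ range N, ((a3 * E3 ε (M + 1 + i) + |a2| * E2 ε (M + 1 + i) + |a1| * E1 ε (M + 1 + i) : ℤ) : ℝ) / 2 ^ (i + 1) := by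
      intro M _
      refine (abs_sum_le_sum_abs _ _).trans (sum_le_sum fun i _ => ?_)
      have hb2 : (2 : ℝ) ≤ b := by exact_mod_cast hb
      rw [abs_div, abs_of_nonneg (show (0 : ℝ) ≤ (b : ℝ) ^ (i + 1) by positivity)]
      obtain ⟨p1, p2, p3⟩ := hpos (M + 1 + i)
      have h2 : |F ε a1 a2 a3 (M + 1 + i)| ≤ a3 * E3 ε (M + 1 + i) + |a2| * E2 ε (M + 1 + i) + |a1| * E1 ε (M + 1 + i) := by
        unfold F
        refine (abs_add_le _ _).trans (add_le_add ((abs_add_le _ _).trans (add_le_add ?_ ?_)) ?_)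
        · rw [abs_mul, abs_of_nonneg p3, abs_of_nonneg (show 0 ≤ a3 by linarith)]
        · rw [abs_mul, abs_of_nonneg p2]
        · rw [abs_mul, abs_of_nonneg p1]
      have h3 : |(F ε a1 a2 a3 (M + 1 + i) : ℝ)| ≤
          ((a3 * E3 ε (M + 1 + i) + |a2| * E2 ε (M + 1 + i) + |a1| * E1 ε (M + 1 + i) : ℤ) : ℝ) := by exact_mod_cast h2
      exact div_le_div₀ ((abs_nonneg _).trans h3) h3 (by positivity) (pow_le_pow_left₀ (by norm_num) hb2 _)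
    refine (sum_le_sum h1).trans ?_
    rw [sum_comm]
    have h2 : ∀ i ∈ range N, ∑ M ∈ S, ((a3 * E3 ε (M + 1 + i) + |a2| * E2 ε (M + 1 + i) + |a1| * E1 ε (M + 1 + i) : ℤ) : ℝ) / 2 ^ (i + 1) ≤
        8 * a3 * C ^ 3 * X / q ^ 3 * (((i : ℝ) + 1) / 2 ^ (i + 1) * rho q (c + 1 + i)) +
          D / 6 * (r + 1) ^ 2 * (((i : ℝ) + 1) ^ 2 / 2 ^ (i + 1)) := by
      intro i _
      rw [← sum_div]
      have h3 := hW i
      push_cast at h3 ⊢
      refine (div_le_div_of_nonneg_right h3 (by positivity)).trans (le_of_eq ?_)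
      field_simp
    refine (sum_le_sum h2).trans ?_
    rw [sum_add_distrib, ← mul_sum, ← mul_sum]
    have k1 : 8 * a3 * C ^ 3 * X / q ^ 3 * ∑ i ∈ range N, (((i : ℝ) + 1) / 2 ^ (i + 1) * rho q (c + 1 + i)) ≤
        8 * a3 * C ^ 3 * X / q ^ 3 * (K * (q : ℝ) ^ 2) := by
      exact mul_le_mul_of_nonneg_left (hK N) (by positivity)
    have k2 : D / 6 * (r + 1) ^ 2 * ∑ i ∈ range N, (((i : ℝ) + 1) ^ 2 / 2 ^ (i + 1)) ≤ D / 6 * ((r : ℝ) + 1) ^ 2 * 6 :=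
      mul_le_mul_of_nonneg_left (sumsq_le N) (by positivity)
    have k3 : (D : ℝ) * ((r : ℝ) + 1) ^ 2 ≤ X / q := by
      rw [le_div_iff₀ hq0]
      have h4 : D * (r + 1) ^ 2 * q ≤ r ^ 3 := by
        have h5 : 4 * D * q ≤ r := by omega
        have h6 : (r + 1) ^ 2 ≤ 4 * r ^ 2 := by
          calc (r + 1) ^ 2 ≤ (2 * r) ^ 2 := Nat.pow_le_pow_left (by omega) 2
            _ = 4 * r ^ 2 := by ring
        calc D * (r + 1) ^ 2 * q ≤ D * (4 * r ^ 2) * q := Nat.mul_le_mul_right _ (Nat.mul_le_mul_left _ h6)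
          _ = (4 * D * q) * r ^ 2 := by ring
          _ ≤ r * r ^ 2 := Nat.mul_le_mul_right _ h5
          _ = r ^ 3 := by ring
      exact_mod_cast h4.trans hr1
    calc _ ≤ 8 * a3 * C ^ 3 * X / q ^ 3 * (K * (q : ℝ) ^ 2) + D / 6 * ((r : ℝ) + 1) ^ 2 * 6 := add_le_add k1 k2
      _ = 8 * a3 * C ^ 3 * K * X / q + D * ((r : ℝ) + 1) ^ 2 := by field_simp
      _ ≤ 8 * a3 * C ^ 3 * K * X / q + X / q := by linarith
      _ = _ := by ring
  -- the limit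
  have hlim : Filter.Tendsto (fun N : ℕ => ∑ M ∈ S, |∑ i ∈ range N, (F ε a1 a2 a3 (M + 1 + i) : ℝ) / (b : ℝ) ^ (i + 1)|)
      Filter.atTop (nhds (∑ M ∈ S, |(T M : ℝ)|)) := by
    apply tendsto_finsetSum
    intro M _
    exact (hT.2 M).tendsto_sum_nat.abs
  exact le_of_tendsto' hlim hfin

end Pool.Agent.H52.TC
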