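import Pool.Agent.H52.TC.Stm3
import Pool.Agent.H52.TC.UP2

/-! # Project TC, stub UP3: the mean of `|T|` over a residue class (helper19, adapted from UP2) -/

set_option autoImplicit false

namespace Pool.Agent.H52.TC

open Finset

namespace UP3aux

lemma sumlin (N : ℕ) : ∑ i ∈ range N, ((i : ℝ) + 1) / 2 ^ (i + 1) = 2 - ((N : ℝ) + 2) / 2 ^ N := by
  induction N with
  | zero => norm_num
  | succ N ih =>
    rw [sum_range_succ, ih]
    push_cast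
    field_simp
    ring

lemma sumlin_le (N : ℕ) : ∑ i ∈ range N, ((i : ℝ) + 1) / 2 ^ (i + 1) ≤ 2 := by
  rw [sumlin]
  have : 0 ≤ ((N : ℝ) + 2) / 2 ^ N := by positivity
  linarith

open Classical in
lemma off_mono (e : ℕ → ℤ) {Y Z : ℕ} (h : Y ≤ Z) : off e Y ≤ off e Z := by
  unfold off
  exact card_le_card (filter_subset_filter _ (range_subset_range.2 (by omega)))

end UP3aux

open UP3aux in
open UP2aux in
theorem up3 : S_SUP3 → S_LAT3 → S_UP3 := by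
  intro hsup hlat b hb e C hε hfew a1 a2 a3 ha3 T hT q c K hq hK
  have hC : 0 ≤ C := (hε 0).1.trans (hε 0).2
  obtain ⟨hpos, -⟩ := hsup e C hε
  obtain ⟨D, hD⟩ : ∃ D : ℕ, 6 * (4 * |a2| * C ^ 2 + 2 * |a1| * C) ≤ (D : ℤ) :=
    ⟨(6 * (4 * |a2| * C ^ 2 + 2 * |a1| * C)).toNat, Int.self_le_toNat _⟩
  have hq0' : (0 : ℝ) < q := by exact_mod_cast hq
  have hq1' : (1 : ℝ) ≤ q := by exact_mod_cast hq
  have hCr' : (0 : ℝ) ≤ C := by exact_mod_cast hC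
  have ha3r' : (1 : ℝ) ≤ a3 := by exact_mod_cast ha3
  obtain ⟨w, hw⟩ : ∃ w : ℝ, w = a3 * (C : ℝ) ^ 3 := ⟨_, rfl⟩
  have hw0 : 0 ≤ w := by rw [hw]; positivity
  obtain ⟨η, hη⟩ : ∃ η : ℝ, η = 1 / (384 * q * (w + 1)) := ⟨_, rfl⟩
  have hη0 : 0 < η := by rw [hη]; positivity
  have hη1 : η ≤ 1 := by
    rw [hη, div_le_one (by positivity)]
    nlinarith
  have hηb : 384 * η * w * q ≤ 1 := by
    have h1 : η * (384 * q * (w + 1)) = 1 := by
      rw [hη]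
      field_simp
    have h2 : 0 ≤ η * (384 * q) := by positivity
    nlinarith
  obtain ⟨s0, hs0⟩ := hfew η hη0
  refine ⟨(q + 8 * D * q + s0 + 2) ^ 3, fun X hX => ?_⟩
  obtain ⟨r, hr1, hr2⟩ := cbrt X
  have hr : q + 8 * D * q + s0 + 2 ≤ r := by
    have := lt_of_pow_lt_pow_left₀ 3 (by omega) (hX.trans_lt hr2)
    omega
  have hX1 : 1 ≤ X := le_trans (Nat.one_le_pow _ _ (by omega)) hX
  have hXr : (1 : ℝ) ≤ X := by exact_mod_cast hX1
  have hq0 : (0 : ℝ) < q := by exact_mod_cast hq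
  have hCr : (0 : ℝ) ≤ C := by exact_mod_cast hC
  have ha3r : (1 : ℝ) ≤ a3 := by exact_mod_cast ha3
  obtain ⟨S, hS⟩ : ∃ S, S = (range X).filter (fun M => M ≡ c [MOD q]) := ⟨_, rfl⟩
  rw [← hS]
  -- the bound for one place
  have hW : ∀ i : ℕ, ((∑ M ∈ S, (a3 * G3 e (M + 1 + i) + |a2| * G2 e (M + 1 + i) + |a1| * e (M + 1 + i)) : ℤ) : ℝ) ≤
      a3 * C ^ 3 * (rho q (c + 1 + i)) * (8 * X * (i + 1) / q ^ 3) + 96 * η * w * X * (i + 1) +
        (D / 6) * ((r + 1) ^ 2 * (i + 1) ^ 2) := by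
    intro i
    obtain ⟨s, hs1, hs2⟩ := cbrt (X + i)
    have hl := hlat e C hε s (X + i) hs2
    have hsq : q ≤ s := by
      have h1 : q ^ 3 < (s + 1) ^ 3 := by
        refine lt_of_le_of_lt ?_ hs2
        refine le_trans ?_ (Nat.le_add_right X i)
        refine le_trans ?_ hX
        exact Nat.pow_le_pow_left (by omega) 3
      have := lt_of_pow_lt_pow_left₀ 3 (by omega) h1
      omega
    have hss0 : s0 ≤ s + 1 := by
      have h1 : s0 ^ 3 < (s + 1) ^ 3 := by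
        refine lt_of_le_of_lt ?_ hs2
        refine le_trans ?_ (Nat.le_add_right X i)
        refine le_trans ?_ hX
        exact Nat.pow_le_pow_left (by omega) 3
      have := lt_of_pow_lt_pow_left₀ 3 (by omega) h1
      omega
    obtain ⟨Dn, hDn⟩ : ∃ Dn : ℕ, Dn = off e (X + i) := ⟨_, rfl⟩
    rw [← hDn] at hl
    have hDn2 : (Dn : ℝ) ≤ η * ((s : ℝ) + 1) := by
      have h1 : (off e (X + i) : ℝ) ≤ off e ((s + 1) ^ 3) := by
        exact_mod_cast off_mono e hs2.le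
      have h2 := hs0 (s + 1) hss0
      rw [hDn]
      refine h1.trans (h2.trans (le_of_eq ?_))
      push_cast
      ring
    have hDn0 : (0 : ℝ) ≤ Dn := Nat.cast_nonneg _
    have hsr : s + 1 ≤ (r + 1) * (i + 1) := by
      have h1 : s ^ 3 < ((r + 1) * (i + 1)) ^ 3 := by
        calc s ^ 3 ≤ X + i := hs1
          _ ≤ X * (i + 1) := by nlinarith
          _ < (r + 1) ^ 3 * (i + 1) := Nat.mul_lt_mul_of_pos_right hr2 (by omega)
          _ ≤ (r + 1) ^ 3 * (i + 1) ^ 3 := Nat.mul_le_mul_left _ (Nat.le_self_pow (by norm_num) _)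
          _ = _ := by rw [mul_pow]
      exact lt_of_pow_lt_pow_left₀ 3 (by positivity) h1
    have h4 : (s : ℝ) ^ 3 ≤ X * (i + 1) := by
      have : s ^ 3 ≤ X * (i + 1) := hs1.trans (by nlinarith)
      exact_mod_cast this
    have hs3 : ((s / q + 1 : ℕ) : ℝ) ^ 3 ≤ 8 * X * (i + 1) / q ^ 3 := by
      have h1 : ((s / q : ℕ) : ℝ) ≤ (s : ℝ) / q := Nat.cast_div_le
      have h2 : (1 : ℝ) ≤ (s : ℝ) / q := by
        rw [le_div_iff₀ hq0, one_mul]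
        exact_mod_cast hsq
      have h3 : ((s / q + 1 : ℕ) : ℝ) ≤ 2 * ((s : ℝ) / q) := by push_cast; linarith
      calc ((s / q + 1 : ℕ) : ℝ) ^ 3 ≤ (2 * ((s : ℝ) / q)) ^ 3 := pow_le_pow_left₀ (by positivity) h3 3
        _ = 8 * (s : ℝ) ^ 3 / q ^ 3 := by ring
        _ ≤ 8 * (X * (i + 1)) / q ^ 3 := by
            apply div_le_div_of_nonneg_right _ (by positivity)
            linarith
        _ = _ := by ring
    have hs1' : (1 : ℝ) ≤ s := by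
      have : 1 ≤ s := hq.trans hsq
      exact_mod_cast this
    have hcub : ((s : ℝ) + 1) ^ 3 ≤ 8 * X * (i + 1) := by
      calc ((s : ℝ) + 1) ^ 3 ≤ (2 * s) ^ 3 := pow_le_pow_left₀ (by positivity) (by linarith) 3
        _ = 8 * (s : ℝ) ^ 3 := by ring
        _ ≤ 8 * (X * (i + 1)) := by linarith
        _ = _ := by ring
    have hDs : (Dn : ℝ) ≤ (s : ℝ) + 1 := by nlinarith
    have hD3 : 3 * (Dn : ℝ) * ((s : ℝ) + 1 + Dn) ^ 2 ≤ 96 * η * X * (i + 1) := by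
      have h5 : ((s : ℝ) + 1 + Dn) ^ 2 ≤ (2 * ((s : ℝ) + 1)) ^ 2 :=
        pow_le_pow_left₀ (by positivity) (by linarith) 2
      calc 3 * (Dn : ℝ) * ((s : ℝ) + 1 + Dn) ^ 2 ≤ 3 * (η * ((s : ℝ) + 1)) * (2 * ((s : ℝ) + 1)) ^ 2 := by
            apply mul_le_mul _ h5 (by positivity) (by positivity)
            linarith
        _ = 12 * η * ((s : ℝ) + 1) ^ 3 := by ring
        _ ≤ 12 * η * (8 * X * (i + 1)) := mul_le_mul_of_nonneg_left hcub (by positivity)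
        _ = _ := by ring
    have e3 : ∑ M ∈ S, G3 e (M + 1 + i) ≤ C ^ 3 * ((rho q (c + 1 + i) : ℤ) * ((s / q + 1 : ℕ) : ℤ) ^ 3 +
        3 * (Dn : ℤ) * ((s : ℤ) + 1 + Dn) ^ 2) := by
      refine (shift (G3 e) (fun m => (hpos m).2) S _ i ?_).trans (hl.1 q (c + 1 + i) hq)
      intro M hM
      rw [hS, mem_filter, mem_range] at hM
      rw [mem_filter, mem_range]
      exact ⟨by omega, (hM.2.add_right 1).add_right i⟩
    have e2 : ∑ M ∈ S, G2 e (M + 1 + i) ≤ C ^ 2 * ((s : ℤ) + 1 + Dn) ^ 2 := by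
      refine (shift (G2 e) (fun m => (hpos m).1) S _ i ?_).trans hl.2.1
      intro M hM
      rw [hS, mem_filter, mem_range] at hM
      rw [mem_range]
      omega
    have e1 : ∑ M ∈ S, e (M + 1 + i) ≤ C * ((s : ℤ) + 1 + Dn) := by
      refine (shift e (fun m => (hε m).1) S _ i ?_).trans hl.2.2
      intro M hM
      rw [hS, mem_filter, mem_range] at hM
      rw [mem_range]
      omega
    have e4 : ∑ M ∈ S, (a3 * G3 e (M + 1 + i) + |a2| * G2 e (M + 1 + i) + |a1| * e (M + 1 + i)) ≤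
        a3 * (C ^ 3 * ((rho q (c + 1 + i) : ℤ) * ((s / q + 1 : ℕ) : ℤ) ^ 3 +
        3 * (Dn : ℤ) * ((s : ℤ) + 1 + Dn) ^ 2)) + |a2| * (C ^ 2 * ((s : ℤ) + 1 + Dn) ^ 2) +
          |a1| * (C * ((s : ℤ) + 1 + Dn)) := by
      rw [sum_add_distrib, sum_add_distrib, ← mul_sum, ← mul_sum, ← mul_sum]
      have := mul_le_mul_of_nonneg_left e3 (show 0 ≤ a3 by linarith)
      have := mul_le_mul_of_nonneg_left e2 (abs_nonneg a2)
      have := mul_le_mul_of_nonneg_left e1 (abs_nonneg a1)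
      linarith
    have e5 : ((∑ M ∈ S, (a3 * G3 e (M + 1 + i) + |a2| * G2 e (M + 1 + i) + |a1| * e (M + 1 + i)) : ℤ) : ℝ) ≤
        a3 * (C ^ 3 * ((rho q (c + 1 + i)) * ((s / q + 1 : ℕ) : ℝ) ^ 3 +
        3 * (Dn : ℝ) * ((s : ℝ) + 1 + Dn) ^ 2)) + |(a2 : ℝ)| * (C ^ 2 * ((s : ℝ) + 1 + Dn) ^ 2) +
          |(a1 : ℝ)| * (C * ((s : ℝ) + 1 + Dn)) := by
      have e6 := (Int.cast_le (R := ℝ)).2 e4
      push_cast at e6 ⊢
      exact e6
    refine e5.trans ?_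
    have hDr : 6 * (4 * |(a2 : ℝ)| * C ^ 2 + 2 * |(a1 : ℝ)| * C) ≤ D := by exact_mod_cast hD
    have hsr' : (s : ℝ) + 1 ≤ (r + 1) * (i + 1) := by exact_mod_cast hsr
    have hri : (1 : ℝ) ≤ (r + 1) * (i + 1) := by
      have h1 : (0 : ℝ) ≤ r := Nat.cast_nonneg r
      have h2 : (0 : ℝ) ≤ i := Nat.cast_nonneg i
      nlinarith [mul_nonneg h1 h2]
    have f2 : ((s : ℝ) + 1 + Dn) ^ 2 ≤ 4 * ((r + 1) ^ 2 * (i + 1) ^ 2) := by
      calc ((s : ℝ) + 1 + Dn) ^ 2 ≤ (2 * ((r + 1) * (i + 1))) ^ 2 :=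
            pow_le_pow_left₀ (by positivity) (by linarith) 2
        _ = _ := by ring
    have f1 : ((s : ℝ) + 1 + Dn) ≤ 2 * ((r + 1) ^ 2 * (i + 1) ^ 2) := by
      rw [← mul_pow]
      have : (s : ℝ) + 1 + Dn ≤ 2 * ((r + 1) * (i + 1)) := by linarith
      refine this.trans ?_
      nlinarith
    have g3 : (a3 : ℝ) * (C ^ 3 * ((rho q (c + 1 + i)) * ((s / q + 1 : ℕ) : ℝ) ^ 3 +
        3 * (Dn : ℝ) * ((s : ℝ) + 1 + Dn) ^ 2)) ≤
        a3 * C ^ 3 * (rho q (c + 1 + i)) * (8 * X * (i + 1) / q ^ 3) + 96 * η * w * X * (i + 1) := by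
      have t1 : (rho q (c + 1 + i) : ℝ) * ((s / q + 1 : ℕ) : ℝ) ^ 3 ≤
          (rho q (c + 1 + i)) * (8 * X * (i + 1) / q ^ 3) :=
        mul_le_mul_of_nonneg_left hs3 (Nat.cast_nonneg _)
      have t2 := mul_le_mul_of_nonneg_left (add_le_add t1 hD3) hw0
      have t3 : (a3 : ℝ) * (C ^ 3 * ((rho q (c + 1 + i)) * ((s / q + 1 : ℕ) : ℝ) ^ 3 +
        3 * (Dn : ℝ) * ((s : ℝ) + 1 + Dn) ^ 2)) = w * ((rho q (c + 1 + i)) * ((s / q + 1 : ℕ) : ℝ) ^ 3 +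
        3 * (Dn : ℝ) * ((s : ℝ) + 1 + Dn) ^ 2) := by rw [hw]; ring
      rw [t3]
      refine t2.trans (le_of_eq ?_)
      rw [← hw]
      ring
    have g2 : |(a2 : ℝ)| * (C ^ 2 * ((s : ℝ) + 1 + Dn) ^ 2) ≤ |(a2 : ℝ)| * (C ^ 2 * (4 * ((r + 1) ^ 2 * (i + 1) ^ 2))) := by
      apply mul_le_mul_of_nonneg_left _ (abs_nonneg _)
      exact mul_le_mul_of_nonneg_left f2 (by positivity)
    have g1 : |(a1 : ℝ)| * (C * ((s : ℝ) + 1 + Dn)) ≤ |(a1 : ℝ)| * (C * (2 * ((r + 1) ^ 2 * (i + 1) ^ 2))) := by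
      apply mul_le_mul_of_nonneg_left _ (abs_nonneg _)
      exact mul_le_mul_of_nonneg_left f1 (by positivity)
    have g0 : (4 * |(a2 : ℝ)| * C ^ 2 + 2 * |(a1 : ℝ)| * C) * ((r + 1) ^ 2 * (i + 1) ^ 2) ≤ (D / 6) * ((r + 1) ^ 2 * (i + 1) ^ 2) := by
      apply mul_le_mul_of_nonneg_right _ (by positivity)
      linarith
    calc _ ≤ (a3 * C ^ 3 * (rho q (c + 1 + i)) * (8 * X * (i + 1) / q ^ 3) + 96 * η * w * X * (i + 1)) +
          |(a2 : ℝ)| * (C ^ 2 * (4 * ((r + 1) ^ 2 * (i + 1) ^ 2))) +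
          |(a1 : ℝ)| * (C * (2 * ((r + 1) ^ 2 * (i + 1) ^ 2))) := add_le_add (add_le_add g3 g2) g1
      _ = a3 * C ^ 3 * (rho q (c + 1 + i)) * (8 * X * (i + 1) / q ^ 3) + 96 * η * w * X * (i + 1) +
          (4 * |(a2 : ℝ)| * C ^ 2 + 2 * |(a1 : ℝ)| * C) * ((r + 1) ^ 2 * (i + 1) ^ 2) := by ring
      _ ≤ _ := by linarith
  -- finite version
  have hfin : ∀ N : ℕ, ∑ M ∈ S, |∑ i ∈ range N, (FG e a1 a2 a3 (M + 1 + i) : ℝ) / (b : ℝ) ^ (i + 1)| ≤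
      (8 * a3 * C ^ 3 * K + 1) * X / q := by
    intro N
    have h1 : ∀ M ∈ S, |∑ i ∈ range N, (FG e a1 a2 a3 (M + 1 + i) : ℝ) / (b : ℝ) ^ (i + 1)| ≤
        ∑ i ∈ range N, ((a3 * G3 e (M + 1 + i) + |a2| * G2 e (M + 1 + i) + |a1| * e (M + 1 + i) : ℤ) : ℝ) / 2 ^ (i + 1) := by
      intro M _
      refine (abs_sum_le_sum_abs _ _).trans (sum_le_sum fun i _ => ?_)
      have hb2 : (2 : ℝ) ≤ b := by exact_mod_cast hb
      rw [abs_div, abs_of_nonneg (show (0 : ℝ) ≤ (b : ℝ) ^ (i + 1) by positivity)]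
      obtain ⟨p2, p3⟩ := hpos (M + 1 + i)
      have p1 := (hε (M + 1 + i)).1
      have h2 : |FG e a1 a2 a3 (M + 1 + i)| ≤ a3 * G3 e (M + 1 + i) + |a2| * G2 e (M + 1 + i) + |a1| * e (M + 1 + i) := by
        unfold FG
        refine (abs_add_le _ _).trans (add_le_add ((abs_add_le _ _).trans (add_le_add ?_ ?_)) ?_)
        · rw [abs_mul, abs_of_nonneg p3, abs_of_nonneg (show 0 ≤ a3 by linarith)]
        · rw [abs_mul, abs_of_nonneg p2]
        · rw [abs_mul, abs_of_nonneg p1]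
      have h3 : |(FG e a1 a2 a3 (M + 1 + i) : ℝ)| ≤
          ((a3 * G3 e (M + 1 + i) + |a2| * G2 e (M + 1 + i) + |a1| * e (M + 1 + i) : ℤ) : ℝ) := by exact_mod_cast h2
      exact div_le_div₀ ((abs_nonneg _).trans h3) h3 (by positivity) (pow_le_pow_left₀ (by norm_num) hb2 _)
    refine (sum_le_sum h1).trans ?_
    rw [sum_comm]
    have h2 : ∀ i ∈ range N, ∑ M ∈ S, ((a3 * G3 e (M + 1 + i) + |a2| * G2 e (M + 1 + i) + |a1| * e (M + 1 + i) : ℤ) : ℝ) / 2 ^ (i + 1) ≤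
        8 * a3 * C ^ 3 * X / q ^ 3 * (((i : ℝ) + 1) / 2 ^ (i + 1) * rho q (c + 1 + i)) +
          96 * η * w * X * (((i : ℝ) + 1) / 2 ^ (i + 1)) +
          D / 6 * (r + 1) ^ 2 * (((i : ℝ) + 1) ^ 2 / 2 ^ (i + 1)) := by
      intro i _
      rw [← sum_div]
      have h3 := hW i
      push_cast at h3 ⊢
      refine (div_le_div_of_nonneg_right h3 (by positivity)).trans (le_of_eq ?_)
      field_simp
    refine (sum_le_sum h2).trans ?_
    rw [sum_add_distrib, sum_add_distrib, ← mul_sum, ← mul_sum, ← mul_sum]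
    have k0 : 96 * η * w * X * ∑ i ∈ range N, (((i : ℝ) + 1) / 2 ^ (i + 1)) ≤ X / (2 * q) := by
      have k01 : 96 * η * w * X * ∑ i ∈ range N, (((i : ℝ) + 1) / 2 ^ (i + 1)) ≤ 96 * η * w * X * 2 :=
        mul_le_mul_of_nonneg_left (sumlin_le N) (by positivity)
      refine k01.trans ?_
      rw [le_div_iff₀ (by positivity)]
      calc 96 * η * w * X * 2 * (2 * q) = (384 * η * w * q) * X := by ring
        _ ≤ 1 * X := mul_le_mul_of_nonneg_right hηb (by positivity)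
        _ = X := one_mul _
    have k1 : 8 * a3 * C ^ 3 * X / q ^ 3 * ∑ i ∈ range N, (((i : ℝ) + 1) / 2 ^ (i + 1) * rho q (c + 1 + i)) ≤
        8 * a3 * C ^ 3 * X / q ^ 3 * (K * (q : ℝ) ^ 2) := by
      exact mul_le_mul_of_nonneg_left (hK N) (by positivity)
    have k2 : D / 6 * (r + 1) ^ 2 * ∑ i ∈ range N, (((i : ℝ) + 1) ^ 2 / 2 ^ (i + 1)) ≤ D / 6 * ((r : ℝ) + 1) ^ 2 * 6 :=
      mul_le_mul_of_nonneg_left (sumsq_le N) (by positivity)
    have k3 : (D : ℝ) * ((r : ℝ) + 1) ^ 2 ≤ X / (2 * q) := by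
      rw [le_div_iff₀ (by positivity)]
      have h4 : D * (r + 1) ^ 2 * (2 * q) ≤ r ^ 3 := by
        have h5 : 8 * D * q ≤ r := by omega
        have h6 : (r + 1) ^ 2 ≤ 4 * r ^ 2 := by
          calc (r + 1) ^ 2 ≤ (2 * r) ^ 2 := Nat.pow_le_pow_left (by omega) 2
            _ = 4 * r ^ 2 := by ring
        calc D * (r + 1) ^ 2 * (2 * q) ≤ D * (4 * r ^ 2) * (2 * q) := Nat.mul_le_mul_right _ (Nat.mul_le_mul_left _ h6)
          _ = (8 * D * q) * r ^ 2 := by ring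
          _ ≤ r * r ^ 2 := Nat.mul_le_mul_right _ h5
          _ = r ^ 3 := by ring
      exact_mod_cast h4.trans hr1
    calc _ ≤ 8 * a3 * C ^ 3 * X / q ^ 3 * (K * (q : ℝ) ^ 2) + X / (2 * q) + D / 6 * ((r : ℝ) + 1) ^ 2 * 6 :=
          add_le_add (add_le_add k1 k0) k2
      _ = 8 * a3 * C ^ 3 * K * X / q + X / (2 * q) + D * ((r : ℝ) + 1) ^ 2 := by field_simp
      _ ≤ 8 * a3 * C ^ 3 * K * X / q + X / (2 * q) + X / (2 * q) := by linarith
      _ = _ := by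
          field_simp
          ring
  -- the limit
  have hlim : Filter.Tendsto (fun N : ℕ => ∑ M ∈ S, |∑ i ∈ range N, (FG e a1 a2 a3 (M + 1 + i) : ℝ) / (b : ℝ) ^ (i + 1)|)
      Filter.atTop (nhds (∑ M ∈ S, |(T M : ℝ)|)) := by
    apply tendsto_finsetSum
    intro M _
    exact (hT.2 M).tendsto_sum_nat.abs
  exact le_of_tendsto' hlim hfin

end Pool.Agent.H52.TC
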