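import Pool.Agent.H52.TC.Stm
import Pool.Agent.H52.TC.SUP

/-! TC-WIN (helper62): most windows in the class `c` are empty -/

set_option autoImplicit false

namespace Pool.Agent.H52.TC

open Finset

namespace WINx

theorem cnt (g : ℕ → ℤ) (hg : ∀ m, 0 ≤ g m) (A B : Finset ℕ) (j : ℕ)
    (h1 : ∀ M ∈ A, 1 ≤ g (M + j)) (h2 : ∀ M ∈ A, M + j ∈ B) :
    (A.card : ℤ) ≤ ∑ m ∈ B, g m := by
  calc (A.card : ℤ) = ∑ M ∈ A, (1 : ℤ) := by simp
    _ ≤ ∑ M ∈ A, g (M + j) := Finset.sum_le_sum h1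
    _ = ∑ m ∈ A.image (fun M => M + j), g m :=
        (Finset.sum_image (fun a _ b _ h => Nat.add_right_cancel h)).symm
    _ ≤ ∑ m ∈ B, g m :=
        Finset.sum_le_sum_of_subset_of_nonneg (Finset.image_subset_iff.2 h2) (fun m _ _ => hg m)

theorem root (Y : ℕ) : ∃ s : ℕ, s ^ 3 ≤ Y ∧ Y < (s + 1) ^ 3 := by
  induction Y with
  | zero => exact ⟨0, by norm_num, by norm_num⟩
  | succ Y ih =>
    obtain ⟨s, h1, h2⟩ := ih
    by_cases h : Y + 1 < (s + 1) ^ 3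
    · exact ⟨s, by omega, h⟩
    · refine ⟨s + 1, by omega, ?_⟩
      have h3 : (s + 1) ^ 3 < (s + 1 + 1) ^ 3 := Nat.pow_lt_pow_left (Nat.lt_succ_self _) (by norm_num)
      omega

theorem memf {p : ℕ → Prop} (inst : DecidablePred p) (s : Finset ℕ) (a : ℕ)
    (h : a ∈ @Finset.filter ℕ p inst s) : a ∈ s ∧ p a := (@Finset.mem_filter ℕ p inst s a).1 h

end WINx

open SUPx WINx

open Classical in
theorem win : S_SUP → S_LAT → S_WIN := by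
  intro hS hL ε C hε a1 a2 a3 q c k hq hrho
  have hC1 : 1 ≤ C := (hε 0).1.trans (hε 0).2
  obtain ⟨hn, -, -, hE2, -⟩ := hS ε C hε
  obtain ⟨hn', hone, -, -, -⟩ := hS (fun _ => 1) 1 (fun _ => ⟨le_rfl, le_rfl⟩)
  have h3 : ∀ m, E3 ε m ≠ 0 → 1 ≤ E3 (fun _ => 1) m := by
    intro m hm
    obtain ⟨ij, hij, hne⟩ := Finset.exists_ne_zero_of_sum_ne_zero hm
    obtain ⟨u, v, h2⟩ := hE2 _ (left_ne_zero_of_mul hne)
    have h1 : ∃ w : ℕ, w ^ 3 = ij.2 := by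
      by_contra hcon
      exact right_ne_zero_of_mul hne (E1_noncube ε _ fun w hw => hcon ⟨w, hw⟩)
    obtain ⟨w, hw⟩ := h1
    have h4 := hone u v w
    rw [← h2, hw, Finset.HasAntidiagonal.mem_antidiagonal.1 hij] at h4
    exact h4
  obtain ⟨Cn, hCn⟩ : ∃ Cn : ℕ, C = (Cn : ℤ) := ⟨C.toNat, (Int.toNat_of_nonneg (by omega)).symm⟩
  set S0 : ℕ := 50 * q * k * Cn ^ 2 + 25 * k + q + 1 with hS0
  refine ⟨(S0 + 1) ^ 3, fun X hX => ?_⟩
  obtain ⟨s, hs1, hs2⟩ := root (X + k)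
  have hsS : S0 ≤ s := by
    by_contra hcon
    have h5 : (s + 1) ^ 3 ≤ (S0 + 1) ^ 3 := Nat.pow_le_pow_left (by omega) 3
    omega
  obtain ⟨hL3, -, -⟩ := hL (fun _ => 1) 1 (fun _ => ⟨by norm_num, le_rfl⟩) s (X + k) hs2
  obtain ⟨-, hL2, hL1⟩ := hL ε C (fun n => ⟨by linarith [(hε n).1], (hε n).2⟩) s (X + k) hs2
  suffices hA : ∀ A : Finset ℕ, (∀ M ∈ A, M ∈ range X ∧ M ≡ c [MOD q] ∧
      ∃ j ∈ Icc 1 k, F ε a1 a2 a3 (M + j) ≠ 0) → (A.card : ℝ) ≤ X / (4 * q) from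
    hA _ (fun M hM => memf _ _ _ hM)
  intro A hA
  -- the three sets
  let A3 : ℕ → Finset ℕ := fun j => (range X).filter fun M => M ≡ c [MOD q] ∧
    1 ≤ E3 (fun _ => 1) (M + j)
  let A2 : ℕ → Finset ℕ := fun j => (range X).filter fun M => 1 ≤ E2 ε (M + j)
  let A1 : ℕ → Finset ℕ := fun j => (range X).filter fun M => 1 ≤ E1 ε (M + j)
  have hsub : A ⊆ (Icc 1 k).biUnion fun j => A3 j ∪ (A2 j ∪ A1 j) := by
    intro M hM
    obtain ⟨hMX, hMc, j, hj, hF⟩ := hA M hM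
    refine mem_biUnion.2 ⟨j, hj, ?_⟩
    by_cases e3 : E3 ε (M + j) = 0
    · by_cases e2 : E2 ε (M + j) = 0
      · have e1 : E1 ε (M + j) ≠ 0 := by
          intro e1
          apply hF
          unfold F
          rw [e1, e2, e3]
          ring
        refine mem_union_right _ (mem_union_right _ (mem_filter.2 ⟨hMX, ?_⟩))
        have := (hn (M + j)).1
        omega
      · refine mem_union_right _ (mem_union_left _ (mem_filter.2 ⟨hMX, ?_⟩))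
        have := (hn (M + j)).2.1
        omega
    · exact mem_union_left _ (mem_filter.2 ⟨hMX, hMc, h3 _ e3⟩)
  have hc3 : ∀ j ∈ Icc 1 k, ((A3 j).card : ℤ) ≤ (rho q (c + j) : ℤ) * ((s / q + 1 : ℕ) : ℤ) ^ 3 := by
    intro j hj
    have h5 := cnt (E3 fun _ => 1) (fun m => (hn' m).2.2) (A3 j)
      ((range (X + k + 1)).filter (fun m => m ≡ c + j [MOD q])) j
      (fun M hM => (mem_filter.1 hM).2.2) (fun M hM => by
        have h6 := mem_filter.1 hM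
        have h7 := mem_range.1 h6.1
        have h8 := (mem_Icc.1 hj).2
        exact mem_filter.2 ⟨mem_range.2 (by omega), Nat.ModEq.add_right j h6.2.1⟩)
    have h6 := hL3 q (c + j) hq
    calc ((A3 j).card : ℤ) ≤ _ := h5
      _ ≤ _ := h6
      _ = (rho q (c + j) : ℤ) * ((s / q + 1 : ℕ) : ℤ) ^ 3 := by ring
  have hc2 : ∀ j ∈ Icc 1 k, ((A2 j).card : ℤ) ≤ C ^ 2 * ((s : ℤ) + 1) ^ 2 := by
    intro j hj
    exact (cnt (E2 ε) (fun m => (hn m).2.1) (A2 j) (range (X + k + 1)) j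
      (fun M hM => (mem_filter.1 hM).2) (fun M hM => by
        have h7 := mem_range.1 (mem_filter.1 hM).1
        have h8 := (mem_Icc.1 hj).2
        exact mem_range.2 (by omega))).trans hL2
  have hc1 : ∀ j ∈ Icc 1 k, ((A1 j).card : ℤ) ≤ C * ((s : ℤ) + 1) := by
    intro j hj
    exact (cnt (E1 ε) (fun m => (hn m).1) (A1 j) (range (X + k + 1)) j
      (fun M hM => (mem_filter.1 hM).2) (fun M hM => by
        have h7 := mem_range.1 (mem_filter.1 hM).1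
        have h8 := (mem_Icc.1 hj).2
        exact mem_range.2 (by omega))).trans hL1
  have hcard : (A.card : ℤ) ≤ ∑ j ∈ Icc 1 k, ((rho q (c + j) : ℤ) * ((s / q + 1 : ℕ) : ℤ) ^ 3 +
      (C ^ 2 * ((s : ℤ) + 1) ^ 2 + C * ((s : ℤ) + 1))) := by
    have h5 : A.card ≤ ∑ j ∈ Icc 1 k, ((A3 j).card + ((A2 j).card + (A1 j).card)) :=
      (card_le_card hsub).trans (card_biUnion_le.trans (Finset.sum_le_sum fun j _ =>
        (card_union_le _ _).trans (Nat.add_le_add_left (card_union_le _ _) _)))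
    have h6 : (A.card : ℤ) ≤ ∑ j ∈ Icc 1 k, (((A3 j).card : ℤ) + (((A2 j).card : ℤ) +
        ((A1 j).card : ℤ))) := by exact_mod_cast h5
    exact h6.trans (Finset.sum_le_sum fun j hj =>
      add_le_add (hc3 j hj) (add_le_add (hc2 j hj) (hc1 j hj)))
  -- real numbers
  have hr : (A.card : ℝ) ≤ (∑ j ∈ Icc 1 k, (rho q (c + j) : ℝ)) * ((s / q + 1 : ℕ) : ℝ) ^ 3 +
      k * ((Cn : ℝ) ^ 2 * ((s : ℝ) + 1) ^ 2 + Cn * ((s : ℝ) + 1)) := by
    have h5 : (A.card : ℝ) ≤ ∑ j ∈ Icc 1 k, ((rho q (c + j) : ℝ) * ((s / q + 1 : ℕ) : ℝ) ^ 3 +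
      ((Cn : ℝ) ^ 2 * ((s : ℝ) + 1) ^ 2 + Cn * ((s : ℝ) + 1))) := by
      rw [hCn] at hcard
      exact_mod_cast hcard
    rw [Finset.sum_add_distrib, ← Finset.sum_mul, Finset.sum_const, Nat.card_Icc,
      Nat.add_sub_cancel, nsmul_eq_mul] at h5
    exact h5
  have hq0 : (0 : ℝ) < q := by exact_mod_cast hq
  have hCn1 : (1 : ℝ) ≤ Cn := by
    have : (1 : ℤ) ≤ Cn := by rw [← hCn]; exact hC1
    exact_mod_cast this
  have hk0 : (0 : ℝ) ≤ k := Nat.cast_nonneg k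
  have hsr : 50 * (q : ℝ) * k * Cn ^ 2 + 25 * k + q + 1 ≤ s := by exact_mod_cast hsS
  have hsX : (s : ℝ) ^ 3 ≤ X + k := by exact_mod_cast hs1
  have hqk : 0 ≤ 50 * (q : ℝ) * k * Cn ^ 2 := by positivity
  have hsq : (q : ℝ) ≤ s := by linarith
  have hs0 : (1 : ℝ) ≤ s := by linarith
  have hdiv : ((s / q + 1 : ℕ) : ℝ) ≤ 2 * (s / q) := by
    push_cast
    have h5 : ((s / q : ℕ) : ℝ) ≤ (s : ℝ) / q := Nat.cast_div_le
    have h6 : 1 ≤ (s : ℝ) / q := (one_le_div hq0).2 hsq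
    linarith
  have hcube : ((s / q + 1 : ℕ) : ℝ) ^ 3 ≤ 8 * (X + k) / q ^ 3 := by
    calc ((s / q + 1 : ℕ) : ℝ) ^ 3 ≤ (2 * (s / q)) ^ 3 := pow_le_pow_left₀ (Nat.cast_nonneg _) hdiv 3
      _ = 8 * s ^ 3 / q ^ 3 := by ring
      _ ≤ 8 * (X + k) / q ^ 3 := by gcongr
  have hmain : (∑ j ∈ Icc 1 k, (rho q (c + j) : ℝ)) * ((s / q + 1 : ℕ) : ℝ) ^ 3 ≤
      8 * (X + k) / (100 * q) := by
    calc (∑ j ∈ Icc 1 k, (rho q (c + j) : ℝ)) * ((s / q + 1 : ℕ) : ℝ) ^ 3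
        ≤ ((q : ℝ) ^ 2 / 100) * (8 * (X + k) / q ^ 3) :=
          mul_le_mul hrho hcube (by positivity) (by positivity)
      _ = 8 * (X + k) / (100 * q) := by field_simp
  have hrest : (k : ℝ) * ((Cn : ℝ) ^ 2 * ((s : ℝ) + 1) ^ 2 + Cn * ((s : ℝ) + 1)) ≤
      8 * (k * Cn ^ 2 * s ^ 2) := by
    have h5 : (Cn : ℝ) ≤ Cn ^ 2 := by nlinarith
    have h6 : ((s : ℝ) + 1) ^ 2 ≤ 4 * s ^ 2 := by nlinarith
    have h7 : (s : ℝ) + 1 ≤ 4 * s ^ 2 := by nlinarith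
    have h8 : (Cn : ℝ) ^ 2 * ((s : ℝ) + 1) ^ 2 ≤ Cn ^ 2 * (4 * s ^ 2) :=
      mul_le_mul_of_nonneg_left h6 (by positivity)
    have h9 : (Cn : ℝ) * ((s : ℝ) + 1) ≤ Cn ^ 2 * (4 * s ^ 2) :=
      mul_le_mul h5 h7 (by positivity) (by positivity)
    nlinarith
  have hfin : 8 * (X + k : ℝ) + 100 * q * (8 * (k * Cn ^ 2 * s ^ 2)) ≤ 25 * X := by
    have h5 : 800 * ((q : ℝ) * k * Cn ^ 2) * s ^ 2 ≤ 16 * (s : ℝ) ^ 3 := by
      have h6 : 50 * ((q : ℝ) * k * Cn ^ 2) ≤ s := by linarith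
      have h7 : 0 ≤ (s : ℝ) ^ 2 := by positivity
      nlinarith [mul_le_mul_of_nonneg_right h6 h7]
    have h8 : 25 * (k : ℝ) ≤ (s : ℝ) ^ 3 := by
      have h9 : (s : ℝ) ≤ s ^ 3 := le_self_pow₀ hs0 (by norm_num)
      linarith
    nlinarith
  have hgoal : 8 * (X + k : ℝ) / (100 * q) + 8 * (k * Cn ^ 2 * s ^ 2) ≤ X / (4 * q) := by
    rw [div_add' _ _ _ (by positivity), div_le_div_iff₀ (by positivity) (by positivity)]
    nlinarith
  linarith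

end Pool.Agent.H52.TC
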