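import Pool.Agent.H52.TC.Stm3
import Pool.Agent.H52.TC.WIN2

/-! TC-WIN3 (helper19, adapted from WIN2): most windows in the class `c` are empty -/

set_option autoImplicit false

namespace Pool.Agent.H52.TC

open Finset

open WIN2x

open Classical in
theorem win3 : S_SUP3 → S_LAT3 → S_WIN3 := by
  intro hS hL e C₀ hε₀ hfew a1 a2 a3 q c k hq hrho
  obtain ⟨hn, -, -, hE2, -⟩ := hS e C₀ hε₀
  -- the indicator of the support
  obtain ⟨f, hf⟩ : ∃ f : ℕ → ℤ, f = fun m => if e m = 0 then 0 else 1 := ⟨_, rfl⟩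
  have hf01 : ∀ m, 0 ≤ f m ∧ f m ≤ 1 := by
    intro m
    rw [hf]
    simp only
    split_ifs <;> norm_num
  have hfe : ∀ m, f m ≠ 0 ↔ e m ≠ 0 := by
    intro m
    rw [hf]
    simp only
    split_ifs with h <;> simp [h]
  have hoff : ∀ N, off f N = off e N := by
    intro N
    unfold off
    congr 1
    apply filter_congr
    intro m _
    rw [hfe]
  obtain ⟨hn', g2, g3, -, -⟩ := hS f 1 hf01
  have h2 : ∀ m, G2 e m ≠ 0 → 1 ≤ G2 f m := by
    intro m hm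
    obtain ⟨i, j, hi, h1, h2⟩ := hE2 m hm
    have h4 := g2 i j ((hfe i).2 h1) ((hfe j).2 h2)
    rw [← hi] at h4
    have h5 := (hn' m).1
    omega
  have h3 : ∀ m, G3 e m ≠ 0 → 1 ≤ G3 f m := by
    intro m hm
    obtain ⟨ij, hij, hne⟩ := Finset.exists_ne_zero_of_sum_ne_zero hm
    have h1 := h2 _ (left_ne_zero_of_mul hne)
    have h4 := g3 ij.1 ij.2 (by omega) ((hfe ij.2).2 (right_ne_zero_of_mul hne))
    rw [Finset.HasAntidiagonal.mem_antidiagonal.1 hij] at h4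
    have h5 := (hn' m).2
    omega
  have h1 : ∀ m, e m ≠ 0 → 1 ≤ f m := by
    intro m hm
    have h4 := (hfe m).2 hm
    have h5 := (hf01 m).1
    omega
  have hq0 : (0 : ℝ) < q := by exact_mod_cast hq
  obtain ⟨η, hη⟩ : ∃ η : ℝ, η = 1 / (20000 * q * (k + 1)) := ⟨_, rfl⟩
  have hη0 : 0 < η := by rw [hη]; positivity
  have hq1 : (1 : ℝ) ≤ q := by exact_mod_cast hq
  have hk0 : (0 : ℝ) ≤ k := Nat.cast_nonneg k
  have hη1 : η ≤ 1 := by
    rw [hη, div_le_one (by positivity)]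
    nlinarith
  have hηb : 20000 * (η * q * k) ≤ 1 := by
    have h1 : η * (20000 * q * (k + 1)) = 1 := by
      rw [hη]
      field_simp
    have h2 : 0 ≤ η * (20000 * q) := by positivity
    nlinarith
  obtain ⟨s0, hs0⟩ := hfew η hη0
  obtain ⟨S0, hS0⟩ : ∃ S0 : ℕ, S0 = 10000 * q * k + 100 * k + q + s0 + 1 := ⟨_, rfl⟩
  refine ⟨(S0 + 1) ^ 3, fun X hX => ?_⟩
  obtain ⟨s, hs1, hs2⟩ := root (X + k)
  have hsS : S0 ≤ s := by
    by_contra hcon
    have h5 : (s + 1) ^ 3 ≤ (S0 + 1) ^ 3 := Nat.pow_le_pow_left (by omega) 3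
    omega
  obtain ⟨D, hD⟩ : ∃ D : ℕ, D = off e (X + k) := ⟨_, rfl⟩
  obtain ⟨hL3, hL2, hL1⟩ := hL f 1 hf01 s (X + k) hs2
  rw [hoff, ← hD] at hL2 hL1
  have hDr : (D : ℝ) ≤ η * ((s : ℝ) + 1) := by
    have h6 : (off e (X + k) : ℝ) ≤ off e ((s + 1) ^ 3) := by
      have h7 : off e (X + k) ≤ off e ((s + 1) ^ 3) := by
        unfold off
        exact card_le_card (filter_subset_filter _ (range_subset_range.2 (by omega)))
      exact_mod_cast h7
    have h7 := hs0 (s + 1) (by omega)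
    rw [hD]
    refine h6.trans (h7.trans (le_of_eq ?_))
    push_cast
    ring
  suffices hA : ∀ A : Finset ℕ, (∀ M ∈ A, M ∈ range X ∧ M ≡ c [MOD q] ∧
      ∃ j ∈ Icc 1 k, FG e a1 a2 a3 (M + j) ≠ 0) → (A.card : ℝ) ≤ X / (10 * q) from
    hA _ (fun M hM => memf _ _ _ hM)
  intro A hA
  -- the three sets
  let A3 : ℕ → Finset ℕ := fun j => (range X).filter fun M => M ≡ c [MOD q] ∧
    1 ≤ G3 f (M + j)
  let A2 : ℕ → Finset ℕ := fun j => (range X).filter fun M => 1 ≤ G2 f (M + j)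
  let A1 : ℕ → Finset ℕ := fun j => (range X).filter fun M => 1 ≤ f (M + j)
  have hsub : A ⊆ (Icc 1 k).biUnion fun j => A3 j ∪ (A2 j ∪ A1 j) := by
    intro M hM
    obtain ⟨hMX, hMc, j, hj, hF⟩ := hA M hM
    refine mem_biUnion.2 ⟨j, hj, ?_⟩
    by_cases e3 : G3 e (M + j) = 0
    · by_cases e2 : G2 e (M + j) = 0
      · have e1 : e (M + j) ≠ 0 := by
          intro e1
          apply hF
          unfold FG
          rw [e1, e2, e3]
          ring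
        exact mem_union_right _ (mem_union_right _ (mem_filter.2 ⟨hMX, h1 _ e1⟩))
      · exact mem_union_right _ (mem_union_left _ (mem_filter.2 ⟨hMX, h2 _ e2⟩))
    · exact mem_union_left _ (mem_filter.2 ⟨hMX, hMc, h3 _ e3⟩)
  have hc3 : ∀ j ∈ Icc 1 k, ((A3 j).card : ℤ) ≤ (rho q (c + j) : ℤ) * ((s / q + 1 : ℕ) : ℤ) ^ 3 +
      3 * (D : ℤ) * ((s : ℤ) + 1 + D) ^ 2 := by
    intro j hj
    have h5 := cnt (G3 f) (fun m => (hn' m).2) (A3 j)
      ((range (X + k + 1)).filter (fun m => m ≡ c + j [MOD q])) j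
      (fun M hM => (mem_filter.1 hM).2.2) (fun M hM => by
        have h6 := mem_filter.1 hM
        have h7 := mem_range.1 h6.1
        have h8 := (mem_Icc.1 hj).2
        exact mem_filter.2 ⟨mem_range.2 (by omega), Nat.ModEq.add_right j h6.2.1⟩)
    have h6 := hL3 q (c + j) hq
    rw [hoff, ← hD] at h6
    calc ((A3 j).card : ℤ) ≤ _ := h5
      _ ≤ _ := h6
      _ = (rho q (c + j) : ℤ) * ((s / q + 1 : ℕ) : ℤ) ^ 3 +
      3 * (D : ℤ) * ((s : ℤ) + 1 + D) ^ 2 := by ring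
  have hc2 : ∀ j ∈ Icc 1 k, ((A2 j).card : ℤ) ≤ ((s : ℤ) + 1 + D) ^ 2 := by
    intro j hj
    have h5 := (cnt (G2 f) (fun m => (hn' m).1) (A2 j) (range (X + k + 1)) j
      (fun M hM => (mem_filter.1 hM).2) (fun M hM => by
        have h7 := mem_range.1 (mem_filter.1 hM).1
        have h8 := (mem_Icc.1 hj).2
        exact mem_range.2 (by omega))).trans hL2
    linarith
  have hc1 : ∀ j ∈ Icc 1 k, ((A1 j).card : ℤ) ≤ ((s : ℤ) + 1 + D) := by
    intro j hj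
    have h5 := (cnt f (fun m => (hf01 m).1) (A1 j) (range (X + k + 1)) j
      (fun M hM => (mem_filter.1 hM).2) (fun M hM => by
        have h7 := mem_range.1 (mem_filter.1 hM).1
        have h8 := (mem_Icc.1 hj).2
        exact mem_range.2 (by omega))).trans hL1
    linarith
  have hcard : (A.card : ℤ) ≤ ∑ j ∈ Icc 1 k, ((rho q (c + j) : ℤ) * ((s / q + 1 : ℕ) : ℤ) ^ 3 +
      (3 * (D : ℤ) * ((s : ℤ) + 1 + D) ^ 2 + (((s : ℤ) + 1 + D) ^ 2 + ((s : ℤ) + 1 + D)))) := by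
    have h5 : A.card ≤ ∑ j ∈ Icc 1 k, ((A3 j).card + ((A2 j).card + (A1 j).card)) :=
      (card_le_card hsub).trans (card_biUnion_le.trans (Finset.sum_le_sum fun j _ =>
        (card_union_le _ _).trans (Nat.add_le_add_left (card_union_le _ _) _)))
    have h6 : (A.card : ℤ) ≤ ∑ j ∈ Icc 1 k, (((A3 j).card : ℤ) + (((A2 j).card : ℤ) +
        ((A1 j).card : ℤ))) := by exact_mod_cast h5
    refine h6.trans (Finset.sum_le_sum fun j hj => ?_)
    have h7 := hc3 j hj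
    have h8 := hc2 j hj
    have h9 := hc1 j hj
    linarith
  -- real numbers
  obtain ⟨u, hu⟩ : ∃ u : ℝ, u = (s : ℝ) + 1 + D := ⟨_, rfl⟩
  have hr : (A.card : ℝ) ≤ (∑ j ∈ Icc 1 k, (rho q (c + j) : ℝ)) * ((s / q + 1 : ℕ) : ℝ) ^ 3 +
      k * (3 * (D : ℝ) * u ^ 2 + (u ^ 2 + u)) := by
    have h5 : (A.card : ℝ) ≤ ∑ j ∈ Icc 1 k, ((rho q (c + j) : ℝ) * ((s / q + 1 : ℕ) : ℝ) ^ 3 +
      (3 * (D : ℝ) * ((s : ℝ) + 1 + D) ^ 2 + (((s : ℝ) + 1 + D) ^ 2 + ((s : ℝ) + 1 + D)))) := by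
      exact_mod_cast hcard
    rw [← hu] at h5
    rw [Finset.sum_add_distrib, ← Finset.sum_mul, Finset.sum_const, Nat.card_Icc,
      Nat.add_sub_cancel, nsmul_eq_mul] at h5
    exact h5
  have hsr : 10000 * (q : ℝ) * k + 100 * k + q + s0 + 1 ≤ s := by
    rw [hS0] at hsS
    exact_mod_cast hsS
  have hsX : (s : ℝ) ^ 3 ≤ X + k := by exact_mod_cast hs1
  have hqk : 0 ≤ (q : ℝ) * k := by positivity
  have hs00 : (0 : ℝ) ≤ s0 := Nat.cast_nonneg _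
  have hsq : (q : ℝ) ≤ s := by nlinarith
  have hs0' : (1 : ℝ) ≤ s := by linarith
  have hdiv : ((s / q + 1 : ℕ) : ℝ) ≤ 2 * (s / q) := by
    push_cast
    have h5 : ((s / q : ℕ) : ℝ) ≤ (s : ℝ) / q := Nat.cast_div_le
    have h6 : 1 ≤ (s : ℝ) / q := (one_le_div hq0).2 hsq
    linarith
  have hcube : ((s / q + 1 : ℕ) : ℝ) ^ 3 ≤ 8 * (X + k) / q ^ 3 := by
    calc ((s / q + 1 : ℕ) : ℝ) ^ 3 ≤ (2 * (s / q)) ^ 3 := pow_le_pow_left₀ (Nat.cast_nonneg _) hdiv 3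
      _ = 8 * s ^ 3 / q ^ 3 := by ring
      _ ≤ 8 * (X + k) / q ^ 3 := by gcongr
  have hmain : (∑ j ∈ Icc 1 k, (rho q (c + j) : ℝ)) * ((s / q + 1 : ℕ) : ℝ) ^ 3 ≤
      8 * (X + k) / (100 * q) := by
    calc (∑ j ∈ Icc 1 k, (rho q (c + j) : ℝ)) * ((s / q + 1 : ℕ) : ℝ) ^ 3
        ≤ ((q : ℝ) ^ 2 / 100) * (8 * (X + k) / q ^ 3) :=
          mul_le_mul hrho hcube (by positivity) (by positivity)
      _ = 8 * (X + k) / (100 * q) := by field_simp
  have hD0 : (0 : ℝ) ≤ D := Nat.cast_nonneg _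
  have hDs : (D : ℝ) ≤ (s : ℝ) + 1 := by nlinarith
  have hu4 : u ≤ 4 * s := by rw [hu]; linarith
  have hu1 : 1 ≤ u := by rw [hu]; linarith
  have hD2 : (D : ℝ) ≤ 2 * η * s := by nlinarith
  have hu2 : u ^ 2 ≤ 16 * s ^ 2 := by
    calc u ^ 2 ≤ (4 * s) ^ 2 := pow_le_pow_left₀ (by linarith) hu4 2
      _ = _ := by ring
  have hrest : (k : ℝ) * (3 * (D : ℝ) * u ^ 2 + (u ^ 2 + u)) ≤
      96 * (η * k) * s ^ 3 + 32 * (k * s ^ 2) := by
    have h5 : 3 * (D : ℝ) * u ^ 2 ≤ 3 * (2 * η * s) * (16 * s ^ 2) := by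
      apply mul_le_mul _ hu2 (by positivity) (by positivity)
      linarith
    have h6 : u ≤ u ^ 2 := by nlinarith
    have h7 : 3 * (D : ℝ) * u ^ 2 + (u ^ 2 + u) ≤ 96 * η * s ^ 3 + 32 * s ^ 2 := by nlinarith
    calc (k : ℝ) * (3 * (D : ℝ) * u ^ 2 + (u ^ 2 + u)) ≤ k * (96 * η * s ^ 3 + 32 * s ^ 2) :=
          mul_le_mul_of_nonneg_left h7 hk0
      _ = _ := by ring
  have hs3p : 0 ≤ (s : ℝ) ^ 3 := by positivity
  have hfin : 8 * (X + k : ℝ) + 100 * q * (96 * (η * k) * s ^ 3 + 32 * (k * s ^ 2)) ≤ 10 * X := by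
    have h5 : 3200 * ((q : ℝ) * k) * s ^ 2 ≤ (s : ℝ) ^ 3 / 2 := by
      have h6 : 6400 * ((q : ℝ) * k) ≤ s := by nlinarith
      have h7 : 0 ≤ (s : ℝ) ^ 2 := by positivity
      nlinarith [mul_le_mul_of_nonneg_right h6 h7]
    have h10 : 9600 * (η * q * k) * (s : ℝ) ^ 3 ≤ (s : ℝ) ^ 3 / 2 := by
      have h11 := mul_le_mul_of_nonneg_right hηb hs3p
      nlinarith
    have h8 : 100 * (k : ℝ) ≤ (s : ℝ) ^ 3 := by
      have h9 : (s : ℝ) ≤ s ^ 3 := le_self_pow₀ hs0' (by norm_num)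
      nlinarith
    have h12 : 100 * q * (96 * (η * k) * s ^ 3 + 32 * (k * s ^ 2)) =
        9600 * (η * q * k) * (s : ℝ) ^ 3 + 3200 * ((q : ℝ) * k) * s ^ 2 := by ring
    rw [h12]
    linarith
  have hgoal : 8 * (X + k : ℝ) / (100 * q) + (96 * (η * k) * s ^ 3 + 32 * (k * s ^ 2)) ≤ X / (10 * q) := by
    have e1 : 8 * (X + k : ℝ) / (100 * q) + (96 * (η * k) * s ^ 3 + 32 * (k * s ^ 2)) =
        (8 * (X + k : ℝ) + 100 * q * (96 * (η * k) * s ^ 3 + 32 * (k * s ^ 2))) / (100 * q) := by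
      rw [add_div, mul_div_cancel_left₀ _ (by positivity)]
    have e2 : (X : ℝ) / (10 * q) = 10 * X / (100 * q) := by
      rw [div_eq_div_iff (by positivity) (by positivity)]
      ring
    rw [e1, e2]
    exact div_le_div_of_nonneg_right hfin (by positivity)
  linarith

end Pool.Agent.H52.TC
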