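import Pool.Agent.H52.TC.Stm5

/-! TC-WINQ (helper3, adapted from helper19's WIN3 and helper10's WIN2): most windows in the class `c` are empty -/

set_option autoImplicit false

namespace Pool.Agent.H52.TC

open Finset

namespace WINQx

theorem cnt (g : ℕ → ℤ) (hg : ∀ m, 0 ≤ g m) (A B : Finset ℕ) (j : ℕ)
    (h1 : ∀ M ∈ A, 1 ≤ g (M + j)) (h2 : ∀ M ∈ A, M + j ∈ B) :
    (A.card : ℤ) ≤ ∑ m ∈ B, g m := by
  calc (A.card : ℤ) = ∑ M ∈ A, (1 : ℤ) := by simp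
    _ ≤ ∑ M ∈ A, g (M + j) := Finset.sum_le_sum h1
    _ = ∑ m ∈ A.image (fun M => M + j), g m :=
        (Finset.sum_image (fun a _ b _ h => Nat.add_right_cancel h)).symm
    _ ≤ ∑ m ∈ B, g m :=
        Finset.sum_le_sum_of_subset_of_nonneg (Finset.image_subset_iff.2 h2) (fun m _ _ => hg m)

theorem root (Y : ℕ) : ∃ s : ℕ, s ^ 4 ≤ Y ∧ Y < (s + 1) ^ 4 := by
  induction Y with
  | zero => exact ⟨0, by norm_num, by norm_num⟩
  | succ Y ih =>
    obtain ⟨s, h1, h2⟩ := ih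
    by_cases h : Y + 1 < (s + 1) ^ 4
    · exact ⟨s, by omega, h⟩
    · refine ⟨s + 1, by omega, ?_⟩
      have h3 : (s + 1) ^ 4 < (s + 1 + 1) ^ 4 := Nat.pow_lt_pow_left (Nat.lt_succ_self _) (by norm_num)
      omega

theorem memf {p : ℕ → Prop} (inst : DecidablePred p) (s : Finset ℕ) (a : ℕ)
    (h : a ∈ @Finset.filter ℕ p inst s) : a ∈ s ∧ p a := (@Finset.mem_filter ℕ p inst s a).1 h

end WINQx

open WINQx

open Classical in
theorem winQ : S_SUPQ → S_LATQ → S_WINQ := by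
  intro hS hL e C₀ hε₀ hsup a1 a2 a3 a4 q c k hq hrho
  obtain ⟨hn, -, -, -, hE2, hE3, -⟩ := hS e C₀ hε₀
  -- the indicator of the support
  obtain ⟨f, hf⟩ : ∃ f : ℕ → ℤ, f = fun m => if e m = 0 then 0 else 1 := ⟨_, rfl⟩
  have hf01 : ∀ m, 0 ≤ f m ∧ f m ≤ 1 := by
    intro m
    rw [hf]
    simp only
    split_ifs <;> norm_num
  have hfe : ∀ m, f m ≠ 0 ↔ e m ≠ 0 := by
    intro m
    rw [hf]
    simp only
    split_ifs with h <;> simp [h]
  have hfs : Sup4 f := fun m hm => hsup m ((hfe m).1 hm)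
  obtain ⟨hn', g2, g3, g4, -, -, -⟩ := hS f 1 hf01
  have h1 : ∀ m, e m ≠ 0 → 1 ≤ f m := by
    intro m hm
    have h4 := (hfe m).2 hm
    have h5 := (hf01 m).1
    omega
  have h2 : ∀ m, G2 e m ≠ 0 → 1 ≤ G2 f m := by
    intro m hm
    obtain ⟨i, j, hi, h1, h2⟩ := hE2 m hm
    have h4 := g2 i j ((hfe i).2 h1) ((hfe j).2 h2)
    rw [← hi] at h4
    have h5 := (hn' m).1
    omega
  have h3 : ∀ m, G3 e m ≠ 0 → 1 ≤ G3 f m := by
    intro m hm
    obtain ⟨i, j, hi, h1, h3⟩ := hE3 m hm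
    have h6 := h2 _ h1
    have h4 := g3 i j (by omega) ((hfe j).2 h3)
    rw [← hi] at h4
    have h5 := (hn' m).2.1
    omega
  have h4 : ∀ m, G4 e m ≠ 0 → 1 ≤ G4 f m := by
    intro m hm
    obtain ⟨ij, hij, hne⟩ := Finset.exists_ne_zero_of_sum_ne_zero hm
    have h1 := h3 _ (left_ne_zero_of_mul hne)
    have h4 := g4 ij.1 ij.2 (by omega) ((hfe ij.2).2 (right_ne_zero_of_mul hne))
    rw [Finset.HasAntidiagonal.mem_antidiagonal.1 hij] at h4
    have h5 := (hn' m).2.2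
    omega
  have hq0 : (0 : ℝ) < q := by exact_mod_cast hq
  have hq1 : (1 : ℝ) ≤ q := by exact_mod_cast hq
  have hk0 : (0 : ℝ) ≤ k := Nat.cast_nonneg k
  obtain ⟨S0, hS0⟩ : ∃ S0 : ℕ, S0 = 10000 * q * k + 100 * k + q + 1 := ⟨_, rfl⟩
  refine ⟨(S0 + 1) ^ 4, fun X hX => ?_⟩
  obtain ⟨s, hs1, hs2⟩ := root (X + k)
  have hsS : S0 ≤ s := by
    by_contra hcon
    have h5 : (s + 1) ^ 4 ≤ (S0 + 1) ^ 4 := Nat.pow_le_pow_left (by omega) 4
    omega
  obtain ⟨hL4, hL3, hL2, hL1⟩ := hL f 1 hf01 hfs s (X + k) hs2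
  suffices hA : ∀ A : Finset ℕ, (∀ M ∈ A, M ∈ range X ∧ M ≡ c [MOD q] ∧
      ∃ j ∈ Icc 1 k, FQ e a1 a2 a3 a4 (M + j) ≠ 0) → (A.card : ℝ) ≤ X / (10 * q) from
    hA _ (fun M hM => memf _ _ _ hM)
  intro A hA
  -- the four sets
  let A4 : ℕ → Finset ℕ := fun j => (range X).filter fun M => M ≡ c [MOD q] ∧
    1 ≤ G4 f (M + j)
  let A3 : ℕ → Finset ℕ := fun j => (range X).filter fun M => 1 ≤ G3 f (M + j)
  let A2 : ℕ → Finset ℕ := fun j => (range X).filter fun M => 1 ≤ G2 f (M + j)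
  let A1 : ℕ → Finset ℕ := fun j => (range X).filter fun M => 1 ≤ f (M + j)
  have hsub : A ⊆ (Icc 1 k).biUnion fun j => A4 j ∪ (A3 j ∪ (A2 j ∪ A1 j)) := by
    intro M hM
    obtain ⟨hMX, hMc, j, hj, hF⟩ := hA M hM
    refine mem_biUnion.2 ⟨j, hj, ?_⟩
    by_cases e4 : G4 e (M + j) = 0
    · by_cases e3 : G3 e (M + j) = 0
      · by_cases e2 : G2 e (M + j) = 0
        · have e1 : e (M + j) ≠ 0 := by
            intro e1
            apply hF
            unfold FQ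
            rw [e1, e2, e3, e4]
            ring
          exact mem_union_right _ (mem_union_right _ (mem_union_right _
            (mem_filter.2 ⟨hMX, h1 _ e1⟩)))
        · exact mem_union_right _ (mem_union_right _ (mem_union_left _
            (mem_filter.2 ⟨hMX, h2 _ e2⟩)))
      · exact mem_union_right _ (mem_union_left _ (mem_filter.2 ⟨hMX, h3 _ e3⟩))
    · exact mem_union_left _ (mem_filter.2 ⟨hMX, hMc, h4 _ e4⟩)
  have hc4 : ∀ j ∈ Icc 1 k,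
      ((A4 j).card : ℤ) ≤ (rhoQ q (c + j) : ℤ) * ((s / q + 1 : ℕ) : ℤ) ^ 4 := by
    intro j hj
    have h5 := cnt (G4 f) (fun m => (hn' m).2.2) (A4 j)
      ((range (X + k + 1)).filter (fun m => m ≡ c + j [MOD q])) j
      (fun M hM => (mem_filter.1 hM).2.2) (fun M hM => by
        have h6 := mem_filter.1 hM
        have h7 := mem_range.1 h6.1
        have h8 := (mem_Icc.1 hj).2
        exact mem_filter.2 ⟨mem_range.2 (by omega), Nat.ModEq.add_right j h6.2.1⟩)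
    have h6 := hL4 q (c + j) hq
    calc ((A4 j).card : ℤ) ≤ _ := h5
      _ ≤ _ := h6
      _ = (rhoQ q (c + j) : ℤ) * ((s / q + 1 : ℕ) : ℤ) ^ 4 := by ring
  have hc3 : ∀ j ∈ Icc 1 k, ((A3 j).card : ℤ) ≤ ((s : ℤ) + 1) ^ 3 := by
    intro j hj
    have h5 := (cnt (G3 f) (fun m => (hn' m).2.1) (A3 j) (range (X + k + 1)) j
      (fun M hM => (mem_filter.1 hM).2) (fun M hM => by
        have h7 := mem_range.1 (mem_filter.1 hM).1
        have h8 := (mem_Icc.1 hj).2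
        exact mem_range.2 (by omega))).trans hL3
    linarith
  have hc2 : ∀ j ∈ Icc 1 k, ((A2 j).card : ℤ) ≤ ((s : ℤ) + 1) ^ 2 := by
    intro j hj
    have h5 := (cnt (G2 f) (fun m => (hn' m).1) (A2 j) (range (X + k + 1)) j
      (fun M hM => (mem_filter.1 hM).2) (fun M hM => by
        have h7 := mem_range.1 (mem_filter.1 hM).1
        have h8 := (mem_Icc.1 hj).2
        exact mem_range.2 (by omega))).trans hL2
    linarith
  have hc1 : ∀ j ∈ Icc 1 k, ((A1 j).card : ℤ) ≤ ((s : ℤ) + 1) := by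
    intro j hj
    have h5 := (cnt f (fun m => (hf01 m).1) (A1 j) (range (X + k + 1)) j
      (fun M hM => (mem_filter.1 hM).2) (fun M hM => by
        have h7 := mem_range.1 (mem_filter.1 hM).1
        have h8 := (mem_Icc.1 hj).2
        exact mem_range.2 (by omega))).trans hL1
    linarith
  have hcard : (A.card : ℤ) ≤ ∑ j ∈ Icc 1 k, ((rhoQ q (c + j) : ℤ) * ((s / q + 1 : ℕ) : ℤ) ^ 4 +
      (((s : ℤ) + 1) ^ 3 + (((s : ℤ) + 1) ^ 2 + ((s : ℤ) + 1)))) := by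
    have h5 : A.card ≤ ∑ j ∈ Icc 1 k, ((A4 j).card + ((A3 j).card + ((A2 j).card + (A1 j).card))) :=
      (card_le_card hsub).trans (card_biUnion_le.trans (Finset.sum_le_sum fun j _ =>
        (card_union_le _ _).trans (Nat.add_le_add_left ((card_union_le _ _).trans
          (Nat.add_le_add_left (card_union_le _ _) _)) _)))
    have h6 : (A.card : ℤ) ≤ ∑ j ∈ Icc 1 k, (((A4 j).card : ℤ) + (((A3 j).card : ℤ) +
        (((A2 j).card : ℤ) + ((A1 j).card : ℤ)))) := by exact_mod_cast h5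
    refine h6.trans (Finset.sum_le_sum fun j hj => ?_)
    have h7 := hc4 j hj
    have h8 := hc3 j hj
    have h9 := hc2 j hj
    have h10 := hc1 j hj
    linarith
  -- real numbers
  have hr : (A.card : ℝ) ≤ (∑ j ∈ Icc 1 k, (rhoQ q (c + j) : ℝ)) * ((s / q + 1 : ℕ) : ℝ) ^ 4 +
      k * (((s : ℝ) + 1) ^ 3 + (((s : ℝ) + 1) ^ 2 + ((s : ℝ) + 1))) := by
    have h5 : (A.card : ℝ) ≤ ∑ j ∈ Icc 1 k, ((rhoQ q (c + j) : ℝ) * ((s / q + 1 : ℕ) : ℝ) ^ 4 +
      (((s : ℝ) + 1) ^ 3 + (((s : ℝ) + 1) ^ 2 + ((s : ℝ) + 1)))) := by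
      exact_mod_cast hcard
    rw [Finset.sum_add_distrib, ← Finset.sum_mul, Finset.sum_const, Nat.card_Icc,
      Nat.add_sub_cancel, nsmul_eq_mul] at h5
    exact h5
  have hsr : 10000 * (q : ℝ) * k + 100 * k + q + 1 ≤ s := by
    rw [hS0] at hsS
    exact_mod_cast hsS
  have hsX : (s : ℝ) ^ 4 ≤ X + k := by exact_mod_cast hs1
  have hqk : 0 ≤ (q : ℝ) * k := by positivity
  have hsq : (q : ℝ) ≤ s := by nlinarith
  have hs0' : (1 : ℝ) ≤ s := by nlinarith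
  have hdiv : ((s / q + 1 : ℕ) : ℝ) ≤ 2 * (s / q) := by
    push_cast
    have h5 : ((s / q : ℕ) : ℝ) ≤ (s : ℝ) / q := Nat.cast_div_le
    have h6 : 1 ≤ (s : ℝ) / q := (one_le_div hq0).2 hsq
    linarith
  have hcube : ((s / q + 1 : ℕ) : ℝ) ^ 4 ≤ 16 * (X + k) / q ^ 4 := by
    calc ((s / q + 1 : ℕ) : ℝ) ^ 4 ≤ (2 * (s / q)) ^ 4 := pow_le_pow_left₀ (Nat.cast_nonneg _) hdiv 4
      _ = 16 * s ^ 4 / q ^ 4 := by ring
      _ ≤ 16 * (X + k) / q ^ 4 := by gcongr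
  have hmain : (∑ j ∈ Icc 1 k, (rhoQ q (c + j) : ℝ)) * ((s / q + 1 : ℕ) : ℝ) ^ 4 ≤
      16 * (X + k) / (200 * q) := by
    calc (∑ j ∈ Icc 1 k, (rhoQ q (c + j) : ℝ)) * ((s / q + 1 : ℕ) : ℝ) ^ 4
        ≤ ((q : ℝ) ^ 3 / 200) * (16 * (X + k) / q ^ 4) :=
          mul_le_mul hrho hcube (by positivity) (by positivity)
      _ = 16 * (X + k) / (200 * q) := by field_simp
  have hrest : (k : ℝ) * (((s : ℝ) + 1) ^ 3 + (((s : ℝ) + 1) ^ 2 + ((s : ℝ) + 1))) ≤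
      24 * (k * s ^ 3) := by
    obtain ⟨u, hu⟩ : ∃ u : ℝ, u = (s : ℝ) + 1 := ⟨_, rfl⟩
    rw [← hu]
    have hu1 : 1 ≤ u := by rw [hu]; linarith
    have hu2 : u ≤ 2 * s := by rw [hu]; linarith
    have h5 : u ^ 3 ≤ 8 * s ^ 3 := by
      calc u ^ 3 ≤ (2 * s) ^ 3 := pow_le_pow_left₀ (by linarith) hu2 3
        _ = _ := by ring
    have h6 : u ≤ u ^ 3 := le_self_pow₀ hu1 (by norm_num)
    have h7 : u ^ 2 ≤ u ^ 3 := pow_le_pow_right₀ hu1 (by norm_num)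
    calc (k : ℝ) * (u ^ 3 + (u ^ 2 + u)) ≤ k * (24 * s ^ 3) :=
          mul_le_mul_of_nonneg_left (by linarith) hk0
      _ = _ := by ring
  have hfin : 16 * (X + k : ℝ) + 200 * q * (24 * (k * s ^ 3)) ≤ 20 * X := by
    have h5 : 4800 * ((q : ℝ) * k) * s ^ 3 ≤ (s : ℝ) ^ 4 / 2 := by
      have h6 : 9600 * ((q : ℝ) * k) ≤ s := by nlinarith
      have h7 : 0 ≤ (s : ℝ) ^ 3 := by positivity
      nlinarith [mul_le_mul_of_nonneg_right h6 h7]
    have h8 : 100 * (k : ℝ) ≤ (s : ℝ) ^ 4 := by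
      have h9 : (s : ℝ) ≤ s ^ 4 := le_self_pow₀ hs0' (by norm_num)
      nlinarith
    nlinarith
  have hgoal : 16 * (X + k : ℝ) / (200 * q) + 24 * (k * s ^ 3) ≤ X / (10 * q) := by
    have e1 : 16 * (X + k : ℝ) / (200 * q) + 24 * (k * s ^ 3) =
        (16 * (X + k : ℝ) + 200 * q * (24 * (k * s ^ 3))) / (200 * q) := by
      rw [add_div, mul_div_cancel_left₀ _ (by positivity)]
    have e2 : (X : ℝ) / (10 * q) = 20 * X / (200 * q) := by
      rw [div_eq_div_iff (by positivity) (by positivity)]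
      ring
    rw [e1, e2]
    exact div_le_div_of_nonneg_right hfin (by positivity)
  linarith

end Pool.Agent.H52.TC
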